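import Pool.Agent.H75C.HY.Stm

/-!
# Syntax check in polynomial time
-/

set_option autoImplicit false

namespace Pool.Agent.H87F.HYA

open Pool.Agent.NPC Pool.Agent.H75C.HY

/-- Stack entries: `none` stands for the word of a formula, `some t` for the token `t`. -/
abbrev Ent : Type := Option Tok

variable {𝔅 : Base}

/-- The stack for the arguments of a symbol of arity `k`. -/
def exk (k : ℕ) : List Ent :=
  (List.ofFn (fun i : Fin k => ([none, some (4, (i : ℕ))] : List Ent))).flatten ++ [some (5, 0)]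

/-- Search in a table. -/
def lookO : List (ℕ × List Ent) → ℕ → Option (List Ent)
  | [], _ => none
  | p :: t, n => if n = p.1 then some p.2 else lookO t n

/-- The entries which replace `none` when the token `t` is read. -/
def expF (tbl : List (ℕ × List Ent)) (t : Tok) : Option (List Ent) :=
  if t.1 ≤ 2 then some []
  else if t.1 = 3 then lookO tbl t.2
  else if t = (6, 0) ∨ t = (7, 0) then some [none, some (5, 1)]
  else if t.1 = 8 then some [none]
  else none

/-- A step for a nonempty stack. -/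
def step1 (tbl : List (ℕ × List Ent)) (e : Ent) (s : List Ent) (t : Tok) : Option (List Ent) :=
  match e with
  | none => (match expF tbl t with
    | none => none
    | some l => some (l ++ s))
  | some u => if t = u then some s else none

/-- The step. -/
def step (tbl : List (ℕ × List Ent)) (st : Option (List Ent)) (t : Tok) : Option (List Ent) :=
  match st with
  | none => none
  | some l => (match l with
    | [] => none
    | e :: s => step1 tbl e s t)

/-- The words described by a stack. -/
def Der (𝔅 : Base) : List Ent → List Tok → Prop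
  | [], w => w = []
  | none :: s, w => ∃ (φ : Form 𝔅) (w' : List Tok), NoAt φ ∧ w = pr φ ++ w' ∧ Der 𝔅 s w'
  | some t :: s, w => ∃ w', w = t :: w' ∧ Der 𝔅 s w'

theorem der_append : ∀ (s₁ s₂ : List Ent) (w : List Tok), Der 𝔅 (s₁ ++ s₂) w ↔
    ∃ w₁ w₂, w = w₁ ++ w₂ ∧ Der 𝔅 s₁ w₁ ∧ Der 𝔅 s₂ w₂
  | [], s₂, w => by
    rw [List.nil_append]
    constructor
    · exact fun h => ⟨[], w, rfl, rfl, h⟩
    · rintro ⟨w₁, w₂, rfl, h1, h2⟩
      have h3 : w₁ = [] := h1
      subst h3
      exact h2
  | none :: s₁, s₂, w => by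
    rw [List.cons_append]
    constructor
    · rintro ⟨φ, w', h1, rfl, h2⟩
      obtain ⟨w₁, w₂, rfl, h3, h4⟩ := (der_append s₁ s₂ w').1 h2
      exact ⟨pr φ ++ w₁, w₂, by rw [List.append_assoc], ⟨φ, w₁, h1, rfl, h3⟩, h4⟩
    · rintro ⟨w₁, w₂, rfl, ⟨φ, w', h1, rfl, h2⟩, h3⟩
      exact ⟨φ, w' ++ w₂, h1, by rw [List.append_assoc], (der_append s₁ s₂ _).2 ⟨w', w₂, rfl, h2, h3⟩⟩
  | some t :: s₁, s₂, w => by
    rw [List.cons_append]
    constructor
    · rintro ⟨w', rfl, h2⟩
      obtain ⟨w₁, w₂, rfl, h3, h4⟩ := (der_append s₁ s₂ w').1 h2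
      exact ⟨t :: w₁, w₂, rfl, ⟨w₁, rfl, h3⟩, h4⟩
    · rintro ⟨w₁, w₂, rfl, ⟨w', rfl, h2⟩, h3⟩
      exact ⟨w' ++ w₂, rfl, (der_append s₁ s₂ _).2 ⟨w', w₂, rfl, h2, h3⟩⟩

theorem der_args : ∀ (k : ℕ) (m : Fin k → Tok) (w : List Tok),
    Der 𝔅 (List.ofFn (fun i : Fin k => ([none, some (m i)] : List Ent))).flatten w ↔
      ∃ φ : Fin k → Form 𝔅, (∀ i, NoAt (φ i)) ∧
        w = (List.ofFn (fun i => pr (φ i) ++ [m i])).flatten
  | 0, m, w => by
    constructor
    · intro h
      have h3 : w = [] := by simpa [Der] using h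
      exact ⟨fun i => i.elim0, fun i => i.elim0, by simpa using h3⟩
    · rintro ⟨φ, -, h⟩
      simpa [Der] using h
  | k + 1, m, w => by
    rw [List.ofFn_succ, List.flatten_cons, der_append]
    constructor
    · rintro ⟨w₁, w₂, rfl, ⟨φ, w', h1, rfl, w'', rfl, h2⟩, h3⟩
      have h4 : w'' = [] := h2
      subst h4
      obtain ⟨ψ, h5, rfl⟩ := (der_args k (fun i => m i.succ) w₂).1 h3
      refine ⟨Fin.cons φ ψ, fun i => ?_, ?_⟩
      · refine Fin.cases h1 (fun j => ?_) i
        exact h5 j
      · rw [List.ofFn_succ, List.flatten_cons]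
        rfl
    · rintro ⟨φ, h1, rfl⟩
      refine ⟨pr (φ 0) ++ [m 0], _, by rw [List.ofFn_succ, List.flatten_cons],
        ⟨φ 0, [m 0], h1 0, rfl, [], rfl, rfl⟩, ?_⟩
      exact (der_args k (fun i => m i.succ) _).2 ⟨fun i => φ i.succ, fun i => h1 _, rfl⟩

theorem der_exk (k : ℕ) (s : List Ent) (w : List Tok) : Der 𝔅 (exk k ++ s) w ↔
    ∃ (φ : Fin k → Form 𝔅) (w' : List Tok), (∀ i, NoAt (φ i)) ∧ Der 𝔅 s w' ∧
      w = (List.ofFn (fun i => pr (φ i) ++ [((4, (i : ℕ)) : Tok)])).flatten ++ (5, 0) :: w' := by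
  unfold exk
  rw [List.append_assoc, der_append]
  constructor
  · rintro ⟨w₁, w₂, rfl, h1, w', rfl, h2⟩
    obtain ⟨φ, h3, rfl⟩ := (der_args k (fun i => (4, (i : ℕ))) w₁).1 h1
    exact ⟨φ, w', h3, h2, rfl⟩
  · rintro ⟨φ, w', h1, h2, rfl⟩
    exact ⟨_, _, rfl, (der_args k (fun i => (4, (i : ℕ))) _).2 ⟨φ, h1, rfl⟩, w', rfl, h2⟩

theorem pr_ne_nil (φ : Form 𝔅) : pr φ ≠ [] := by
  cases φ <;> simp [pr]

theorem der_nil (s : List Ent) : Der 𝔅 s [] ↔ s = [] := by
  match s with
  | [] => simp [Der]
  | none :: s =>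
    constructor
    · rintro ⟨φ, w', -, h, -⟩
      exact absurd (List.append_eq_nil_iff.1 h.symm).1 (pr_ne_nil φ)
    · intro h
      exact absurd h (List.cons_ne_nil _ _)
  | some t :: s =>
    constructor
    · rintro ⟨w', h, -⟩
      exact absurd h.symm (List.cons_ne_nil _ _)
    · intro h
      exact absurd h (List.cons_ne_nil _ _)

/-- The table describes the arities of the base. -/
def Good (𝔅 : Base) (tbl : List (ℕ × List Ent)) : Prop :=
  ∀ n e, lookO tbl n = some e ↔ ∃ b : 𝔅.B, 𝔅.idx b = n ∧ e = exk (𝔅.ar b)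

theorem lookO_map (l : List 𝔅.B) (n : ℕ) (e : List Ent) :
    lookO (l.map fun b => (𝔅.idx b, exk (𝔅.ar b))) n = some e ↔
      ∃ b ∈ l, 𝔅.idx b = n ∧ e = exk (𝔅.ar b) := by
  induction l with
  | nil => simp [lookO]
  | cons b l ih =>
    rw [List.map_cons, lookO]
    by_cases h : n = 𝔅.idx b
    · rw [if_pos h]
      constructor
      · intro h1
        exact ⟨b, List.mem_cons_self, h.symm, (Option.some.inj h1).symm⟩
      · rintro ⟨b', -, h1, rfl⟩
        have h2 : b' = b := 𝔅.inj (h1.trans h)
        rw [h2]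
    · rw [if_neg h, ih]
      constructor
      · rintro ⟨b', h1, h2⟩
        exact ⟨b', List.mem_cons_of_mem _ h1, h2⟩
      · rintro ⟨b', h1, h2, h3⟩
        rcases List.mem_cons.1 h1 with rfl | h1
        · exact absurd h2.symm h
        · exact ⟨b', h1, h2, h3⟩

theorem exists_good (𝔅 : Base) : ∃ tbl, Good 𝔅 tbl := by
  have := 𝔅.fin
  let _ : Fintype 𝔅.B := Fintype.ofFinite _
  refine ⟨Finset.univ.toList.map fun b => (𝔅.idx b, exk (𝔅.ar b)), fun n e => ?_⟩
  rw [lookO_map]
  simp

theorem der_none {tbl : List (ℕ × List Ent)} (ht : Good 𝔅 tbl) (s : List Ent) (t : Tok)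
    (w : List Tok) : Der 𝔅 (none :: s) (t :: w) ↔
      ∃ e, expF tbl t = some e ∧ Der 𝔅 (e ++ s) w := by
  constructor
  · rintro ⟨φ, w', h1, h2, h3⟩
    cases φ with
    | prop i =>
      simp only [pr, List.cons_append, List.nil_append, List.cons.injEq] at h2
      obtain ⟨rfl, rfl⟩ := h2
      exact ⟨[], by simp [expF], h3⟩
    | nom i =>
      simp only [pr, List.cons_append, List.nil_append, List.cons.injEq] at h2
      obtain ⟨rfl, rfl⟩ := h2
      exact ⟨[], by simp [expF], h3⟩
    | var i =>
      simp only [pr, List.cons_append, List.nil_append, List.cons.injEq] at h2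
      obtain ⟨rfl, rfl⟩ := h2
      exact ⟨[], by simp [expF], h3⟩
    | app b φ =>
      rw [pr_app, List.cons_append, List.cons.injEq, List.append_assoc] at h2
      obtain ⟨rfl, rfl⟩ := h2
      refine ⟨exk (𝔅.ar b), ?_, (der_exk _ _ _).2 ⟨φ, w', h1, h3, rfl⟩⟩
      have h4 := (ht (𝔅.idx b) _).2 ⟨b, rfl, rfl⟩
      simp [expF, h4]
    | dia φ =>
      simp only [pr, List.cons_append, List.append_assoc, List.nil_append, List.cons.injEq] at h2
      obtain ⟨rfl, rfl⟩ := h2
      exact ⟨[none, some (5, 1)], by simp [expF], φ, _, h1, rfl, w', rfl, h3⟩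
    | box φ =>
      simp only [pr, List.cons_append, List.append_assoc, List.nil_append, List.cons.injEq] at h2
      obtain ⟨rfl, rfl⟩ := h2
      exact ⟨[none, some (5, 1)], by simp [expF], φ, _, h1, rfl, w', rfl, h3⟩
    | bind x φ =>
      simp only [pr, List.cons_append, List.cons.injEq] at h2
      obtain ⟨rfl, rfl⟩ := h2
      exact ⟨[none], by simp [expF], φ, w', h1, rfl, h3⟩
    | atNom i φ => exact absurd h1 (by simp [NoAt])
    | atVar i φ => exact absurd h1 (by simp [NoAt])
  · rintro ⟨e, h1, h2⟩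
    obtain ⟨a, c⟩ := t
    unfold expF at h1
    split_ifs at h1 with c1 c2 c3 c4
    · obtain rfl := (Option.some.inj h1).symm
      have c1' : a ≤ 2 := c1
      have h4 : a = 0 ∨ a = 1 ∨ a = 2 := by omega
      rcases h4 with rfl | rfl | rfl
      · exact ⟨.prop c, w, trivial, by simp [pr], h2⟩
      · exact ⟨.nom c, w, trivial, by simp [pr], h2⟩
      · exact ⟨.var c, w, trivial, by simp [pr], h2⟩
    · obtain ⟨b, h4, rfl⟩ := (ht _ _).1 h1
      obtain ⟨φ, w', h5, h6, rfl⟩ := (der_exk _ _ _).1 h2
      refine ⟨.app b φ, w', h5, ?_, h6⟩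
      have c2' : a = 3 := c2
      have h4' : 𝔅.idx b = c := h4
      rw [pr_app, List.cons_append, List.append_assoc, c2', h4']
      rfl
    · obtain rfl := (Option.some.inj h1).symm
      obtain ⟨φ, w', h5, rfl, w'', rfl, h6⟩ := h2
      rcases c3 with h7 | h7
      · rw [h7]
        exact ⟨.dia φ, w'', h5, by simp [pr], h6⟩
      · rw [h7]
        exact ⟨.box φ, w'', h5, by simp [pr], h6⟩
    · obtain rfl := (Option.some.inj h1).symm
      obtain ⟨φ, w', h5, rfl, h6⟩ := h2
      have c4' : a = 8 := c4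
      subst c4'
      exact ⟨.bind c φ, w', h5, by simp [pr], h6⟩

theorem der_step {tbl : List (ℕ × List Ent)} (ht : Good 𝔅 tbl) (s : List Ent) (t : Tok)
    (w : List Tok) : Der 𝔅 s (t :: w) ↔ ∃ s', step tbl (some s) t = some s' ∧ Der 𝔅 s' w := by
  match s with
  | [] =>
    constructor
    · intro h
      exact absurd h (List.cons_ne_nil _ _)
    · rintro ⟨s', h, -⟩
      exact absurd h (by simp [step])
  | none :: s =>
    rw [der_none ht]
    constructor
    · rintro ⟨e, h1, h2⟩
      exact ⟨e ++ s, by simp [step, step1, h1], h2⟩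
    · rintro ⟨s', h1, h2⟩
      simp only [step, step1] at h1
      cases he : expF tbl t with
      | none => rw [he] at h1; exact absurd h1 (by simp)
      | some e =>
        rw [he] at h1
        obtain rfl := Option.some.inj h1
        exact ⟨e, rfl, h2⟩
  | some u :: s =>
    constructor
    · rintro ⟨w', h1, h2⟩
      rw [List.cons.injEq] at h1
      obtain ⟨rfl, rfl⟩ := h1
      exact ⟨s, by simp [step, step1], h2⟩
    · rintro ⟨s', h1, h2⟩
      simp only [step, step1] at h1
      split_ifs at h1 with h3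
      obtain rfl := Option.some.inj h1
      exact ⟨w, by rw [h3], h2⟩

theorem foldl_none (tbl : List (ℕ × List Ent)) : ∀ w : List Tok,
    w.foldl (step tbl) none = none
  | [] => rfl
  | _ :: w => foldl_none tbl w

theorem main {tbl : List (ℕ × List Ent)} (ht : Good 𝔅 tbl) : ∀ (w : List Tok) (s : List Ent),
    w.foldl (step tbl) (some s) = some [] ↔ Der 𝔅 s w
  | [], s => by
    rw [der_nil, List.foldl_nil, Option.some.injEq]
  | t :: w, s => by
    rw [der_step ht, List.foldl_cons]
    cases h : step tbl (some s) t with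
    | none =>
      rw [foldl_none]
      simp
    | some s' =>
      rw [main ht w s']
      simp

/-! ### Polynomial time -/

theorem poly_lookO {α : Type} [TEnc α] (tbl : List (ℕ × List Ent)) {f : α → ℕ} (hf : Poly f) :
    Poly (fun a => lookO tbl (f a)) := by
  induction tbl with
  | nil => exact NPC.Poly.const _
  | cons p t ih =>
    exact NPC.Poly.ite (NPC.Poly.decide_eq hf (NPC.Poly.const _)) (NPC.Poly.const _) ih

theorem poly_expF (tbl : List (ℕ × List Ent)) : Poly (expF tbl) := by
  unfold expF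
  have e : ∀ n : ℕ, Poly (fun t : Tok => decide (t.1 = n)) := fun n =>
    NPC.Poly.decide_eq (NPC.Poly.fst NPC.Poly.id) (NPC.Poly.const _)
  have e2 : Poly (fun t : Tok => decide (t.1 ≤ 2)) :=
    NPC.Poly.decide_le (NPC.Poly.fst NPC.Poly.id) (NPC.Poly.const _)
  have e3 : ∀ u : Tok, Poly (fun t : Tok => decide (t = u)) := fun u =>
    NPC.Poly.decide_eq NPC.Poly.id (NPC.Poly.const _)
  exact NPC.Poly.ite e2 (NPC.Poly.const _)
    (NPC.Poly.ite (e 3) (poly_lookO tbl (NPC.Poly.snd NPC.Poly.id))
    (NPC.Poly.ite (NPC.Poly.decide_or (e3 _) (e3 _)) (NPC.Poly.const _)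
    (NPC.Poly.ite (e 8) (NPC.Poly.const _) (NPC.Poly.const _))))

theorem poly_step1 (tbl : List (ℕ × List Ent)) :
    Poly (fun p : Ent × List Ent × Tok => step1 tbl p.1 p.2.1 p.2.2) := by
  have h1 : Poly (fun p : Ent × List Ent × Tok => (match expF tbl p.2.2 with
    | none => none
    | some l => some (l ++ p.2.1) : Option (List Ent))) :=
    (NPC.Poly.optCases (o := fun p : Ent × List Ent × Tok => expF tbl p.2.2) (g := fun _ => none)
      (h := fun p l => some (l ++ p.2.1))
      ((poly_expF tbl).comp (NPC.Poly.snd (NPC.Poly.snd NPC.Poly.id))) (NPC.Poly.const _)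
      (NPC.Poly.some (NPC.Poly.append (NPC.Poly.snd NPC.Poly.id)
        (NPC.Poly.fst (NPC.Poly.snd (NPC.Poly.fst NPC.Poly.id)))))).congr fun a => by
          cases expF tbl a.2.2 <;> rfl
  have h2 : Poly (fun p : (Ent × List Ent × Tok) × Tok =>
      (if p.1.2.2 = p.2 then some p.1.2.1 else none : Option (List Ent))) :=
    NPC.Poly.ite (NPC.Poly.decide_eq (NPC.Poly.snd (NPC.Poly.snd (NPC.Poly.fst NPC.Poly.id)))
      (NPC.Poly.snd NPC.Poly.id)) (NPC.Poly.some (NPC.Poly.fst (NPC.Poly.snd
        (NPC.Poly.fst NPC.Poly.id)))) (NPC.Poly.const _)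
  exact (NPC.Poly.optCases (o := fun p : Ent × List Ent × Tok => p.1)
    (h := fun p u => if p.2.2 = u then some p.2.1 else none) (NPC.Poly.fst NPC.Poly.id) h1
      h2).congr fun a => by
        obtain ⟨e, l, t⟩ := a
        cases e <;> rfl

theorem poly_step (tbl : List (ℕ × List Ent)) :
    Poly (fun p : Option (List Ent) × Tok => step tbl p.1 p.2) := by
  have h1 : Poly (fun p : (Option (List Ent) × Tok) × List Ent => (match p.2 with
    | [] => none
    | e :: s => step1 tbl e s p.1.2 : Option (List Ent))) :=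
    (NPC.Poly.listCases (l := fun p : (Option (List Ent) × Tok) × List Ent => p.2)
      (g := fun _ => none) (h := fun p e s => step1 tbl e s p.1.2)
      (NPC.Poly.snd NPC.Poly.id) (NPC.Poly.const _)
      ((poly_step1 tbl).comp (NPC.Poly.pair (NPC.Poly.fst (NPC.Poly.snd NPC.Poly.id))
        (NPC.Poly.pair (NPC.Poly.snd (NPC.Poly.snd NPC.Poly.id))
          (NPC.Poly.snd (NPC.Poly.fst (NPC.Poly.fst NPC.Poly.id))))))).congr fun a => by
            obtain ⟨p, l⟩ := a
            cases l <;> rfl
  exact (NPC.Poly.optCases (o := fun p : Option (List Ent) × Tok => p.1) (g := fun _ => none)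
    (h := fun p l => match l with
      | [] => none
      | e :: s => step1 tbl e s p.2) (NPC.Poly.fst NPC.Poly.id) (NPC.Poly.const _) h1).congr
        fun a => by
          obtain ⟨st, t⟩ := a
          cases st with
          | none => rfl
          | some l => cases l <;> rfl

/-- A bound for the size of the entries that are pushed. -/
theorem expF_bound (tbl : List (ℕ × List Ent)) : ∃ C : ℕ, ∀ t e, expF tbl t = some e →
    sz e ≤ C := by
  have h1 : ∃ C : ℕ, ∀ n e, lookO tbl n = some e → sz e ≤ C := by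
    induction tbl with
    | nil => exact ⟨0, fun n e h => absurd h (by simp [lookO])⟩
    | cons p t ih =>
      obtain ⟨C, hC⟩ := ih
      refine ⟨max C (sz p.2), fun n e h => ?_⟩
      rw [lookO] at h
      split_ifs at h with h2
      · rw [← Option.some.inj h]
        exact le_max_right _ _
      · exact (hC n e h).trans (le_max_left _ _)
  obtain ⟨C, hC⟩ := h1
  refine ⟨C + sz ([none, some (5, 1)] : List Ent) + sz ([none] : List Ent) + 1, fun t e h => ?_⟩
  unfold expF at h
  split_ifs at h with h1 h2 h3 h4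
  · rw [← Option.some.inj h]
    simp
  · have := hC _ _ h
    omega
  · rw [← Option.some.inj h]
    omega
  · rw [← Option.some.inj h]
    omega

theorem step_bound (tbl : List (ℕ × List Ent)) : ∃ C : ℕ, ∀ st t,
    sz (step tbl st t) ≤ sz st + C := by
  obtain ⟨C, hC⟩ := expF_bound tbl
  refine ⟨C, fun st t => ?_⟩
  match st with
  | none => simp [step]
  | some [] =>
    simp [step]
    omega
  | some (none :: s) =>
    simp only [step, step1]
    cases he : expF tbl t with
    | none =>
      simp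
      omega
    | some e =>
      have h1 := hC t e he
      have h2 := sz_append e s
      simp only [sz_some, sz_list_cons, sz_none]
      omega
  | some (some u :: s) =>
    simp only [step, step1]
    split_ifs
    · simp only [sz_some, sz_list_cons]
      omega
    · simp only [sz_some, sz_list_cons, sz_none]
      omega

theorem foldl_bound (tbl : List (ℕ × List Ent)) : ∃ C : ℕ, ∀ (w : List Tok) (st),
    sz (w.foldl (step tbl) st) ≤ sz st + w.length * C := by
  obtain ⟨C, hC⟩ := step_bound tbl
  refine ⟨C, fun w => ?_⟩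
  induction w with
  | nil => intro st; simp
  | cons t w ih =>
    intro st
    rw [List.foldl_cons, List.length_cons]
    have h1 := ih (step tbl st t)
    have h2 := hC st t
    have h3 : (w.length + 1) * C = w.length * C + C := by ring
    omega

theorem poly_fold (tbl : List (ℕ × List Ent)) :
    Poly (fun w : List Tok => w.foldl (step tbl) (some [none])) := by
  obtain ⟨C, hC⟩ := foldl_bound tbl
  refine NPC.Poly.foldl (l := fun w : List Tok => w) (s := fun _ => some [none])
    (F := fun _ st t => step tbl st t) NPC.Poly.id (NPC.Poly.const _)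
    ((poly_step tbl).comp (NPC.Poly.pair (NPC.Poly.fst (NPC.Poly.snd NPC.Poly.id))
      (NPC.Poly.snd (NPC.Poly.snd NPC.Poly.id))))
    (Polynomial.C (sz (some [none] : Option (List Ent))) + Polynomial.X * Polynomial.C C) ?_
  intro w k hk
  refine (hC (w.take k) _).trans ?_
  simp only [Polynomial.eval_add, Polynomial.eval_mul, Polynomial.eval_X, Polynomial.eval_C]
  have h1 : (w.take k).length ≤ sz w := by
    rw [List.length_take]
    have := length_lt_sz w
    omega
  have h2 := Nat.mul_le_mul_right C h1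
  omega

/-- PART A. -/
theorem partA : PartA := by
  intro 𝔅
  obtain ⟨tbl, ht⟩ := exists_good 𝔅
  refine ⟨fun w => decide (w.foldl (step tbl) (some [none]) = some []),
    NPC.Poly.decide_eq (poly_fold tbl) (NPC.Poly.const _), fun w => ?_⟩
  rw [decide_eq_true_iff, main ht]
  constructor
  · rintro ⟨φ, w', h1, rfl, h2⟩
    have h3 : w' = [] := h2
    subst h3
    exact ⟨φ, h1, by rw [List.append_nil]⟩
  · rintro ⟨φ, h1, rfl⟩
    exact ⟨φ, [], h1, by rw [List.append_nil], rfl⟩

end Pool.Agent.H87F.HYA
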