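import Pool.Agent.Y924.UF.Lem
import Pool.Agent.Y410.UF.Disc2
import Pool.Agent.Y686.UF.Clo

/-! # A calculus of definable sets (formulas `Fm` with parameters)

Contexts are nested pairs with their variables numbered from the right (de Bruijn). -/

set_option autoImplicit false

namespace Pool.Agent.H87F

open Function
open Pool.Agent.Y924.EL
open Pool.Agent.Y924.UF

/-- contexts: the values of the variables -/
class Ctx (K : Type) (Γ : Type) where
  val : Γ → ℕ → K

/-- one more value in front -/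
def cons {K : Type} (a : K) (w : ℕ → K) : ℕ → K
  | 0 => a
  | n + 1 => w n

@[simp] theorem cons_zero {K : Type} (a : K) (w : ℕ → K) : cons a w 0 = a := rfl
@[simp] theorem cons_succ {K : Type} (a : K) (w : ℕ → K) (n : ℕ) : cons a w (n + 1) = w n := rfl

instance ctxFun (K : Type) : Ctx K (ℕ → K) := ⟨fun v => v⟩
instance ctxUnit (K : Type) [Zero K] : Ctx K Unit := ⟨fun _ _ => 0⟩
instance ctxProd (K Γ : Type) [Ctx K Γ] : Ctx K (Γ × K) := ⟨fun q => cons q.2 (Ctx.val q.1)⟩

/-- even numbers: variables, odd numbers: parameters -/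
def mix {K : Type} (w c : ℕ → K) : ℕ → K := fun n => if n % 2 = 0 then w (n / 2) else c (n / 2)

theorem mix_even {K : Type} (w c : ℕ → K) (n : ℕ) : mix w c (2 * n) = w n := by
  unfold mix
  rw [if_pos (by omega)]
  congr 1
  omega

theorem mix_odd {K : Type} (w c : ℕ → K) (n : ℕ) : mix w c (2 * n + 1) = c n := by
  unfold mix
  rw [if_neg (by omega)]
  congr 1
  omega

section

variable {K : Type} [Field K] (P : Set K) {Γ Δ : Type} [Ctx K Γ] [Ctx K Δ]

/-- definable (with parameters) -/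
def Df (X : Γ → Prop) : Prop :=
  ∃ (φ : Fm) (c : ℕ → K), ∀ γ, X γ ↔ Sat P φ (mix (Ctx.val γ) c)

/-- definable function -/
def Ff (f : Γ → K) : Prop := Df P (fun q : Γ × K => f q.1 = q.2)

variable {P}

theorem below_all (φ : Fm) : ∃ V, Below V φ := by
  obtain ⟨V, hV⟩ := Pool.Agent.Y686.UF.t_CLO.1 φ
  exact ⟨V, hV V le_rfl⟩

theorem Df.congr {X Y : Γ → Prop} (hX : Df P X) (h : ∀ γ, Y γ ↔ X γ) : Df P Y := by
  obtain ⟨φ, c, hφ⟩ := hX
  exact ⟨φ, c, fun γ => (h γ).trans (hφ γ)⟩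

theorem Df.not {X : Γ → Prop} (hX : Df P X) : Df P fun γ => ¬ X γ := by
  obtain ⟨φ, c, hφ⟩ := hX
  exact ⟨.neg φ, c, fun γ => not_congr (hφ γ)⟩

theorem Df.and {X Y : Γ → Prop} (hX : Df P X) (hY : Df P Y) : Df P fun γ => X γ ∧ Y γ := by
  obtain ⟨φ, c, hφ⟩ := hX
  obtain ⟨ψ, d, hψ⟩ := hY
  have h1 : Injective (fun n : ℕ => if n % 2 = 0 then n else 2 * n - 1) := by
    intro i j h
    simp only at h
    split_ifs at h <;> omega
  have h2 : Injective (fun n : ℕ => if n % 2 = 0 then n else 2 * n + 1) := by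
    intro i j h
    simp only at h
    split_ifs at h <;> omega
  refine ⟨.and (ren (fun n => if n % 2 = 0 then n else 2 * n - 1) φ)
    (ren (fun n => if n % 2 = 0 then n else 2 * n + 1) ψ), mix c d, fun γ => ?_⟩
  have e1 : (mix (Ctx.val γ) (mix c d)) ∘ (fun n : ℕ => if n % 2 = 0 then n else 2 * n - 1) =
      mix (Ctx.val γ) c := by
    funext n
    simp only [comp_apply]
    by_cases hn : n % 2 = 0
    · simp only [hn, if_true, mix]
    · simp only [hn, if_false]
      obtain ⟨m, rfl⟩ : ∃ m, n = 2 * m + 1 := ⟨n / 2, by omega⟩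
      rw [show 2 * (2 * m + 1) - 1 = 2 * (2 * m) + 1 by omega, mix_odd, mix_even, mix_odd]
  have e2 : (mix (Ctx.val γ) (mix c d)) ∘ (fun n : ℕ => if n % 2 = 0 then n else 2 * n + 1) =
      mix (Ctx.val γ) d := by
    funext n
    simp only [comp_apply]
    by_cases hn : n % 2 = 0
    · simp only [hn, if_true, mix]
    · simp only [hn, if_false]
      obtain ⟨m, rfl⟩ : ∃ m, n = 2 * m + 1 := ⟨n / 2, by omega⟩
      rw [show 2 * (2 * m + 1) + 1 = 2 * (2 * m + 1) + 1 from rfl, mix_odd, mix_odd, mix_odd]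
  show X γ ∧ Y γ ↔ Sat P (ren _ φ) _ ∧ Sat P (ren _ ψ) _
  rw [Pool.Agent.Y410.UF.sat_ren P h1, Pool.Agent.Y410.UF.sat_ren P h2, e1, e2, hφ, hψ]

theorem Df.or {X Y : Γ → Prop} (hX : Df P X) (hY : Df P Y) : Df P fun γ => X γ ∨ Y γ :=
  ((hX.not.and hY.not).not).congr fun γ => by tauto

theorem Df.imp {X Y : Γ → Prop} (hX : Df P X) (hY : Df P Y) : Df P fun γ => X γ → Y γ :=
  ((hX.and hY.not).not).congr fun γ => by tauto

theorem Df.iff {X Y : Γ → Prop} (hX : Df P X) (hY : Df P Y) : Df P fun γ => (X γ ↔ Y γ) :=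
  ((hX.imp hY).and (hY.imp hX)).congr fun γ => by tauto

theorem Df.ex {X : Γ → K → Prop} (hX : Df P fun q : Γ × K => X q.1 q.2) :
    Df P fun γ => ∃ a, X γ a := by
  obtain ⟨φ, c, hφ⟩ := hX
  obtain ⟨V, hV⟩ := below_all φ
  obtain ⟨σ, hσ⟩ : ∃ σ : ℕ → ℕ, σ = fun m => if m % 2 = 1 then m else if m = 0 then 2 * V else
    if m ≤ 2 * V then m - 2 else m := ⟨_, rfl⟩
  have h1 : Injective σ := by
    intro i j h
    rw [hσ] at h
    simp only at h
    split_ifs at h <;> omega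
  refine ⟨.ex (2 * V) (ren σ φ), c, fun γ => ?_⟩
  show _ ↔ ∃ a, Sat P (ren σ φ) (update (mix (Ctx.val γ) c) (2 * V) a)
  refine exists_congr fun a => ?_
  have h2 := hφ (γ, a)
  simp only at h2
  rw [h2, Pool.Agent.Y410.UF.sat_ren P h1]
  refine sat_agree P φ hV _ _ fun i hi => ?_
  rw [hσ]
  simp only [comp_apply]
  by_cases h3 : i % 2 = 1
  · rw [if_pos h3, update_of_ne (by omega)]
    simp only [mix, h3, one_ne_zero, if_false]
  · rw [if_neg h3]
    by_cases h4 : i = 0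
    · subst h4
      rw [if_pos rfl, update_self]
      rfl
    · rw [if_neg h4, if_pos (by omega), update_of_ne (by omega)]
      obtain ⟨m, rfl⟩ : ∃ m, i = 2 * (m + 1) := ⟨i / 2 - 1, by omega⟩
      rw [mix_even, show 2 * (m + 1) - 2 = 2 * m by omega, mix_even]
      rfl

theorem Df.all {X : Γ → K → Prop} (hX : Df P fun q : Γ × K => X q.1 q.2) :
    Df P fun γ => ∀ a, X γ a :=
  (Df.ex (X := fun γ a => ¬ X γ a) hX.not).not.congr fun γ => by push Not; exact Iff.rfl

theorem Df.true : Df P fun _ : Γ => True := by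
  refine ⟨.eq 0 0, fun _ => 0, fun γ => ?_⟩
  simp [Sat]

theorem Df.false : Df P fun _ : Γ => False := Df.true.not.congr fun γ => by simp

theorem Df.cst (q : Prop) : Df P fun _ : Γ => q := by
  by_cases h : q
  · exact Df.true.congr fun γ => by simp [h]
  · exact Df.false.congr fun γ => by simp [h]

/-! ### atoms -/

theorem Df.veq (i j : ℕ) : Df P fun γ : Γ => (Ctx.val γ i : K) = Ctx.val γ j :=
  ⟨.eq (2 * i) (2 * j), fun _ => 0, fun γ => by simp [Sat, mix_even]⟩

theorem Df.vone (i : ℕ) : Df P fun γ : Γ => (Ctx.val γ i : K) = 1 :=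
  ⟨.one (2 * i), fun _ => 0, fun γ => by simp [Sat, mix_even]⟩

theorem Df.vval (i : ℕ) : Df P fun γ : Γ => (Ctx.val γ i : K) ∈ P :=
  ⟨.val (2 * i), fun _ => 0, fun γ => by simp [Sat, mix_even]⟩

theorem Df.vadd (i j k : ℕ) :
    Df P fun γ : Γ => (Ctx.val γ i : K) + Ctx.val γ j = Ctx.val γ k :=
  ⟨.add (2 * i) (2 * j) (2 * k), fun _ => 0, fun γ => by simp [Sat, mix_even]⟩

theorem Df.vmul (i j k : ℕ) :
    Df P fun γ : Γ => (Ctx.val γ i : K) * Ctx.val γ j = Ctx.val γ k :=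
  ⟨.mul (2 * i) (2 * j) (2 * k), fun _ => 0, fun γ => by simp [Sat, mix_even]⟩

theorem Ff.var (n : ℕ) : Ff P fun γ : Γ => (Ctx.val γ n : K) :=
  Df.veq (Γ := Γ × K) (n + 1) 0

theorem Ff.const (a : K) : Ff P fun _ : Γ => a :=
  ⟨.eq 1 0, fun _ => a, fun γ => by
    simp only [Sat, mix]
    exact Iff.rfl⟩

theorem Df.wk {X : Γ → Prop} (hX : Df P X) : Df P fun q : Γ × K => X q.1 := by
  obtain ⟨φ, c, hφ⟩ := hX
  have h1 : Injective (fun m : ℕ => if m % 2 = 1 then m else m + 2) := by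
    intro i j h
    simp only at h
    split_ifs at h <;> omega
  refine ⟨ren (fun m => if m % 2 = 1 then m else m + 2) φ, c, fun q => ?_⟩
  beta_reduce
  rw [hφ, Pool.Agent.Y410.UF.sat_ren P h1]
  have e : mix (Ctx.val q) c ∘ (fun m : ℕ => if m % 2 = 1 then m else m + 2) =
      mix (Ctx.val q.1) c := by
    funext m
    simp only [comp_apply]
    by_cases h3 : m % 2 = 1
    · simp only [h3, if_true, mix, one_ne_zero, if_false]
    · rw [if_neg h3]
      obtain ⟨k, rfl⟩ : ∃ k, m = 2 * k := ⟨m / 2, by omega⟩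
      rw [show 2 * k + 2 = 2 * (k + 1) by omega, mix_even, mix_even]
      rfl
  rw [e]

theorem Ff.wk {f : Γ → K} (hf : Ff P f) : Ff P fun q : Γ × K => f q.1 := by
  obtain ⟨φ, c, hφ⟩ := hf
  have h1 : Injective (fun m : ℕ => if m % 2 = 1 then m else if m = 0 then 0 else m + 2) := by
    intro i j h
    simp only at h
    split_ifs at h <;> omega
  refine ⟨ren (fun m => if m % 2 = 1 then m else if m = 0 then 0 else m + 2) φ, c, fun r => ?_⟩
  have h2 := hφ (r.1.1, r.2)
  simp only at h2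
  beta_reduce
  rw [h2, Pool.Agent.Y410.UF.sat_ren P h1]
  have e : mix (Ctx.val r) c ∘ (fun m : ℕ => if m % 2 = 1 then m else if m = 0 then 0 else m + 2) =
      mix (Ctx.val (r.1.1, r.2)) c := by
    funext m
    simp only [comp_apply]
    by_cases h3 : m % 2 = 1
    · simp only [h3, if_true, mix, one_ne_zero, if_false]
    · rw [if_neg h3]
      by_cases h4 : m = 0
      · subst h4
        rfl
      · rw [if_neg h4]
        obtain ⟨k, rfl⟩ : ∃ k, m = 2 * (k + 1) := ⟨m / 2 - 1, by omega⟩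
        rw [show 2 * (k + 1) + 2 = 2 * (k + 1 + 1) by omega, mix_even, mix_even]
        rfl
  rw [e]

theorem Df.comp {X : Γ → K → Prop} (hX : Df P fun q : Γ × K => X q.1 q.2) {f : Γ → K}
    (hf : Ff P f) : Df P fun γ => X γ (f γ) :=
  (Df.ex (X := fun γ a => f γ = a ∧ X γ a) (hf.and hX)).congr fun γ => by simp

theorem Df.eq {f g : Γ → K} (hf : Ff P f) (hg : Ff P g) : Df P fun γ => f γ = g γ :=
  Df.comp (X := fun γ a => f γ = a) hf hg

theorem Df.mem {f : Γ → K} (hf : Ff P f) : Df P fun γ => f γ ∈ P :=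
  Df.comp (X := fun _ a => a ∈ P) (Df.vval (Γ := Γ × K) 0) hf

theorem Df.one {f : Γ → K} (hf : Ff P f) : Df P fun γ => f γ = 1 :=
  Df.comp (X := fun _ a => a = 1) (Df.vone (Γ := Γ × K) 0) hf

theorem Df.addR {f g h : Γ → K} (hf : Ff P f) (hg : Ff P g) (hh : Ff P h) :
    Df P fun γ => f γ + g γ = h γ := by
  refine Df.comp (X := fun γ a => f γ + g γ = a) ?_ hh
  refine Df.comp (X := fun (q : Γ × K) b => f q.1 + b = q.2) ?_ hg.wk
  refine Df.comp (X := fun (q : (Γ × K) × K) c => c + q.2 = q.1.2) ?_ hf.wk.wk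
  exact Df.vadd (Γ := ((Γ × K) × K) × K) 0 1 2

theorem Df.mulR {f g h : Γ → K} (hf : Ff P f) (hg : Ff P g) (hh : Ff P h) :
    Df P fun γ => f γ * g γ = h γ := by
  refine Df.comp (X := fun γ a => f γ * g γ = a) ?_ hh
  refine Df.comp (X := fun (q : Γ × K) b => f q.1 * b = q.2) ?_ hg.wk
  refine Df.comp (X := fun (q : (Γ × K) × K) c => c * q.2 = q.1.2) ?_ hf.wk.wk
  exact Df.vmul (Γ := ((Γ × K) × K) × K) 0 1 2

/-- substitution in a formula -/
theorem Df.sat (φ : Fm) : ∀ {Γ : Type} [Ctx K Γ] (σ : ℕ → Γ → K), (∀ i, Ff P (σ i)) →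
    Df P fun γ => Sat P φ (fun i => σ i γ) := by
  induction φ with
  | eq i j => intro Γ _ σ hσ; exact Df.eq (hσ i) (hσ j)
  | one i => intro Γ _ σ hσ; exact Df.one (hσ i)
  | add i j k => intro Γ _ σ hσ; exact Df.addR (hσ i) (hσ j) (hσ k)
  | mul i j k => intro Γ _ σ hσ; exact Df.mulR (hσ i) (hσ j) (hσ k)
  | val i => intro Γ _ σ hσ; exact Df.mem (hσ i)
  | neg φ ih => intro Γ _ σ hσ; exact (ih σ hσ).not
  | and φ ψ ih1 ih2 => intro Γ _ σ hσ; exact (ih1 σ hσ).and (ih2 σ hσ)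
  | ex i φ ih =>
    intro Γ _ σ hσ
    refine Df.ex (X := fun γ a => Sat P φ (update (fun i => σ i γ) i a)) ?_
    have h1 := ih (Γ := Γ × K) (fun j q => if j = i then q.2 else σ j q.1) (fun j => by
      by_cases hj : j = i
      · subst hj
        simp only [if_true]
        exact Ff.var (Γ := Γ × K) 0
      · simp only [hj, if_false]
        exact (hσ j).wk)
    refine h1.congr fun q => ?_
    have e : (update (fun i => σ i q.1) i q.2) = fun j => if j = i then q.2 else σ j q.1 := by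
      funext j
      by_cases hj : j = i
      · subst hj; simp
      · simp [hj]
    rw [e]

theorem Df.pull {X : Γ → Prop} (hX : Df P X) (b : Δ → Γ)
    (hb : ∀ n, Ff P fun δ => (Ctx.val (b δ) n : K)) : Df P fun δ => X (b δ) := by
  obtain ⟨φ, c, hφ⟩ := hX
  have h1 := Df.sat (P := P) φ (Γ := Δ) (fun i δ => mix (Ctx.val (b δ)) c i) (fun i => by
    simp only [mix]
    by_cases hi : i % 2 = 0
    · simp only [hi, if_true]
      exact hb _
    · simp only [hi, if_false]
      exact Ff.const _)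
  exact h1.congr fun δ => hφ _

/-! ### closed relations -/

variable (P) in
def Df1 (R : K → Prop) : Prop := Df P fun q : Unit × K => R q.2
variable (P) in
def Df2 (R : K → K → Prop) : Prop := Df P fun q : (Unit × K) × K => R q.1.2 q.2
variable (P) in
def Df3 (R : K → K → K → Prop) : Prop :=
  Df P fun q : ((Unit × K) × K) × K => R q.1.1.2 q.1.2 q.2
variable (P) in
def Df4 (R : K → K → K → K → Prop) : Prop :=
  Df P fun q : (((Unit × K) × K) × K) × K => R q.1.1.1.2 q.1.1.2 q.1.2 q.2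
variable (P) in
def Df5 (R : K → K → K → K → K → Prop) : Prop :=
  Df P fun q : ((((Unit × K) × K) × K) × K) × K =>
    R q.1.1.1.1.2 q.1.1.1.2 q.1.1.2 q.1.2 q.2

theorem Df1.app {R : K → Prop} (h : Df1 P R) {f : Γ → K} (hf : Ff P f) :
    Df P fun γ => R (f γ) :=
  Df.pull h (fun γ => ((), f γ)) fun n => match n with
    | 0 => hf
    | _ + 1 => Ff.const 0

theorem Df2.app {R : K → K → Prop} (h : Df2 P R) {f g : Γ → K} (hf : Ff P f) (hg : Ff P g) :
    Df P fun γ => R (f γ) (g γ) :=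
  Df.pull h (fun γ => (((), f γ), g γ)) fun n => match n with
    | 0 => hg
    | 1 => hf
    | _ + 2 => Ff.const 0

theorem Df3.app {R : K → K → K → Prop} (h : Df3 P R) {f g k : Γ → K} (hf : Ff P f)
    (hg : Ff P g) (hk : Ff P k) : Df P fun γ => R (f γ) (g γ) (k γ) :=
  Df.pull h (fun γ => ((((), f γ), g γ), k γ)) fun n => match n with
    | 0 => hk
    | 1 => hg
    | 2 => hf
    | _ + 3 => Ff.const 0

theorem Df4.app {R : K → K → K → K → Prop} (h : Df4 P R) {f g k l : Γ → K} (hf : Ff P f)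
    (hg : Ff P g) (hk : Ff P k) (hl : Ff P l) : Df P fun γ => R (f γ) (g γ) (k γ) (l γ) :=
  Df.pull h (fun γ => (((((), f γ), g γ), k γ), l γ)) fun n => match n with
    | 0 => hl
    | 1 => hk
    | 2 => hg
    | 3 => hf
    | _ + 4 => Ff.const 0

theorem Df5.app {R : K → K → K → K → K → Prop} (h : Df5 P R) {f g k l m : Γ → K} (hf : Ff P f)
    (hg : Ff P g) (hk : Ff P k) (hl : Ff P l) (hm : Ff P m) :
    Df P fun γ => R (f γ) (g γ) (k γ) (l γ) (m γ) :=
  Df.pull h (fun γ => ((((((), f γ), g γ), k γ), l γ), m γ)) fun n => match n with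
    | 0 => hm
    | 1 => hl
    | 2 => hk
    | 3 => hg
    | 4 => hf
    | _ + 5 => Ff.const 0

/-! ### terms -/

theorem Ff.add {f g : Γ → K} (hf : Ff P f) (hg : Ff P g) : Ff P fun γ => f γ + g γ :=
  Df.addR hf.wk hg.wk (Ff.var (Γ := Γ × K) 0)

theorem Ff.mul {f g : Γ → K} (hf : Ff P f) (hg : Ff P g) : Ff P fun γ => f γ * g γ :=
  Df.mulR hf.wk hg.wk (Ff.var (Γ := Γ × K) 0)

theorem Ff.neg {f : Γ → K} (hf : Ff P f) : Ff P fun γ => - f γ :=
  (Ff.mul (Ff.const (-1)) hf).congr fun q => by simp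

theorem Ff.sub {f g : Γ → K} (hf : Ff P f) (hg : Ff P g) : Ff P fun γ => f γ - g γ :=
  (hf.add hg.neg).congr fun q => by simp [sub_eq_add_neg]

theorem Ff.pow {f : Γ → K} (hf : Ff P f) (n : ℕ) : Ff P fun γ => f γ ^ n := by
  induction n with
  | zero => exact (Ff.const 1).congr fun q => by simp
  | succ n ih => exact (ih.mul hf).congr fun q => by simp [pow_succ]

theorem Ff.inv {f : Γ → K} (hf : Ff P f) : Ff P fun γ => (f γ)⁻¹ := by
  have h : Df P fun q : Γ × K => (f q.1 = 0 ∧ q.2 = 0) ∨ (f q.1 * q.2 = 1) :=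
    ((Df.eq hf.wk (Ff.const 0)).and (Df.eq (Ff.var (Γ := Γ × K) 0) (Ff.const 0))).or
      (Df.mulR hf.wk (Ff.var (Γ := Γ × K) 0) (Ff.const 1))
  refine h.congr fun q => ?_
  by_cases h0 : f q.1 = 0
  · simp [h0, eq_comm]
  · constructor
    · intro h1
      right
      rw [← h1, mul_inv_cancel₀ h0]
    · rintro (⟨h1, -⟩ | h1)
      · exact absurd h1 h0
      · exact inv_eq_of_mul_eq_one_right h1

theorem Ff.div {f g : Γ → K} (hf : Ff P f) (hg : Ff P g) : Ff P fun γ => f γ / g γ :=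
  (hf.mul hg.inv).congr fun q => by simp [div_eq_mul_inv]

/-- a function whose graph is a definable relation -/
theorem Ff.of_graph {f : Γ → K} (h : Df P fun q : Γ × K => f q.1 = q.2) : Ff P f := h

end

end Pool.Agent.H87F
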