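import Pool.Agent.H87F.Series

/-! # Characteristic series of analytical sets are definable from `t` -/

set_option autoImplicit false

namespace Pool.Agent.H87F

open Function
open Pool.Agent.Y924.EL
open Pool.Agent.Y924.UF (sat_agree lam tt OO HH OT ren Below exR)
open LaurentSeries

section

variable {p : ℕ} [hp : Fact p.Prime] {P : Set (LaurentSeries (ZMod p))}

theorem f0_base (j : ℕ) : F0 P fun q : (ℕ → LaurentSeries (ZMod p)) ×
    (ℕ → LaurentSeries (ZMod p)) => q.1 j := by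
  have h := F0.var (P := P) (Γ := (ℕ → LaurentSeries (ZMod p)) × (ℕ → LaurentSeries (ZMod p)))
    (2 * j)
  have e : (fun q : (ℕ → LaurentSeries (ZMod p)) × (ℕ → LaurentSeries (ZMod p)) => q.1 j) =
      fun q => (Ctx.val q (2 * j) : LaurentSeries (ZMod p)) :=
    funext fun q => (mix_even (Ctx.val (K := LaurentSeries (ZMod p)) q.1) q.2 j).symm
  rw [e]
  exact h

theorem d0_chs (φ : ℕ → Fm) (β : Fm) (M : ℕ) : D0 P fun q : (ℕ → LaurentSeries (ZMod p)) ×
    (ℕ → LaurentSeries (ZMod p)) => Chs P φ β M (q.1 0) (q.1 1) q.2 := by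
  refine (d0_gt φ).and (D0.and ?_ ?_)
  · exact D0.ot (p + 1) (f0_base 0) (f0_base 1)
  · refine D0.all (X := fun (q : (ℕ → LaurentSeries (ZMod p)) × (ℕ → LaurentSeries (ZMod p))) y =>
      (∃ y', SS P φ q.2 y y') →
      ((L1 p (q.1 1) (q.1 0) y ↔ Sat P β (fun i => if i < M then q.2 i else y)) ∧
      ¬ (¬ L0 p (q.1 1) (q.1 0) y ∧ ¬ L1 p (q.1 1) (q.1 0) y))) ?_
    have hs : F0 P fun q : ((ℕ → LaurentSeries (ZMod p)) × (ℕ → LaurentSeries (ZMod p))) ×
        LaurentSeries (ZMod p) => q.1.1 0 := (f0_base 0).wk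
    have ht : F0 P fun q : ((ℕ → LaurentSeries (ZMod p)) × (ℕ → LaurentSeries (ZMod p))) ×
        LaurentSeries (ZMod p) => q.1.1 1 := (f0_base 1).wk
    have hy : F0 P fun q : ((ℕ → LaurentSeries (ZMod p)) × (ℕ → LaurentSeries (ZMod p))) ×
        LaurentSeries (ZMod p) => q.2 :=
      F0.var (P := P) (Γ := ((ℕ → LaurentSeries (ZMod p)) ×
        (ℕ → LaurentSeries (ZMod p))) × LaurentSeries (ZMod p)) 0
    refine D0.imp ?_ (D0.and (D0.iff (D0.l1 p ht hs hy) ?_)
      (((D0.l0 p ht hs hy).not.and (D0.l1 p ht hs hy).not).not))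
    · refine D0.ex (X := fun (q : ((ℕ → LaurentSeries (ZMod p)) ×
        (ℕ → LaurentSeries (ZMod p))) × LaurentSeries (ZMod p)) y' => SS P φ q.1.2 q.2 y') ?_
      exact D0.ss φ (a := 1) (b := 0) (g := fun i => 2 * i + 1 + 2) (fun _ => rfl)
        (fun _ => rfl) (fun q i => (mix_odd (Ctx.val (K := LaurentSeries (ZMod p)) q.1.1.1)
          q.1.1.2 i).symm)
    · refine (D0.sat (P := P) β (Γ := ((ℕ → LaurentSeries (ZMod p)) ×
        (ℕ → LaurentSeries (ZMod p))) × LaurentSeries (ZMod p))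
        (fun i => if i < M then 2 * i + 1 + 1 else 0)).congr fun q => ?_
      have e : (fun i => (Ctx.val q (if i < M then 2 * i + 1 + 1 else 0) :
          LaurentSeries (ZMod p))) = fun i => if i < M then q.1.2 i else q.2 := by
        funext i
        by_cases hi : i < M
        · rw [if_pos hi, if_pos hi]
          exact mix_odd (Ctx.val (K := LaurentSeries (ZMod p)) q.1.1) q.1.2 i
        · rw [if_neg hi, if_neg hi]
          rfl
      rw [e]

theorem asg_asg' {K : Type} (a b c x y z : K) (v : ℕ → K) :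
    asg a b c (asg x y z v) = asg a b c v := by
  funext i
  simp only [asg]
  split_ifs <;> rfl

theorem below_mono' {V W : ℕ} (h : V ≤ W) : ∀ {φ : Fm}, Below V φ → Below W φ := by
  intro φ
  induction φ with
  | eq i j => intro hb; exact ⟨hb.1.trans_le h, hb.2.trans_le h⟩
  | one i => intro hb; exact lt_of_lt_of_le hb h
  | add i j k => intro hb; exact ⟨hb.1.trans_le h, hb.2.1.trans_le h, hb.2.2.trans_le h⟩
  | mul i j k => intro hb; exact ⟨hb.1.trans_le h, hb.2.1.trans_le h, hb.2.2.trans_le h⟩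
  | val i => intro hb; exact lt_of_lt_of_le hb h
  | neg φ ih => intro hb; exact ih hb
  | and φ ψ ih1 ih2 => intro hb; exact ⟨ih1 hb.1, ih2 hb.2⟩
  | ex i φ ih => intro hb; exact ⟨hb.1.trans_le h, ih hb.2⟩

/-- formulas in structures -/
theorem exists_tr (φ : ℕ → Fm) : ∃ (θ : ℕ → Fm) (M : ℕ), 3 ≤ M ∧
    ∀ (v0 : ℕ → LaurentSeries (ZMod p)) (ν : ℕ → LaurentSeries (ZMod p)),
      Std (SS P φ v0) (SA P φ v0) (SM P φ v0) (SE P φ v0) ν → ∀ (ψ : Fm2)
      (v : ℕ → LaurentSeries (ZMod p)) (x : ℕ → ℕ) (X : ℕ → Set ℕ), (∀ i, i < M → v i = v0 i) →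
      (∀ i, v (M + 2 * i) = ν (x i)) →
      (∀ j k, SE P φ v0 (ν k) (v (M + (2 * j + 1))) ↔ k ∈ X j) →
      (Sat P (tr2 θ M ψ) v ↔ Sat2 ψ x X) := by
  obtain ⟨θ, t0, t1, t2, t3, t4⟩ := exists_theta (P := P) φ
  choose U hU using fun i => below_all (θ i)
  obtain ⟨M, hM⟩ : ∃ M, M = 3 + U 0 + U 1 + U 2 + U 3 + U 4 := ⟨_, rfl⟩
  have hθM : ∀ i, i < 5 → Below M (θ i) := by
    intro i hi
    obtain rfl | rfl | rfl | rfl | rfl : i = 0 ∨ i = 1 ∨ i = 2 ∨ i = 3 ∨ i = 4 := by omega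
    all_goals exact below_mono' (by omega) (hU _)
  refine ⟨θ, M, by omega, fun v0 ν hν ψ v x X hv hx hX => ?_⟩
  have hs : ∀ i, i < 5 → ∀ x y z (v : ℕ → LaurentSeries (ZMod p)),
      (∀ j, 3 ≤ j → j < M → v j = v0 j) →
      (Sat P (θ i) (asg x y z v) ↔ Sat P (θ i) (asg x y z v0)) := by
    intro i hi x y z v hv
    refine sat_agree P (θ i) (hθM i hi) _ _ fun j hj => ?_
    simp only [asg]
    by_cases hj3 : 3 ≤ j
    · rw [hv j hj3 hj]
    · split_ifs <;> first | rfl | omega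
  have hE : ∀ y s, Sat P (θ 3) (asg y s s v0) ↔ SE P φ v0 y s := by
    intro y s
    rw [t3]
    simp only [SE, asg_asg']
    exact Iff.rfl
  refine sat_tr2 P θ M (by omega) v0 (fun i x y z => Sat P (θ i) (asg x y z v0)) hs ν hν.inj
    ?_ ?_ ?_ ?_ ?_ ψ v x X hv (fun i _ => hx i) (fun j _ k => (hE _ _).trans (hX j k))
  · intro k
    rw [t0]
    simp only [SS, asg_asg']
    exact hν.one k
  · intro i j u
    rw [t1]
    simp only [SA, asg_asg']
    exact hν.add i j u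
  · intro i j u
    rw [t2]
    simp only [SM, asg_asg']
    exact hν.mul i j u
  · intro B
    obtain ⟨s, hs⟩ := hν.com B
    exact ⟨s, fun k => (hE _ _).trans (hs k)⟩
  · intro x
    rw [t4]
    simp only [SS, asg_asg']
    exact hν.dom x

/-- the characteristic series of an analytical set is definable from `t` -/
theorem chr_def (hT : Df1 P (isT (p := p))) {A : Set ℕ} (hA : Anl A) :
    ∃ φ : Fm, ∀ v : ℕ → LaurentSeries (ZMod p), v 1 = tt p → (Sat P φ v ↔ v 0 = chr A) := by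
  obtain ⟨α, hα⟩ := hA
  obtain ⟨φ, ⟨u0, hu0⟩, hC⟩ := exists_struct' hT
  obtain ⟨θ, M, hM, key⟩ := exists_tr (P := P) φ
  obtain ⟨χ, hχ⟩ := D0.exw (P := P) (X := fun v u : ℕ → LaurentSeries (ZMod p) =>
    Chs P φ (tr2 θ M α) M (v 0) (v 1) u) (d0_chs φ (tr2 θ M α) M)
  refine ⟨χ, fun v hv => ?_⟩
  have h1 : (∃ u, Chs P φ (tr2 θ M α) M (v 0) (v 1) u) ↔ Sat P χ v := hχ v
  rw [← h1, hv]
  have hm : ∀ u, Gt P φ (tt p) u → ∀ k : ℕ,
      (Sat P (tr2 θ M α) (fun i => if i < M then u i else tt p ^ k) ↔ k ∈ A) := by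
    intro u hu k
    rw [key u _ (hu.std hC) α (fun i => if i < M then u i else tt p ^ k) (fun _ => k)
      (fun _ => {l | SE P φ u (tt p ^ l) (tt p ^ k)}), hα]
    · intro i hi
      simp only [hi, if_true]
    · intro i
      have : ¬ (M + 2 * i < M) := by omega
      simp only [this, if_false]
    · intro j l
      have : ¬ (M + (2 * j + 1) < M) := by omega
      simp only [this, if_false]
      exact Iff.rfl
  have hdom : ∀ u, Gt P φ (tt p) u → ∀ y, (∃ y', SS P φ u y y') ↔ ∃ k, y = tt p ^ k :=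
    fun u hu => (hu.std hC).dom
  have hO : ∀ s : LaurentSeries (ZMod p), OT (p + 1) (tt p) s ↔ ∀ n : ℤ, n < 0 → s.coeff n = 0 :=
    fun s => (mem_OO_iff s).symm.trans (Pool.Agent.Y748.UF.mem_iff s)
  have hc1 : ∀ k : ℕ, (chr (p := p) A).coeff k = 1 ↔ k ∈ A := by
    intro k
    rw [← lam_div, lam_chr]
  have hc2 : ∀ k : ℕ, (chr (p := p) A).coeff k = 1 ∨ (chr (p := p) A).coeff k = 0 := by
    classical
    intro k
    unfold chr
    rw [ser_coeff]
    split_ifs
    · exact Or.inl rfl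
    · exact Or.inr rfl
  have hc3 : ∀ n : ℤ, n < 0 → (chr (p := p) A).coeff n = 0 := by
    classical
    intro n hn
    unfold chr
    exact ser_neg _ n hn
  constructor
  · rintro ⟨u, hu, h2, h3⟩
    ext n
    rcases lt_or_ge n 0 with hn | hn
    · rw [(hO _).1 h2 n hn, hc3 n hn]
    · obtain ⟨k, rfl⟩ := Int.eq_ofNat_of_zero_le hn
      obtain ⟨h4, h5⟩ := h3 (tt p ^ k) ((hdom u hu _).2 ⟨k, rfl⟩)
      rw [l1_iff, hm u hu] at h4
      rw [l0_iff, l1_iff] at h5
      rcases hc2 k with h6 | h6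
      · rw [h6]
        exact h4.2 ((hc1 k).1 h6)
      · rw [h6]
        by_contra h7
        refine h5 ⟨h7, fun h8 => ?_⟩
        have h9 := (hc1 k).2 (h4.1 h8)
        rw [h6] at h9
        exact zero_ne_one h9
  · intro h
    rw [h]
    refine ⟨u0, hu0, (hO _).2 hc3, fun y hy => ?_⟩
    obtain ⟨k, rfl⟩ := (hdom u0 hu0 y).1 hy
    rw [l0_iff, l1_iff, hm u0 hu0, hc1]
    refine ⟨Iff.rfl, ?_⟩
    rintro ⟨h6, h7⟩
    rcases hc2 k with h8 | h8
    · exact h7 ((hc1 k).1 h8)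
    · exact h6 h8

end

end Pool.Agent.H87F
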