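import Pool.Agent.H87F.Wild

/-! # Codes of relations and sequences -/

set_option autoImplicit false

namespace Pool.Agent.H87F

open Function
open Pool.Agent.Y924.EL
open Pool.Agent.Y924.UF
open LaurentSeries

theorem pair_inj (k : ℕ) : ∀ j k' j' : ℕ, 4 ^ k + 2 * 4 ^ j = 4 ^ k' + 2 * 4 ^ j' →
    k = k' ∧ j = j' := by
  have hinj : ∀ a b : ℕ, 4 ^ a = 4 ^ b → a = b := fun a b h =>
    Nat.pow_right_injective (le_refl 2 |>.trans (by norm_num)) h
  induction k with
  | zero =>
    intro j k' j' h
    cases k' with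
    | zero =>
      refine ⟨rfl, hinj _ _ ?_⟩
      omega
    | succ k' =>
      exfalso
      rw [pow_succ 4 k'] at h
      cases j with
      | zero =>
        cases j' with
        | zero => omega
        | succ j' => rw [pow_succ] at h; omega
      | succ j =>
        rw [pow_succ] at h
        cases j' with
        | zero => omega
        | succ j' => rw [pow_succ] at h; omega
  | succ k ih =>
    intro j k' j' h
    rw [pow_succ 4 k] at h
    cases k' with
    | zero =>
      exfalso
      cases j with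
      | zero =>
        cases j' with
        | zero => omega
        | succ j' => rw [pow_succ] at h; omega
      | succ j =>
        rw [pow_succ] at h
        cases j' with
        | zero => omega
        | succ j' => rw [pow_succ 4 j'] at h; omega
    | succ k' =>
      rw [pow_succ 4 k'] at h
      cases j with
      | zero =>
        cases j' with
        | zero =>
          refine ⟨congrArg _ (hinj k k' ?_), rfl⟩
          omega
        | succ j' => rw [pow_succ] at h; omega
      | succ j =>
        rw [pow_succ 4 j] at h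
        cases j' with
        | zero => omega
        | succ j' =>
          rw [pow_succ 4 j'] at h
          obtain ⟨h1, h2⟩ := ih j k' j' (by omega)
          exact ⟨congrArg _ h1, congrArg _ h2⟩

section

variable {p : ℕ} [hp : Fact p.Prime]

/-- the series with given coefficients -/
noncomputable def ser (a : ℕ → ZMod p) : (LaurentSeries (ZMod p)) :=
  ((PowerSeries.mk a : PowerSeries (ZMod p)) : LaurentSeries (ZMod p))

theorem ser_coeff (a : ℕ → ZMod p) (n : ℕ) : (ser a).coeff (n : ℤ) = a n := by
  unfold ser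
  rw [PowerSeries.coeff_coe, if_neg (by omega)]
  simp

theorem ser_neg (a : ℕ → ZMod p) (n : ℤ) (hn : n < 0) : (ser a).coeff n = 0 := by
  unfold ser
  rw [PowerSeries.coeff_coe, if_pos hn]

theorem lam_div (z : (LaurentSeries (ZMod p))) (n : ℕ) : lam p (z / tt p ^ n) = z.coeff n := by
  have e : z / tt p ^ n = Mo (-(n : ℤ)) * z := by
    rw [tt_pow, div_eq_iff (mo_ne _)]
    rw [mul_comm, ← mul_assoc, mo_mul]
    rw [add_neg_cancel, mo_zero, one_mul]
  rw [e, lam_mo, neg_neg]

/-- the digit set of a set of numbers -/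
noncomputable def chr (A : Set ℕ) : (LaurentSeries (ZMod p)) := by
  classical exact ser fun n => if n ∈ A then 1 else 0

theorem lam_chr (A : Set ℕ) (n : ℕ) : lam p (chr A / tt p ^ n) = 1 ↔ n ∈ A := by
  classical
  rw [lam_div]
  unfold chr
  rw [ser_coeff]
  split_ifs with h
  · simp [h]
  · simp [h]

/-- the monomials -/
def isT (y : (LaurentSeries (ZMod p))) : Prop := ∃ k : ℕ, y = tt p ^ k

/-- the indices -/
def isN (n : (LaurentSeries (ZMod p))) : Prop := isT n ∧ lam p (chr (Set.range fun i : ℕ => 4 ^ i) / n) = 1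

theorem isN_iff (n : (LaurentSeries (ZMod p))) : isN n ↔ ∃ i : ℕ, n = tt p ^ 4 ^ i := by
  constructor
  · rintro ⟨⟨k, rfl⟩, h⟩
    rw [lam_chr] at h
    obtain ⟨i, rfl⟩ := h
    exact ⟨i, rfl⟩
  · rintro ⟨i, rfl⟩
    exact ⟨⟨_, rfl⟩, (lam_chr _ _).2 ⟨i, rfl⟩⟩

/-- the relation between `t ^ i` and `t ^ 4 ^ i` -/
def Io (y n : (LaurentSeries (ZMod p))) : Prop := isT y ∧ isN n ∧ Dv (tt p * y) n ∧
  lam p (chr (Set.range fun i : ℕ => 4 ^ i + i) / (n * y)) = 1

theorem io_iff (y n : (LaurentSeries (ZMod p))) : Io y n ↔ ∃ i : ℕ, y = tt p ^ i ∧ n = tt p ^ 4 ^ i := by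
  constructor
  · rintro ⟨⟨a, rfl⟩, hn, h1, h2⟩
    obtain ⟨i, rfl⟩ := (isN_iff n).1 hn
    rw [← pow_succ', dv_tt] at h1
    rw [← pow_add, lam_chr] at h2
    obtain ⟨k, hk⟩ := h2
    simp only at hk
    have hk1 : k < 4 ^ k := Nat.lt_pow_self (by norm_num)
    have hki : k = i := by
      rcases lt_trichotomy k i with h | h | h
      · exfalso
        have h3 : 4 ^ (k + 1) ≤ 4 ^ i := Nat.pow_le_pow_right (by norm_num) h
        rw [pow_succ] at h3
        omega
      · exact h
      · exfalso
        have h3 : 4 ^ (i + 1) ≤ 4 ^ k := Nat.pow_le_pow_right (by norm_num) h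
        rw [pow_succ] at h3
        omega
    subst hki
    refine ⟨k, ?_, rfl⟩
    congr 1
    omega
  · rintro ⟨i, rfl, rfl⟩
    refine ⟨⟨_, rfl⟩, (isN_iff _).2 ⟨_, rfl⟩, ?_, ?_⟩
    · rw [← pow_succ', dv_tt]
      exact Nat.lt_pow_self (by norm_num)
    · rw [← pow_add, lam_chr]
      exact ⟨i, rfl⟩

/-- `b` is the value at the index `n` of the sequence of integral elements coded by `z` -/
def SqO (z n b : (LaurentSeries (ZMod p))) : Prop := b ∈ OO p ∧ ∀ y n', Io y n' → lam p (b / y - z / (n * n' ^ 2)) = 0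

theorem sqO_iff (z b : (LaurentSeries (ZMod p))) (k : ℕ) : SqO z (tt p ^ 4 ^ k) b ↔
    b ∈ OO p ∧ ∀ j : ℕ, b.coeff j = z.coeff ((4 ^ k + 2 * 4 ^ j : ℕ) : ℤ) := by
  refine and_congr Iff.rfl ?_
  constructor
  · intro h j
    have h1 := h _ _ ((io_iff _ _).2 ⟨j, rfl, rfl⟩)
    rw [← pow_mul, ← pow_add, map_sub, lam_div, lam_div, sub_eq_zero] at h1
    rw [h1]
    congr 2
    ring
  · intro h y n' hy
    obtain ⟨j, rfl, rfl⟩ := (io_iff _ _).1 hy
    rw [← pow_mul, ← pow_add, map_sub, lam_div, lam_div, sub_eq_zero, h]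
    congr 2
    ring

/-- the code of a sequence of integral elements -/
noncomputable def enc (b : ℕ → (LaurentSeries (ZMod p))) : (LaurentSeries (ZMod p)) := by
  classical exact ser fun m => if h : ∃ q : ℕ × ℕ, m = 4 ^ q.1 + 2 * 4 ^ q.2 then
    (b h.choose.1).coeff h.choose.2 else 0

theorem enc_coeff (b : ℕ → (LaurentSeries (ZMod p))) (k j : ℕ) :
    (enc b).coeff ((4 ^ k + 2 * 4 ^ j : ℕ) : ℤ) = (b k).coeff j := by
  classical
  unfold enc
  rw [ser_coeff]
  have h : ∃ q : ℕ × ℕ, 4 ^ k + 2 * 4 ^ j = 4 ^ q.1 + 2 * 4 ^ q.2 := ⟨(k, j), rfl⟩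
  rw [dif_pos h]
  obtain ⟨h1, h2⟩ := pair_inj _ _ _ _ h.choose_spec
  rw [← h1, ← h2]

theorem sqO_enc (b : ℕ → (LaurentSeries (ZMod p))) (hb : ∀ k, b k ∈ OO p) (k : ℕ) (x : (LaurentSeries (ZMod p))) :
    SqO (enc b) (tt p ^ 4 ^ k) x ↔ x = b k := by
  rw [sqO_iff]
  constructor
  · rintro ⟨h1, h2⟩
    ext n
    by_cases hn : n < 0
    · rw [(Pool.Agent.Y748.UF.mem_iff x).1 h1 n hn,
        (Pool.Agent.Y748.UF.mem_iff (b k)).1 (hb k) n hn]
    · obtain ⟨j, rfl⟩ := Int.eq_ofNat_of_zero_le (not_lt.1 hn)
      rw [h2, enc_coeff]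
  · rintro rfl
    exact ⟨hb k, fun j => (enc_coeff b k j).symm⟩

/-- `b` is the value at the index `n` of the sequence coded by `z, z'` -/
def Sq (z z' n b : (LaurentSeries (ZMod p))) : Prop := ∃ b1 b2, SqO z n b1 ∧ SqO z' n b2 ∧ b2 ≠ 0 ∧ b * b2 = b1

theorem exists_int (x : (LaurentSeries (ZMod p))) : ∃ b2 : (LaurentSeries (ZMod p)), b2 ≠ 0 ∧ b2 ∈ OO p ∧ x * b2 ∈ OO p := by
  rcases dv_total (1 : (LaurentSeries (ZMod p))) x with h | h
  · obtain ⟨z, hz, h1⟩ := h
    refine ⟨1, one_ne_zero, ?_, ?_⟩
    · rw [Pool.Agent.Y697.UF.mem_OO, map_one]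
    · rw [mul_one, ← h1, one_mul]
      exact hz
  · obtain ⟨z, hz, h1⟩ := h
    have hz0 : z ≠ 0 := by
      rintro rfl
      rw [mul_zero] at h1
      exact zero_ne_one h1
    refine ⟨z, hz0, hz, ?_⟩
    rw [h1, Pool.Agent.Y697.UF.mem_OO, map_one]

theorem exists_sq (b : ℕ → (LaurentSeries (ZMod p))) : ∃ z z' : (LaurentSeries (ZMod p)), ∀ k x, Sq z z' (tt p ^ 4 ^ k) x ↔ x = b k := by
  choose d hd0 hd1 hd2 using fun k => exists_int (b k)
  refine ⟨enc fun k => b k * d k, enc d, fun k x => ?_⟩
  constructor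
  · rintro ⟨b1, b2, h1, h2, h3, h4⟩
    rw [sqO_enc _ hd2] at h1
    rw [sqO_enc _ hd1] at h2
    subst h1 h2
    exact mul_right_cancel₀ h3 h4
  · rintro rfl
    exact ⟨_, _, (sqO_enc _ hd2 k _).2 rfl, (sqO_enc _ hd1 k _).2 rfl, hd0 k, rfl⟩

/-! ### definability -/

variable {P : Set (LaurentSeries (ZMod p))}

theorem df_isN (hT : Df1 P (isT (p := p))) : Df1 P (isN (p := p)) :=
  Df.and hT (Df.lam1 (by repeat' first | exact Ff.var 0 | exact Ff.var 1 | exact Ff.var 2 | exact Ff.var 3 | exact Ff.var 4 | exact Ff.var 5 | exact Ff.var 6 | exact Ff.var 7 | exact Ff.var 8 | exact Ff.var 9 | exact Ff.var 10 | exact Ff.const _ | with_reducible apply Ff.mul | with_reducible apply Ff.div | with_reducible apply Ff.sub | with_reducible apply Ff.add | with_reducible apply Ff.pow | with_reducible apply Ff.neg | with_reducible apply Ff.inv))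

theorem df_io (hT : Df1 P (isT (p := p))) : Df2 P (Io (p := p)) := by
  have hN := df_isN hT
  exact (hT.app (by repeat' first | exact Ff.var 0 | exact Ff.var 1 | exact Ff.var 2 | exact Ff.var 3 | exact Ff.var 4 | exact Ff.var 5 | exact Ff.var 6 | exact Ff.var 7 | exact Ff.var 8 | exact Ff.var 9 | exact Ff.var 10 | exact Ff.const _ | with_reducible apply Ff.mul | with_reducible apply Ff.div | with_reducible apply Ff.sub | with_reducible apply Ff.add | with_reducible apply Ff.pow | with_reducible apply Ff.neg | with_reducible apply Ff.inv)).and ((hN.app (by repeat' first | exact Ff.var 0 | exact Ff.var 1 | exact Ff.var 2 | exact Ff.var 3 | exact Ff.var 4 | exact Ff.var 5 | exact Ff.var 6 | exact Ff.var 7 | exact Ff.var 8 | exact Ff.var 9 | exact Ff.var 10 | exact Ff.const _ | with_reducible apply Ff.mul | with_reducible apply Ff.div | with_reducible apply Ff.sub | with_reducible apply Ff.add | with_reducible apply Ff.pow | with_reducible apply Ff.neg | with_reducible apply Ff.inv)).and ((Df.dv (by repeat' first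 | exact Ff.var 0 | exact Ff.var 1 | exact Ff.var 2 | exact Ff.var 3 | exact Ff.var 4 | exact Ff.var 5 | exact Ff.var 6 | exact Ff.var 7 | exact Ff.var 8 | exact Ff.var 9 | exact Ff.var 10 | exact Ff.const _ | with_reducible apply Ff.mul | with_reducible apply Ff.div | with_reducible apply Ff.sub | with_reducible apply Ff.add | with_reducible apply Ff.pow | with_reducible apply Ff.neg | with_reducible apply Ff.inv) (by repeat' first | exact Ff.var 0 | exact Ff.var 1 | exact Ff.var 2 | exact Ff.var 3 | exact Ff.var 4 | exact Ff.var 5 | exact Ff.var 6 | exact Ff.var 7 | exact Ff.var 8 | exact Ff.var 9 | exact Ff.var 10 | exact Ff.const _ | with_reducible apply Ff.mul | with_reducible apply Ff.div | with_reducible apply Ff.sub | with_reducible apply Ff.add | with_reducible apply Ff.pow | with_reducible apply Ff.neg | with_reducible apply Ff.inv)).and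
    (Df.lam1 (by repeat' first | exact Ff.var 0 | exact Ff.var 1 | exact Ff.var 2 | exact Ff.var 3 | exact Ff.var 4 | exact Ff.var 5 | exact Ff.var 6 | exact Ff.var 7 | exact Ff.var 8 | exact Ff.var 9 | exact Ff.var 10 | exact Ff.const _ | with_reducible apply Ff.mul | with_reducible apply Ff.div | with_reducible apply Ff.sub | with_reducible apply Ff.add | with_reducible apply Ff.pow | with_reducible apply Ff.neg | with_reducible apply Ff.inv))))

theorem df_sqO (hT : Df1 P (isT (p := p))) : Df3 P (SqO (p := p)) := by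
  have hI := df_io hT
  refine Df.and (Df.inO (by repeat' first | exact Ff.var 0 | exact Ff.var 1 | exact Ff.var 2 | exact Ff.var 3 | exact Ff.var 4 | exact Ff.var 5 | exact Ff.var 6 | exact Ff.var 7 | exact Ff.var 8 | exact Ff.var 9 | exact Ff.var 10 | exact Ff.const _ | with_reducible apply Ff.mul | with_reducible apply Ff.div | with_reducible apply Ff.sub | with_reducible apply Ff.add | with_reducible apply Ff.pow | with_reducible apply Ff.neg | with_reducible apply Ff.inv)) ?_
  refine Df.all (X := fun (q : ((Unit × (LaurentSeries (ZMod p))) × (LaurentSeries (ZMod p))) × (LaurentSeries (ZMod p))) y =>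
    ∀ n', Io y n' → lam p (q.2 / y - q.1.1.2 / (q.1.2 * n' ^ 2)) = 0) ?_
  refine Df.all (X := fun (q : (((Unit × (LaurentSeries (ZMod p))) × (LaurentSeries (ZMod p))) × (LaurentSeries (ZMod p))) × (LaurentSeries (ZMod p))) n' =>
    Io q.2 n' → lam p (q.1.2 / q.2 - q.1.1.1.2 / (q.1.1.2 * n' ^ 2)) = 0) ?_
  exact (hI.app (by repeat' first | exact Ff.var 0 | exact Ff.var 1 | exact Ff.var 2 | exact Ff.var 3 | exact Ff.var 4 | exact Ff.var 5 | exact Ff.var 6 | exact Ff.var 7 | exact Ff.var 8 | exact Ff.var 9 | exact Ff.var 10 | exact Ff.const _ | with_reducible apply Ff.mul | with_reducible apply Ff.div | with_reducible apply Ff.sub | with_reducible apply Ff.add | with_reducible apply Ff.pow | with_reducible apply Ff.neg | with_reducible apply Ff.inv) (by repeat' first | exact Ff.var 0 | exact Ff.var 1 | exact Ff.var 2 | exact Ff.var 3 | exact Ff.var 4 | exact Ff.var 5 | exact Ff.var 6 | exact Ff.var 7 | exact Ff.var 8 | exact Ff.var 9 | exact Ff.var 10 | exact Ff.const _ | with_reducible apply Ff.mul | with_reducible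 apply Ff.div | with_reducible apply Ff.sub | with_reducible apply Ff.add | with_reducible apply Ff.pow | with_reducible apply Ff.neg | with_reducible apply Ff.inv)).imp (Df.lam0 (by repeat' first | exact Ff.var 0 | exact Ff.var 1 | exact Ff.var 2 | exact Ff.var 3 | exact Ff.var 4 | exact Ff.var 5 | exact Ff.var 6 | exact Ff.var 7 | exact Ff.var 8 | exact Ff.var 9 | exact Ff.var 10 | exact Ff.const _ | with_reducible apply Ff.mul | with_reducible apply Ff.div | with_reducible apply Ff.sub | with_reducible apply Ff.add | with_reducible apply Ff.pow | with_reducible apply Ff.neg | with_reducible apply Ff.inv))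

theorem df_sq (hT : Df1 P (isT (p := p))) : Df4 P (Sq (p := p)) := by
  have hO := df_sqO hT
  refine Df.ex (X := fun (q : (((Unit × (LaurentSeries (ZMod p))) × (LaurentSeries (ZMod p))) × (LaurentSeries (ZMod p))) × (LaurentSeries (ZMod p))) b1 => ∃ b2,
    SqO q.1.1.1.2 q.1.2 b1 ∧ SqO q.1.1.2 q.1.2 b2 ∧ b2 ≠ 0 ∧ q.2 * b2 = b1) ?_
  refine Df.ex (X := fun (q : ((((Unit × (LaurentSeries (ZMod p))) × (LaurentSeries (ZMod p))) × (LaurentSeries (ZMod p))) × (LaurentSeries (ZMod p))) × (LaurentSeries (ZMod p))) b2 =>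
    SqO q.1.1.1.1.2 q.1.1.2 q.2 ∧ SqO q.1.1.1.2 q.1.1.2 b2 ∧ b2 ≠ 0 ∧ q.1.2 * b2 = q.2) ?_
  exact (hO.app (by repeat' first | exact Ff.var 0 | exact Ff.var 1 | exact Ff.var 2 | exact Ff.var 3 | exact Ff.var 4 | exact Ff.var 5 | exact Ff.var 6 | exact Ff.var 7 | exact Ff.var 8 | exact Ff.var 9 | exact Ff.var 10 | exact Ff.const _ | with_reducible apply Ff.mul | with_reducible apply Ff.div | with_reducible apply Ff.sub | with_reducible apply Ff.add | with_reducible apply Ff.pow | with_reducible apply Ff.neg | with_reducible apply Ff.inv) (by repeat' first | exact Ff.var 0 | exact Ff.var 1 | exact Ff.var 2 | exact Ff.var 3 | exact Ff.var 4 | exact Ff.var 5 | exact Ff.var 6 | exact Ff.var 7 | exact Ff.var 8 | exact Ff.var 9 | exact Ff.var 10 | exact Ff.const _ | with_reducible apply Ff.mul | with_reducible apply Ff.div | with_reducible apply Ff.sub | with_reducible apply Ff.add | with_reducible apply Ff.pow | with_reducible apply Ff.neg | with_reducible apply Ff.inv) (by repeat' first | exact Ff.var 0 | exact Ff.var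 1 | exact Ff.var 2 | exact Ff.var 3 | exact Ff.var 4 | exact Ff.var 5 | exact Ff.var 6 | exact Ff.var 7 | exact Ff.var 8 | exact Ff.var 9 | exact Ff.var 10 | exact Ff.const _ | with_reducible apply Ff.mul | with_reducible apply Ff.div | with_reducible apply Ff.sub | with_reducible apply Ff.add | with_reducible apply Ff.pow | with_reducible apply Ff.neg | with_reducible apply Ff.inv)).and ((hO.app (by repeat' first | exact Ff.var 0 | exact Ff.var 1 | exact Ff.var 2 | exact Ff.var 3 | exact Ff.var 4 | exact Ff.var 5 | exact Ff.var 6 | exact Ff.var 7 | exact Ff.var 8 | exact Ff.var 9 | exact Ff.var 10 | exact Ff.const _ | with_reducible apply Ff.mul | with_reducible apply Ff.div | with_reducible apply Ff.sub | with_reducible apply Ff.add | with_reducible apply Ff.pow | with_reducible apply Ff.neg | with_reducible apply Ff.inv) (by repeat' first | exact Ff.var 0 | exact Ff.var 1 | exact Ff.var 2 | exact Ff.var 3 | exact Ff.var 4 | exact Ff.var 5 | exact Ff.var 6 | exact Ff.var 7 | exact Ff.var 8 | exact Ff.var 9 | exact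 Ff.var 10 | exact Ff.const _ | with_reducible apply Ff.mul | with_reducible apply Ff.div | with_reducible apply Ff.sub | with_reducible apply Ff.add | with_reducible apply Ff.pow | with_reducible apply Ff.neg | with_reducible apply Ff.inv) (by repeat' first | exact Ff.var 0 | exact Ff.var 1 | exact Ff.var 2 | exact Ff.var 3 | exact Ff.var 4 | exact Ff.var 5 | exact Ff.var 6 | exact Ff.var 7 | exact Ff.var 8 | exact Ff.var 9 | exact Ff.var 10 | exact Ff.const _ | with_reducible apply Ff.mul | with_reducible apply Ff.div | with_reducible apply Ff.sub | with_reducible apply Ff.add | with_reducible apply Ff.pow | with_reducible apply Ff.neg | with_reducible apply Ff.inv)).and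
    ((Df.eq (by repeat' first | exact Ff.var 0 | exact Ff.var 1 | exact Ff.var 2 | exact Ff.var 3 | exact Ff.var 4 | exact Ff.var 5 | exact Ff.var 6 | exact Ff.var 7 | exact Ff.var 8 | exact Ff.var 9 | exact Ff.var 10 | exact Ff.const _ | with_reducible apply Ff.mul | with_reducible apply Ff.div | with_reducible apply Ff.sub | with_reducible apply Ff.add | with_reducible apply Ff.pow | with_reducible apply Ff.neg | with_reducible apply Ff.inv) (by repeat' first | exact Ff.var 0 | exact Ff.var 1 | exact Ff.var 2 | exact Ff.var 3 | exact Ff.var 4 | exact Ff.var 5 | exact Ff.var 6 | exact Ff.var 7 | exact Ff.var 8 | exact Ff.var 9 | exact Ff.var 10 | exact Ff.const _ | with_reducible apply Ff.mul | with_reducible apply Ff.div | with_reducible apply Ff.sub | with_reducible apply Ff.add | with_reducible apply Ff.pow | with_reducible apply Ff.neg | with_reducible apply Ff.inv)).not.and (Df.eq (by repeat' first | exact Ff.var 0 | exact Ff.var 1 | exact Ff.var 2 | exact Ff.var 3 | exact Ff.var 4 | exact Ff.var 5 | exact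 Ff.var 6 | exact Ff.var 7 | exact Ff.var 8 | exact Ff.var 9 | exact Ff.var 10 | exact Ff.const _ | with_reducible apply Ff.mul | with_reducible apply Ff.div | with_reducible apply Ff.sub | with_reducible apply Ff.add | with_reducible apply Ff.pow | with_reducible apply Ff.neg | with_reducible apply Ff.inv) (by repeat' first | exact Ff.var 0 | exact Ff.var 1 | exact Ff.var 2 | exact Ff.var 3 | exact Ff.var 4 | exact Ff.var 5 | exact Ff.var 6 | exact Ff.var 7 | exact Ff.var 8 | exact Ff.var 9 | exact Ff.var 10 | exact Ff.const _ | with_reducible apply Ff.mul | with_reducible apply Ff.div | with_reducible apply Ff.sub | with_reducible apply Ff.add | with_reducible apply Ff.pow | with_reducible apply Ff.neg | with_reducible apply Ff.inv))))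

end

end Pool.Agent.H87F
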