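import Pool.Agent.H87F.Pow

/-! # The monomials `t ^ k` from a family with arbitrarily large finite sets -/

set_option autoImplicit false

namespace Pool.Agent.H87F

open Function
open Pool.Agent.Y924.UF
open WithZero LaurentSeries

variable {p : ℕ} [hp : Fact p.Prime]

theorem coeff_pow_pow (m : ℕ) : ∀ (w : LaurentSeries (ZMod p)) (n : ℤ),
    (w ^ p ^ m).coeff n = if ((p ^ m : ℕ) : ℤ) ∣ n then w.coeff (n / ((p ^ m : ℕ) : ℤ)) else 0 := by
  have hp0 : (p : ℤ) ≠ 0 := by exact_mod_cast hp.out.ne_zero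
  induction m with
  | zero => intro w n; simp
  | succ m ih =>
    intro w n
    rw [pow_succ, pow_mul, Pool.Agent.Y15.UF.coeff_pow]
    by_cases h1 : (p : ℤ) ∣ n
    · rw [if_pos h1, ih]
      obtain ⟨k, rfl⟩ := h1
      rw [Int.mul_ediv_cancel_left _ hp0]
      have e : ((p ^ m * p : ℕ) : ℤ) = p * (p ^ m : ℕ) := by push_cast; ring
      rw [e]
      by_cases h2 : ((p ^ m : ℕ) : ℤ) ∣ k
      · rw [if_pos h2, if_pos (mul_dvd_mul_left _ h2), Int.mul_ediv_mul_of_pos]
        exact_mod_cast hp.out.pos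
      · rw [if_neg h2, if_neg]
        intro h3
        exact h2 ((mul_dvd_mul_iff_left hp0).1 h3)
    · rw [if_neg h1, if_neg]
      intro h3
      apply h1
      refine dvd_trans ?_ h3
      push_cast
      exact Dvd.intro_left _ rfl

/-- monomials -/
noncomputable def Mo (e : ℤ) : LaurentSeries (ZMod p) := HahnSeries.single e (1 : ZMod p)

theorem mo_mul (a b : ℤ) : (Mo a : LaurentSeries (ZMod p)) * Mo b = Mo (a + b) := by
  unfold Mo
  rw [HahnSeries.single_mul_single, one_mul]

theorem tt_pow (n : ℕ) : tt p ^ n = Mo n := by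
  unfold Mo tt
  rw [HahnSeries.single_pow]
  simp

theorem mo_zero : (Mo 0 : LaurentSeries (ZMod p)) = 1 := rfl

theorem mo_ne (e : ℤ) : (Mo e : LaurentSeries (ZMod p)) ≠ 0 :=
  HahnSeries.single_ne_zero one_ne_zero

theorem mo_div (a b : ℤ) : (Mo a : LaurentSeries (ZMod p)) / Mo b = Mo (a - b) := by
  rw [div_eq_iff (mo_ne b), mo_mul]
  congr 1
  ring

theorem lam_mo (e : ℤ) (w : LaurentSeries (ZMod p)) : lam p (Mo e * w) = w.coeff (-e) := by
  show (Mo e * w).coeff 0 = _
  unfold Mo
  rw [HahnSeries.coeff_single_mul, one_mul, zero_sub]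

theorem lam_term (m a b : ℕ) (ha : a < p ^ m) (hb : b < p ^ m) (w : LaurentSeries (ZMod p)) :
    lam p (tt p ^ a / tt p ^ b * w ^ p ^ m) = if a = b then lam p w else 0 := by
  rw [tt_pow, tt_pow, mo_div, lam_mo, coeff_pow_pow]
  by_cases h : a = b
  · subst h
    simp only [sub_self, neg_zero, dvd_zero, if_true, Int.zero_ediv]
    rfl
  · rw [if_neg h, if_neg]
    intro h1
    obtain ⟨k, hk⟩ := h1
    have hq : (0 : ℤ) < ((p ^ m : ℕ) : ℤ) := by exact_mod_cast pow_pos hp.out.pos m
    have ha' : (a : ℤ) < ((p ^ m : ℕ) : ℤ) := by exact_mod_cast ha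
    have hb' : (b : ℤ) < ((p ^ m : ℕ) : ℤ) := by exact_mod_cast hb
    have hk0 : k = 0 := by
      by_contra hk0
      rcases lt_or_gt_of_ne hk0 with h2 | h2
      · have h3 : k ≤ -1 := by omega
        nlinarith
      · have h3 : 1 ≤ k := by omega
        nlinarith
    rw [hk0, mul_zero] at hk
    apply h
    omega

theorem v_pos_tt : (0 : (WithZero (Multiplicative ℤ))) < Valued.v (tt p) := zero_lt_iff.2 ((Valuation.ne_zero_iff _).2 tt_ne)

theorem dv_tt (a b : ℕ) : Dv (tt p ^ a) (tt p ^ b) ↔ a ≤ b := by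
  rw [dv_iff, map_pow, map_pow, pow_le_pow_iff_right_of_lt_one₀ v_pos_tt v_tt_lt]

theorem tt_inj {a b : ℕ} (h : tt p ^ a = tt p ^ b) : a = b := by
  apply le_antisymm
  · rw [← dv_tt (p := p), h]
    exact dv_refl _
  · rw [← dv_tt (p := p), h]
    exact dv_refl _

/-! ### the finite group generated by a finite set -/

/-- the double annihilator -/
def VS (S : Set (LaurentSeries (ZMod p))) : Set (LaurentSeries (ZMod p)) :=
  {y | ∀ x, (∀ a, a ∈ S → lam p (x * a) = 0) → lam p (x * y) = 0}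

theorem vs_fin {S : Set (LaurentSeries (ZMod p))} (hS : S.Finite) :
    ∃ V : Finset (LaurentSeries (ZMod p)), (V : Set (LaurentSeries (ZMod p))) = VS S ∧
      0 ∈ V ∧ (∀ a ∈ V, ∀ b ∈ V, a - b ∈ V) ∧ (∃ m, V.card = p ^ m) ∧ S.ncard ≤ V.card := by
  classical
  set W : Submodule (ZMod p) (LaurentSeries (ZMod p)) := Submodule.span (ZMod p) S with hW
  have : Module.Finite (ZMod p) W := Module.Finite.span_of_finite (ZMod p) hS
  have : Finite W := Module.finite_of_finite (ZMod p)
  have hWf : (W : Set (LaurentSeries (ZMod p))).Finite := Set.toFinite _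
  have hVS : (W : Set (LaurentSeries (ZMod p))) = VS S := by
    ext y
    constructor
    · intro hy x hx
      have hy' : y ∈ Submodule.span (ZMod p) S := hy
      induction hy' using Submodule.span_induction with
      | mem a ha => exact hx a ha
      | zero => rw [mul_zero, map_zero]
      | add a b _ _ h1 h2 => rw [mul_add, map_add, h1 ‹_›, h2 ‹_›, add_zero]
      | smul c a _ h => rw [mul_smul_comm, lam_smul, h ‹_›, mul_zero]
    · intro hy
      by_contra hn
      obtain ⟨b, hbS, hbspan, hbind⟩ := exists_linearIndependent (ZMod p) S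
      have hbf : b.Finite := hS.subset hbS
      have : Fintype b := hbf.fintype
      have hyn : y ∉ Submodule.span (ZMod p) b := by rw [hbspan]; exact hn
      have hind2 : LinearIndependent (ZMod p)
          (fun o : Option b => Option.elim o y (fun i : b => (i : LaurentSeries (ZMod p)))) := by
        rw [linearIndependent_option]
        refine ⟨hbind, ?_⟩
        have e : Set.range ((fun o : Option b => Option.elim o y
            (fun i : b => (i : LaurentSeries (ZMod p)))) ∘ some) = b := Subtype.range_coe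
        rw [e]
        exact hyn
      obtain ⟨s, hs⟩ := exists_dual
        (fun o : Option b => Option.elim o y (fun i : b => (i : LaurentSeries (ZMod p))))
        (fun d hd h => by
          rw [Fintype.linearIndependent_iff] at hind2
          apply hd
          funext o
          exact hind2 d h o)
        (fun o => Option.elim o 1 (fun _ => 0))
      have h1 : lam p (s * y) = 1 := hs none
      have h2 : ∀ a ∈ b, lam p (s * a) = 0 := fun a ha => hs (some ⟨a, ha⟩)
      have h3 : ∀ a ∈ Submodule.span (ZMod p) b, lam p (s * a) = 0 := by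
        intro a ha
        induction ha using Submodule.span_induction with
        | mem a ha => exact h2 a ha
        | zero => rw [mul_zero, map_zero]
        | add a b _ _ h1 h2 => rw [mul_add, map_add, h1, h2, add_zero]
        | smul c a _ h => rw [mul_smul_comm, lam_smul, h, mul_zero]
      have h4 := hy s fun a ha => h3 a (by rw [hbspan]; exact Submodule.subset_span ha)
      rw [h4] at h1
      exact zero_ne_one h1
  refine ⟨hWf.toFinset, by rw [Set.Finite.coe_toFinset, hVS], ?_, ?_, ?_, ?_⟩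
  · rw [Set.Finite.mem_toFinset]
    exact W.zero_mem
  · intro a ha b hb
    rw [Set.Finite.mem_toFinset] at *
    exact W.sub_mem ha hb
  · have : Fintype W := Fintype.ofFinite W
    refine ⟨Module.finrank (ZMod p) W, ?_⟩
    have h1 : Fintype.card W = Fintype.card (ZMod p) ^ Module.finrank (ZMod p) W :=
      Module.card_eq_pow_finrank
    rw [ZMod.card] at h1
    rw [← h1, ← Nat.card_eq_fintype_card, ← Set.ncard_eq_toFinset_card _ hWf,
      ← Nat.card_coe_set_eq]
    rfl
  · rw [← Set.ncard_eq_toFinset_card _ hWf]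
    exact Set.ncard_le_ncard Submodule.subset_span hWf

/-! ### the monomials -/

/-- the `q`-th root of the component of `w` in the `q`-th powers is `b` -/
def C0 (V : Set (LaurentSeries (ZMod p))) (w b : LaurentSeries (ZMod p)) : Prop :=
  ∀ x x', x ≠ 0 → Pw V x x' → lam p (w * x' - b * x) = 0

section family

variable (S : LaurentSeries (ZMod p) → Set (LaurentSeries (ZMod p)))

/-- the `t ^ |V|` -/
def DD (d : LaurentSeries (ZMod p)) : Prop := ∃ z, (S z).Finite ∧ Pw (VS (S z)) (tt p) d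

/-- the numbers `|V|` -/
def QS : Set ℕ := {q | ∃ z, (S z).Finite ∧ (VS (S z)).ncard = q}

/-- the monomials -/
def TT (y : LaurentSeries (ZMod p)) : Prop := ∃ z0 z tq, (S z0).Finite ∧
  Pw (VS (S z0)) (tt p) tq ∧
  (∀ d, DD S d → Dv (tt p * d) tq → (∀ d', DD S d' → Dv d d') → C0 (VS (S z0)) (z / d) 1) ∧
  (∀ d d', DD S d → DD S d' → Dv (tt p * d') tq → Dv (tt p * d) d' →
    (∀ d'', DD S d'' → Dv (tt p * d) d'' → ¬ Dv (tt p * d'') d') →
    ∀ b, C0 (VS (S z0)) (z / d) b → C0 (VS (S z0)) (z / d') (tt p * b)) ∧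
  ∃ d, DD S d ∧ Dv (tt p * d) tq ∧ C0 (VS (S z0)) (z / d) y

variable {S}

theorem pw_vs {z x y : LaurentSeries (ZMod p)} (hz : (S z).Finite) (hx : x ≠ 0) :
    Pw (VS (S z)) x y ↔ y = x ^ (VS (S z)).ncard := by
  obtain ⟨V, hV, h0, hs, -, -⟩ := vs_fin hz
  rw [← hV, pw_iff V h0 hs hx, Set.ncard_coe_finset]

theorem ncard_vs {z : LaurentSeries (ZMod p)} (hz : (S z).Finite) :
    ∃ m, (VS (S z)).ncard = p ^ m := by
  obtain ⟨V, hV, -, -, hm, -⟩ := vs_fin hz
  rw [← hV, Set.ncard_coe_finset]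
  exact hm

theorem ncard_vs_le {z : LaurentSeries (ZMod p)} (hz : (S z).Finite) :
    (S z).ncard ≤ (VS (S z)).ncard := by
  obtain ⟨V, hV, -, -, -, hm⟩ := vs_fin hz
  rw [← hV, Set.ncard_coe_finset]
  exact hm

theorem dd_iff (d : LaurentSeries (ZMod p)) : DD S d ↔ ∃ q ∈ QS S, d = tt p ^ q := by
  constructor
  · rintro ⟨z, hz, h⟩
    rw [pw_vs hz tt_ne] at h
    exact ⟨_, ⟨z, hz, rfl⟩, h⟩
  · rintro ⟨q, ⟨z, hz, rfl⟩, h⟩
    exact ⟨z, hz, (pw_vs hz tt_ne).2 h⟩

theorem qs_infinite (hS : ∀ N : ℕ, ∃ z, (S z).Finite ∧ N < (S z).ncard) : (QS S).Infinite := by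
  refine Set.infinite_of_forall_exists_gt fun N => ?_
  obtain ⟨z, hz, hN⟩ := hS N
  exact ⟨_, ⟨z, hz, rfl⟩, hN.trans_le (ncard_vs_le hz)⟩

theorem c0_iff {z w b : LaurentSeries (ZMod p)} (hz : (S z).Finite) :
    C0 (VS (S z)) w b ↔ ∀ x, lam p (w * x ^ (VS (S z)).ncard) = lam p (b * x) := by
  obtain ⟨m, hm⟩ := ncard_vs hz
  have hq : (VS (S z)).ncard ≠ 0 := by
    rw [hm]
    exact pow_ne_zero _ hp.out.ne_zero
  constructor
  · intro h x
    by_cases hx : x = 0
    · rw [hx, zero_pow hq, mul_zero, mul_zero]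
    · have h1 := h x _ hx ((pw_vs hz hx).2 rfl)
      rw [map_sub, sub_eq_zero] at h1
      exact h1
  · intro h x x' hx hx'
    rw [pw_vs hz hx] at hx'
    rw [hx', map_sub, h x, sub_self]

theorem c0_unique {z w b b' : LaurentSeries (ZMod p)} (hz : (S z).Finite)
    (h : C0 (VS (S z)) w b) (h' : C0 (VS (S z)) w b') : b = b' := by
  rw [c0_iff hz] at h h'
  refine eq_of_lam fun s => ?_
  rw [mul_comm s, mul_comm s, ← h, ← h']

theorem tt_iff (hS : ∀ N : ℕ, ∃ z, (S z).Finite ∧ N < (S z).ncard)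
    (y : LaurentSeries (ZMod p)) : TT S y ↔ ∃ k : ℕ, y = tt p ^ k := by
  classical
  have hinf := qs_infinite hS
  obtain ⟨e, hedef⟩ : ∃ e : ℕ → ℕ, e = Nat.nth (fun q => q ∈ QS S) := ⟨_, rfl⟩
  have hmono : StrictMono e := by
    rw [hedef]
    exact Nat.nth_strictMono hinf
  have hmem : ∀ k, e k ∈ QS S := by
    intro k
    rw [hedef]
    exact Nat.nth_mem_of_infinite hinf k
  have hsur : ∀ q ∈ QS S, ∃ k, q = e k := by
    intro q hq
    refine ⟨Nat.count (fun q => q ∈ QS S) q, ?_⟩
    rw [hedef, Nat.nth_count hq]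
  have hDe : ∀ k, DD S (tt p ^ e k) := fun k => (dd_iff _).2 ⟨_, hmem k, rfl⟩
  have hDe' : ∀ d, DD S d → ∃ k, d = tt p ^ e k := by
    intro d hd
    obtain ⟨q, hq, rfl⟩ := (dd_iff _).1 hd
    obtain ⟨k, rfl⟩ := hsur q hq
    exact ⟨k, rfl⟩
  constructor
  · rintro ⟨z0, z, tq, hz0, htq, h1, h2, d, hd, hdq, hy⟩
    rw [pw_vs hz0 tt_ne] at htq
    subst htq
    obtain ⟨k, rfl⟩ := hDe' d hd
    have hlt : ∀ k, Dv (tt p * tt p ^ e k) (tt p ^ (VS (S z0)).ncard) ↔
        e k < (VS (S z0)).ncard := by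
      intro k
      rw [← pow_succ', dv_tt]
      exact Iff.rfl
    have key : ∀ j, e j < (VS (S z0)).ncard → C0 (VS (S z0)) (z / tt p ^ e j) (tt p ^ j) := by
      intro j
      induction j with
      | zero =>
        intro hj
        rw [pow_zero]
        refine h1 _ (hDe 0) ((hlt 0).2 hj) fun d' hd' => ?_
        obtain ⟨i, rfl⟩ := hDe' d' hd'
        rw [dv_tt]
        exact hmono.monotone (Nat.zero_le i)
      | succ j ih =>
        intro hj
        rw [pow_succ']
        refine h2 _ _ (hDe j) (hDe (j + 1)) ((hlt _).2 hj) ?_ ?_ _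
          (ih ((hmono (Nat.lt_succ_self j)).trans hj))
        · rw [← pow_succ', dv_tt]
          exact hmono (Nat.lt_succ_self j)
        · intro d'' hd'' h3 h4
          obtain ⟨i, rfl⟩ := hDe' d'' hd''
          rw [← pow_succ', dv_tt] at h3 h4
          have h5 : j < i := hmono.lt_iff_lt.1 h3
          have h6 : i < j + 1 := hmono.lt_iff_lt.1 h4
          omega
    refine ⟨k, c0_unique hz0 hy (key k ((hlt k).1 hdq))⟩
  · rintro ⟨k, rfl⟩
    obtain ⟨z0, hz0, hN⟩ := hS (e k)
    have hN' := hN.trans_le (ncard_vs_le hz0)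
    obtain ⟨m, hm⟩ := ncard_vs hz0
    obtain ⟨q, hq⟩ : ∃ q, q = (VS (S z0)).ncard := ⟨_, rfl⟩
    rw [← hq] at hN' hm
    obtain ⟨n, hn⟩ : ∃ n, ∀ j, e j < q ↔ j < n := by
      have h3 : ∃ n, q ≤ e n := ⟨q, hmono.le_apply⟩
      refine ⟨Nat.find h3, fun j => ?_⟩
      constructor
      · intro h
        by_contra hj
        exact absurd (h.trans_le (Nat.find_spec h3)) (not_lt.2 (hmono.monotone (not_lt.1 hj)))
      · intro h
        exact not_le.1 (Nat.find_min h3 h)
    have hc : ∀ i, e i < q → C0 (VS (S z0))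
        ((∑ j ∈ Finset.range n, tt p ^ e j * (tt p ^ j) ^ q) / tt p ^ e i) (tt p ^ i) := by
      intro i hi
      rw [c0_iff hz0, ← hq]
      intro x
      have e1 : (∑ j ∈ Finset.range n, tt p ^ e j * (tt p ^ j) ^ q) / tt p ^ e i * x ^ q =
          ∑ j ∈ Finset.range n, tt p ^ e j / tt p ^ e i * (tt p ^ j * x) ^ p ^ m := by
        rw [Finset.sum_div, Finset.sum_mul]
        refine Finset.sum_congr rfl fun j _ => ?_
        rw [← hm, mul_pow]
        ring
      rw [e1, map_sum, Finset.sum_eq_single i]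
      · rw [lam_term m _ _ (by rw [← hm]; exact hi) (by rw [← hm]; exact hi), if_pos rfl]
      · intro j hj hji
        rw [lam_term m _ _ (by rw [← hm]; exact (hn j).2 (Finset.mem_range.1 hj))
          (by rw [← hm]; exact hi), if_neg fun h => hji (hmono.injective h)]
      · intro h
        exact absurd (Finset.mem_range.2 ((hn i).1 hi)) h
    have hlt : ∀ k, Dv (tt p * tt p ^ e k) (tt p ^ q) ↔ e k < q := by
      intro k
      rw [← pow_succ', dv_tt]
      exact Iff.rfl
    refine ⟨z0, ∑ j ∈ Finset.range n, tt p ^ e j * (tt p ^ j) ^ q, tt p ^ q, hz0,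
      (pw_vs hz0 tt_ne).2 (by rw [hq]), ?_, ?_, tt p ^ e k, hDe k, (hlt k).2 hN', hc k hN'⟩
    · intro d hd h1 h2
      obtain ⟨i, rfl⟩ := hDe' d hd
      have hi0 : i = 0 := by
        have h3 := h2 _ (hDe 0)
        rw [dv_tt] at h3
        by_contra hne
        exact absurd (hmono (Nat.pos_of_ne_zero hne)) (not_lt.2 h3)
      subst hi0
      have := hc 0 ((hlt 0).1 h1)
      rwa [pow_zero] at this
    · intro d d' hd hd' h1 h2 h3 b hb
      obtain ⟨i, rfl⟩ := hDe' d hd
      obtain ⟨i', rfl⟩ := hDe' d' hd'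
      rw [hlt] at h1
      rw [← pow_succ', dv_tt] at h2
      have h4 : i < i' := hmono.lt_iff_lt.1 h2
      have h5 : i' = i + 1 := by
        by_contra hne
        refine h3 _ (hDe (i + 1)) ?_ ?_
        · rw [← pow_succ', dv_tt]
          exact hmono (Nat.lt_succ_self i)
        · rw [← pow_succ', dv_tt]
          exact hmono (by omega)
      subst h5
      have h6 := c0_unique hz0 hb (hc i ((hmono (Nat.lt_succ_self i)).trans h1))
      rw [h6, ← pow_succ']
      exact hc (i + 1) h1

end family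

end Pool.Agent.H87F
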