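import Pool.Agent.H87F.Calc
import Pool.Agent.H87F.Mono
import Pool.Agent.N606.FP.Dual
import Pool.Agent.Y748.UF.Val
import Pool.Agent.Y675.UF.Root
import Pool.Agent.Y606.UF.Fin

/-! # The monomials are definable if a definable family has arbitrarily large finite sets -/

set_option autoImplicit false

namespace Pool.Agent.H87F

open Function
open Pool.Agent.Y924.EL
open Pool.Agent.Y924.UF
open LaurentSeries


section base

variable {p : ℕ} [hp : Fact p.Prime] {P : Set (LaurentSeries (ZMod p))} {Γ : Type}
  [Ctx (LaurentSeries (ZMod p)) Γ]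

theorem Df.exK (k : ℕ) : ∀ {Γ : Type} [Ctx (LaurentSeries (ZMod p)) Γ]
    {f : Γ → LaurentSeries (ZMod p)}, Ff P f → Df P fun γ => Ex (tt p) p k (f γ) := by
  induction k with
  | zero =>
    intro Γ _ f hf
    exact (Df.eq hf (Ff.const 0)).congr fun γ => Iff.rfl
  | succ k ih =>
    intro Γ _ f hf
    show Df P fun γ => ∃ w y', Ex (tt p) p k y' ∧ w ^ p + tt p * y' = f γ
    refine Df.ex (X := fun γ w => ∃ y', Ex (tt p) p k y' ∧ w ^ p + tt p * y' = f γ) ?_
    refine Df.ex (X := fun (q : Γ × LaurentSeries (ZMod p)) y' =>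
      Ex (tt p) p k y' ∧ q.2 ^ p + tt p * y' = f q.1) ?_
    exact (ih (by repeat' first | exact Ff.var 0 | exact Ff.var 1 | exact Ff.var 2 | exact Ff.var 3 | exact Ff.var 4 | exact Ff.var 5 | exact Ff.var 6 | exact Ff.var 7 | exact Ff.var 8 | exact Ff.var 9 | exact Ff.var 10 | exact Ff.const _ | with_reducible apply Ff.mul | with_reducible apply Ff.div | with_reducible apply Ff.sub | with_reducible apply Ff.add | with_reducible apply Ff.pow | with_reducible apply Ff.neg | with_reducible apply Ff.inv)).and (Df.eq (by repeat' first | exact Ff.var 0 | exact Ff.var 1 | exact Ff.var 2 | exact Ff.var 3 | exact Ff.var 4 | exact Ff.var 5 | exact Ff.var 6 | exact Ff.var 7 | exact Ff.var 8 | exact Ff.var 9 | exact Ff.var 10 | exact Ff.const _ | with_reducible apply Ff.mul | with_reducible apply Ff.div | with_reducible apply Ff.sub | with_reducible apply Ff.add | with_reducible apply Ff.pow | with_reducible apply Ff.neg | with_reducible apply Ff.inv) hf.wk.wk)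

theorem Df.lam0 {f : Γ → LaurentSeries (ZMod p)} (hf : Ff P f) :
    Df P fun γ => lam p (f γ) = 0 := by
  have h : Df P fun γ => ∃ w y', Ex (tt p) p (p - 1) y' ∧ w ^ p + tt p * y' = f γ + w := by
    refine Df.ex (X := fun γ w => ∃ y', Ex (tt p) p (p - 1) y' ∧ w ^ p + tt p * y' = f γ + w) ?_
    refine Df.ex (X := fun (q : Γ × LaurentSeries (ZMod p)) y' =>
      Ex (tt p) p (p - 1) y' ∧ q.2 ^ p + tt p * y' = f q.1 + q.2) ?_
    exact (Df.exK _ (by repeat' first | exact Ff.var 0 | exact Ff.var 1 | exact Ff.var 2 | exact Ff.var 3 | exact Ff.var 4 | exact Ff.var 5 | exact Ff.var 6 | exact Ff.var 7 | exact Ff.var 8 | exact Ff.var 9 | exact Ff.var 10 | exact Ff.const _ | with_reducible apply Ff.mul | with_reducible apply Ff.div | with_reducible apply Ff.sub | with_reducible apply Ff.add | with_reducible apply Ff.pow | with_reducible apply Ff.neg | with_reducible apply Ff.inv)).and (Df.eq (by repeat' first | exact Ff.var 0 | exact Ff.var 1 | exact Ff.var 2 | exact Ff.var 3 | exact Ff.var 4 | exact Ff.var 5 | exact Ff.var 6 | exact Ff.var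 7 | exact Ff.var 8 | exact Ff.var 9 | exact Ff.var 10 | exact Ff.const _ | with_reducible apply Ff.mul | with_reducible apply Ff.div | with_reducible apply Ff.sub | with_reducible apply Ff.add | with_reducible apply Ff.pow | with_reducible apply Ff.neg | with_reducible apply Ff.inv) (hf.wk.wk.add (by repeat' first | exact Ff.var 0 | exact Ff.var 1 | exact Ff.var 2 | exact Ff.var 3 | exact Ff.var 4 | exact Ff.var 5 | exact Ff.var 6 | exact Ff.var 7 | exact Ff.var 8 | exact Ff.var 9 | exact Ff.var 10 | exact Ff.const _ | with_reducible apply Ff.mul | with_reducible apply Ff.div | with_reducible apply Ff.sub | with_reducible apply Ff.add | with_reducible apply Ff.pow | with_reducible apply Ff.neg | with_reducible apply Ff.inv)))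
  exact h.congr fun γ => (Pool.Agent.Y15.UF.t_RES p (f γ)).symm

theorem lam_one : lam p (1 : LaurentSeries (ZMod p)) = 1 := by
  show (1 : LaurentSeries (ZMod p)).coeff 0 = 1
  simp

theorem Df.lam1 {f : Γ → LaurentSeries (ZMod p)} (hf : Ff P f) :
    Df P fun γ => lam p (f γ) = 1 :=
  (Df.lam0 (hf.sub (Ff.const 1))).congr fun γ => by rw [map_sub, lam_one, sub_eq_zero]

theorem mem_OO_iff (z : LaurentSeries (ZMod p)) : z ∈ OO p ↔ OT (p + 1) (tt p) z :=
  ((Pool.Agent.Y748.UF.t_VAL Pool.Agent.Y675.UF.t_ROOT) p).1 z

theorem Df.inO {f : Γ → LaurentSeries (ZMod p)} (hf : Ff P f) :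
    Df P fun γ => f γ ∈ OO p := by
  have h : Df P fun γ => ∃ y, y ^ (p + 1) = 1 + tt p * f γ ^ (p + 1) := by
    refine Df.ex (X := fun γ y => y ^ (p + 1) = 1 + tt p * f γ ^ (p + 1)) ?_
    exact Df.eq (by repeat' first | exact Ff.var 0 | exact Ff.var 1 | exact Ff.var 2 | exact Ff.var 3 | exact Ff.var 4 | exact Ff.var 5 | exact Ff.var 6 | exact Ff.var 7 | exact Ff.var 8 | exact Ff.var 9 | exact Ff.var 10 | exact Ff.const _ | with_reducible apply Ff.mul | with_reducible apply Ff.div | with_reducible apply Ff.sub | with_reducible apply Ff.add | with_reducible apply Ff.pow | with_reducible apply Ff.neg | with_reducible apply Ff.inv) ((Ff.const 1).add ((Ff.const _).mul (hf.wk.pow _)))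
  exact h.congr fun γ => mem_OO_iff _

theorem Df.dv {f g : Γ → LaurentSeries (ZMod p)} (hf : Ff P f) (hg : Ff P g) :
    Df P fun γ => Dv (f γ) (g γ) := by
  show Df P fun γ => ∃ z, z ∈ OO p ∧ f γ * z = g γ
  refine Df.ex (X := fun γ z => z ∈ OO p ∧ f γ * z = g γ) ?_
  exact (Df.inO (by repeat' first | exact Ff.var 0 | exact Ff.var 1 | exact Ff.var 2 | exact Ff.var 3 | exact Ff.var 4 | exact Ff.var 5 | exact Ff.var 6 | exact Ff.var 7 | exact Ff.var 8 | exact Ff.var 9 | exact Ff.var 10 | exact Ff.const _ | with_reducible apply Ff.mul | with_reducible apply Ff.div | with_reducible apply Ff.sub | with_reducible apply Ff.add | with_reducible apply Ff.pow | with_reducible apply Ff.neg | with_reducible apply Ff.inv)).and (Df.eq (hf.wk.mul (by repeat' first | exact Ff.var 0 | exact Ff.var 1 | exact Ff.var 2 | exact Ff.var 3 | exact Ff.var 4 | exact Ff.var 5 | exact Ff.var 6 | exact Ff.var 7 | exact Ff.var 8 | exact Ff.var 9 | exact Ff.var 10 | exact Ff.const _ | with_reducible apply Ff.mul | with_reducible apply Ff.div | with_reducible apply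 Ff.sub | with_reducible apply Ff.add | with_reducible apply Ff.pow | with_reducible apply Ff.neg | with_reducible apply Ff.inv)) hg.wk)

/-- a family of sets -/
abbrev Fam (p : ℕ) := LaurentSeries (ZMod p) → Set (LaurentSeries (ZMod p))

/-- finiteness of the sets of a definable family -/
theorem Df1.fin {Y : Fam p} (hY : Df2 P fun z x => x ∈ Y z) : Df1 P fun z => (Y z).Finite := by
  have h : Df1 P fun z => ∃ b c : (LaurentSeries (ZMod p)), b ≠ 0 ∧ c ≠ 0 ∧
    (∀ x, x ∈ Y z → ∃ w, w ∈ OO p ∧ c * w = x) ∧
    ∀ x y, x ∈ Y z → y ∈ Y z → (∃ w y', w ∈ OO p ∧ b * w = y' ∧ y' + y = x) → x = y := by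
    refine Df.ex (X := fun (q : Unit × (LaurentSeries (ZMod p))) b => ∃ c : (LaurentSeries (ZMod p)), b ≠ 0 ∧ c ≠ 0 ∧
      (∀ x, x ∈ Y q.2 → ∃ w, w ∈ OO p ∧ c * w = x) ∧
      ∀ x y, x ∈ Y q.2 → y ∈ Y q.2 → (∃ w y', w ∈ OO p ∧ b * w = y' ∧ y' + y = x) → x = y) ?_
    refine Df.ex (X := fun (q : (Unit × (LaurentSeries (ZMod p))) × (LaurentSeries (ZMod p))) c => q.2 ≠ 0 ∧ c ≠ 0 ∧
      (∀ x, x ∈ Y q.1.2 → ∃ w, w ∈ OO p ∧ c * w = x) ∧
      ∀ x y, x ∈ Y q.1.2 → y ∈ Y q.1.2 →
        (∃ w y', w ∈ OO p ∧ q.2 * w = y' ∧ y' + y = x) → x = y) ?_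
    refine (Df.eq (by repeat' first | exact Ff.var 0 | exact Ff.var 1 | exact Ff.var 2 | exact Ff.var 3 | exact Ff.var 4 | exact Ff.var 5 | exact Ff.var 6 | exact Ff.var 7 | exact Ff.var 8 | exact Ff.var 9 | exact Ff.var 10 | exact Ff.const _ | with_reducible apply Ff.mul | with_reducible apply Ff.div | with_reducible apply Ff.sub | with_reducible apply Ff.add | with_reducible apply Ff.pow | with_reducible apply Ff.neg | with_reducible apply Ff.inv) (Ff.const 0)).not.and ((Df.eq (by repeat' first | exact Ff.var 0 | exact Ff.var 1 | exact Ff.var 2 | exact Ff.var 3 | exact Ff.var 4 | exact Ff.var 5 | exact Ff.var 6 | exact Ff.var 7 | exact Ff.var 8 | exact Ff.var 9 | exact Ff.var 10 | exact Ff.const _ | with_reducible apply Ff.mul | with_reducible apply Ff.div | with_reducible apply Ff.sub | with_reducible apply Ff.add | with_reducible apply Ff.pow | with_reducible apply Ff.neg | with_reducible apply Ff.inv) (Ff.const 0)).not.and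
      (Df.and ?_ ?_))
    · refine Df.all (X := fun (q : ((Unit × (LaurentSeries (ZMod p))) × (LaurentSeries (ZMod p))) × (LaurentSeries (ZMod p))) x =>
        x ∈ Y q.1.1.2 → ∃ w, w ∈ OO p ∧ q.2 * w = x) ?_
      exact (hY.app (by repeat' first | exact Ff.var 0 | exact Ff.var 1 | exact Ff.var 2 | exact Ff.var 3 | exact Ff.var 4 | exact Ff.var 5 | exact Ff.var 6 | exact Ff.var 7 | exact Ff.var 8 | exact Ff.var 9 | exact Ff.var 10 | exact Ff.const _ | with_reducible apply Ff.mul | with_reducible apply Ff.div | with_reducible apply Ff.sub | with_reducible apply Ff.add | with_reducible apply Ff.pow | with_reducible apply Ff.neg | with_reducible apply Ff.inv) (by repeat' first | exact Ff.var 0 | exact Ff.var 1 | exact Ff.var 2 | exact Ff.var 3 | exact Ff.var 4 | exact Ff.var 5 | exact Ff.var 6 | exact Ff.var 7 | exact Ff.var 8 | exact Ff.var 9 | exact Ff.var 10 | exact Ff.const _ | with_reducible apply Ff.mul | with_reducible apply Ff.div | with_reducible apply Ff.sub | with_reducible apply Ff.add | with_reducible apply Ff.pow | with_reducible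 apply Ff.neg | with_reducible apply Ff.inv)).imp (Df.dv (by repeat' first | exact Ff.var 0 | exact Ff.var 1 | exact Ff.var 2 | exact Ff.var 3 | exact Ff.var 4 | exact Ff.var 5 | exact Ff.var 6 | exact Ff.var 7 | exact Ff.var 8 | exact Ff.var 9 | exact Ff.var 10 | exact Ff.const _ | with_reducible apply Ff.mul | with_reducible apply Ff.div | with_reducible apply Ff.sub | with_reducible apply Ff.add | with_reducible apply Ff.pow | with_reducible apply Ff.neg | with_reducible apply Ff.inv) (by repeat' first | exact Ff.var 0 | exact Ff.var 1 | exact Ff.var 2 | exact Ff.var 3 | exact Ff.var 4 | exact Ff.var 5 | exact Ff.var 6 | exact Ff.var 7 | exact Ff.var 8 | exact Ff.var 9 | exact Ff.var 10 | exact Ff.const _ | with_reducible apply Ff.mul | with_reducible apply Ff.div | with_reducible apply Ff.sub | with_reducible apply Ff.add | with_reducible apply Ff.pow | with_reducible apply Ff.neg | with_reducible apply Ff.inv))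
    · refine Df.all (X := fun (q : ((Unit × (LaurentSeries (ZMod p))) × (LaurentSeries (ZMod p))) × (LaurentSeries (ZMod p))) x =>
        ∀ y, x ∈ Y q.1.1.2 → y ∈ Y q.1.1.2 →
          (∃ w y', w ∈ OO p ∧ q.1.2 * w = y' ∧ y' + y = x) → x = y) ?_
      refine Df.all (X := fun (q : (((Unit × (LaurentSeries (ZMod p))) × (LaurentSeries (ZMod p))) × (LaurentSeries (ZMod p))) × (LaurentSeries (ZMod p))) y =>
        q.2 ∈ Y q.1.1.1.2 → y ∈ Y q.1.1.1.2 →
          (∃ w y', w ∈ OO p ∧ q.1.1.2 * w = y' ∧ y' + y = q.2) → q.2 = y) ?_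
      refine (hY.app (by repeat' first | exact Ff.var 0 | exact Ff.var 1 | exact Ff.var 2 | exact Ff.var 3 | exact Ff.var 4 | exact Ff.var 5 | exact Ff.var 6 | exact Ff.var 7 | exact Ff.var 8 | exact Ff.var 9 | exact Ff.var 10 | exact Ff.const _ | with_reducible apply Ff.mul | with_reducible apply Ff.div | with_reducible apply Ff.sub | with_reducible apply Ff.add | with_reducible apply Ff.pow | with_reducible apply Ff.neg | with_reducible apply Ff.inv) (by repeat' first | exact Ff.var 0 | exact Ff.var 1 | exact Ff.var 2 | exact Ff.var 3 | exact Ff.var 4 | exact Ff.var 5 | exact Ff.var 6 | exact Ff.var 7 | exact Ff.var 8 | exact Ff.var 9 | exact Ff.var 10 | exact Ff.const _ | with_reducible apply Ff.mul | with_reducible apply Ff.div | with_reducible apply Ff.sub | with_reducible apply Ff.add | with_reducible apply Ff.pow | with_reducible apply Ff.neg | with_reducible apply Ff.inv)).imp ((hY.app (by repeat' first | exact Ff.var 0 | exact Ff.var 1 | exact Ff.var 2 | exact Ff.var 3 | exact Ff.var 4 | exact Ff.var 5 | exact Ff.var 6 | exact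 Ff.var 7 | exact Ff.var 8 | exact Ff.var 9 | exact Ff.var 10 | exact Ff.const _ | with_reducible apply Ff.mul | with_reducible apply Ff.div | with_reducible apply Ff.sub | with_reducible apply Ff.add | with_reducible apply Ff.pow | with_reducible apply Ff.neg | with_reducible apply Ff.inv) (by repeat' first | exact Ff.var 0 | exact Ff.var 1 | exact Ff.var 2 | exact Ff.var 3 | exact Ff.var 4 | exact Ff.var 5 | exact Ff.var 6 | exact Ff.var 7 | exact Ff.var 8 | exact Ff.var 9 | exact Ff.var 10 | exact Ff.const _ | with_reducible apply Ff.mul | with_reducible apply Ff.div | with_reducible apply Ff.sub | with_reducible apply Ff.add | with_reducible apply Ff.pow | with_reducible apply Ff.neg | with_reducible apply Ff.inv)).imp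
        (Df.imp ?_ (Df.eq (by repeat' first | exact Ff.var 0 | exact Ff.var 1 | exact Ff.var 2 | exact Ff.var 3 | exact Ff.var 4 | exact Ff.var 5 | exact Ff.var 6 | exact Ff.var 7 | exact Ff.var 8 | exact Ff.var 9 | exact Ff.var 10 | exact Ff.const _ | with_reducible apply Ff.mul | with_reducible apply Ff.div | with_reducible apply Ff.sub | with_reducible apply Ff.add | with_reducible apply Ff.pow | with_reducible apply Ff.neg | with_reducible apply Ff.inv) (by repeat' first | exact Ff.var 0 | exact Ff.var 1 | exact Ff.var 2 | exact Ff.var 3 | exact Ff.var 4 | exact Ff.var 5 | exact Ff.var 6 | exact Ff.var 7 | exact Ff.var 8 | exact Ff.var 9 | exact Ff.var 10 | exact Ff.const _ | with_reducible apply Ff.mul | with_reducible apply Ff.div | with_reducible apply Ff.sub | with_reducible apply Ff.add | with_reducible apply Ff.pow | with_reducible apply Ff.neg | with_reducible apply Ff.inv))))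
      refine Df.ex (X := fun (q : ((((Unit × (LaurentSeries (ZMod p))) × (LaurentSeries (ZMod p))) × (LaurentSeries (ZMod p))) × (LaurentSeries (ZMod p))) × (LaurentSeries (ZMod p))) w =>
        ∃ y', w ∈ OO p ∧ q.1.1.1.2 * w = y' ∧ y' + q.2 = q.1.2) ?_
      refine Df.ex (X := fun (q : (((((Unit × (LaurentSeries (ZMod p))) × (LaurentSeries (ZMod p))) × (LaurentSeries (ZMod p))) × (LaurentSeries (ZMod p))) × (LaurentSeries (ZMod p))) × (LaurentSeries (ZMod p))) y' =>
        q.2 ∈ OO p ∧ q.1.1.1.1.2 * q.2 = y' ∧ y' + q.1.2 = q.1.1.2) ?_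
      exact (Df.inO (by repeat' first | exact Ff.var 0 | exact Ff.var 1 | exact Ff.var 2 | exact Ff.var 3 | exact Ff.var 4 | exact Ff.var 5 | exact Ff.var 6 | exact Ff.var 7 | exact Ff.var 8 | exact Ff.var 9 | exact Ff.var 10 | exact Ff.const _ | with_reducible apply Ff.mul | with_reducible apply Ff.div | with_reducible apply Ff.sub | with_reducible apply Ff.add | with_reducible apply Ff.pow | with_reducible apply Ff.neg | with_reducible apply Ff.inv)).and ((Df.eq (by repeat' first | exact Ff.var 0 | exact Ff.var 1 | exact Ff.var 2 | exact Ff.var 3 | exact Ff.var 4 | exact Ff.var 5 | exact Ff.var 6 | exact Ff.var 7 | exact Ff.var 8 | exact Ff.var 9 | exact Ff.var 10 | exact Ff.const _ | with_reducible apply Ff.mul | with_reducible apply Ff.div | with_reducible apply Ff.sub | with_reducible apply Ff.add | with_reducible apply Ff.pow | with_reducible apply Ff.neg | with_reducible apply Ff.inv) (by repeat' first | exact Ff.var 0 | exact Ff.var 1 | exact Ff.var 2 | exact Ff.var 3 | exact Ff.var 4 | exact Ff.var 5 | exact Ff.var 6 | exact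 Ff.var 7 | exact Ff.var 8 | exact Ff.var 9 | exact Ff.var 10 | exact Ff.const _ | with_reducible apply Ff.mul | with_reducible apply Ff.div | with_reducible apply Ff.sub | with_reducible apply Ff.add | with_reducible apply Ff.pow | with_reducible apply Ff.neg | with_reducible apply Ff.inv)).and (Df.eq (by repeat' first | exact Ff.var 0 | exact Ff.var 1 | exact Ff.var 2 | exact Ff.var 3 | exact Ff.var 4 | exact Ff.var 5 | exact Ff.var 6 | exact Ff.var 7 | exact Ff.var 8 | exact Ff.var 9 | exact Ff.var 10 | exact Ff.const _ | with_reducible apply Ff.mul | with_reducible apply Ff.div | with_reducible apply Ff.sub | with_reducible apply Ff.add | with_reducible apply Ff.pow | with_reducible apply Ff.neg | with_reducible apply Ff.inv) (by repeat' first | exact Ff.var 0 | exact Ff.var 1 | exact Ff.var 2 | exact Ff.var 3 | exact Ff.var 4 | exact Ff.var 5 | exact Ff.var 6 | exact Ff.var 7 | exact Ff.var 8 | exact Ff.var 9 | exact Ff.var 10 | exact Ff.const _ | with_reducible apply Ff.mul | with_reducible apply Ff.div | with_reducible apply Ff.sub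 | with_reducible apply Ff.add | with_reducible apply Ff.pow | with_reducible apply Ff.neg | with_reducible apply Ff.inv)))
  exact h.congr fun γ => Pool.Agent.Y606.UF.t_FIN p (Y _)

theorem df_vs {S : Fam p} (hS : Df2 P fun z x => x ∈ S z) : Df2 P fun z y => y ∈ VS (S z) := by
  refine Df.all (X := fun (q : (Unit × (LaurentSeries (ZMod p))) × (LaurentSeries (ZMod p))) x =>
    (∀ a, a ∈ S q.1.2 → lam p (x * a) = 0) → lam p (x * q.2) = 0) ?_
  refine Df.imp ?_ (Df.lam0 (by repeat' first | exact Ff.var 0 | exact Ff.var 1 | exact Ff.var 2 | exact Ff.var 3 | exact Ff.var 4 | exact Ff.var 5 | exact Ff.var 6 | exact Ff.var 7 | exact Ff.var 8 | exact Ff.var 9 | exact Ff.var 10 | exact Ff.const _ | with_reducible apply Ff.mul | with_reducible apply Ff.div | with_reducible apply Ff.sub | with_reducible apply Ff.add | with_reducible apply Ff.pow | with_reducible apply Ff.neg | with_reducible apply Ff.inv))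
  refine Df.all (X := fun (q : ((Unit × (LaurentSeries (ZMod p))) × (LaurentSeries (ZMod p))) × (LaurentSeries (ZMod p))) a =>
    a ∈ S q.1.1.2 → lam p (q.2 * a) = 0) ?_
  exact (hS.app (by repeat' first | exact Ff.var 0 | exact Ff.var 1 | exact Ff.var 2 | exact Ff.var 3 | exact Ff.var 4 | exact Ff.var 5 | exact Ff.var 6 | exact Ff.var 7 | exact Ff.var 8 | exact Ff.var 9 | exact Ff.var 10 | exact Ff.const _ | with_reducible apply Ff.mul | with_reducible apply Ff.div | with_reducible apply Ff.sub | with_reducible apply Ff.add | with_reducible apply Ff.pow | with_reducible apply Ff.neg | with_reducible apply Ff.inv) (by repeat' first | exact Ff.var 0 | exact Ff.var 1 | exact Ff.var 2 | exact Ff.var 3 | exact Ff.var 4 | exact Ff.var 5 | exact Ff.var 6 | exact Ff.var 7 | exact Ff.var 8 | exact Ff.var 9 | exact Ff.var 10 | exact Ff.const _ | with_reducible apply Ff.mul | with_reducible apply Ff.div | with_reducible apply Ff.sub | with_reducible apply Ff.add | with_reducible apply Ff.pow | with_reducible apply Ff.neg | with_reducible apply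 Ff.inv)).imp (Df.lam0 (by repeat' first | exact Ff.var 0 | exact Ff.var 1 | exact Ff.var 2 | exact Ff.var 3 | exact Ff.var 4 | exact Ff.var 5 | exact Ff.var 6 | exact Ff.var 7 | exact Ff.var 8 | exact Ff.var 9 | exact Ff.var 10 | exact Ff.const _ | with_reducible apply Ff.mul | with_reducible apply Ff.div | with_reducible apply Ff.sub | with_reducible apply Ff.add | with_reducible apply Ff.pow | with_reducible apply Ff.neg | with_reducible apply Ff.inv))

theorem df_isE {V : Fam p} (hV : Df2 P fun z x => x ∈ V z) :
    Df4 P fun z c x W => IsE (V z) c x W := by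
  refine Df.and (X := fun (q : (((Unit × (LaurentSeries (ZMod p))) × (LaurentSeries (ZMod p))) × (LaurentSeries (ZMod p))) × (LaurentSeries (ZMod p))) => ∀ s,
    (∀ a, a ∈ V q.1.1.1.2 → lam p (s / (q.1.2 - q.1.1.2 * a)) = 0) → lam p (s * q.2) = 0) ?_ ?_
  · refine Df.all (X := fun (q : (((Unit × (LaurentSeries (ZMod p))) × (LaurentSeries (ZMod p))) × (LaurentSeries (ZMod p))) × (LaurentSeries (ZMod p))) s =>
      (∀ a, a ∈ V q.1.1.1.2 → lam p (s / (q.1.2 - q.1.1.2 * a)) = 0) → lam p (s * q.2) = 0) ?_
    refine Df.imp ?_ (Df.lam0 (by repeat' first | exact Ff.var 0 | exact Ff.var 1 | exact Ff.var 2 | exact Ff.var 3 | exact Ff.var 4 | exact Ff.var 5 | exact Ff.var 6 | exact Ff.var 7 | exact Ff.var 8 | exact Ff.var 9 | exact Ff.var 10 | exact Ff.const _ | with_reducible apply Ff.mul | with_reducible apply Ff.div | with_reducible apply Ff.sub | with_reducible apply Ff.add | with_reducible apply Ff.pow | with_reducible apply Ff.neg | with_reducible apply Ff.inv))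
    refine Df.all (X := fun (q : ((((Unit × (LaurentSeries (ZMod p))) × (LaurentSeries (ZMod p))) × (LaurentSeries (ZMod p))) × (LaurentSeries (ZMod p))) × (LaurentSeries (ZMod p))) a =>
      a ∈ V q.1.1.1.1.2 → lam p (q.2 / (q.1.1.2 - q.1.1.1.2 * a)) = 0) ?_
    exact (hV.app (by repeat' first | exact Ff.var 0 | exact Ff.var 1 | exact Ff.var 2 | exact Ff.var 3 | exact Ff.var 4 | exact Ff.var 5 | exact Ff.var 6 | exact Ff.var 7 | exact Ff.var 8 | exact Ff.var 9 | exact Ff.var 10 | exact Ff.const _ | with_reducible apply Ff.mul | with_reducible apply Ff.div | with_reducible apply Ff.sub | with_reducible apply Ff.add | with_reducible apply Ff.pow | with_reducible apply Ff.neg | with_reducible apply Ff.inv) (by repeat' first | exact Ff.var 0 | exact Ff.var 1 | exact Ff.var 2 | exact Ff.var 3 | exact Ff.var 4 | exact Ff.var 5 | exact Ff.var 6 | exact Ff.var 7 | exact Ff.var 8 | exact Ff.var 9 | exact Ff.var 10 | exact Ff.const _ | with_reducible apply Ff.mul | with_reducible apply Ff.div | with_reducible apply Ff.sub | with_reducible apply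 Ff.add | with_reducible apply Ff.pow | with_reducible apply Ff.neg | with_reducible apply Ff.inv)).imp (Df.lam0 (by repeat' first | exact Ff.var 0 | exact Ff.var 1 | exact Ff.var 2 | exact Ff.var 3 | exact Ff.var 4 | exact Ff.var 5 | exact Ff.var 6 | exact Ff.var 7 | exact Ff.var 8 | exact Ff.var 9 | exact Ff.var 10 | exact Ff.const _ | with_reducible apply Ff.mul | with_reducible apply Ff.div | with_reducible apply Ff.sub | with_reducible apply Ff.add | with_reducible apply Ff.pow | with_reducible apply Ff.neg | with_reducible apply Ff.inv))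
  · refine Df.all (X := fun (q : (((Unit × (LaurentSeries (ZMod p))) × (LaurentSeries (ZMod p))) × (LaurentSeries (ZMod p))) × (LaurentSeries (ZMod p))) a => ∀ s, a ∈ V q.1.1.1.2 →
      lam p (s / (q.1.2 - q.1.1.2 * a)) = 1 →
      (∀ b, b ∈ V q.1.1.1.2 → b ≠ a → lam p (s / (q.1.2 - q.1.1.2 * b)) = 0) →
      lam p (s * q.2) = 1) ?_
    refine Df.all (X := fun (q : ((((Unit × (LaurentSeries (ZMod p))) × (LaurentSeries (ZMod p))) × (LaurentSeries (ZMod p))) × (LaurentSeries (ZMod p))) × (LaurentSeries (ZMod p))) s => q.2 ∈ V q.1.1.1.1.2 →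
      lam p (s / (q.1.1.2 - q.1.1.1.2 * q.2)) = 1 →
      (∀ b, b ∈ V q.1.1.1.1.2 → b ≠ q.2 → lam p (s / (q.1.1.2 - q.1.1.1.2 * b)) = 0) →
      lam p (s * q.1.2) = 1) ?_
    refine (hV.app (by repeat' first | exact Ff.var 0 | exact Ff.var 1 | exact Ff.var 2 | exact Ff.var 3 | exact Ff.var 4 | exact Ff.var 5 | exact Ff.var 6 | exact Ff.var 7 | exact Ff.var 8 | exact Ff.var 9 | exact Ff.var 10 | exact Ff.const _ | with_reducible apply Ff.mul | with_reducible apply Ff.div | with_reducible apply Ff.sub | with_reducible apply Ff.add | with_reducible apply Ff.pow | with_reducible apply Ff.neg | with_reducible apply Ff.inv) (by repeat' first | exact Ff.var 0 | exact Ff.var 1 | exact Ff.var 2 | exact Ff.var 3 | exact Ff.var 4 | exact Ff.var 5 | exact Ff.var 6 | exact Ff.var 7 | exact Ff.var 8 | exact Ff.var 9 | exact Ff.var 10 | exact Ff.const _ | with_reducible apply Ff.mul | with_reducible apply Ff.div | with_reducible apply Ff.sub | with_reducible apply Ff.add | with_reducible apply Ff.pow | with_reducible apply Ff.neg | with_reducible apply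 Ff.inv)).imp ((Df.lam1 (by repeat' first | exact Ff.var 0 | exact Ff.var 1 | exact Ff.var 2 | exact Ff.var 3 | exact Ff.var 4 | exact Ff.var 5 | exact Ff.var 6 | exact Ff.var 7 | exact Ff.var 8 | exact Ff.var 9 | exact Ff.var 10 | exact Ff.const _ | with_reducible apply Ff.mul | with_reducible apply Ff.div | with_reducible apply Ff.sub | with_reducible apply Ff.add | with_reducible apply Ff.pow | with_reducible apply Ff.neg | with_reducible apply Ff.inv)).imp (Df.imp ?_ (Df.lam1 (by repeat' first | exact Ff.var 0 | exact Ff.var 1 | exact Ff.var 2 | exact Ff.var 3 | exact Ff.var 4 | exact Ff.var 5 | exact Ff.var 6 | exact Ff.var 7 | exact Ff.var 8 | exact Ff.var 9 | exact Ff.var 10 | exact Ff.const _ | with_reducible apply Ff.mul | with_reducible apply Ff.div | with_reducible apply Ff.sub | with_reducible apply Ff.add | with_reducible apply Ff.pow | with_reducible apply Ff.neg | with_reducible apply Ff.inv))))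
    refine Df.all (X := fun (q : (((((Unit × (LaurentSeries (ZMod p))) × (LaurentSeries (ZMod p))) × (LaurentSeries (ZMod p))) × (LaurentSeries (ZMod p))) × (LaurentSeries (ZMod p))) × (LaurentSeries (ZMod p))) b =>
      b ∈ V q.1.1.1.1.1.2 → b ≠ q.1.2 →
      lam p (q.2 / (q.1.1.1.2 - q.1.1.1.1.2 * b)) = 0) ?_
    exact (hV.app (by repeat' first | exact Ff.var 0 | exact Ff.var 1 | exact Ff.var 2 | exact Ff.var 3 | exact Ff.var 4 | exact Ff.var 5 | exact Ff.var 6 | exact Ff.var 7 | exact Ff.var 8 | exact Ff.var 9 | exact Ff.var 10 | exact Ff.const _ | with_reducible apply Ff.mul | with_reducible apply Ff.div | with_reducible apply Ff.sub | with_reducible apply Ff.add | with_reducible apply Ff.pow | with_reducible apply Ff.neg | with_reducible apply Ff.inv) (by repeat' first | exact Ff.var 0 | exact Ff.var 1 | exact Ff.var 2 | exact Ff.var 3 | exact Ff.var 4 | exact Ff.var 5 | exact Ff.var 6 | exact Ff.var 7 | exact Ff.var 8 | exact Ff.var 9 | exact Ff.var 10 | exact Ff.const _ | with_reducible apply Ff.mul | with_reducible apply Ff.div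 | with_reducible apply Ff.sub | with_reducible apply Ff.add | with_reducible apply Ff.pow | with_reducible apply Ff.neg | with_reducible apply Ff.inv)).imp ((Df.eq (by repeat' first | exact Ff.var 0 | exact Ff.var 1 | exact Ff.var 2 | exact Ff.var 3 | exact Ff.var 4 | exact Ff.var 5 | exact Ff.var 6 | exact Ff.var 7 | exact Ff.var 8 | exact Ff.var 9 | exact Ff.var 10 | exact Ff.const _ | with_reducible apply Ff.mul | with_reducible apply Ff.div | with_reducible apply Ff.sub | with_reducible apply Ff.add | with_reducible apply Ff.pow | with_reducible apply Ff.neg | with_reducible apply Ff.inv) (by repeat' first | exact Ff.var 0 | exact Ff.var 1 | exact Ff.var 2 | exact Ff.var 3 | exact Ff.var 4 | exact Ff.var 5 | exact Ff.var 6 | exact Ff.var 7 | exact Ff.var 8 | exact Ff.var 9 | exact Ff.var 10 | exact Ff.const _ | with_reducible apply Ff.mul | with_reducible apply Ff.div | with_reducible apply Ff.sub | with_reducible apply Ff.add | with_reducible apply Ff.pow | with_reducible apply Ff.neg | with_reducible apply Ff.inv)).not.imp (Df.lam0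 (by repeat' first | exact Ff.var 0 | exact Ff.var 1 | exact Ff.var 2 | exact Ff.var 3 | exact Ff.var 4 | exact Ff.var 5 | exact Ff.var 6 | exact Ff.var 7 | exact Ff.var 8 | exact Ff.var 9 | exact Ff.var 10 | exact Ff.const _ | with_reducible apply Ff.mul | with_reducible apply Ff.div | with_reducible apply Ff.sub | with_reducible apply Ff.add | with_reducible apply Ff.pow | with_reducible apply Ff.neg | with_reducible apply Ff.inv)))

theorem df_pw {V : Fam p} (hV : Df2 P fun z x => x ∈ V z) :
    Df3 P fun z x y => Pw (V z) x y := by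
  have hE := df_isE hV
  refine Df.all (X := fun (q : ((Unit × (LaurentSeries (ZMod p))) × (LaurentSeries (ZMod p))) × (LaurentSeries (ZMod p))) ε => ε ≠ 0 → ∃ c0 : (LaurentSeries (ZMod p)), c0 ≠ 0 ∧
    ∀ c, c ≠ 0 → Dv c0 c → ∀ e1 e2, IsE (V q.1.1.2) c 1 e1 → IsE (V q.1.1.2) c q.1.2 e2 →
      Dv (ε * e1) (e1 - q.2 * e2)) ?_
  refine (Df.eq (by repeat' first | exact Ff.var 0 | exact Ff.var 1 | exact Ff.var 2 | exact Ff.var 3 | exact Ff.var 4 | exact Ff.var 5 | exact Ff.var 6 | exact Ff.var 7 | exact Ff.var 8 | exact Ff.var 9 | exact Ff.var 10 | exact Ff.const _ | with_reducible apply Ff.mul | with_reducible apply Ff.div | with_reducible apply Ff.sub | with_reducible apply Ff.add | with_reducible apply Ff.pow | with_reducible apply Ff.neg | with_reducible apply Ff.inv) (Ff.const 0)).not.imp ?_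
  refine Df.ex (X := fun (q : (((Unit × (LaurentSeries (ZMod p))) × (LaurentSeries (ZMod p))) × (LaurentSeries (ZMod p))) × (LaurentSeries (ZMod p))) c0 => c0 ≠ 0 ∧
    ∀ c, c ≠ 0 → Dv c0 c → ∀ e1 e2, IsE (V q.1.1.1.2) c 1 e1 → IsE (V q.1.1.1.2) c q.1.1.2 e2 →
      Dv (q.2 * e1) (e1 - q.1.2 * e2)) ?_
  refine (Df.eq (by repeat' first | exact Ff.var 0 | exact Ff.var 1 | exact Ff.var 2 | exact Ff.var 3 | exact Ff.var 4 | exact Ff.var 5 | exact Ff.var 6 | exact Ff.var 7 | exact Ff.var 8 | exact Ff.var 9 | exact Ff.var 10 | exact Ff.const _ | with_reducible apply Ff.mul | with_reducible apply Ff.div | with_reducible apply Ff.sub | with_reducible apply Ff.add | with_reducible apply Ff.pow | with_reducible apply Ff.neg | with_reducible apply Ff.inv) (Ff.const 0)).not.and ?_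
  refine Df.all (X := fun (q : ((((Unit × (LaurentSeries (ZMod p))) × (LaurentSeries (ZMod p))) × (LaurentSeries (ZMod p))) × (LaurentSeries (ZMod p))) × (LaurentSeries (ZMod p))) c =>
    c ≠ 0 → Dv q.2 c → ∀ e1 e2, IsE (V q.1.1.1.1.2) c 1 e1 → IsE (V q.1.1.1.1.2) c q.1.1.1.2 e2 →
      Dv (q.1.2 * e1) (e1 - q.1.1.2 * e2)) ?_
  refine (Df.eq (by repeat' first | exact Ff.var 0 | exact Ff.var 1 | exact Ff.var 2 | exact Ff.var 3 | exact Ff.var 4 | exact Ff.var 5 | exact Ff.var 6 | exact Ff.var 7 | exact Ff.var 8 | exact Ff.var 9 | exact Ff.var 10 | exact Ff.const _ | with_reducible apply Ff.mul | with_reducible apply Ff.div | with_reducible apply Ff.sub | with_reducible apply Ff.add | with_reducible apply Ff.pow | with_reducible apply Ff.neg | with_reducible apply Ff.inv) (Ff.const 0)).not.imp ((Df.dv (by repeat' first | exact Ff.var 0 | exact Ff.var 1 | exact Ff.var 2 | exact Ff.var 3 | exact Ff.var 4 | exact Ff.var 5 | exact Ff.var 6 | exact Ff.var 7 | exact Ff.var 8 | exact Ff.var 9 | exact Ff.var 10 | exact Ff.const _ | with_reducible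 apply Ff.mul | with_reducible apply Ff.div | with_reducible apply Ff.sub | with_reducible apply Ff.add | with_reducible apply Ff.pow | with_reducible apply Ff.neg | with_reducible apply Ff.inv) (by repeat' first | exact Ff.var 0 | exact Ff.var 1 | exact Ff.var 2 | exact Ff.var 3 | exact Ff.var 4 | exact Ff.var 5 | exact Ff.var 6 | exact Ff.var 7 | exact Ff.var 8 | exact Ff.var 9 | exact Ff.var 10 | exact Ff.const _ | with_reducible apply Ff.mul | with_reducible apply Ff.div | with_reducible apply Ff.sub | with_reducible apply Ff.add | with_reducible apply Ff.pow | with_reducible apply Ff.neg | with_reducible apply Ff.inv)).imp ?_)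
  refine Df.all (X := fun (q : (((((Unit × (LaurentSeries (ZMod p))) × (LaurentSeries (ZMod p))) × (LaurentSeries (ZMod p))) × (LaurentSeries (ZMod p))) × (LaurentSeries (ZMod p))) × (LaurentSeries (ZMod p))) e1 => ∀ e2,
    IsE (V q.1.1.1.1.1.2) q.2 1 e1 → IsE (V q.1.1.1.1.1.2) q.2 q.1.1.1.1.2 e2 →
      Dv (q.1.1.2 * e1) (e1 - q.1.1.1.2 * e2)) ?_
  refine Df.all (X := fun (q : ((((((Unit × (LaurentSeries (ZMod p))) × (LaurentSeries (ZMod p))) × (LaurentSeries (ZMod p))) × (LaurentSeries (ZMod p))) × (LaurentSeries (ZMod p))) × (LaurentSeries (ZMod p))) × (LaurentSeries (ZMod p))) e2 =>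
    IsE (V q.1.1.1.1.1.1.2) q.1.2 1 q.2 → IsE (V q.1.1.1.1.1.1.2) q.1.2 q.1.1.1.1.1.2 e2 →
      Dv (q.1.1.1.2 * q.2) (q.2 - q.1.1.1.1.2 * e2)) ?_
  exact (hE.app (by repeat' first | exact Ff.var 0 | exact Ff.var 1 | exact Ff.var 2 | exact Ff.var 3 | exact Ff.var 4 | exact Ff.var 5 | exact Ff.var 6 | exact Ff.var 7 | exact Ff.var 8 | exact Ff.var 9 | exact Ff.var 10 | exact Ff.const _ | with_reducible apply Ff.mul | with_reducible apply Ff.div | with_reducible apply Ff.sub | with_reducible apply Ff.add | with_reducible apply Ff.pow | with_reducible apply Ff.neg | with_reducible apply Ff.inv) (by repeat' first | exact Ff.var 0 | exact Ff.var 1 | exact Ff.var 2 | exact Ff.var 3 | exact Ff.var 4 | exact Ff.var 5 | exact Ff.var 6 | exact Ff.var 7 | exact Ff.var 8 | exact Ff.var 9 | exact Ff.var 10 | exact Ff.const _ | with_reducible apply Ff.mul | with_reducible apply Ff.div | with_reducible apply Ff.sub | with_reducible apply Ff.add | with_reducible apply Ff.pow | with_reducible apply Ff.neg | with_reducible apply Ff.inv) (by repeat' first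 | exact Ff.var 0 | exact Ff.var 1 | exact Ff.var 2 | exact Ff.var 3 | exact Ff.var 4 | exact Ff.var 5 | exact Ff.var 6 | exact Ff.var 7 | exact Ff.var 8 | exact Ff.var 9 | exact Ff.var 10 | exact Ff.const _ | with_reducible apply Ff.mul | with_reducible apply Ff.div | with_reducible apply Ff.sub | with_reducible apply Ff.add | with_reducible apply Ff.pow | with_reducible apply Ff.neg | with_reducible apply Ff.inv) (by repeat' first | exact Ff.var 0 | exact Ff.var 1 | exact Ff.var 2 | exact Ff.var 3 | exact Ff.var 4 | exact Ff.var 5 | exact Ff.var 6 | exact Ff.var 7 | exact Ff.var 8 | exact Ff.var 9 | exact Ff.var 10 | exact Ff.const _ | with_reducible apply Ff.mul | with_reducible apply Ff.div | with_reducible apply Ff.sub | with_reducible apply Ff.add | with_reducible apply Ff.pow | with_reducible apply Ff.neg | with_reducible apply Ff.inv)).imp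
    ((hE.app (by repeat' first | exact Ff.var 0 | exact Ff.var 1 | exact Ff.var 2 | exact Ff.var 3 | exact Ff.var 4 | exact Ff.var 5 | exact Ff.var 6 | exact Ff.var 7 | exact Ff.var 8 | exact Ff.var 9 | exact Ff.var 10 | exact Ff.const _ | with_reducible apply Ff.mul | with_reducible apply Ff.div | with_reducible apply Ff.sub | with_reducible apply Ff.add | with_reducible apply Ff.pow | with_reducible apply Ff.neg | with_reducible apply Ff.inv) (by repeat' first | exact Ff.var 0 | exact Ff.var 1 | exact Ff.var 2 | exact Ff.var 3 | exact Ff.var 4 | exact Ff.var 5 | exact Ff.var 6 | exact Ff.var 7 | exact Ff.var 8 | exact Ff.var 9 | exact Ff.var 10 | exact Ff.const _ | with_reducible apply Ff.mul | with_reducible apply Ff.div | with_reducible apply Ff.sub | with_reducible apply Ff.add | with_reducible apply Ff.pow | with_reducible apply Ff.neg | with_reducible apply Ff.inv) (by repeat' first | exact Ff.var 0 | exact Ff.var 1 | exact Ff.var 2 | exact Ff.var 3 | exact Ff.var 4 | exact Ff.var 5 | exact Ff.var 6 | exact Ff.var 7 | exact Ff.var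 8 | exact Ff.var 9 | exact Ff.var 10 | exact Ff.const _ | with_reducible apply Ff.mul | with_reducible apply Ff.div | with_reducible apply Ff.sub | with_reducible apply Ff.add | with_reducible apply Ff.pow | with_reducible apply Ff.neg | with_reducible apply Ff.inv) (by repeat' first | exact Ff.var 0 | exact Ff.var 1 | exact Ff.var 2 | exact Ff.var 3 | exact Ff.var 4 | exact Ff.var 5 | exact Ff.var 6 | exact Ff.var 7 | exact Ff.var 8 | exact Ff.var 9 | exact Ff.var 10 | exact Ff.const _ | with_reducible apply Ff.mul | with_reducible apply Ff.div | with_reducible apply Ff.sub | with_reducible apply Ff.add | with_reducible apply Ff.pow | with_reducible apply Ff.neg | with_reducible apply Ff.inv)).imp (Df.dv (by repeat' first | exact Ff.var 0 | exact Ff.var 1 | exact Ff.var 2 | exact Ff.var 3 | exact Ff.var 4 | exact Ff.var 5 | exact Ff.var 6 | exact Ff.var 7 | exact Ff.var 8 | exact Ff.var 9 | exact Ff.var 10 | exact Ff.const _ | with_reducible apply Ff.mul | with_reducible apply Ff.div | with_reducible apply Ff.sub | with_reducible apply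 Ff.add | with_reducible apply Ff.pow | with_reducible apply Ff.neg | with_reducible apply Ff.inv) (by repeat' first | exact Ff.var 0 | exact Ff.var 1 | exact Ff.var 2 | exact Ff.var 3 | exact Ff.var 4 | exact Ff.var 5 | exact Ff.var 6 | exact Ff.var 7 | exact Ff.var 8 | exact Ff.var 9 | exact Ff.var 10 | exact Ff.const _ | with_reducible apply Ff.mul | with_reducible apply Ff.div | with_reducible apply Ff.sub | with_reducible apply Ff.add | with_reducible apply Ff.pow | with_reducible apply Ff.neg | with_reducible apply Ff.inv)))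

theorem df_c0 {V : Fam p} (hV : Df2 P fun z x => x ∈ V z) :
    Df3 P fun z w b => C0 (V z) w b := by
  have hPw := df_pw hV
  refine Df.all (X := fun (q : ((Unit × (LaurentSeries (ZMod p))) × (LaurentSeries (ZMod p))) × (LaurentSeries (ZMod p))) x => ∀ x', x ≠ 0 → Pw (V q.1.1.2) x x' →
    lam p (q.1.2 * x' - q.2 * x) = 0) ?_
  refine Df.all (X := fun (q : (((Unit × (LaurentSeries (ZMod p))) × (LaurentSeries (ZMod p))) × (LaurentSeries (ZMod p))) × (LaurentSeries (ZMod p))) x' => q.2 ≠ 0 →
    Pw (V q.1.1.1.2) q.2 x' → lam p (q.1.1.2 * x' - q.1.2 * q.2) = 0) ?_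
  exact (Df.eq (by repeat' first | exact Ff.var 0 | exact Ff.var 1 | exact Ff.var 2 | exact Ff.var 3 | exact Ff.var 4 | exact Ff.var 5 | exact Ff.var 6 | exact Ff.var 7 | exact Ff.var 8 | exact Ff.var 9 | exact Ff.var 10 | exact Ff.const _ | with_reducible apply Ff.mul | with_reducible apply Ff.div | with_reducible apply Ff.sub | with_reducible apply Ff.add | with_reducible apply Ff.pow | with_reducible apply Ff.neg | with_reducible apply Ff.inv) (Ff.const 0)).not.imp
    ((hPw.app (by repeat' first | exact Ff.var 0 | exact Ff.var 1 | exact Ff.var 2 | exact Ff.var 3 | exact Ff.var 4 | exact Ff.var 5 | exact Ff.var 6 | exact Ff.var 7 | exact Ff.var 8 | exact Ff.var 9 | exact Ff.var 10 | exact Ff.const _ | with_reducible apply Ff.mul | with_reducible apply Ff.div | with_reducible apply Ff.sub | with_reducible apply Ff.add | with_reducible apply Ff.pow | with_reducible apply Ff.neg | with_reducible apply Ff.inv) (by repeat' first | exact Ff.var 0 | exact Ff.var 1 | exact Ff.var 2 | exact Ff.var 3 | exact Ff.var 4 | exact Ff.var 5 | exact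 Ff.var 6 | exact Ff.var 7 | exact Ff.var 8 | exact Ff.var 9 | exact Ff.var 10 | exact Ff.const _ | with_reducible apply Ff.mul | with_reducible apply Ff.div | with_reducible apply Ff.sub | with_reducible apply Ff.add | with_reducible apply Ff.pow | with_reducible apply Ff.neg | with_reducible apply Ff.inv) (by repeat' first | exact Ff.var 0 | exact Ff.var 1 | exact Ff.var 2 | exact Ff.var 3 | exact Ff.var 4 | exact Ff.var 5 | exact Ff.var 6 | exact Ff.var 7 | exact Ff.var 8 | exact Ff.var 9 | exact Ff.var 10 | exact Ff.const _ | with_reducible apply Ff.mul | with_reducible apply Ff.div | with_reducible apply Ff.sub | with_reducible apply Ff.add | with_reducible apply Ff.pow | with_reducible apply Ff.neg | with_reducible apply Ff.inv)).imp (Df.lam0 (by repeat' first | exact Ff.var 0 | exact Ff.var 1 | exact Ff.var 2 | exact Ff.var 3 | exact Ff.var 4 | exact Ff.var 5 | exact Ff.var 6 | exact Ff.var 7 | exact Ff.var 8 | exact Ff.var 9 | exact Ff.var 10 | exact Ff.const _ | with_reducible apply Ff.mul | with_reducible apply Ff.div | with_reducible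 apply Ff.sub | with_reducible apply Ff.add | with_reducible apply Ff.pow | with_reducible apply Ff.neg | with_reducible apply Ff.inv)))

theorem df_dd {S : Fam p} (hS : Df2 P fun z x => x ∈ S z) : Df1 P (DD S) := by
  have hPw := df_pw (df_vs hS)
  refine Df.ex (X := fun (q : Unit × (LaurentSeries (ZMod p))) z => (S z).Finite ∧ Pw (VS (S z)) (tt p) q.2) ?_
  exact ((Df1.fin hS).app (by repeat' first | exact Ff.var 0 | exact Ff.var 1 | exact Ff.var 2 | exact Ff.var 3 | exact Ff.var 4 | exact Ff.var 5 | exact Ff.var 6 | exact Ff.var 7 | exact Ff.var 8 | exact Ff.var 9 | exact Ff.var 10 | exact Ff.const _ | with_reducible apply Ff.mul | with_reducible apply Ff.div | with_reducible apply Ff.sub | with_reducible apply Ff.add | with_reducible apply Ff.pow | with_reducible apply Ff.neg | with_reducible apply Ff.inv)).and (hPw.app (by repeat' first | exact Ff.var 0 | exact Ff.var 1 | exact Ff.var 2 | exact Ff.var 3 | exact Ff.var 4 | exact Ff.var 5 | exact Ff.var 6 | exact Ff.var 7 | exact Ff.var 8 | exact Ff.var 9 | exact Ff.var 10 | exact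 Ff.const _ | with_reducible apply Ff.mul | with_reducible apply Ff.div | with_reducible apply Ff.sub | with_reducible apply Ff.add | with_reducible apply Ff.pow | with_reducible apply Ff.neg | with_reducible apply Ff.inv) (by repeat' first | exact Ff.var 0 | exact Ff.var 1 | exact Ff.var 2 | exact Ff.var 3 | exact Ff.var 4 | exact Ff.var 5 | exact Ff.var 6 | exact Ff.var 7 | exact Ff.var 8 | exact Ff.var 9 | exact Ff.var 10 | exact Ff.const _ | with_reducible apply Ff.mul | with_reducible apply Ff.div | with_reducible apply Ff.sub | with_reducible apply Ff.add | with_reducible apply Ff.pow | with_reducible apply Ff.neg | with_reducible apply Ff.inv) (by repeat' first | exact Ff.var 0 | exact Ff.var 1 | exact Ff.var 2 | exact Ff.var 3 | exact Ff.var 4 | exact Ff.var 5 | exact Ff.var 6 | exact Ff.var 7 | exact Ff.var 8 | exact Ff.var 9 | exact Ff.var 10 | exact Ff.const _ | with_reducible apply Ff.mul | with_reducible apply Ff.div | with_reducible apply Ff.sub | with_reducible apply Ff.add | with_reducible apply Ff.pow | with_reducible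 apply Ff.neg | with_reducible apply Ff.inv))

theorem df_tt {S : Fam p} (hS : Df2 P fun z x => x ∈ S z) : Df1 P (TT S) := by
  have hPw := df_pw (df_vs hS)
  have hC := df_c0 (df_vs hS)
  have hD := df_dd hS
  have hF := Df1.fin hS
  refine Df.ex (X := fun (q : Unit × (LaurentSeries (ZMod p))) z0 => ∃ z tq, (S z0).Finite ∧
    Pw (VS (S z0)) (tt p) tq ∧
    (∀ d, DD S d → Dv (tt p * d) tq → (∀ d', DD S d' → Dv d d') → C0 (VS (S z0)) (z / d) 1) ∧
    (∀ d d', DD S d → DD S d' → Dv (tt p * d') tq → Dv (tt p * d) d' →
      (∀ d'', DD S d'' → Dv (tt p * d) d'' → ¬ Dv (tt p * d'') d') →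
      ∀ b, C0 (VS (S z0)) (z / d) b → C0 (VS (S z0)) (z / d') (tt p * b)) ∧
    ∃ d, DD S d ∧ Dv (tt p * d) tq ∧ C0 (VS (S z0)) (z / d) q.2) ?_
  refine Df.ex (X := fun (q : (Unit × (LaurentSeries (ZMod p))) × (LaurentSeries (ZMod p))) z => ∃ tq, (S q.2).Finite ∧
    Pw (VS (S q.2)) (tt p) tq ∧
    (∀ d, DD S d → Dv (tt p * d) tq → (∀ d', DD S d' → Dv d d') → C0 (VS (S q.2)) (z / d) 1) ∧
    (∀ d d', DD S d → DD S d' → Dv (tt p * d') tq → Dv (tt p * d) d' →
      (∀ d'', DD S d'' → Dv (tt p * d) d'' → ¬ Dv (tt p * d'') d') →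
      ∀ b, C0 (VS (S q.2)) (z / d) b → C0 (VS (S q.2)) (z / d') (tt p * b)) ∧
    ∃ d, DD S d ∧ Dv (tt p * d) tq ∧ C0 (VS (S q.2)) (z / d) q.1.2) ?_
  refine Df.ex (X := fun (q : ((Unit × (LaurentSeries (ZMod p))) × (LaurentSeries (ZMod p))) × (LaurentSeries (ZMod p))) tq => (S q.1.2).Finite ∧
    Pw (VS (S q.1.2)) (tt p) tq ∧
    (∀ d, DD S d → Dv (tt p * d) tq → (∀ d', DD S d' → Dv d d') →
      C0 (VS (S q.1.2)) (q.2 / d) 1) ∧
    (∀ d d', DD S d → DD S d' → Dv (tt p * d') tq → Dv (tt p * d) d' →
      (∀ d'', DD S d'' → Dv (tt p * d) d'' → ¬ Dv (tt p * d'') d') →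
      ∀ b, C0 (VS (S q.1.2)) (q.2 / d) b → C0 (VS (S q.1.2)) (q.2 / d') (tt p * b)) ∧
    ∃ d, DD S d ∧ Dv (tt p * d) tq ∧ C0 (VS (S q.1.2)) (q.2 / d) q.1.1.2) ?_
  refine (hF.app (by repeat' first | exact Ff.var 0 | exact Ff.var 1 | exact Ff.var 2 | exact Ff.var 3 | exact Ff.var 4 | exact Ff.var 5 | exact Ff.var 6 | exact Ff.var 7 | exact Ff.var 8 | exact Ff.var 9 | exact Ff.var 10 | exact Ff.const _ | with_reducible apply Ff.mul | with_reducible apply Ff.div | with_reducible apply Ff.sub | with_reducible apply Ff.add | with_reducible apply Ff.pow | with_reducible apply Ff.neg | with_reducible apply Ff.inv)).and ((hPw.app (by repeat' first | exact Ff.var 0 | exact Ff.var 1 | exact Ff.var 2 | exact Ff.var 3 | exact Ff.var 4 | exact Ff.var 5 | exact Ff.var 6 | exact Ff.var 7 | exact Ff.var 8 | exact Ff.var 9 | exact Ff.var 10 | exact Ff.const _ | with_reducible apply Ff.mul | with_reducible apply Ff.div | with_reducible apply Ff.sub | with_reducible apply Ff.add | with_reducible apply Ff.pow | with_reducible apply Ff.neg | with_reducible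 apply Ff.inv) (by repeat' first | exact Ff.var 0 | exact Ff.var 1 | exact Ff.var 2 | exact Ff.var 3 | exact Ff.var 4 | exact Ff.var 5 | exact Ff.var 6 | exact Ff.var 7 | exact Ff.var 8 | exact Ff.var 9 | exact Ff.var 10 | exact Ff.const _ | with_reducible apply Ff.mul | with_reducible apply Ff.div | with_reducible apply Ff.sub | with_reducible apply Ff.add | with_reducible apply Ff.pow | with_reducible apply Ff.neg | with_reducible apply Ff.inv) (by repeat' first | exact Ff.var 0 | exact Ff.var 1 | exact Ff.var 2 | exact Ff.var 3 | exact Ff.var 4 | exact Ff.var 5 | exact Ff.var 6 | exact Ff.var 7 | exact Ff.var 8 | exact Ff.var 9 | exact Ff.var 10 | exact Ff.const _ | with_reducible apply Ff.mul | with_reducible apply Ff.div | with_reducible apply Ff.sub | with_reducible apply Ff.add | with_reducible apply Ff.pow | with_reducible apply Ff.neg | with_reducible apply Ff.inv)).and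
    (Df.and ?_ (Df.and ?_ ?_)))
  · refine Df.all (X := fun (q : (((Unit × (LaurentSeries (ZMod p))) × (LaurentSeries (ZMod p))) × (LaurentSeries (ZMod p))) × (LaurentSeries (ZMod p))) d => DD S d →
      Dv (tt p * d) q.2 → (∀ d', DD S d' → Dv d d') → C0 (VS (S q.1.1.2)) (q.1.2 / d) 1) ?_
    refine (hD.app (by repeat' first | exact Ff.var 0 | exact Ff.var 1 | exact Ff.var 2 | exact Ff.var 3 | exact Ff.var 4 | exact Ff.var 5 | exact Ff.var 6 | exact Ff.var 7 | exact Ff.var 8 | exact Ff.var 9 | exact Ff.var 10 | exact Ff.const _ | with_reducible apply Ff.mul | with_reducible apply Ff.div | with_reducible apply Ff.sub | with_reducible apply Ff.add | with_reducible apply Ff.pow | with_reducible apply Ff.neg | with_reducible apply Ff.inv)).imp ((Df.dv (by repeat' first | exact Ff.var 0 | exact Ff.var 1 | exact Ff.var 2 | exact Ff.var 3 | exact Ff.var 4 | exact Ff.var 5 | exact Ff.var 6 | exact Ff.var 7 | exact Ff.var 8 | exact Ff.var 9 | exact Ff.var 10 | exact Ff.const _ | with_reducible apply Ff.mul | with_reducible apply Ff.div | with_reducible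 apply Ff.sub | with_reducible apply Ff.add | with_reducible apply Ff.pow | with_reducible apply Ff.neg | with_reducible apply Ff.inv) (by repeat' first | exact Ff.var 0 | exact Ff.var 1 | exact Ff.var 2 | exact Ff.var 3 | exact Ff.var 4 | exact Ff.var 5 | exact Ff.var 6 | exact Ff.var 7 | exact Ff.var 8 | exact Ff.var 9 | exact Ff.var 10 | exact Ff.const _ | with_reducible apply Ff.mul | with_reducible apply Ff.div | with_reducible apply Ff.sub | with_reducible apply Ff.add | with_reducible apply Ff.pow | with_reducible apply Ff.neg | with_reducible apply Ff.inv)).imp (Df.imp ?_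
      (hC.app (by repeat' first | exact Ff.var 0 | exact Ff.var 1 | exact Ff.var 2 | exact Ff.var 3 | exact Ff.var 4 | exact Ff.var 5 | exact Ff.var 6 | exact Ff.var 7 | exact Ff.var 8 | exact Ff.var 9 | exact Ff.var 10 | exact Ff.const _ | with_reducible apply Ff.mul | with_reducible apply Ff.div | with_reducible apply Ff.sub | with_reducible apply Ff.add | with_reducible apply Ff.pow | with_reducible apply Ff.neg | with_reducible apply Ff.inv) (by repeat' first | exact Ff.var 0 | exact Ff.var 1 | exact Ff.var 2 | exact Ff.var 3 | exact Ff.var 4 | exact Ff.var 5 | exact Ff.var 6 | exact Ff.var 7 | exact Ff.var 8 | exact Ff.var 9 | exact Ff.var 10 | exact Ff.const _ | with_reducible apply Ff.mul | with_reducible apply Ff.div | with_reducible apply Ff.sub | with_reducible apply Ff.add | with_reducible apply Ff.pow | with_reducible apply Ff.neg | with_reducible apply Ff.inv) (by repeat' first | exact Ff.var 0 | exact Ff.var 1 | exact Ff.var 2 | exact Ff.var 3 | exact Ff.var 4 | exact Ff.var 5 | exact Ff.var 6 | exact Ff.var 7 | exact Ff.var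 8 | exact Ff.var 9 | exact Ff.var 10 | exact Ff.const _ | with_reducible apply Ff.mul | with_reducible apply Ff.div | with_reducible apply Ff.sub | with_reducible apply Ff.add | with_reducible apply Ff.pow | with_reducible apply Ff.neg | with_reducible apply Ff.inv))))
    refine Df.all (X := fun (q : ((((Unit × (LaurentSeries (ZMod p))) × (LaurentSeries (ZMod p))) × (LaurentSeries (ZMod p))) × (LaurentSeries (ZMod p))) × (LaurentSeries (ZMod p))) d' =>
      DD S d' → Dv q.2 d') ?_
    exact (hD.app (by repeat' first | exact Ff.var 0 | exact Ff.var 1 | exact Ff.var 2 | exact Ff.var 3 | exact Ff.var 4 | exact Ff.var 5 | exact Ff.var 6 | exact Ff.var 7 | exact Ff.var 8 | exact Ff.var 9 | exact Ff.var 10 | exact Ff.const _ | with_reducible apply Ff.mul | with_reducible apply Ff.div | with_reducible apply Ff.sub | with_reducible apply Ff.add | with_reducible apply Ff.pow | with_reducible apply Ff.neg | with_reducible apply Ff.inv)).imp (Df.dv (by repeat' first | exact Ff.var 0 | exact Ff.var 1 | exact Ff.var 2 | exact Ff.var 3 | exact Ff.var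 4 | exact Ff.var 5 | exact Ff.var 6 | exact Ff.var 7 | exact Ff.var 8 | exact Ff.var 9 | exact Ff.var 10 | exact Ff.const _ | with_reducible apply Ff.mul | with_reducible apply Ff.div | with_reducible apply Ff.sub | with_reducible apply Ff.add | with_reducible apply Ff.pow | with_reducible apply Ff.neg | with_reducible apply Ff.inv) (by repeat' first | exact Ff.var 0 | exact Ff.var 1 | exact Ff.var 2 | exact Ff.var 3 | exact Ff.var 4 | exact Ff.var 5 | exact Ff.var 6 | exact Ff.var 7 | exact Ff.var 8 | exact Ff.var 9 | exact Ff.var 10 | exact Ff.const _ | with_reducible apply Ff.mul | with_reducible apply Ff.div | with_reducible apply Ff.sub | with_reducible apply Ff.add | with_reducible apply Ff.pow | with_reducible apply Ff.neg | with_reducible apply Ff.inv))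
  · refine Df.all (X := fun (q : (((Unit × (LaurentSeries (ZMod p))) × (LaurentSeries (ZMod p))) × (LaurentSeries (ZMod p))) × (LaurentSeries (ZMod p))) d => ∀ d', DD S d → DD S d' →
      Dv (tt p * d') q.2 → Dv (tt p * d) d' →
      (∀ d'', DD S d'' → Dv (tt p * d) d'' → ¬ Dv (tt p * d'') d') →
      ∀ b, C0 (VS (S q.1.1.2)) (q.1.2 / d) b → C0 (VS (S q.1.1.2)) (q.1.2 / d') (tt p * b)) ?_
    refine Df.all (X := fun (q : ((((Unit × (LaurentSeries (ZMod p))) × (LaurentSeries (ZMod p))) × (LaurentSeries (ZMod p))) × (LaurentSeries (ZMod p))) × (LaurentSeries (ZMod p))) d' => DD S q.2 → DD S d' →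
      Dv (tt p * d') q.1.2 → Dv (tt p * q.2) d' →
      (∀ d'', DD S d'' → Dv (tt p * q.2) d'' → ¬ Dv (tt p * d'') d') →
      ∀ b, C0 (VS (S q.1.1.1.2)) (q.1.1.2 / q.2) b →
        C0 (VS (S q.1.1.1.2)) (q.1.1.2 / d') (tt p * b)) ?_
    refine (hD.app (by repeat' first | exact Ff.var 0 | exact Ff.var 1 | exact Ff.var 2 | exact Ff.var 3 | exact Ff.var 4 | exact Ff.var 5 | exact Ff.var 6 | exact Ff.var 7 | exact Ff.var 8 | exact Ff.var 9 | exact Ff.var 10 | exact Ff.const _ | with_reducible apply Ff.mul | with_reducible apply Ff.div | with_reducible apply Ff.sub | with_reducible apply Ff.add | with_reducible apply Ff.pow | with_reducible apply Ff.neg | with_reducible apply Ff.inv)).imp ((hD.app (by repeat' first | exact Ff.var 0 | exact Ff.var 1 | exact Ff.var 2 | exact Ff.var 3 | exact Ff.var 4 | exact Ff.var 5 | exact Ff.var 6 | exact Ff.var 7 | exact Ff.var 8 | exact Ff.var 9 | exact Ff.var 10 | exact Ff.const _ | with_reducible apply Ff.mul | with_reducible apply Ff.div | with_reducible apply Ff.sub | with_reducible apply Ff.add |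 with_reducible apply Ff.pow | with_reducible apply Ff.neg | with_reducible apply Ff.inv)).imp ((Df.dv (by repeat' first | exact Ff.var 0 | exact Ff.var 1 | exact Ff.var 2 | exact Ff.var 3 | exact Ff.var 4 | exact Ff.var 5 | exact Ff.var 6 | exact Ff.var 7 | exact Ff.var 8 | exact Ff.var 9 | exact Ff.var 10 | exact Ff.const _ | with_reducible apply Ff.mul | with_reducible apply Ff.div | with_reducible apply Ff.sub | with_reducible apply Ff.add | with_reducible apply Ff.pow | with_reducible apply Ff.neg | with_reducible apply Ff.inv) (by repeat' first | exact Ff.var 0 | exact Ff.var 1 | exact Ff.var 2 | exact Ff.var 3 | exact Ff.var 4 | exact Ff.var 5 | exact Ff.var 6 | exact Ff.var 7 | exact Ff.var 8 | exact Ff.var 9 | exact Ff.var 10 | exact Ff.const _ | with_reducible apply Ff.mul | with_reducible apply Ff.div | with_reducible apply Ff.sub | with_reducible apply Ff.add | with_reducible apply Ff.pow | with_reducible apply Ff.neg | with_reducible apply Ff.inv)).imp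
      ((Df.dv (by repeat' first | exact Ff.var 0 | exact Ff.var 1 | exact Ff.var 2 | exact Ff.var 3 | exact Ff.var 4 | exact Ff.var 5 | exact Ff.var 6 | exact Ff.var 7 | exact Ff.var 8 | exact Ff.var 9 | exact Ff.var 10 | exact Ff.const _ | with_reducible apply Ff.mul | with_reducible apply Ff.div | with_reducible apply Ff.sub | with_reducible apply Ff.add | with_reducible apply Ff.pow | with_reducible apply Ff.neg | with_reducible apply Ff.inv) (by repeat' first | exact Ff.var 0 | exact Ff.var 1 | exact Ff.var 2 | exact Ff.var 3 | exact Ff.var 4 | exact Ff.var 5 | exact Ff.var 6 | exact Ff.var 7 | exact Ff.var 8 | exact Ff.var 9 | exact Ff.var 10 | exact Ff.const _ | with_reducible apply Ff.mul | with_reducible apply Ff.div | with_reducible apply Ff.sub | with_reducible apply Ff.add | with_reducible apply Ff.pow | with_reducible apply Ff.neg | with_reducible apply Ff.inv)).imp (Df.imp ?_ ?_))))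
    · refine Df.all (X := fun (q : (((((Unit × (LaurentSeries (ZMod p))) × (LaurentSeries (ZMod p))) × (LaurentSeries (ZMod p))) × (LaurentSeries (ZMod p))) × (LaurentSeries (ZMod p))) × (LaurentSeries (ZMod p))) d'' =>
        DD S d'' → Dv (tt p * q.1.2) d'' → ¬ Dv (tt p * d'') q.2) ?_
      exact (hD.app (by repeat' first | exact Ff.var 0 | exact Ff.var 1 | exact Ff.var 2 | exact Ff.var 3 | exact Ff.var 4 | exact Ff.var 5 | exact Ff.var 6 | exact Ff.var 7 | exact Ff.var 8 | exact Ff.var 9 | exact Ff.var 10 | exact Ff.const _ | with_reducible apply Ff.mul | with_reducible apply Ff.div | with_reducible apply Ff.sub | with_reducible apply Ff.add | with_reducible apply Ff.pow | with_reducible apply Ff.neg | with_reducible apply Ff.inv)).imp ((Df.dv (by repeat' first | exact Ff.var 0 | exact Ff.var 1 | exact Ff.var 2 | exact Ff.var 3 | exact Ff.var 4 | exact Ff.var 5 | exact Ff.var 6 | exact Ff.var 7 | exact Ff.var 8 | exact Ff.var 9 | exact Ff.var 10 | exact Ff.const _ | with_reducible apply Ff.mul | with_reducible apply Ff.div | with_reducible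 apply Ff.sub | with_reducible apply Ff.add | with_reducible apply Ff.pow | with_reducible apply Ff.neg | with_reducible apply Ff.inv) (by repeat' first | exact Ff.var 0 | exact Ff.var 1 | exact Ff.var 2 | exact Ff.var 3 | exact Ff.var 4 | exact Ff.var 5 | exact Ff.var 6 | exact Ff.var 7 | exact Ff.var 8 | exact Ff.var 9 | exact Ff.var 10 | exact Ff.const _ | with_reducible apply Ff.mul | with_reducible apply Ff.div | with_reducible apply Ff.sub | with_reducible apply Ff.add | with_reducible apply Ff.pow | with_reducible apply Ff.neg | with_reducible apply Ff.inv)).imp (Df.dv (by repeat' first | exact Ff.var 0 | exact Ff.var 1 | exact Ff.var 2 | exact Ff.var 3 | exact Ff.var 4 | exact Ff.var 5 | exact Ff.var 6 | exact Ff.var 7 | exact Ff.var 8 | exact Ff.var 9 | exact Ff.var 10 | exact Ff.const _ | with_reducible apply Ff.mul | with_reducible apply Ff.div | with_reducible apply Ff.sub | with_reducible apply Ff.add | with_reducible apply Ff.pow | with_reducible apply Ff.neg | with_reducible apply Ff.inv) (by repeat' first | exact Ff.var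 0 | exact Ff.var 1 | exact Ff.var 2 | exact Ff.var 3 | exact Ff.var 4 | exact Ff.var 5 | exact Ff.var 6 | exact Ff.var 7 | exact Ff.var 8 | exact Ff.var 9 | exact Ff.var 10 | exact Ff.const _ | with_reducible apply Ff.mul | with_reducible apply Ff.div | with_reducible apply Ff.sub | with_reducible apply Ff.add | with_reducible apply Ff.pow | with_reducible apply Ff.neg | with_reducible apply Ff.inv)).not)
    · refine Df.all (X := fun (q : (((((Unit × (LaurentSeries (ZMod p))) × (LaurentSeries (ZMod p))) × (LaurentSeries (ZMod p))) × (LaurentSeries (ZMod p))) × (LaurentSeries (ZMod p))) × (LaurentSeries (ZMod p))) b =>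
        C0 (VS (S q.1.1.1.1.2)) (q.1.1.1.2 / q.1.2) b →
        C0 (VS (S q.1.1.1.1.2)) (q.1.1.1.2 / q.2) (tt p * b)) ?_
      exact (hC.app (by repeat' first | exact Ff.var 0 | exact Ff.var 1 | exact Ff.var 2 | exact Ff.var 3 | exact Ff.var 4 | exact Ff.var 5 | exact Ff.var 6 | exact Ff.var 7 | exact Ff.var 8 | exact Ff.var 9 | exact Ff.var 10 | exact Ff.const _ | with_reducible apply Ff.mul | with_reducible apply Ff.div | with_reducible apply Ff.sub | with_reducible apply Ff.add | with_reducible apply Ff.pow | with_reducible apply Ff.neg | with_reducible apply Ff.inv) (by repeat' first | exact Ff.var 0 | exact Ff.var 1 | exact Ff.var 2 | exact Ff.var 3 | exact Ff.var 4 | exact Ff.var 5 | exact Ff.var 6 | exact Ff.var 7 | exact Ff.var 8 | exact Ff.var 9 | exact Ff.var 10 | exact Ff.const _ | with_reducible apply Ff.mul | with_reducible apply Ff.div | with_reducible apply Ff.sub | with_reducible apply Ff.add | with_reducible apply Ff.pow | with_reducible apply Ff.neg | with_reducible apply Ff.inv) (by repeat' first | exact Ff.var 0 |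 exact Ff.var 1 | exact Ff.var 2 | exact Ff.var 3 | exact Ff.var 4 | exact Ff.var 5 | exact Ff.var 6 | exact Ff.var 7 | exact Ff.var 8 | exact Ff.var 9 | exact Ff.var 10 | exact Ff.const _ | with_reducible apply Ff.mul | with_reducible apply Ff.div | with_reducible apply Ff.sub | with_reducible apply Ff.add | with_reducible apply Ff.pow | with_reducible apply Ff.neg | with_reducible apply Ff.inv)).imp (hC.app (by repeat' first | exact Ff.var 0 | exact Ff.var 1 | exact Ff.var 2 | exact Ff.var 3 | exact Ff.var 4 | exact Ff.var 5 | exact Ff.var 6 | exact Ff.var 7 | exact Ff.var 8 | exact Ff.var 9 | exact Ff.var 10 | exact Ff.const _ | with_reducible apply Ff.mul | with_reducible apply Ff.div | with_reducible apply Ff.sub | with_reducible apply Ff.add | with_reducible apply Ff.pow | with_reducible apply Ff.neg | with_reducible apply Ff.inv) (by repeat' first | exact Ff.var 0 | exact Ff.var 1 | exact Ff.var 2 | exact Ff.var 3 | exact Ff.var 4 | exact Ff.var 5 | exact Ff.var 6 | exact Ff.var 7 | exact Ff.var 8 | exact Ff.var 9 | exact Ff.var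 10 | exact Ff.const _ | with_reducible apply Ff.mul | with_reducible apply Ff.div | with_reducible apply Ff.sub | with_reducible apply Ff.add | with_reducible apply Ff.pow | with_reducible apply Ff.neg | with_reducible apply Ff.inv) (by repeat' first | exact Ff.var 0 | exact Ff.var 1 | exact Ff.var 2 | exact Ff.var 3 | exact Ff.var 4 | exact Ff.var 5 | exact Ff.var 6 | exact Ff.var 7 | exact Ff.var 8 | exact Ff.var 9 | exact Ff.var 10 | exact Ff.const _ | with_reducible apply Ff.mul | with_reducible apply Ff.div | with_reducible apply Ff.sub | with_reducible apply Ff.add | with_reducible apply Ff.pow | with_reducible apply Ff.neg | with_reducible apply Ff.inv))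
  · refine Df.ex (X := fun (q : (((Unit × (LaurentSeries (ZMod p))) × (LaurentSeries (ZMod p))) × (LaurentSeries (ZMod p))) × (LaurentSeries (ZMod p))) d => DD S d ∧
      Dv (tt p * d) q.2 ∧ C0 (VS (S q.1.1.2)) (q.1.2 / d) q.1.1.1.2) ?_
    exact (hD.app (by repeat' first | exact Ff.var 0 | exact Ff.var 1 | exact Ff.var 2 | exact Ff.var 3 | exact Ff.var 4 | exact Ff.var 5 | exact Ff.var 6 | exact Ff.var 7 | exact Ff.var 8 | exact Ff.var 9 | exact Ff.var 10 | exact Ff.const _ | with_reducible apply Ff.mul | with_reducible apply Ff.div | with_reducible apply Ff.sub | with_reducible apply Ff.add | with_reducible apply Ff.pow | with_reducible apply Ff.neg | with_reducible apply Ff.inv)).and ((Df.dv (by repeat' first | exact Ff.var 0 | exact Ff.var 1 | exact Ff.var 2 | exact Ff.var 3 | exact Ff.var 4 | exact Ff.var 5 | exact Ff.var 6 | exact Ff.var 7 | exact Ff.var 8 | exact Ff.var 9 | exact Ff.var 10 | exact Ff.const _ | with_reducible apply Ff.mul | with_reducible apply Ff.div | with_reducible apply Ff.sub | with_reducible apply Ff.add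 | with_reducible apply Ff.pow | with_reducible apply Ff.neg | with_reducible apply Ff.inv) (by repeat' first | exact Ff.var 0 | exact Ff.var 1 | exact Ff.var 2 | exact Ff.var 3 | exact Ff.var 4 | exact Ff.var 5 | exact Ff.var 6 | exact Ff.var 7 | exact Ff.var 8 | exact Ff.var 9 | exact Ff.var 10 | exact Ff.const _ | with_reducible apply Ff.mul | with_reducible apply Ff.div | with_reducible apply Ff.sub | with_reducible apply Ff.add | with_reducible apply Ff.pow | with_reducible apply Ff.neg | with_reducible apply Ff.inv)).and (hC.app (by repeat' first | exact Ff.var 0 | exact Ff.var 1 | exact Ff.var 2 | exact Ff.var 3 | exact Ff.var 4 | exact Ff.var 5 | exact Ff.var 6 | exact Ff.var 7 | exact Ff.var 8 | exact Ff.var 9 | exact Ff.var 10 | exact Ff.const _ | with_reducible apply Ff.mul | with_reducible apply Ff.div | with_reducible apply Ff.sub | with_reducible apply Ff.add | with_reducible apply Ff.pow | with_reducible apply Ff.neg | with_reducible apply Ff.inv) (by repeat' first | exact Ff.var 0 | exact Ff.var 1 | exact Ff.var 2 | exact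 Ff.var 3 | exact Ff.var 4 | exact Ff.var 5 | exact Ff.var 6 | exact Ff.var 7 | exact Ff.var 8 | exact Ff.var 9 | exact Ff.var 10 | exact Ff.const _ | with_reducible apply Ff.mul | with_reducible apply Ff.div | with_reducible apply Ff.sub | with_reducible apply Ff.add | with_reducible apply Ff.pow | with_reducible apply Ff.neg | with_reducible apply Ff.inv) (by repeat' first | exact Ff.var 0 | exact Ff.var 1 | exact Ff.var 2 | exact Ff.var 3 | exact Ff.var 4 | exact Ff.var 5 | exact Ff.var 6 | exact Ff.var 7 | exact Ff.var 8 | exact Ff.var 9 | exact Ff.var 10 | exact Ff.const _ | with_reducible apply Ff.mul | with_reducible apply Ff.div | with_reducible apply Ff.sub | with_reducible apply Ff.add | with_reducible apply Ff.pow | with_reducible apply Ff.neg | with_reducible apply Ff.inv)))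

end base

end Pool.Agent.H87F
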