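import Pool.Agent.Q10.E8.Roots

/-!
# The list of roots as a structured list, and sums of eighth powers
-/

set_option autoImplicit false

namespace Pool.Agent.H87F.E8Form

open Pool.Agent.Q10.E8

/-- the roots of the first type -/
def G1 : List V8 := [
  ⟨.ofNat 2, .ofNat 2, .ofNat 0, .ofNat 0, .ofNat 0, .ofNat 0, .ofNat 0, .ofNat 0⟩,
  ⟨.ofNat 2, .negSucc 1, .ofNat 0, .ofNat 0, .ofNat 0, .ofNat 0, .ofNat 0, .ofNat 0⟩,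
  ⟨.negSucc 1, .ofNat 2, .ofNat 0, .ofNat 0, .ofNat 0, .ofNat 0, .ofNat 0, .ofNat 0⟩,
  ⟨.negSucc 1, .negSucc 1, .ofNat 0, .ofNat 0, .ofNat 0, .ofNat 0, .ofNat 0, .ofNat 0⟩,
  ⟨.ofNat 2, .ofNat 0, .ofNat 2, .ofNat 0, .ofNat 0, .ofNat 0, .ofNat 0, .ofNat 0⟩,
  ⟨.ofNat 2, .ofNat 0, .negSucc 1, .ofNat 0, .ofNat 0, .ofNat 0, .ofNat 0, .ofNat 0⟩,
  ⟨.negSucc 1, .ofNat 0, .ofNat 2, .ofNat 0, .ofNat 0, .ofNat 0, .ofNat 0, .ofNat 0⟩,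
  ⟨.negSucc 1, .ofNat 0, .negSucc 1, .ofNat 0, .ofNat 0, .ofNat 0, .ofNat 0, .ofNat 0⟩,
  ⟨.ofNat 2, .ofNat 0, .ofNat 0, .ofNat 2, .ofNat 0, .ofNat 0, .ofNat 0, .ofNat 0⟩,
  ⟨.ofNat 2, .ofNat 0, .ofNat 0, .negSucc 1, .ofNat 0, .ofNat 0, .ofNat 0, .ofNat 0⟩,
  ⟨.negSucc 1, .ofNat 0, .ofNat 0, .ofNat 2, .ofNat 0, .ofNat 0, .ofNat 0, .ofNat 0⟩,
  ⟨.negSucc 1, .ofNat 0, .ofNat 0, .negSucc 1, .ofNat 0, .ofNat 0, .ofNat 0, .ofNat 0⟩,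
  ⟨.ofNat 2, .ofNat 0, .ofNat 0, .ofNat 0, .ofNat 2, .ofNat 0, .ofNat 0, .ofNat 0⟩,
  ⟨.ofNat 2, .ofNat 0, .ofNat 0, .ofNat 0, .negSucc 1, .ofNat 0, .ofNat 0, .ofNat 0⟩,
  ⟨.negSucc 1, .ofNat 0, .ofNat 0, .ofNat 0, .ofNat 2, .ofNat 0, .ofNat 0, .ofNat 0⟩,
  ⟨.negSucc 1, .ofNat 0, .ofNat 0, .ofNat 0, .negSucc 1, .ofNat 0, .ofNat 0, .ofNat 0⟩,
  ⟨.ofNat 2, .ofNat 0, .ofNat 0, .ofNat 0, .ofNat 0, .ofNat 2, .ofNat 0, .ofNat 0⟩,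
  ⟨.ofNat 2, .ofNat 0, .ofNat 0, .ofNat 0, .ofNat 0, .negSucc 1, .ofNat 0, .ofNat 0⟩,
  ⟨.negSucc 1, .ofNat 0, .ofNat 0, .ofNat 0, .ofNat 0, .ofNat 2, .ofNat 0, .ofNat 0⟩,
  ⟨.negSucc 1, .ofNat 0, .ofNat 0, .ofNat 0, .ofNat 0, .negSucc 1, .ofNat 0, .ofNat 0⟩,
  ⟨.ofNat 2, .ofNat 0, .ofNat 0, .ofNat 0, .ofNat 0, .ofNat 0, .ofNat 2, .ofNat 0⟩,
  ⟨.ofNat 2, .ofNat 0, .ofNat 0, .ofNat 0, .ofNat 0, .ofNat 0, .negSucc 1, .ofNat 0⟩,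
  ⟨.negSucc 1, .ofNat 0, .ofNat 0, .ofNat 0, .ofNat 0, .ofNat 0, .ofNat 2, .ofNat 0⟩,
  ⟨.negSucc 1, .ofNat 0, .ofNat 0, .ofNat 0, .ofNat 0, .ofNat 0, .negSucc 1, .ofNat 0⟩,
  ⟨.ofNat 2, .ofNat 0, .ofNat 0, .ofNat 0, .ofNat 0, .ofNat 0, .ofNat 0, .ofNat 2⟩,
  ⟨.ofNat 2, .ofNat 0, .ofNat 0, .ofNat 0, .ofNat 0, .ofNat 0, .ofNat 0, .negSucc 1⟩,
  ⟨.negSucc 1, .ofNat 0, .ofNat 0, .ofNat 0, .ofNat 0, .ofNat 0, .ofNat 0, .ofNat 2⟩,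
  ⟨.negSucc 1, .ofNat 0, .ofNat 0, .ofNat 0, .ofNat 0, .ofNat 0, .ofNat 0, .negSucc 1⟩,
  ⟨.ofNat 0, .ofNat 2, .ofNat 2, .ofNat 0, .ofNat 0, .ofNat 0, .ofNat 0, .ofNat 0⟩,
  ⟨.ofNat 0, .ofNat 2, .negSucc 1, .ofNat 0, .ofNat 0, .ofNat 0, .ofNat 0, .ofNat 0⟩,
  ⟨.ofNat 0, .negSucc 1, .ofNat 2, .ofNat 0, .ofNat 0, .ofNat 0, .ofNat 0, .ofNat 0⟩,
  ⟨.ofNat 0, .negSucc 1, .negSucc 1, .ofNat 0, .ofNat 0, .ofNat 0, .ofNat 0, .ofNat 0⟩,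
  ⟨.ofNat 0, .ofNat 2, .ofNat 0, .ofNat 2, .ofNat 0, .ofNat 0, .ofNat 0, .ofNat 0⟩,
  ⟨.ofNat 0, .ofNat 2, .ofNat 0, .negSucc 1, .ofNat 0, .ofNat 0, .ofNat 0, .ofNat 0⟩,
  ⟨.ofNat 0, .negSucc 1, .ofNat 0, .ofNat 2, .ofNat 0, .ofNat 0, .ofNat 0, .ofNat 0⟩,
  ⟨.ofNat 0, .negSucc 1, .ofNat 0, .negSucc 1, .ofNat 0, .ofNat 0, .ofNat 0, .ofNat 0⟩,
  ⟨.ofNat 0, .ofNat 2, .ofNat 0, .ofNat 0, .ofNat 2, .ofNat 0, .ofNat 0, .ofNat 0⟩,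
  ⟨.ofNat 0, .ofNat 2, .ofNat 0, .ofNat 0, .negSucc 1, .ofNat 0, .ofNat 0, .ofNat 0⟩,
  ⟨.ofNat 0, .negSucc 1, .ofNat 0, .ofNat 0, .ofNat 2, .ofNat 0, .ofNat 0, .ofNat 0⟩,
  ⟨.ofNat 0, .negSucc 1, .ofNat 0, .ofNat 0, .negSucc 1, .ofNat 0, .ofNat 0, .ofNat 0⟩,
  ⟨.ofNat 0, .ofNat 2, .ofNat 0, .ofNat 0, .ofNat 0, .ofNat 2, .ofNat 0, .ofNat 0⟩,
  ⟨.ofNat 0, .ofNat 2, .ofNat 0, .ofNat 0, .ofNat 0, .negSucc 1, .ofNat 0, .ofNat 0⟩,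
  ⟨.ofNat 0, .negSucc 1, .ofNat 0, .ofNat 0, .ofNat 0, .ofNat 2, .ofNat 0, .ofNat 0⟩,
  ⟨.ofNat 0, .negSucc 1, .ofNat 0, .ofNat 0, .ofNat 0, .negSucc 1, .ofNat 0, .ofNat 0⟩,
  ⟨.ofNat 0, .ofNat 2, .ofNat 0, .ofNat 0, .ofNat 0, .ofNat 0, .ofNat 2, .ofNat 0⟩,
  ⟨.ofNat 0, .ofNat 2, .ofNat 0, .ofNat 0, .ofNat 0, .ofNat 0, .negSucc 1, .ofNat 0⟩,
  ⟨.ofNat 0, .negSucc 1, .ofNat 0, .ofNat 0, .ofNat 0, .ofNat 0, .ofNat 2, .ofNat 0⟩,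
  ⟨.ofNat 0, .negSucc 1, .ofNat 0, .ofNat 0, .ofNat 0, .ofNat 0, .negSucc 1, .ofNat 0⟩,
  ⟨.ofNat 0, .ofNat 2, .ofNat 0, .ofNat 0, .ofNat 0, .ofNat 0, .ofNat 0, .ofNat 2⟩,
  ⟨.ofNat 0, .ofNat 2, .ofNat 0, .ofNat 0, .ofNat 0, .ofNat 0, .ofNat 0, .negSucc 1⟩,
  ⟨.ofNat 0, .negSucc 1, .ofNat 0, .ofNat 0, .ofNat 0, .ofNat 0, .ofNat 0, .ofNat 2⟩,
  ⟨.ofNat 0, .negSucc 1, .ofNat 0, .ofNat 0, .ofNat 0, .ofNat 0, .ofNat 0, .negSucc 1⟩,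
  ⟨.ofNat 0, .ofNat 0, .ofNat 2, .ofNat 2, .ofNat 0, .ofNat 0, .ofNat 0, .ofNat 0⟩,
  ⟨.ofNat 0, .ofNat 0, .ofNat 2, .negSucc 1, .ofNat 0, .ofNat 0, .ofNat 0, .ofNat 0⟩,
  ⟨.ofNat 0, .ofNat 0, .negSucc 1, .ofNat 2, .ofNat 0, .ofNat 0, .ofNat 0, .ofNat 0⟩,
  ⟨.ofNat 0, .ofNat 0, .negSucc 1, .negSucc 1, .ofNat 0, .ofNat 0, .ofNat 0, .ofNat 0⟩,
  ⟨.ofNat 0, .ofNat 0, .ofNat 2, .ofNat 0, .ofNat 2, .ofNat 0, .ofNat 0, .ofNat 0⟩,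
  ⟨.ofNat 0, .ofNat 0, .ofNat 2, .ofNat 0, .negSucc 1, .ofNat 0, .ofNat 0, .ofNat 0⟩,
  ⟨.ofNat 0, .ofNat 0, .negSucc 1, .ofNat 0, .ofNat 2, .ofNat 0, .ofNat 0, .ofNat 0⟩,
  ⟨.ofNat 0, .ofNat 0, .negSucc 1, .ofNat 0, .negSucc 1, .ofNat 0, .ofNat 0, .ofNat 0⟩,
  ⟨.ofNat 0, .ofNat 0, .ofNat 2, .ofNat 0, .ofNat 0, .ofNat 2, .ofNat 0, .ofNat 0⟩,
  ⟨.ofNat 0, .ofNat 0, .ofNat 2, .ofNat 0, .ofNat 0, .negSucc 1, .ofNat 0, .ofNat 0⟩,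
  ⟨.ofNat 0, .ofNat 0, .negSucc 1, .ofNat 0, .ofNat 0, .ofNat 2, .ofNat 0, .ofNat 0⟩,
  ⟨.ofNat 0, .ofNat 0, .negSucc 1, .ofNat 0, .ofNat 0, .negSucc 1, .ofNat 0, .ofNat 0⟩,
  ⟨.ofNat 0, .ofNat 0, .ofNat 2, .ofNat 0, .ofNat 0, .ofNat 0, .ofNat 2, .ofNat 0⟩,
  ⟨.ofNat 0, .ofNat 0, .ofNat 2, .ofNat 0, .ofNat 0, .ofNat 0, .negSucc 1, .ofNat 0⟩,
  ⟨.ofNat 0, .ofNat 0, .negSucc 1, .ofNat 0, .ofNat 0, .ofNat 0, .ofNat 2, .ofNat 0⟩,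
  ⟨.ofNat 0, .ofNat 0, .negSucc 1, .ofNat 0, .ofNat 0, .ofNat 0, .negSucc 1, .ofNat 0⟩,
  ⟨.ofNat 0, .ofNat 0, .ofNat 2, .ofNat 0, .ofNat 0, .ofNat 0, .ofNat 0, .ofNat 2⟩,
  ⟨.ofNat 0, .ofNat 0, .ofNat 2, .ofNat 0, .ofNat 0, .ofNat 0, .ofNat 0, .negSucc 1⟩,
  ⟨.ofNat 0, .ofNat 0, .negSucc 1, .ofNat 0, .ofNat 0, .ofNat 0, .ofNat 0, .ofNat 2⟩,
  ⟨.ofNat 0, .ofNat 0, .negSucc 1, .ofNat 0, .ofNat 0, .ofNat 0, .ofNat 0, .negSucc 1⟩,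
  ⟨.ofNat 0, .ofNat 0, .ofNat 0, .ofNat 2, .ofNat 2, .ofNat 0, .ofNat 0, .ofNat 0⟩,
  ⟨.ofNat 0, .ofNat 0, .ofNat 0, .ofNat 2, .negSucc 1, .ofNat 0, .ofNat 0, .ofNat 0⟩,
  ⟨.ofNat 0, .ofNat 0, .ofNat 0, .negSucc 1, .ofNat 2, .ofNat 0, .ofNat 0, .ofNat 0⟩,
  ⟨.ofNat 0, .ofNat 0, .ofNat 0, .negSucc 1, .negSucc 1, .ofNat 0, .ofNat 0, .ofNat 0⟩,
  ⟨.ofNat 0, .ofNat 0, .ofNat 0, .ofNat 2, .ofNat 0, .ofNat 2, .ofNat 0, .ofNat 0⟩,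
  ⟨.ofNat 0, .ofNat 0, .ofNat 0, .ofNat 2, .ofNat 0, .negSucc 1, .ofNat 0, .ofNat 0⟩,
  ⟨.ofNat 0, .ofNat 0, .ofNat 0, .negSucc 1, .ofNat 0, .ofNat 2, .ofNat 0, .ofNat 0⟩,
  ⟨.ofNat 0, .ofNat 0, .ofNat 0, .negSucc 1, .ofNat 0, .negSucc 1, .ofNat 0, .ofNat 0⟩,
  ⟨.ofNat 0, .ofNat 0, .ofNat 0, .ofNat 2, .ofNat 0, .ofNat 0, .ofNat 2, .ofNat 0⟩,
  ⟨.ofNat 0, .ofNat 0, .ofNat 0, .ofNat 2, .ofNat 0, .ofNat 0, .negSucc 1, .ofNat 0⟩,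
  ⟨.ofNat 0, .ofNat 0, .ofNat 0, .negSucc 1, .ofNat 0, .ofNat 0, .ofNat 2, .ofNat 0⟩,
  ⟨.ofNat 0, .ofNat 0, .ofNat 0, .negSucc 1, .ofNat 0, .ofNat 0, .negSucc 1, .ofNat 0⟩,
  ⟨.ofNat 0, .ofNat 0, .ofNat 0, .ofNat 2, .ofNat 0, .ofNat 0, .ofNat 0, .ofNat 2⟩,
  ⟨.ofNat 0, .ofNat 0, .ofNat 0, .ofNat 2, .ofNat 0, .ofNat 0, .ofNat 0, .negSucc 1⟩,
  ⟨.ofNat 0, .ofNat 0, .ofNat 0, .negSucc 1, .ofNat 0, .ofNat 0, .ofNat 0, .ofNat 2⟩,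
  ⟨.ofNat 0, .ofNat 0, .ofNat 0, .negSucc 1, .ofNat 0, .ofNat 0, .ofNat 0, .negSucc 1⟩,
  ⟨.ofNat 0, .ofNat 0, .ofNat 0, .ofNat 0, .ofNat 2, .ofNat 2, .ofNat 0, .ofNat 0⟩,
  ⟨.ofNat 0, .ofNat 0, .ofNat 0, .ofNat 0, .ofNat 2, .negSucc 1, .ofNat 0, .ofNat 0⟩,
  ⟨.ofNat 0, .ofNat 0, .ofNat 0, .ofNat 0, .negSucc 1, .ofNat 2, .ofNat 0, .ofNat 0⟩,
  ⟨.ofNat 0, .ofNat 0, .ofNat 0, .ofNat 0, .negSucc 1, .negSucc 1, .ofNat 0, .ofNat 0⟩,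
  ⟨.ofNat 0, .ofNat 0, .ofNat 0, .ofNat 0, .ofNat 2, .ofNat 0, .ofNat 2, .ofNat 0⟩,
  ⟨.ofNat 0, .ofNat 0, .ofNat 0, .ofNat 0, .ofNat 2, .ofNat 0, .negSucc 1, .ofNat 0⟩,
  ⟨.ofNat 0, .ofNat 0, .ofNat 0, .ofNat 0, .negSucc 1, .ofNat 0, .ofNat 2, .ofNat 0⟩,
  ⟨.ofNat 0, .ofNat 0, .ofNat 0, .ofNat 0, .negSucc 1, .ofNat 0, .negSucc 1, .ofNat 0⟩,
  ⟨.ofNat 0, .ofNat 0, .ofNat 0, .ofNat 0, .ofNat 2, .ofNat 0, .ofNat 0, .ofNat 2⟩,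
  ⟨.ofNat 0, .ofNat 0, .ofNat 0, .ofNat 0, .ofNat 2, .ofNat 0, .ofNat 0, .negSucc 1⟩,
  ⟨.ofNat 0, .ofNat 0, .ofNat 0, .ofNat 0, .negSucc 1, .ofNat 0, .ofNat 0, .ofNat 2⟩,
  ⟨.ofNat 0, .ofNat 0, .ofNat 0, .ofNat 0, .negSucc 1, .ofNat 0, .ofNat 0, .negSucc 1⟩,
  ⟨.ofNat 0, .ofNat 0, .ofNat 0, .ofNat 0, .ofNat 0, .ofNat 2, .ofNat 2, .ofNat 0⟩,
  ⟨.ofNat 0, .ofNat 0, .ofNat 0, .ofNat 0, .ofNat 0, .ofNat 2, .negSucc 1, .ofNat 0⟩,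
  ⟨.ofNat 0, .ofNat 0, .ofNat 0, .ofNat 0, .ofNat 0, .negSucc 1, .ofNat 2, .ofNat 0⟩,
  ⟨.ofNat 0, .ofNat 0, .ofNat 0, .ofNat 0, .ofNat 0, .negSucc 1, .negSucc 1, .ofNat 0⟩,
  ⟨.ofNat 0, .ofNat 0, .ofNat 0, .ofNat 0, .ofNat 0, .ofNat 2, .ofNat 0, .ofNat 2⟩,
  ⟨.ofNat 0, .ofNat 0, .ofNat 0, .ofNat 0, .ofNat 0, .ofNat 2, .ofNat 0, .negSucc 1⟩,
  ⟨.ofNat 0, .ofNat 0, .ofNat 0, .ofNat 0, .ofNat 0, .negSucc 1, .ofNat 0, .ofNat 2⟩,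
  ⟨.ofNat 0, .ofNat 0, .ofNat 0, .ofNat 0, .ofNat 0, .negSucc 1, .ofNat 0, .negSucc 1⟩,
  ⟨.ofNat 0, .ofNat 0, .ofNat 0, .ofNat 0, .ofNat 0, .ofNat 0, .ofNat 2, .ofNat 2⟩,
  ⟨.ofNat 0, .ofNat 0, .ofNat 0, .ofNat 0, .ofNat 0, .ofNat 0, .ofNat 2, .negSucc 1⟩,
  ⟨.ofNat 0, .ofNat 0, .ofNat 0, .ofNat 0, .ofNat 0, .ofNat 0, .negSucc 1, .ofNat 2⟩,
  ⟨.ofNat 0, .ofNat 0, .ofNat 0, .ofNat 0, .ofNat 0, .ofNat 0, .negSucc 1, .negSucc 1⟩]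

/-- all lists of signs -/
def signs : ℕ → List (List ℤ)
  | 0 => [[]]
  | n + 1 => (signs n).map (List.cons (.ofNat 1)) ++ (signs n).map (List.cons (.negSucc 0))

/-- a root of the second type -/
def toV : List ℤ → V8
  | [a, b, c, d, e, f, g] => ⟨a, b, c, d, e, f, g, a * b * c * d * e * f * g⟩
  | _ => ⟨0, 0, 0, 0, 0, 0, 0, 0⟩

/-- equality -/
instance instBEq : BEq V8 := ⟨V8.eq⟩

instance : LawfulBEq V8 where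
  eq_of_beq := fun {a b} h => (V8.eq_iff a b).1 h
  rfl := fun {a} => (V8.eq_iff a a).2 rfl

theorem perm_dec : List.isPerm AllR (G1 ++ (signs 7).map toV) = true := by
  decide +kernel

theorem perm : AllR.Perm (G1 ++ (signs 7).map toV) := List.isPerm_iff.1 perm_dec

/-- the sum of the eighth powers over the signs, one at a time -/
def S : List ℤ → ℤ → ℤ
  | [], y => y ^ 8
  | x :: l, y => S l (y + x) + S l (y - x)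

/-- power sums -/
def P (k : ℕ) (l : List ℤ) : ℤ := (l.map fun x => x ^ k).sum

theorem P_cons (k : ℕ) (x : ℤ) (l : List ℤ) : P k (x :: l) = x ^ k + P k l := rfl

theorem S_formula : ∀ (l : List ℤ) (y : ℤ), S l y = 2 ^ l.length * (y ^ 8 + 28 * y ^ 6 * P 2 l
    + 70 * y ^ 4 * (3 * P 2 l ^ 2 - 2 * P 4 l)
    + 28 * y ^ 2 * (15 * P 2 l ^ 3 - 30 * P 2 l * P 4 l + 16 * P 6 l)
    + (105 * P 2 l ^ 4 - 420 * P 2 l ^ 2 * P 4 l + 140 * P 4 l ^ 2 + 448 * P 2 l * P 6 l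
      - 272 * P 8 l))
  | [], y => by simp [S, P]
  | x :: l, y => by
    rw [S, S_formula l, S_formula l, P_cons, P_cons, P_cons, P_cons, List.length_cons, pow_succ]
    ring

/-- dot product -/
def dot : List ℤ → List ℤ → ℤ
  | a :: s, x :: l => a * x + dot s l
  | _, _ => 0

theorem sum_signs : ∀ (l : List ℤ) (y : ℤ),
    ((signs l.length).map fun s => (y + dot s l) ^ 8).sum = S l y
  | [], y => by simp [signs, S, dot]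
  | x :: l, y => by
    rw [List.length_cons, signs, List.map_append, List.sum_append, List.map_map, List.map_map, S,
      ← sum_signs l, ← sum_signs l]
    congr 2
    · refine List.map_congr_left fun s _ => ?_
      simp only [Function.comp_apply, dot]
      congr 1
      show y + (1 * x + dot s l) = _
      ring
    · refine List.map_congr_left fun s _ => ?_
      simp only [Function.comp_apply, dot]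
      congr 1
      show y + (-1 * x + dot s l) = _
      ring

theorem length_signs : ∀ (n : ℕ) (s : List ℤ), s ∈ signs n → s.length = n
  | 0, s, h => by
    simp only [signs, List.mem_singleton] at h
    rw [h]; rfl
  | n + 1, s, h => by
    simp only [signs, List.mem_append, List.mem_map] at h
    rcases h with ⟨t, ht, rfl⟩ | ⟨t, ht, rfl⟩
    · rw [List.length_cons, length_signs n t ht]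
    · rw [List.length_cons, length_signs n t ht]

/-- the linear form -/
def lin (z0 z1 z2 z3 z4 z5 : ℤ) (r : V8) : ℤ :=
  z0 * r.a0 + z1 * r.a1 + z2 * r.a2 + z3 * r.a3 + z4 * r.a4 + z5 * r.a5

theorem lin_toV (z0 z1 z2 z3 z4 z5 : ℤ) (s : List ℤ) (h : s ∈ signs 7) :
    lin z0 z1 z2 z3 z4 z5 (toV s) = 0 + dot s [z0, z1, z2, z3, z4, z5, 0] := by
  have hl := length_signs 7 s h
  match s, hl with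
  | [a, b, c, d, e, f, g], _ =>
    simp only [lin, toV, dot]
    ring

theorem sum_two (z0 z1 z2 z3 z4 z5 : ℤ) :
    (((signs 7).map toV).map fun r => lin z0 z1 z2 z3 z4 z5 r ^ 8).sum =
      S [z0, z1, z2, z3, z4, z5, 0] 0 := by
  rw [← sum_signs, List.map_map]
  congr 1
  refine List.map_congr_left fun s hs => ?_
  simp only [Function.comp_apply]
  rw [lin_toV z0 z1 z2 z3 z4 z5 s hs]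

theorem sum_one (z0 z1 z2 z3 z4 z5 : ℤ) :
    (G1.map fun r => lin z0 z1 z2 z3 z4 z5 r ^ 8).sum =
      256 * (112 * P 6 [z0, z1, z2, z3, z4, z5, 0] * P 2 [z0, z1, z2, z3, z4, z5, 0]
        + 140 * P 4 [z0, z1, z2, z3, z4, z5, 0] ^ 2 - 224 * P 8 [z0, z1, z2, z3, z4, z5, 0]) := by
  have e0 : (Int.ofNat 0 : ℤ) = 0 := rfl
  have e2 : (Int.ofNat 2 : ℤ) = 2 := rfl
  have e3 : (Int.negSucc 1 : ℤ) = -2 := rfl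
  simp only [G1, List.map_cons, List.map_nil, List.sum_cons, List.sum_nil, lin, P, e0, e2, e3,
    mul_zero, add_zero, zero_add]
  ring

theorem core (z0 z1 z2 z3 z4 z5 : ℤ) :
    (AllR.map fun r => lin z0 z1 z2 z3 z4 z5 r ^ 8).sum =
      128 * (105 * P 2 [z0, z1, z2, z3, z4, z5] ^ 4
        - 420 * P 4 [z0, z1, z2, z3, z4, z5] * P 2 [z0, z1, z2, z3, z4, z5] ^ 2
        + 420 * P 4 [z0, z1, z2, z3, z4, z5] ^ 2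
        + 672 * P 6 [z0, z1, z2, z3, z4, z5] * P 2 [z0, z1, z2, z3, z4, z5]
        - 720 * P 8 [z0, z1, z2, z3, z4, z5]) := by
  rw [(perm.map _).sum_eq, List.map_append, List.sum_append, sum_one, sum_two, S_formula]
  have h : ∀ k : ℕ, k ≠ 0 → P k [z0, z1, z2, z3, z4, z5, 0] = P k [z0, z1, z2, z3, z4, z5] := by
    intro k hk
    simp [P, hk]
  rw [h 2 (by norm_num), h 4 (by norm_num), h 6 (by norm_num), h 8 (by norm_num)]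
  simp only [List.length_cons, List.length_nil]
  ring

end Pool.Agent.H87F.E8Form
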