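import Pool.Agent.Helper2.E8C.Stm
import Pool.Agent.H87F.E8Form

/-!
# The sum of the eighth powers of the inner products with the roots, on vectors with two zero coordinates
-/

set_option autoImplicit false

namespace Pool.Agent.H87F.E8Form

open Pool.Agent.Q10.E8 Pool.Agent.Helper2.E8C

theorem isE8_z (z : Fin 6 → ℤ) (h : (∑ i, z i) % 2 = 0) :
    IsE8 ![2 * z 0, 2 * z 1, 2 * z 2, 2 * z 3, 2 * z 4, 2 * z 5, 0, 0] := by
  rw [Fin.sum_univ_six] at h
  constructor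
  · have : ∀ i, (![2 * z 0, 2 * z 1, 2 * z 2, 2 * z 3, 2 * z 4, 2 * z 5, 0, 0] : Fin 8 → ℤ) i % 2
        = 0 := by
      intro i
      fin_cases i <;> simp
    intro i j
    rw [this i, this j]
  · rw [Fin.sum_univ_eight]
    simp
    omega

theorem pr_z (z : Fin 6 → ℤ) (h : (∑ i, z i) % 2 = 0) (r : V8) (hr : r ∈ AllR) :
    2 * pr ![2 * z 0, 2 * z 1, 2 * z 2, 2 * z 3, 2 * z 4, 2 * z 5, 0, 0] r.f =
      lin (z 0) (z 1) (z 2) (z 3) (z 4) (z 5) r := by
  have h1 := pr_spec _ r.f (isE8_z z h) (good r hr).1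
  rw [Fin.sum_univ_eight] at h1
  simp [V8.f] at h1
  unfold lin
  unfold V8.f
  linarith

/-- FORM -/
theorem t_FORM : S_FORM := by
  intro z h
  have h1 := core (z 0) (z 1) (z 2) (z 3) (z 4) (z 5)
  have h2 : (AllR.map fun r => lin (z 0) (z 1) (z 2) (z 3) (z 4) (z 5) r ^ 8).sum =
      256 * rootSum ![2 * z 0, 2 * z 1, 2 * z 2, 2 * z 3, 2 * z 4, 2 * z 5, 0, 0] := by
    rw [rootSum_list, ← List.sum_map_mul_left]
    congr 1
    refine List.map_congr_left fun r hr => ?_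
    rw [← pr_z z h r hr]
    ring
  rw [h2] at h1
  have h3 : ∀ k, P k [z 0, z 1, z 2, z 3, z 4, z 5] = ∑ i, z i ^ k := by
    intro k
    rw [Fin.sum_univ_six]
    simp [P]
    ring
  rw [h3, h3, h3, h3] at h1
  linarith

end Pool.Agent.H87F.E8Form
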