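import Pool.Agent.Y924.EL.Defs

/-! # Formulas of second-order arithmetic -/

set_option autoImplicit false

namespace Pool.Agent.H87F

/-- formulas of second-order arithmetic, with the number variables `x_0, x_1, ...` and the set
variables `X_0, X_1, ...` -/
inductive Fm2 : Type
  | eq (i j : ℕ)
  | one (i : ℕ)
  | add (i j k : ℕ)
  | mul (i j k : ℕ)
  | mem (i j : ℕ)
  | neg (φ : Fm2)
  | and (φ ψ : Fm2)
  | exN (i : ℕ) (φ : Fm2)
  | exS (i : ℕ) (φ : Fm2)

/-- truth of a formula in full second-order arithmetic; `x_i` has the value `x i` (a natural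
number) and `X_j` has the value `X j` (a set of natural numbers) -/
def Sat2 : Fm2 → (ℕ → ℕ) → (ℕ → Set ℕ) → Prop
  | .eq i j, x, _ => x i = x j
  | .one i, x, _ => x i = 1
  | .add i j k, x, _ => x i + x j = x k
  | .mul i j k, x, _ => x i * x j = x k
  | .mem i j, x, X => x i ∈ X j
  | .neg φ, x, X => ¬ Sat2 φ x X
  | .and φ ψ, x, X => Sat2 φ x X ∧ Sat2 ψ x X
  | .exN i φ, x, X => ∃ a : ℕ, Sat2 φ (Function.update x i a) X
  | .exS i φ, x, X => ∃ A : Set ℕ, Sat2 φ x (Function.update X i A)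

/-- the code of a formula -/
def Fm2.code : Fm2 → ℕ
  | .eq i j => Nat.pair 0 (Nat.pair i j)
  | .one i => Nat.pair 1 i
  | .add i j k => Nat.pair 2 (Nat.pair i (Nat.pair j k))
  | .mul i j k => Nat.pair 3 (Nat.pair i (Nat.pair j k))
  | .mem i j => Nat.pair 4 (Nat.pair i j)
  | .neg φ => Nat.pair 5 φ.code
  | .and φ ψ => Nat.pair 6 (Nat.pair φ.code ψ.code)
  | .exN i φ => Nat.pair 7 (Nat.pair (2 * i) φ.code)
  | .exS i φ => Nat.pair 7 (Nat.pair (2 * i + 1) φ.code)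

/-- the free number variables -/
def Fm2.fvN : Fm2 → Finset ℕ
  | .eq i j => {i, j}
  | .one i => {i}
  | .add i j k => {i, j, k}
  | .mul i j k => {i, j, k}
  | .mem i _ => {i}
  | .neg φ => φ.fvN
  | .and φ ψ => φ.fvN ∪ ψ.fvN
  | .exN i φ => φ.fvN.erase i
  | .exS _ φ => φ.fvN

/-- the free set variables -/
def Fm2.fvS : Fm2 → Finset ℕ
  | .eq _ _ => ∅
  | .one _ => ∅
  | .add _ _ _ => ∅
  | .mul _ _ _ => ∅
  | .mem _ j => {j}
  | .neg φ => φ.fvS
  | .and φ ψ => φ.fvS ∪ ψ.fvS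
  | .exN _ φ => φ.fvS
  | .exS i φ => φ.fvS.erase i

end Pool.Agent.H87F
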