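import Pool.Agent.Y924.UF.Lem
import Pool.Agent.Y697.UF.Baire
import Pool.Agent.Y15.UF.Res

/-! # Power maps from finite subgroups of `F_p((t))` -/

set_option autoImplicit false

namespace Pool.Agent.H87F

open Function Polynomial
open Pool.Agent.Y924.UF
open WithZero LaurentSeries

section general

variable {F : Type} [Field F]

theorem deriv_eval (V : Finset F) (x : F) (hx : ∀ a ∈ V, x ≠ a) :
    (derivative (∏ a ∈ V, (X - C a))).eval x = (∏ a ∈ V, (x - a)) * ∑ a ∈ V, (x - a)⁻¹ := by
  classical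
  rw [Polynomial.derivative_prod_finset, eval_finsetSum, Finset.mul_sum]
  refine Finset.sum_congr rfl fun a ha => ?_
  have h1 : x - a ≠ 0 := sub_ne_zero.2 (hx a ha)
  simp only [derivative_sub, derivative_X, derivative_C, sub_zero, mul_one, eval_prod, eval_sub,
    eval_X, eval_C]
  rw [← Finset.prod_erase_mul V _ ha, mul_assoc, mul_inv_cancel₀ h1, mul_one]

/-- the derivative of the polynomial of a finite subgroup is constant -/
theorem deriv_const (V : Finset F) (h0 : (0 : F) ∈ V) (hs : ∀ a ∈ V, ∀ b ∈ V, a - b ∈ V) :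
    ∃ κ : F, κ ≠ 0 ∧ derivative (∏ a ∈ V, (X - C a)) = C κ := by
  classical
  set Q : F[X] := ∏ a ∈ V, (X - C a) with hQ
  have hev : ∀ b ∈ V, (derivative Q).eval b = ∏ a ∈ V.erase b, (b - a) := by
    intro b hb
    rw [hQ, Polynomial.derivative_prod_finset, eval_finsetSum, Finset.sum_eq_single b]
    · simp [eval_prod]
    · intro c hc hcb
      have : ∏ i ∈ V.erase c, (b - i) = 0 :=
        Finset.prod_eq_zero (Finset.mem_erase.2 ⟨Ne.symm hcb, hb⟩) (sub_self b)
      simp [eval_prod, this]
    · intro h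
      exact absurd hb h
  have hconst : ∀ b ∈ V, (derivative Q).eval b = (derivative Q).eval 0 := by
    intro b hb
    rw [hev b hb, hev 0 h0]
    refine Finset.prod_bij (fun a _ => a - b) ?_ ?_ ?_ ?_
    · intro a ha
      rw [Finset.mem_erase] at ha ⊢
      exact ⟨sub_ne_zero.2 ha.1, hs a ha.2 b hb⟩
    · intro a _ a' _ h
      exact sub_left_injective h
    · intro a ha
      rw [Finset.mem_erase] at ha
      have hb' : -b ∈ V := by
        have := hs 0 h0 b hb
        rwa [zero_sub] at this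
      refine ⟨a + b, Finset.mem_erase.2 ⟨?_, ?_⟩, by ring⟩
      · intro h
        exact ha.1 (by linear_combination h)
      · have := hs a ha.2 (-b) hb'
        rwa [sub_neg_eq_add] at this
    · intro a _
      ring
  refine ⟨(derivative Q).eval 0, ?_, ?_⟩
  · rw [hev 0 h0, Finset.prod_ne_zero_iff]
    intro a ha
    rw [Finset.mem_erase] at ha
    rw [zero_sub]
    exact neg_ne_zero.2 ha.1
  · have hdeg : Q.natDegree = V.card := by
      rw [hQ, natDegree_prod_of_monic _ _ (fun a _ => monic_X_sub_C a)]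
      simp
    have hpos : 0 < V.card := Finset.card_pos.2 ⟨0, h0⟩
    refine Polynomial.eq_of_degree_sub_lt_of_eval_finset_eq V ?_ ?_
    · refine lt_of_le_of_lt (degree_sub_le _ _) (max_lt ?_ ?_)
      · have hQ0 : Q ≠ 0 := by
          intro h
          rw [h] at hdeg
          simp at hdeg
          omega
        have h1 := degree_derivative_lt hQ0
        rw [degree_eq_natDegree hQ0, hdeg] at h1
        exact h1
      · refine lt_of_le_of_lt degree_C_le ?_
        exact_mod_cast hpos
    · intro b hb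
      rw [hconst b hb, eval_C]

theorem sum_inv (V : Finset F) (h0 : (0 : F) ∈ V) (hs : ∀ a ∈ V, ∀ b ∈ V, a - b ∈ V) :
    ∃ κ : F, κ ≠ 0 ∧ ∀ x, (∀ a ∈ V, x ≠ a) → ∑ a ∈ V, (x - a)⁻¹ = κ / ∏ a ∈ V, (x - a) := by
  obtain ⟨κ, hκ, h⟩ := deriv_const V h0 hs
  refine ⟨κ, hκ, fun x hx => ?_⟩
  have h1 := deriv_eval V x hx
  rw [h, eval_C] at h1
  have h2 : ∏ a ∈ V, (x - a) ≠ 0 := Finset.prod_ne_zero_iff.2 fun a ha => sub_ne_zero.2 (hx a ha)
  rw [h1, mul_div_cancel_left₀ _ h2]

theorem sum_inv_mul (V : Finset F) (h0 : (0 : F) ∈ V) (hs : ∀ a ∈ V, ∀ b ∈ V, a - b ∈ V) {c : F}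
    (hc : c ≠ 0) :
    ∃ κ : F, κ ≠ 0 ∧ ∀ x, (∀ a ∈ V, x ≠ c * a) →
      ∑ a ∈ V, (x - c * a)⁻¹ = κ / ∏ a ∈ V, (x - c * a) := by
  classical
  have hinj : Injective fun a : F => c * a := mul_right_injective₀ hc
  obtain ⟨κ, hκ, h⟩ := sum_inv (V.image fun a => c * a)
    (Finset.mem_image.2 ⟨0, h0, by simp⟩) (by
      intro a ha b hb
      obtain ⟨a', ha', rfl⟩ := Finset.mem_image.1 ha
      obtain ⟨b', hb', rfl⟩ := Finset.mem_image.1 hb
      exact Finset.mem_image.2 ⟨a' - b', hs _ ha' _ hb', by ring⟩)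
  refine ⟨κ, hκ, fun x hx => ?_⟩
  have h1 := h x (by
    intro a ha
    obtain ⟨a', ha', rfl⟩ := Finset.mem_image.1 ha
    exact hx a' ha')
  rwa [Finset.sum_image (fun a _ b _ hab => hinj hab),
    Finset.prod_image (fun a _ b _ hab => hinj hab)] at h1

/-- for all but finitely many `c` the elements `1 / (x - c a)`, `a ∈ V`, are linearly independent
over the finite subfield -/
theorem bad_set {k : Type} [Field k] [Fintype k] [DecidableEq k] [Algebra k F] [DecidableEq F]
    (V : Finset F) {x : F} (hx : x ≠ 0) :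
    ∃ B : Finset F, ∀ c, c ≠ 0 → c ∉ B → (∀ a ∈ V, x ≠ c * a) ∧
      ∀ d : V → k, d ≠ 0 → ∑ a : V, algebraMap k F (d a) * (x - c * a)⁻¹ ≠ 0 := by
  classical
  let Q : (V → k) → F[X] := fun d => ∑ a : V, C (algebraMap k F (d a)) *
    ∏ b ∈ Finset.univ.erase a, (C x - X * C (b : F))
  have hQ : ∀ d : V → k, d ≠ 0 → Q d ≠ 0 := by
    intro d hd h0
    by_cases hd1 : ∃ a : V, d a ≠ 0 ∧ (a : F) ≠ 0
    · obtain ⟨a, ha, ha0⟩ := hd1
      have h2 : (Q d).eval (x / a) = algebraMap k F (d a) *
          ∏ b ∈ Finset.univ.erase a, (x - x / a * (b : F)) := by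
        simp only [Q, eval_finsetSum, eval_mul, eval_C, eval_prod, eval_sub, eval_X]
        rw [Finset.sum_eq_single a]
        · intro b _ hb
          have : ∏ i ∈ Finset.univ.erase b, (x - x / (a : F) * (i : F)) = 0 :=
            Finset.prod_eq_zero (i := a) (Finset.mem_erase.2 ⟨Ne.symm hb, Finset.mem_univ _⟩)
              (by rw [div_mul_cancel₀ _ ha0, sub_self])
          rw [this, mul_zero]
        · intro h
          exact absurd (Finset.mem_univ _) h
      rw [h0, eval_zero] at h2
      rcases mul_eq_zero.1 h2.symm with h | h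
      · exact ha ((map_eq_zero _).1 h)
      · rw [Finset.prod_eq_zero_iff] at h
        obtain ⟨b, hb, hb2⟩ := h
        apply (Finset.mem_erase.1 hb).1
        apply Subtype.ext
        have h3 : x = x / (a : F) * (b : F) := sub_eq_zero.1 hb2
        have h4 : x * a = x * b := by
          conv_lhs => rw [h3]
          field_simp
        exact (mul_left_cancel₀ hx h4).symm
    · push Not at hd1
      obtain ⟨a, ha⟩ := Function.ne_iff.1 hd
      have ha0 : (a : F) = 0 := hd1 a ha
      have hz : ∀ b : V, b ≠ a → d b = 0 := by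
        intro b hb
        by_contra h
        exact hb (Subtype.ext ((hd1 b h).trans ha0.symm))
      have h2 : (Q d).eval 0 = algebraMap k F (d a) *
          ∏ b ∈ Finset.univ.erase a, x := by
        simp only [Q, eval_finsetSum, eval_mul, eval_C, eval_prod, eval_sub, eval_X]
        rw [Finset.sum_eq_single a]
        · simp
        · intro b _ hb
          rw [hz b hb, map_zero, zero_mul]
        · intro h
          exact absurd (Finset.mem_univ _) h
      rw [h0, eval_zero] at h2
      rcases mul_eq_zero.1 h2.symm with h | h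
      · exact ha ((map_eq_zero _).1 h)
      · rw [Finset.prod_eq_zero_iff] at h
        obtain ⟨b, -, hb2⟩ := h
        exact hx hb2
  refine ⟨(Finset.univ.biUnion fun d : V → k => (Q d).roots.toFinset) ∪ V.image (fun a => x / a),
    fun c hc hcB => ?_⟩
  rw [Finset.mem_union, not_or] at hcB
  obtain ⟨hc1, hc2⟩ := hcB
  have hne : ∀ a ∈ V, x ≠ c * a := by
    intro a ha h
    apply hc2
    refine Finset.mem_image.2 ⟨a, ha, ?_⟩
    have ha0 : a ≠ 0 := by
      rintro rfl
      exact hx (by rw [h, mul_zero])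
    rw [h, mul_div_cancel_right₀ _ ha0]
  refine ⟨hne, fun d hd h0 => ?_⟩
  apply hc1
  refine Finset.mem_biUnion.2 ⟨d, Finset.mem_univ _, ?_⟩
  rw [Multiset.mem_toFinset, mem_roots (hQ d hd)]
  show (Q d).eval c = 0
  have h3 : (Q d).eval c = (∑ a : V, algebraMap k F (d a) * (x - c * a)⁻¹) *
      ∏ b : V, (x - c * (b : F)) := by
    simp only [Q, eval_finsetSum, eval_mul, eval_C, eval_prod, eval_sub, eval_X]
    rw [Finset.sum_mul]
    refine Finset.sum_congr rfl fun a _ => ?_
    rw [← Finset.mul_prod_erase Finset.univ (fun b : V => x - c * (b : F)) (Finset.mem_univ a)]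
    have h4 : x - c * (a : F) ≠ 0 := sub_ne_zero.2 (hne a a.2)
    field_simp
  rw [h3, h0, zero_mul]

end general

section

variable {p : ℕ} [Fact p.Prime]

/-- `c` divides `x` -/
def Dv (c x : LaurentSeries (ZMod p)) : Prop := ∃ z, z ∈ OO p ∧ c * z = x

theorem dv_iff (c x : LaurentSeries (ZMod p)) :
    Dv c x ↔ (Valued.v x : WithZero (Multiplicative ℤ)) ≤ Valued.v c := by
  by_cases hc : c = 0
  · subst hc
    rw [map_zero]
    constructor
    · rintro ⟨z, -, rfl⟩
      simp
    · intro h
      have h1 : (Valued.v x : WithZero (Multiplicative ℤ)) = 0 := le_antisymm h zero_le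
      rw [(Valuation.zero_iff _).1 h1]
      exact ⟨0, ⟨0, by simp⟩, by simp⟩
  · exact Pool.Agent.Y697.UF.mem_mul_OO hc x

theorem lam_add (x y : LaurentSeries (ZMod p)) : lam p (x + y) = lam p x + lam p y := map_add _ _ _

theorem lam_smul (d : ZMod p) (x : LaurentSeries (ZMod p)) : lam p (d • x) = d * lam p x := rfl

theorem eq_of_lam {x y : LaurentSeries (ZMod p)} (h : ∀ s, lam p (s * x) = lam p (s * y)) :
    x = y := by
  by_contra hne
  obtain ⟨s, hs⟩ := lam_nondeg p (x - y) (sub_ne_zero.2 hne)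
  apply hs
  rw [mul_sub, map_sub, h s, sub_self]

/-- dual elements -/
theorem exists_dual {ι : Type} [Fintype ι] [DecidableEq ι] (h : ι → LaurentSeries (ZMod p))
    (hind : ∀ d : ι → ZMod p, d ≠ 0 → ∑ i, d i • h i ≠ 0) (r : ι → ZMod p) :
    ∃ s, ∀ i, lam p (s * h i) = r i := by
  let L : LaurentSeries (ZMod p) →ₗ[ZMod p] ZMod p := AddMonoidHom.toZModLinearMap p (lam p)
  have hL : ∀ x, L x = lam p x := fun x => rfl
  let Φ : LaurentSeries (ZMod p) →ₗ[ZMod p] (ι → ZMod p) :=
    LinearMap.pi fun i => L.comp (LinearMap.mulRight (ZMod p) (h i))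
  have hΦ : ∀ s i, Φ s i = lam p (s * h i) := fun s i => rfl
  have hsurj : LinearMap.range Φ = ⊤ := by
    by_contra hne
    obtain ⟨g, hg0, hg⟩ := Submodule.exists_le_ker_of_lt_top _ (lt_top_iff_ne_top.2 hne)
    let d : ι → ZMod p := fun x => g (fun j => if x = j then 1 else 0)
    have hgd : ∀ v, g v = ∑ x, v x • d x := fun v => LinearMap.pi_apply_eq_sum_univ g v
    have hd : d ≠ 0 := by
      intro h0
      apply hg0
      refine LinearMap.ext fun v => ?_
      rw [hgd, h0]
      simp
    obtain ⟨s, hs⟩ := lam_nondeg p _ (hind d hd)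
    apply hs
    have h1 : g (Φ s) = 0 := hg (LinearMap.mem_range_self Φ s)
    rw [hgd] at h1
    rw [← h1, Finset.mul_sum, ← hL, map_sum]
    refine Finset.sum_congr rfl fun x _ => ?_
    rw [hΦ, ← hL, mul_smul_comm, map_smul, smul_eq_mul, smul_eq_mul, mul_comm]
  obtain ⟨s, hs⟩ := LinearMap.range_eq_top.1 hsurj r
  exact ⟨s, fun i => by rw [← hΦ, hs]⟩

/-- `W` is the sum of the `1 / (x - c a)`, `a ∈ V`, if these elements are linearly independent -/
def IsE (V : Set (LaurentSeries (ZMod p))) (c x W : LaurentSeries (ZMod p)) : Prop :=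
  (∀ s, (∀ a, a ∈ V → lam p (s / (x - c * a)) = 0) → lam p (s * W) = 0) ∧
    ∀ a s, a ∈ V → lam p (s / (x - c * a)) = 1 →
      (∀ b, b ∈ V → b ≠ a → lam p (s / (x - c * b)) = 0) → lam p (s * W) = 1

theorem isE_iff (V : Finset (LaurentSeries (ZMod p))) (c x W : LaurentSeries (ZMod p))
    (hind : ∀ d : V → ZMod p, d ≠ 0 →
      ∑ a : V, d a • (x - c * (a : LaurentSeries (ZMod p)))⁻¹ ≠ 0) :
    IsE (V : Set (LaurentSeries (ZMod p))) c x W ↔ W = ∑ a ∈ V, (x - c * a)⁻¹ := by
  classical
  have hsum : ∑ a ∈ V, (x - c * a)⁻¹ = ∑ a : V, (x - c * (a : LaurentSeries (ZMod p)))⁻¹ := by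
    rw [← Finset.sum_coe_sort]
  constructor
  · rintro ⟨h1, h2⟩
    rw [hsum]
    have hd : ∀ a : V, ∃ s, ∀ b : V, lam p (s * (x - c * (b : LaurentSeries (ZMod p)))⁻¹) =
        if b = a then 1 else 0 := fun a => exists_dual _ hind _
    choose s hs using hd
    refine eq_of_lam fun r => ?_
    have h3 : lam p ((r - ∑ a : V, lam p (r * (x - c * (a : LaurentSeries (ZMod p)))⁻¹) • s a) * W)
        = 0 := by
      refine h1 _ fun b hb => ?_
      rw [div_eq_mul_inv, sub_mul, map_sub, Finset.sum_mul, map_sum,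
        Finset.sum_eq_single (⟨b, hb⟩ : V)]
      · have h5 := hs ⟨b, hb⟩ ⟨b, hb⟩
        rw [if_pos rfl] at h5
        rw [smul_mul_assoc, lam_smul, h5, mul_one, sub_self]
      · intro a _ ha
        have h4 := hs a ⟨b, hb⟩
        rw [smul_mul_assoc, lam_smul, h4, if_neg (Ne.symm ha), mul_zero]
      · intro h
        exact absurd (Finset.mem_univ _) h
    rw [sub_mul, map_sub, sub_eq_zero, Finset.sum_mul, map_sum] at h3
    rw [h3, Finset.mul_sum, map_sum]
    refine Finset.sum_congr rfl fun a _ => ?_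
    have h5 : lam p (s a * W) = 1 := by
      refine h2 a (s a) a.2 ?_ fun b hb hba => ?_
      · have := hs a a
        rwa [if_pos rfl, ← div_eq_mul_inv] at this
      · have := hs a ⟨b, hb⟩
        rw [if_neg (fun h => hba (congrArg Subtype.val h)), ← div_eq_mul_inv] at this
        exact this
    rw [smul_mul_assoc, lam_smul, h5, mul_one]
  · rintro rfl
    refine ⟨fun s hs => ?_, fun a s ha h1 hs => ?_⟩
    · rw [Finset.mul_sum, map_sum]
      refine Finset.sum_eq_zero fun a ha => ?_
      rw [← div_eq_mul_inv]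
      exact hs a ha
    · rw [Finset.mul_sum, map_sum, Finset.sum_eq_single a]
      · rw [← div_eq_mul_inv, h1]
      · intro b hb hba
        rw [← div_eq_mul_inv]
        exact hs b hb hba
      · intro h
        exact absurd ha h

/-- a common divisor bound -/
theorem exists_small (B : Finset (LaurentSeries (ZMod p))) {δ : LaurentSeries (ZMod p)}
    (hδ : δ ≠ 0) :
    ∃ c : LaurentSeries (ZMod p), c ≠ 0 ∧ ∀ b ∈ B, Dv δ (c * b) := by
  classical
  induction B using Finset.induction with
  | empty => exact ⟨1, one_ne_zero, fun b hb => absurd hb (Finset.notMem_empty _)⟩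
  | insert b B _ ih =>
    obtain ⟨c, hc, h⟩ := ih
    by_cases hb : Dv δ (c * b)
    · refine ⟨c, hc, fun a ha => ?_⟩
      rcases Finset.mem_insert.1 ha with rfl | ha
      · exact hb
      · exact h a ha
    · have hb0 : b ≠ 0 := by
        rintro rfl
        apply hb
        rw [dv_iff, mul_zero, map_zero]
        exact zero_le
      refine ⟨δ / b, div_ne_zero hδ hb0, fun a ha => ?_⟩
      rcases Finset.mem_insert.1 ha with rfl | ha
      · rw [div_mul_cancel₀ _ hb0, dv_iff]
      · have h1 := h a ha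
        rw [dv_iff] at h1 hb ⊢
        rw [not_le] at hb
        rw [map_mul] at h1 hb ⊢
        rw [map_div₀]
        have hvb : (Valued.v b : WithZero (Multiplicative ℤ)) ≠ 0 := (Valuation.ne_zero_iff _).2 hb0
        have h2 : (Valued.v δ : WithZero (Multiplicative ℤ)) / Valued.v b ≤ Valued.v c := by
          rw [div_le_iff₀ (zero_lt_iff.2 hvb)]
          exact hb.le
        exact (mul_le_mul_left h2 _).trans h1

end

end Pool.Agent.H87F
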