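import Mathlib

/-! # A series with large gaps is transcendental over `F_p(t)` -/

set_option autoImplicit false

namespace Pool.Agent.H87F

open Polynomial LaurentSeries

section

variable {F : Type} [Field F]

/-- the exponents `2 ^ (2 ^ k)` -/
def gapSet : Set ℕ := {n | ∃ k : ℕ, n = 2 ^ 2 ^ k}

theorem gap_inj {i j : ℕ} (h : (2 : ℕ) ^ 2 ^ i = 2 ^ 2 ^ j) : i = j :=
  Nat.pow_right_injective (le_refl 2) (Nat.pow_right_injective (le_refl 2) h)

/-- the partial sums -/
noncomputable def gapPoly (F : Type) [Field F] (k : ℕ) : F[X] :=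
  ∑ j ∈ Finset.range k, (X : F[X]) ^ (2 ^ 2 ^ j : ℕ)

/-- the series -/
noncomputable def gapSer (F : Type) [Field F] : PowerSeries F := by
  classical exact PowerSeries.mk fun n => if n ∈ gapSet then 1 else 0

theorem gapPoly_coeff (k n : ℕ) : (gapPoly F k).coeff n =
    if ∃ j < k, n = 2 ^ 2 ^ j then 1 else 0 := by
  unfold gapPoly
  rw [Polynomial.finset_sum_coeff]
  simp only [coeff_X_pow]
  by_cases h : ∃ j < k, n = 2 ^ 2 ^ j
  · rw [if_pos h]
    obtain ⟨j, hj, rfl⟩ := h
    rw [Finset.sum_eq_single j]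
    · simp
    · intro i _ hi
      rw [if_neg fun h => hi (gap_inj h).symm]
    · intro hj'
      exact absurd (Finset.mem_range.2 hj) hj'
  · rw [if_neg h]
    refine Finset.sum_eq_zero fun j hj => ?_
    rw [if_neg fun h' => h ⟨j, Finset.mem_range.1 hj, h'⟩]

theorem gapPoly_natDegree (k : ℕ) : (gapPoly F (k + 1)).natDegree ≤ 2 ^ 2 ^ k := by
  refine natDegree_sum_le_of_forall_le _ _ fun j hj => ?_
  rw [natDegree_X_pow]
  have := Finset.mem_range.1 hj
  exact Nat.pow_le_pow_right (by norm_num) (Nat.pow_le_pow_right (by norm_num) (by omega))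

theorem gapPoly_inj : Function.Injective (gapPoly F) := by
  intro i j h
  by_contra hne
  wlog hij : i < j generalizing i j
  · exact this h.symm (Ne.symm hne) (by omega)
  have h1 := congrArg (fun q : F[X] => q.coeff (2 ^ 2 ^ i)) h
  simp only [gapPoly_coeff] at h1
  rw [if_neg, if_pos ⟨i, hij, rfl⟩] at h1
  · exact zero_ne_one h1
  · rintro ⟨l, hl, h2⟩
    have := gap_inj h2
    omega

theorem gap_dvd (k : ℕ) : (PowerSeries.X : PowerSeries F) ^ (2 ^ 2 ^ k : ℕ) ∣
    ((gapPoly F k : F[X]) : PowerSeries F) - gapSer F := by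
  classical
  rw [PowerSeries.X_pow_dvd_iff]
  intro m hm
  rw [map_sub, Polynomial.coeff_coe, gapPoly_coeff]
  unfold gapSer
  rw [PowerSeries.coeff_mk]
  by_cases h : m ∈ gapSet
  · rw [if_pos h]
    obtain ⟨j, rfl⟩ := h
    have hj : j < k := by
      by_contra hj
      have : (2 : ℕ) ^ 2 ^ k ≤ 2 ^ 2 ^ j :=
        Nat.pow_le_pow_right (by norm_num) (Nat.pow_le_pow_right (by norm_num) (by omega))
      omega
    rw [if_pos ⟨j, hj, rfl⟩, sub_self]
  · rw [if_neg h, if_neg, sub_zero]
    rintro ⟨j, -, rfl⟩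
    exact h ⟨j, rfl⟩

/-- the series is not a root of a nonzero polynomial over `F[X]` -/
theorem gap_transc (f : F[X][X]) (hf : f ≠ 0) :
    (f.map (Polynomial.coeToPowerSeries.ringHom (R := F))).eval (gapSer F) ≠ 0 := by
  intro h0
  set ι : F[X] →+* PowerSeries F := Polynomial.coeToPowerSeries.ringHom with hι
  obtain ⟨H, hH⟩ : ∃ H, ∀ i, (f.coeff i).natDegree ≤ H := by
    refine ⟨∑ i ∈ Finset.range (f.natDegree + 1), (f.coeff i).natDegree, fun i => ?_⟩
    by_cases hi : i ≤ f.natDegree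
    · exact Finset.single_le_sum (f := fun i => (f.coeff i).natDegree) (fun _ _ => Nat.zero_le _)
        (Finset.mem_range.2 (by omega))
    · rw [coeff_eq_zero_of_natDegree_lt (by omega)]
      simp
  have hbig : ∀ k : ℕ, H + f.natDegree ≤ k → f.eval (gapPoly F (k + 1)) = 0 := by
    intro k hk
    by_contra hne
    have h1 : ι (f.eval (gapPoly F (k + 1))) = (f.map ι).eval (ι (gapPoly F (k + 1))) := by
      rw [eval_map, eval₂_at_apply]
    have h2 : (PowerSeries.X : PowerSeries F) ^ (2 ^ 2 ^ (k + 1) : ℕ) ∣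
        ι (f.eval (gapPoly F (k + 1))) := by
      rw [h1]
      have h3 := sub_dvd_eval_sub (ι (gapPoly F (k + 1))) (gapSer F) (f.map ι)
      rw [h0, sub_zero] at h3
      exact (gap_dvd (k + 1)).trans h3
    have h4 : (X : F[X]) ^ (2 ^ 2 ^ (k + 1) : ℕ) ∣ f.eval (gapPoly F (k + 1)) := by
      rw [Polynomial.X_pow_dvd_iff]
      intro m hm
      have h5 := (PowerSeries.X_pow_dvd_iff.1 h2) m hm
      rwa [hι, Polynomial.coeToPowerSeries.ringHom_apply, Polynomial.coeff_coe] at h5
    have h6 := Polynomial.natDegree_le_of_dvd h4 hne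
    rw [natDegree_X_pow] at h6
    have h7 : (f.eval (gapPoly F (k + 1))).natDegree ≤ H + f.natDegree * 2 ^ 2 ^ k := by
      rw [eval_eq_sum_range]
      refine natDegree_sum_le_of_forall_le _ _ fun i hi => ?_
      refine natDegree_mul_le.trans (add_le_add (hH i) ?_)
      refine natDegree_pow_le.trans ?_
      have := Finset.mem_range.1 hi
      exact Nat.mul_le_mul (by omega) (gapPoly_natDegree k)
    have h8 : (2 : ℕ) ^ 2 ^ (k + 1) = 2 ^ 2 ^ k * 2 ^ 2 ^ k := by
      rw [← pow_add, ← two_mul, ← pow_succ']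
    have h9 : k < 2 ^ 2 ^ k := lt_of_lt_of_le Nat.lt_two_pow_self
      (Nat.pow_le_pow_right (by norm_num) Nat.lt_two_pow_self.le)
    rw [h8] at h6
    have h10 : (H + f.natDegree) * 2 ^ 2 ^ k < 2 ^ 2 ^ k * 2 ^ 2 ^ k :=
      Nat.mul_lt_mul_of_pos_right (by omega) (by positivity)
    have h11 : H + f.natDegree * 2 ^ 2 ^ k ≤ (H + f.natDegree) * 2 ^ 2 ^ k := by
      rw [add_mul]
      have : H * 1 ≤ H * 2 ^ 2 ^ k := Nat.mul_le_mul_left _ Nat.one_le_two_pow
      omega
    omega
  have hinf : Set.Infinite {x : F[X] | f.eval x = 0} := by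
    refine Set.infinite_of_injective_forall_mem
      (f := fun k : ℕ => gapPoly F (H + f.natDegree + k + 1)) ?_ ?_
    · intro i j h
      have := gapPoly_inj h
      omega
    · intro k
      exact hbig _ (by omega)
  exact hf (Polynomial.eq_zero_of_infinite_isRoot f hinf)

end

end Pool.Agent.H87F
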