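import Mathlib

/-! # Axioms of second-order arithmetic for a structure with codes of its countable subsets -/

set_option autoImplicit false

namespace Pool.Agent.H87F

/-- `S` is the successor relation of the natural numbers (which are the `x` with `S x y` for some
`y`), `A` and `M` are addition and multiplication, `E` is the membership relation between
numbers and codes of sets; `V w`, `w : ι`, are the coded subsets -/
def Gd {K ι : Type} (S : K → K → Prop) (A M : K → K → K → Prop) (E : K → K → Prop)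
    (V : ι → K → Prop) : Prop :=
  (∃ z, (∃ y, S z y) ∧ (∀ x, ¬ S x z) ∧
    (∀ w, V w z → (∀ x y, V w x → S x y → V w y) → ∀ x y, S x y → V w x) ∧
    (∀ x y, S x y → ∀ u, (A x z u ↔ u = x) ∧ (M x z u ↔ u = z))) ∧
  (∀ x y y', S x y → S x y' → y = y') ∧ (∀ x x' y, S x y → S x' y → x = x') ∧
  (∀ x y, S x y → ∃ y', S y y') ∧
  (∀ x x' y y', S x x' → S y y' → ∀ u', (A x y' u' ↔ ∃ u, A x y u ∧ S u u') ∧
    (M x y' u' ↔ ∃ u, M x y u ∧ A u x u')) ∧
  (∀ w, ∃ s, ∀ x y, S x y → (E x s ↔ V w x))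

/-- `ν` is an isomorphism of full second-order arithmetic and the structure -/
structure Std {K : Type} (S : K → K → Prop) (A M : K → K → K → Prop) (E : K → K → Prop)
    (ν : ℕ → K) : Prop where
  inj : Function.Injective ν
  dom : ∀ x, (∃ y, S x y) ↔ ∃ k, x = ν k
  suc : ∀ k y, S (ν k) y ↔ y = ν (k + 1)
  add : ∀ i j u, A (ν i) (ν j) u ↔ u = ν (i + j)
  mul : ∀ i j u, M (ν i) (ν j) u ↔ u = ν (i * j)
  com : ∀ B : Set ℕ, ∃ s, ∀ k, E (ν k) s ↔ k ∈ B

theorem Std.one {K : Type} {S : K → K → Prop} {A M : K → K → K → Prop} {E : K → K → Prop}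
    {ν : ℕ → K} (h : Std S A M E ν) (k : ℕ) :
    (∃ z, (∀ y, ¬ S y z) ∧ S z (ν k)) ↔ k = 1 := by
  constructor
  · rintro ⟨z, h1, h2⟩
    obtain ⟨l, rfl⟩ := (h.dom z).1 ⟨_, h2⟩
    have h3 := h.inj ((h.suc l _).1 h2)
    cases l with
    | zero => exact h3
    | succ l => exact absurd ((h.suc l _).2 rfl) (h1 _)
  · rintro rfl
    refine ⟨ν 0, fun y hy => ?_, (h.suc 0 _).2 rfl⟩
    obtain ⟨l, rfl⟩ := (h.dom y).1 ⟨_, hy⟩
    have h3 := h.inj ((h.suc l _).1 hy)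
    omega

theorem Gd.std {K ι : Type} {S : K → K → Prop} {A M : K → K → K → Prop} {E : K → K → Prop}
    {V : ι → K → Prop} (h : Gd S A M E V)
    (hV : ∀ T : Set K, T.Countable → ∃ w, ∀ x, V w x ↔ x ∈ T) : ∃ ν, Std S A M E ν := by
  obtain ⟨⟨z, hz, hz0, hind, hz1⟩, hf, hi, hS, hr, hc⟩ := h
  choose! f hf1 using fun (x : K) (hx : ∃ y, S x y) => hx
  obtain ⟨ν, hν0, hνs⟩ : ∃ ν : ℕ → K, ν 0 = z ∧ ∀ k, ν (k + 1) = f (ν k) :=
    ⟨fun k => Nat.rec z (fun _ x => f x) k, rfl, fun _ => rfl⟩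
  have hN : ∀ k, ∃ y, S (ν k) y := by
    intro k
    induction k with
    | zero => rw [hν0]; exact hz
    | succ k ih =>
      rw [hνs]
      exact hS _ _ (hf1 _ ih)
  have hs : ∀ k, S (ν k) (ν (k + 1)) := fun k => by rw [hνs]; exact hf1 _ (hN k)
  have hsuc : ∀ k y, S (ν k) y ↔ y = ν (k + 1) := by
    intro k y
    constructor
    · intro h1
      exact hf _ _ _ h1 (hs k)
    · rintro rfl
      exact hs k
  have hdom : ∀ x, (∃ y, S x y) ↔ ∃ k, x = ν k := by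
    intro x
    constructor
    · rintro ⟨y, hy⟩
      obtain ⟨w, hw⟩ := hV (Set.range ν) (Set.countable_range ν)
      have h1 := hind w ((hw z).2 ⟨0, hν0⟩) (by
        intro a b ha hab
        obtain ⟨k, rfl⟩ := (hw a).1 ha
        rw [(hsuc k b).1 hab, hw]
        exact ⟨k + 1, rfl⟩) x y hy
      obtain ⟨k, hk⟩ := (hw x).1 h1
      exact ⟨k, hk.symm⟩
    · rintro ⟨k, rfl⟩
      exact hN k
  have hinj : ∀ i j, ν i = ν j → i = j := by
    intro i
    induction i with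
    | zero =>
      intro j hj
      cases j with
      | zero => rfl
      | succ j =>
        rw [hν0] at hj
        exact absurd (hj ▸ hs j) (hz0 _)
    | succ i ih =>
      intro j hj
      cases j with
      | zero =>
        rw [hν0] at hj
        exact absurd (hj ▸ hs i) (hz0 _)
      | succ j =>
        have h1 : S (ν j) (ν (i + 1)) := by rw [hj]; exact hs j
        rw [ih j (hi _ _ _ (hs i) h1)]
  have hadd : ∀ i j u, A (ν i) (ν j) u ↔ u = ν (i + j) := by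
    intro i j
    induction j with
    | zero =>
      intro u
      rw [hν0]
      exact (hz1 _ _ (hs i) u).1
    | succ j ih =>
      intro u
      rw [(hr _ _ _ _ (hs i) (hs j) u).1]
      constructor
      · rintro ⟨a, ha, hau⟩
        rw [ih] at ha
        rw [ha, hsuc] at hau
        exact hau
      · rintro rfl
        exact ⟨ν (i + j), (ih _).2 rfl, hs _⟩
  refine ⟨ν, fun i j h => hinj i j h, hdom, hsuc, hadd, ?_, ?_⟩
  · intro i j
    induction j with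
    | zero =>
      intro u
      rw [hν0, Nat.mul_zero, hν0]
      exact (hz1 _ _ (hs i) u).2
    | succ j ih =>
      intro u
      rw [(hr _ _ _ _ (hs i) (hs j) u).2]
      constructor
      · rintro ⟨a, ha, hau⟩
        rw [ih] at ha
        rw [ha, hadd] at hau
        exact hau
      · rintro rfl
        exact ⟨ν (i * j), (ih _).2 rfl, (hadd _ _ _).2 rfl⟩
  · intro B
    obtain ⟨w, hw⟩ := hV (ν '' B) ((Set.to_countable B).image ν)
    obtain ⟨s, h1⟩ := hc w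
    refine ⟨s, fun k => ?_⟩
    rw [h1 _ _ (hs k), hw]
    constructor
    · rintro ⟨l, hl, hlk⟩
      rwa [← hinj _ _ hlk]
    · intro hk
      exact ⟨k, hk, rfl⟩

theorem Gd.of {K ι : Type} {S : K → K → Prop} {A M : K → K → K → Prop} {E : K → K → Prop}
    {V : ι → K → Prop} (ν : ℕ → K) (hν : Function.Injective ν)
    (hS : ∀ x y, S x y ↔ ∃ k, x = ν k ∧ y = ν (k + 1))
    (hA : ∀ x y u, A x y u ↔ ∃ i j, x = ν i ∧ y = ν j ∧ u = ν (i + j))
    (hM : ∀ x y u, M x y u ↔ ∃ i j, x = ν i ∧ y = ν j ∧ u = ν (i * j))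
    (hE : ∀ B : Set ℕ, ∃ s, ∀ k, E (ν k) s ↔ k ∈ B) : Gd S A M E V := by
  refine ⟨⟨ν 0, ⟨ν 1, (hS _ _).2 ⟨0, rfl, rfl⟩⟩, ?_, ?_, ?_⟩, ?_, ?_, ?_, ?_, ?_⟩
  · intro x h
    obtain ⟨k, -, h1⟩ := (hS _ _).1 h
    have := hν h1
    omega
  · intro w h0 h1 x y hxy
    obtain ⟨k, rfl, -⟩ := (hS _ _).1 hxy
    clear hxy
    induction k with
    | zero => exact h0
    | succ k ih => exact h1 _ _ ih ((hS _ _).2 ⟨k, rfl, rfl⟩)
  · intro x y hxy u
    obtain ⟨k, rfl, -⟩ := (hS _ _).1 hxy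
    constructor
    · rw [hA]
      constructor
      · rintro ⟨i, j, h1, h2, rfl⟩
        rw [h1, ← hν h2]
        rfl
      · rintro rfl
        exact ⟨k, 0, rfl, rfl, rfl⟩
    · rw [hM]
      constructor
      · rintro ⟨i, j, h1, h2, rfl⟩
        rw [← hν h2, Nat.mul_zero]
      · rintro rfl
        exact ⟨k, 0, rfl, rfl, by rw [Nat.mul_zero]⟩
  · intro x y y' h1 h2
    obtain ⟨k, rfl, rfl⟩ := (hS _ _).1 h1
    obtain ⟨l, h3, rfl⟩ := (hS _ _).1 h2
    rw [hν h3]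
  · intro x x' y h1 h2
    obtain ⟨k, rfl, rfl⟩ := (hS _ _).1 h1
    obtain ⟨l, rfl, h3⟩ := (hS _ _).1 h2
    have := hν h3
    rw [show k = l by omega]
  · intro x y h1
    obtain ⟨k, rfl, rfl⟩ := (hS _ _).1 h1
    exact ⟨_, (hS _ _).2 ⟨k + 1, rfl, rfl⟩⟩
  · intro x x' y y' h1 h2 u'
    obtain ⟨k, rfl, rfl⟩ := (hS _ _).1 h1
    obtain ⟨l, rfl, rfl⟩ := (hS _ _).1 h2
    constructor
    · rw [hA]
      constructor
      · rintro ⟨i, j, h3, h4, rfl⟩
        rw [← hν h3, ← hν h4]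
        exact ⟨ν (k + l), (hA _ _ _).2 ⟨k, l, rfl, rfl, rfl⟩, (hS _ _).2 ⟨k + l, rfl, rfl⟩⟩
      · rintro ⟨u, h3, h4⟩
        obtain ⟨i, j, h5, h6, rfl⟩ := (hA _ _ _).1 h3
        obtain ⟨m, h7, rfl⟩ := (hS _ _).1 h4
        refine ⟨k, l + 1, rfl, rfl, ?_⟩
        rw [← hν h7, ← hν h5, ← hν h6]
        rfl
    · rw [hM]
      constructor
      · rintro ⟨i, j, h3, h4, rfl⟩
        rw [← hν h3, ← hν h4]
        exact ⟨ν (k * l), (hM _ _ _).2 ⟨k, l, rfl, rfl, rfl⟩, (hA _ _ _).2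
          ⟨k * l, k, rfl, rfl, rfl⟩⟩
      · rintro ⟨u, h3, h4⟩
        obtain ⟨i, j, h5, h6, rfl⟩ := (hM _ _ _).1 h3
        obtain ⟨i', j', h7, h8, rfl⟩ := (hA _ _ _).1 h4
        refine ⟨k, l + 1, rfl, rfl, ?_⟩
        rw [← hν h7, ← hν h8, ← hν h5, ← hν h6]
        rfl
  · intro w
    obtain ⟨s, hs⟩ := hE {k | V w (ν k)}
    refine ⟨s, fun x y hxy => ?_⟩
    obtain ⟨k, rfl, -⟩ := (hS _ _).1 hxy
    exact hs k

end Pool.Agent.H87F
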