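import Pool.Agent.H87F.Rel

/-! # The axioms are definable without parameters -/

set_option autoImplicit false

namespace Pool.Agent.H87F

open Function
open Pool.Agent.Y924.EL
open Pool.Agent.Y924.UF

section

variable {K : Type} [Field K] {P : Set K} (φ : ℕ → Fm)

theorem D0.gd1 : D0 P fun v : ℕ → K => ∃ z, (∃ y, SS P φ v z y) ∧ (∀ x, ¬ SS P φ v x z) ∧
    (∀ w, SV P φ w z → (∀ x y, SV P φ w x → SS P φ v x y → SV P φ w y) →
      ∀ x y, SS P φ v x y → SV P φ w x) ∧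
    (∀ x y, SS P φ v x y → ∀ u, (SA P φ v x z u ↔ u = x) ∧ (SM P φ v x z u ↔ u = z)) := by
  refine D0.ex (X := fun (v : ℕ → K) z => (∃ y, SS P φ v z y) ∧ (∀ x, ¬ SS P φ v x z) ∧
    (∀ w, SV P φ w z → (∀ x y, SV P φ w x → SS P φ v x y → SV P φ w y) →
      ∀ x y, SS P φ v x y → SV P φ w x) ∧
    (∀ x y, SS P φ v x y → ∀ u, (SA P φ v x z u ↔ u = x) ∧ (SM P φ v x z u ↔ u = z))) ?_
  refine D0.and ?_ (D0.and ?_ (D0.and ?_ ?_))
  · refine D0.ex (X := fun (q : (ℕ → K) × K) y => SS P φ q.1 q.2 y) ?_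
    exact D0.ss φ (a := 1) (b := 0) (g := fun i => i + 2) (fun _ => rfl) (fun _ => rfl)
      (fun _ _ => rfl)
  · refine D0.all (X := fun (q : (ℕ → K) × K) x => ¬ SS P φ q.1 x q.2) ?_
    exact (D0.ss φ (a := 0) (b := 1) (g := fun i => i + 2) (fun _ => rfl) (fun _ => rfl)
      (fun _ _ => rfl)).not
  · refine D0.allw (X := fun (q : (ℕ → K) × K) w => SV P φ w q.2 →
      (∀ x y, SV P φ w x → SS P φ q.1 x y → SV P φ w y) →
      ∀ x y, SS P φ q.1 x y → SV P φ w x) ?_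
    refine D0.imp ?_ (D0.imp ?_ ?_)
    · exact D0.sv φ (a := 0) (g := fun i => 2 * i + 1) (fun q =>
        (mix_even (Ctx.val (K := K) q.1) q.2 0).symm)
        (fun _ i => (mix_odd _ _ i).symm)
    · refine D0.all (X := fun (q : ((ℕ → K) × K) × (ℕ → K)) x => ∀ y, SV P φ q.2 x →
        SS P φ q.1.1 x y → SV P φ q.2 y) ?_
      refine D0.all (X := fun (q : (((ℕ → K) × K) × (ℕ → K)) × K) y => SV P φ q.1.2 q.2 →
        SS P φ q.1.1.1 q.2 y → SV P φ q.1.2 y) ?_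
      refine D0.imp ?_ (D0.imp ?_ ?_)
      · exact D0.sv φ (a := 1) (g := fun i => 2 * i + 1 + 2) (fun _ => rfl)
          (fun _ i => (mix_odd _ _ i).symm)
      · exact D0.ss φ (a := 1) (b := 0) (g := fun i => 2 * (i + 1) + 2) (fun _ => rfl)
          (fun _ => rfl) (fun q i =>
            (mix_even (Ctx.val (K := K) q.1.1.1) q.1.1.2 (i + 1)).symm)
      · exact D0.sv φ (a := 0) (g := fun i => 2 * i + 1 + 2) (fun _ => rfl)
          (fun _ i => (mix_odd _ _ i).symm)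
    · refine D0.all (X := fun (q : ((ℕ → K) × K) × (ℕ → K)) x => ∀ y,
        SS P φ q.1.1 x y → SV P φ q.2 x) ?_
      refine D0.all (X := fun (q : (((ℕ → K) × K) × (ℕ → K)) × K) y =>
        SS P φ q.1.1.1 q.2 y → SV P φ q.1.2 q.2) ?_
      refine D0.imp ?_ ?_
      · exact D0.ss φ (a := 1) (b := 0) (g := fun i => 2 * (i + 1) + 2) (fun _ => rfl)
          (fun _ => rfl) (fun q i =>
            (mix_even (Ctx.val (K := K) q.1.1.1) q.1.1.2 (i + 1)).symm)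
      · exact D0.sv φ (a := 1) (g := fun i => 2 * i + 1 + 2) (fun _ => rfl)
          (fun _ i => (mix_odd _ _ i).symm)
  · refine D0.all (X := fun (q : (ℕ → K) × K) x => ∀ y, SS P φ q.1 x y → ∀ u,
      (SA P φ q.1 x q.2 u ↔ u = x) ∧ (SM P φ q.1 x q.2 u ↔ u = q.2)) ?_
    refine D0.all (X := fun (q : ((ℕ → K) × K) × K) y => SS P φ q.1.1 q.2 y → ∀ u,
      (SA P φ q.1.1 q.2 q.1.2 u ↔ u = q.2) ∧ (SM P φ q.1.1 q.2 q.1.2 u ↔ u = q.1.2)) ?_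
    refine D0.imp (D0.ss φ (a := 1) (b := 0) (g := fun i => i + 3) (fun _ => rfl)
      (fun _ => rfl) (fun _ _ => rfl)) ?_
    refine D0.all (X := fun (q : (((ℕ → K) × K) × K) × K) u =>
      (SA P φ q.1.1.1 q.1.2 q.1.1.2 u ↔ u = q.1.2) ∧
        (SM P φ q.1.1.1 q.1.2 q.1.1.2 u ↔ u = q.1.1.2)) ?_
    refine D0.and (D0.iff ?_ ?_) (D0.iff ?_ ?_)
    · exact D0.sa φ (a := 2) (b := 3) (c := 0) (g := fun i => i + 4) (fun _ => rfl)
        (fun _ => rfl) (fun _ => rfl) (fun _ _ => rfl)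
    · exact D0.veq (Γ := ((((ℕ → K) × K) × K) × K) × K) 0 2
    · exact D0.sm φ (a := 2) (b := 3) (c := 0) (g := fun i => i + 4) (fun _ => rfl)
        (fun _ => rfl) (fun _ => rfl) (fun _ _ => rfl)
    · exact D0.veq (Γ := ((((ℕ → K) × K) × K) × K) × K) 0 3

theorem D0.gd2 : D0 P fun v : ℕ → K => ∀ x y y', SS P φ v x y → SS P φ v x y' → y = y' := by
  refine D0.all (X := fun (v : ℕ → K) x => ∀ y y', SS P φ v x y → SS P φ v x y' → y = y') ?_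
  refine D0.all (X := fun (q : (ℕ → K) × K) y => ∀ y', SS P φ q.1 q.2 y → SS P φ q.1 q.2 y' →
    y = y') ?_
  refine D0.all (X := fun (q : ((ℕ → K) × K) × K) y' => SS P φ q.1.1 q.1.2 q.2 →
    SS P φ q.1.1 q.1.2 y' → q.2 = y') ?_
  refine D0.imp ?_ (D0.imp ?_ ?_)
  · exact D0.ss φ (a := 2) (b := 1) (g := fun i => i + 3) (fun _ => rfl) (fun _ => rfl)
      (fun _ _ => rfl)
  · exact D0.ss φ (a := 2) (b := 0) (g := fun i => i + 3) (fun _ => rfl) (fun _ => rfl)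
      (fun _ _ => rfl)
  · exact D0.veq (Γ := (((ℕ → K) × K) × K) × K) 1 0

theorem D0.gd3 : D0 P fun v : ℕ → K => ∀ x x' y, SS P φ v x y → SS P φ v x' y → x = x' := by
  refine D0.all (X := fun (v : ℕ → K) x => ∀ x' y, SS P φ v x y → SS P φ v x' y → x = x') ?_
  refine D0.all (X := fun (q : (ℕ → K) × K) x' => ∀ y, SS P φ q.1 q.2 y → SS P φ q.1 x' y →
    q.2 = x') ?_
  refine D0.all (X := fun (q : ((ℕ → K) × K) × K) y => SS P φ q.1.1 q.1.2 y →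
    SS P φ q.1.1 q.2 y → q.1.2 = q.2) ?_
  refine D0.imp ?_ (D0.imp ?_ ?_)
  · exact D0.ss φ (a := 2) (b := 0) (g := fun i => i + 3) (fun _ => rfl) (fun _ => rfl)
      (fun _ _ => rfl)
  · exact D0.ss φ (a := 1) (b := 0) (g := fun i => i + 3) (fun _ => rfl) (fun _ => rfl)
      (fun _ _ => rfl)
  · exact D0.veq (Γ := (((ℕ → K) × K) × K) × K) 2 1

theorem D0.gd4 : D0 P fun v : ℕ → K => ∀ x y, SS P φ v x y → ∃ y', SS P φ v y y' := by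
  refine D0.all (X := fun (v : ℕ → K) x => ∀ y, SS P φ v x y → ∃ y', SS P φ v y y') ?_
  refine D0.all (X := fun (q : (ℕ → K) × K) y => SS P φ q.1 q.2 y → ∃ y', SS P φ q.1 y y') ?_
  refine D0.imp ?_ ?_
  · exact D0.ss φ (a := 1) (b := 0) (g := fun i => i + 2) (fun _ => rfl) (fun _ => rfl)
      (fun _ _ => rfl)
  · refine D0.ex (X := fun (q : ((ℕ → K) × K) × K) y' => SS P φ q.1.1 q.2 y') ?_
    exact D0.ss φ (a := 1) (b := 0) (g := fun i => i + 3) (fun _ => rfl) (fun _ => rfl)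
      (fun _ _ => rfl)

theorem D0.gd5 : D0 P fun v : ℕ → K => ∀ x x' y y', SS P φ v x x' → SS P φ v y y' → ∀ u',
    (SA P φ v x y' u' ↔ ∃ u, SA P φ v x y u ∧ SS P φ v u u') ∧
    (SM P φ v x y' u' ↔ ∃ u, SM P φ v x y u ∧ SA P φ v u x u') := by
  refine D0.all (X := fun (v : ℕ → K) x => ∀ x' y y', SS P φ v x x' → SS P φ v y y' → ∀ u',
    (SA P φ v x y' u' ↔ ∃ u, SA P φ v x y u ∧ SS P φ v u u') ∧
    (SM P φ v x y' u' ↔ ∃ u, SM P φ v x y u ∧ SA P φ v u x u')) ?_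
  refine D0.all (X := fun (q : (ℕ → K) × K) x' => ∀ y y', SS P φ q.1 q.2 x' →
    SS P φ q.1 y y' → ∀ u',
    (SA P φ q.1 q.2 y' u' ↔ ∃ u, SA P φ q.1 q.2 y u ∧ SS P φ q.1 u u') ∧
    (SM P φ q.1 q.2 y' u' ↔ ∃ u, SM P φ q.1 q.2 y u ∧ SA P φ q.1 u q.2 u')) ?_
  refine D0.all (X := fun (q : ((ℕ → K) × K) × K) y => ∀ y', SS P φ q.1.1 q.1.2 q.2 →
    SS P φ q.1.1 y y' → ∀ u',
    (SA P φ q.1.1 q.1.2 y' u' ↔ ∃ u, SA P φ q.1.1 q.1.2 y u ∧ SS P φ q.1.1 u u') ∧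
    (SM P φ q.1.1 q.1.2 y' u' ↔ ∃ u, SM P φ q.1.1 q.1.2 y u ∧ SA P φ q.1.1 u q.1.2 u')) ?_
  refine D0.all (X := fun (q : (((ℕ → K) × K) × K) × K) y' =>
    SS P φ q.1.1.1 q.1.1.2 q.1.2 → SS P φ q.1.1.1 q.2 y' → ∀ u',
    (SA P φ q.1.1.1 q.1.1.2 y' u' ↔ ∃ u, SA P φ q.1.1.1 q.1.1.2 q.2 u ∧ SS P φ q.1.1.1 u u') ∧
    (SM P φ q.1.1.1 q.1.1.2 y' u' ↔ ∃ u, SM P φ q.1.1.1 q.1.1.2 q.2 u ∧
      SA P φ q.1.1.1 u q.1.1.2 u')) ?_
  refine D0.imp ?_ (D0.imp ?_ ?_)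
  · exact D0.ss φ (a := 3) (b := 2) (g := fun i => i + 4) (fun _ => rfl) (fun _ => rfl)
      (fun _ _ => rfl)
  · exact D0.ss φ (a := 1) (b := 0) (g := fun i => i + 4) (fun _ => rfl) (fun _ => rfl)
      (fun _ _ => rfl)
  · refine D0.all (X := fun (q : ((((ℕ → K) × K) × K) × K) × K) u' =>
      (SA P φ q.1.1.1.1 q.1.1.1.2 q.2 u' ↔ ∃ u, SA P φ q.1.1.1.1 q.1.1.1.2 q.1.2 u ∧
        SS P φ q.1.1.1.1 u u') ∧
      (SM P φ q.1.1.1.1 q.1.1.1.2 q.2 u' ↔ ∃ u, SM P φ q.1.1.1.1 q.1.1.1.2 q.1.2 u ∧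
        SA P φ q.1.1.1.1 u q.1.1.1.2 u')) ?_
    refine D0.and (D0.iff ?_ ?_) (D0.iff ?_ ?_)
    · exact D0.sa φ (a := 4) (b := 1) (c := 0) (g := fun i => i + 5) (fun _ => rfl)
        (fun _ => rfl) (fun _ => rfl) (fun _ _ => rfl)
    · refine D0.ex (X := fun (q : (((((ℕ → K) × K) × K) × K) × K) × K) u =>
        SA P φ q.1.1.1.1.1 q.1.1.1.1.2 q.1.1.2 u ∧ SS P φ q.1.1.1.1.1 u q.2) ?_
      exact (D0.sa φ (a := 5) (b := 3) (c := 0) (g := fun i => i + 6) (fun _ => rfl)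
        (fun _ => rfl) (fun _ => rfl) (fun _ _ => rfl)).and
        (D0.ss φ (a := 0) (b := 1) (g := fun i => i + 6) (fun _ => rfl) (fun _ => rfl)
          (fun _ _ => rfl))
    · exact D0.sm φ (a := 4) (b := 1) (c := 0) (g := fun i => i + 5) (fun _ => rfl)
        (fun _ => rfl) (fun _ => rfl) (fun _ _ => rfl)
    · refine D0.ex (X := fun (q : (((((ℕ → K) × K) × K) × K) × K) × K) u =>
        SM P φ q.1.1.1.1.1 q.1.1.1.1.2 q.1.1.2 u ∧ SA P φ q.1.1.1.1.1 u q.1.1.1.1.2 q.2) ?_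
      exact (D0.sm φ (a := 5) (b := 3) (c := 0) (g := fun i => i + 6) (fun _ => rfl)
        (fun _ => rfl) (fun _ => rfl) (fun _ _ => rfl)).and
        (D0.sa φ (a := 0) (b := 5) (c := 1) (g := fun i => i + 6) (fun _ => rfl) (fun _ => rfl)
          (fun _ => rfl) (fun _ _ => rfl))

theorem D0.gd6 : D0 P fun v : ℕ → K => ∀ w, ∃ s, ∀ x y, SS P φ v x y →
    (SE P φ v x s ↔ SV P φ w x) := by
  refine D0.allw (X := fun (v : ℕ → K) w => ∃ s, ∀ x y, SS P φ v x y →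
    (SE P φ v x s ↔ SV P φ w x)) ?_
  refine D0.ex (X := fun (q : (ℕ → K) × (ℕ → K)) s => ∀ x y, SS P φ q.1 x y →
    (SE P φ q.1 x s ↔ SV P φ q.2 x)) ?_
  refine D0.all (X := fun (q : ((ℕ → K) × (ℕ → K)) × K) x => ∀ y, SS P φ q.1.1 x y →
    (SE P φ q.1.1 x q.2 ↔ SV P φ q.1.2 x)) ?_
  refine D0.all (X := fun (q : (((ℕ → K) × (ℕ → K)) × K) × K) y => SS P φ q.1.1.1 q.2 y →
    (SE P φ q.1.1.1 q.2 q.1.2 ↔ SV P φ q.1.1.2 q.2)) ?_
  refine D0.imp ?_ (D0.iff ?_ ?_)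
  · exact D0.ss φ (a := 1) (b := 0) (g := fun i => 2 * i + 3) (fun _ => rfl)
      (fun _ => rfl) (fun _ i => (mix_even _ _ i).symm)
  · exact D0.se φ (a := 1) (b := 2) (g := fun i => 2 * i + 3) (fun _ => rfl)
      (fun _ => rfl) (fun _ i => (mix_even _ _ i).symm)
  · exact D0.sv φ (a := 1) (g := fun i => 2 * i + 1 + 3) (fun _ => rfl)
      (fun _ i => (mix_odd _ _ i).symm)

theorem D0.gd : D0 P fun v : ℕ → K => Gd (SS P φ v) (SA P φ v) (SM P φ v) (SE P φ v)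
    (fun w : ℕ → K => SV P φ w) :=
  (D0.gd1 φ).and ((D0.gd2 φ).and ((D0.gd3 φ).and ((D0.gd4 φ).and ((D0.gd5 φ).and (D0.gd6 φ)))))

/-- the formulas for the translation -/
theorem exists_theta : ∃ θ : ℕ → Fm,
    (∀ v : ℕ → K, Sat P (θ 0) v ↔ ∃ z, (∀ y, ¬ SS P φ v y z) ∧ SS P φ v z (v 0)) ∧
    (∀ v : ℕ → K, Sat P (θ 1) v ↔ SA P φ v (v 0) (v 1) (v 2)) ∧
    (∀ v : ℕ → K, Sat P (θ 2) v ↔ SM P φ v (v 0) (v 1) (v 2)) ∧
    (∀ v : ℕ → K, Sat P (θ 3) v ↔ SE P φ v (v 0) (v 1)) ∧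
    (∀ v : ℕ → K, Sat P (θ 4) v ↔ ∃ y, SS P φ v (v 0) y) := by
  have h0 : D0 P fun v : ℕ → K => ∃ z, (∀ y, ¬ SS P φ v y z) ∧ SS P φ v z (v 0) := by
    refine D0.ex (X := fun (v : ℕ → K) z => (∀ y, ¬ SS P φ v y z) ∧ SS P φ v z (v 0)) ?_
    refine D0.and ?_ ?_
    · refine D0.all (X := fun (q : (ℕ → K) × K) y => ¬ SS P φ q.1 y q.2) ?_
      exact (D0.ss φ (a := 0) (b := 1) (g := fun i => i + 2) (fun _ => rfl) (fun _ => rfl)
        (fun _ _ => rfl)).not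
    · exact D0.ss φ (a := 0) (b := 1) (g := fun i => i + 1) (fun _ => rfl) (fun _ => rfl)
        (fun _ _ => rfl)
  have h1 : D0 P fun v : ℕ → K => SA P φ v (v 0) (v 1) (v 2) :=
    D0.sa φ (a := 0) (b := 1) (c := 2) (g := fun i => i) (fun _ => rfl) (fun _ => rfl)
      (fun _ => rfl) (fun _ _ => rfl)
  have h2 : D0 P fun v : ℕ → K => SM P φ v (v 0) (v 1) (v 2) :=
    D0.sm φ (a := 0) (b := 1) (c := 2) (g := fun i => i) (fun _ => rfl) (fun _ => rfl)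
      (fun _ => rfl) (fun _ _ => rfl)
  have h3 : D0 P fun v : ℕ → K => SE P φ v (v 0) (v 1) :=
    D0.se φ (a := 0) (b := 1) (g := fun i => i) (fun _ => rfl) (fun _ => rfl)
      (fun _ _ => rfl)
  have h4 : D0 P fun v : ℕ → K => ∃ y, SS P φ v (v 0) y := by
    refine D0.ex (X := fun (v : ℕ → K) y => SS P φ v (v 0) y) ?_
    exact D0.ss φ (a := 1) (b := 0) (g := fun i => i + 1) (fun _ => rfl) (fun _ => rfl)
      (fun _ _ => rfl)
  obtain ⟨t0, h0⟩ := h0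
  obtain ⟨t1, h1⟩ := h1
  obtain ⟨t2, h2⟩ := h2
  obtain ⟨t3, h3⟩ := h3
  obtain ⟨t4, h4⟩ := h4
  exact ⟨fun i => match i with
    | 0 => t0
    | 1 => t1
    | 2 => t2
    | 3 => t3
    | _ => t4, fun v => (h0 v).symm, fun v => (h1 v).symm, fun v => (h2 v).symm,
    fun v => (h3 v).symm, fun v => (h4 v).symm⟩

end

end Pool.Agent.H87F
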