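import Pool.Agent.H75C.HY.GameDef

/-!
# The step of the evaluation game is computable in polynomial time
-/

set_option autoImplicit false

namespace Pool.Agent.H87F.HYD

open Pool.Agent.NPC Pool.Agent.H75C.HY

theorem lk_foldr (d x : ℕ) : ∀ l : List (ℕ × ℕ),
    lk l d x = l.foldr (fun p acc => if x = p.1 then p.2 else acc) d
  | [] => rfl
  | p :: l => by rw [lk, List.foldr_cons, lk_foldr d x l]

theorem sz_foldr (d x : ℕ) : ∀ l : List (ℕ × ℕ),
    sz (l.foldr (fun p acc => if x = p.1 then p.2 else acc) d) ≤ sz l + sz d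
  | [] => by simp
  | p :: l => by
    rw [List.foldr_cons]
    have h1 := sz_foldr d x l
    obtain ⟨a, c⟩ := p
    simp only [sz_list_cons, sz_pair]
    split_ifs
    · omega
    · omega

variable {α : Type} [TEnc α]

theorem poly_lk {l : α → List (ℕ × ℕ)} {d x : α → ℕ} (hl : Poly l) (hd : Poly d) (hx : Poly x) :
    Poly (fun a => lk (l a) (d a) (x a)) := by
  obtain ⟨ql, hql⟩ := hl.sz_le
  obtain ⟨qd, hqd⟩ := hd.sz_le
  refine (NPC.Poly.foldr (l := l) (s := d)
    (F := fun a p acc => if x a = p.1 then p.2 else acc) hl hd ?_ (ql + qd) ?_).congr fun a =>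
      (lk_foldr _ _ _).symm
  · have h1 : Poly (fun p : α × (ℕ × ℕ) × ℕ => decide (x p.1 = p.2.1.1)) :=
      NPC.Poly.decide_eq (hx.comp (NPC.Poly.fst NPC.Poly.id))
        (NPC.Poly.fst (NPC.Poly.fst (NPC.Poly.snd NPC.Poly.id)))
    exact NPC.Poly.ite h1 (NPC.Poly.snd (NPC.Poly.fst (NPC.Poly.snd NPC.Poly.id)))
      (NPC.Poly.snd (NPC.Poly.snd NPC.Poly.id))
  · intro a k hk
    refine (sz_foldr _ _ _).trans ?_
    have h1 := hql a
    have h2 := hqd a
    have h3 := NPC.Poly.sz_drop_le (l a) k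
    rw [Polynomial.eval_add]
    omega

theorem poly_dec_mem {β : Type} [TEnc β] {f : α → β} {l : α → List β}
    [inst : ∀ a, Decidable (f a ∈ l a)] (hf : Poly f) (hl : Poly l) :
    Poly (fun a => @decide (f a ∈ l a) (inst a)) := by
  classical
  exact (NPC.Poly.decide_mem hf hl).congr fun a => by congr

section

variable {E : ℕ → List Bool → Bool} {K : ℕ → ℕ} {argAt : List Tok → ℕ → List Tok}

/-- the input of a later round -/
abbrev Inp := Dat × Tok × List Tok × List (ℕ × ℕ) × ℕ × Bool × List Bool × List Bool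

theorem poly_sF {D : α → Dat} {tl : α → List Tok} {e : α → List (ℕ × ℕ)} {v : α → ℕ}
    {b r : α → Bool} (hD : Poly D) (htl : Poly tl) (he : Poly e) (hv : Poly v) (hb : Poly b)
    (hr : Poly r) : Poly (fun a => sF (D a) (tl a) (e a) (v a) (b a) (r a)) := by
  unfold sF
  exact NPC.Poly.pair (NPC.Poly.pair (NPC.Poly.some hr) (NPC.Poly.const _)) (NPC.Poly.pair hD
    (NPC.Poly.pair htl (NPC.Poly.pair he (NPC.Poly.pair hv hb))))

theorem poly_sN {D : α → Dat} {tl : α → List Tok} {e : α → List (ℕ × ℕ)} {v : α → ℕ}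
    {b : α → Bool} (hD : Poly D) (htl : Poly tl) (he : Poly e) (hv : Poly v) (hb : Poly b) :
    Poly (fun a => sN (D a) (tl a) (e a) (v a) (b a)) := by
  unfold sN
  exact NPC.Poly.pair (NPC.Poly.const _) (NPC.Poly.pair hD
    (NPC.Poly.pair htl (NPC.Poly.pair he (NPC.Poly.pair hv hb))))

theorem poly_rstep (hE : NPC.Poly (fun p : ℕ × List Bool => E p.1 p.2)) (hK : NPC.Poly K)
    (hA : NPC.Poly (fun p : List Tok × ℕ => argAt p.1 p.2))
    {D : α → Dat} {t : α → Tok} {tl : α → List Tok} {e : α → List (ℕ × ℕ)} {v : α → ℕ}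
    {b : α → Bool} {M M' : α → List Bool} (hD : Poly D) (ht : Poly t) (htl : Poly tl)
    (he : Poly e) (hv : Poly v) (hb : Poly b) (hM : Poly M) (hM' : Poly M') :
    Poly (fun a => rstep E K argAt (D a) (t a) (tl a) (e a) (v a) (b a) (M a) (M' a)) := by
  have e1 : ∀ n : ℕ, Poly (fun a => decide ((t a).1 = n)) := fun n =>
    NPC.Poly.decide_eq (NPC.Poly.fst ht) (NPC.Poly.const _)
  have t2 := NPC.Poly.snd ht
  have vM := NPC.Poly.valBits hM
  have vM' := NPC.Poly.valBits hM'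
  have D1 := NPC.Poly.fst hD
  have F : ∀ {r : α → Bool}, Poly r → Poly (fun a => sF (D a) (tl a) (e a) (v a) (b a) (r a)) :=
    fun hr => poly_sF hD htl he hv hb hr
  have c0 : Poly (fun a => decide (decide (((t a).2, v a) ∈ (D a).2.1) = b a)) :=
    NPC.Poly.decide_eq (poly_dec_mem (NPC.Poly.pair t2 hv)
      (NPC.Poly.fst (NPC.Poly.snd hD))) hb
  have c1 : Poly (fun a => decide (decide (v a = lk (D a).2.2 (D a).1 (t a).2) = b a)) :=
    NPC.Poly.decide_eq (NPC.Poly.decide_eq hv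
      (poly_lk (NPC.Poly.snd (NPC.Poly.snd hD)) D1 t2)) hb
  have c2 : Poly (fun a => decide (decide (v a = lk (e a) (D a).1 (t a).2) = b a)) :=
    NPC.Poly.decide_eq (NPC.Poly.decide_eq hv (poly_lk he D1 t2)) hb
  have cE : Poly (fun a => decide (E (t a).2 (M a) = b a)) :=
    NPC.Poly.decide_eq (hE.comp (NPC.Poly.pair t2 hM)) hb
  have cK : Poly (fun a => decide (valB (M' a) < K (t a).2)) :=
    NPC.Poly.decide_lt vM' (hK.comp t2)
  have g3 : Poly (fun a => sN (D a) (argAt (t a :: tl a) (valB (M' a))) (e a) (v a)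
      ((M a).getD (valB (M' a)) false)) :=
    poly_sN hD (hA.comp (NPC.Poly.pair (NPC.Poly.cons ht htl) vM')) he hv
      (NPC.Poly.getD hM vM' (NPC.Poly.const _))
  have c67 : Poly (fun a => decide ((t a).1 = 6 ∨ (t a).1 = 7)) :=
    NPC.Poly.decide_or (e1 6) (e1 7)
  have c6b : Poly (fun a => decide (decide ((t a).1 = 6) = b a)) :=
    NPC.Poly.decide_eq (e1 6) hb
  have l1 : Poly (fun a => decide (valB (M a) < (D a).1)) := NPC.Poly.decide_lt vM D1
  have l2 : Poly (fun a => decide (valB (M' a) < (D a).1)) := NPC.Poly.decide_lt vM' D1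
  have g8 : Poly (fun a => sN (D a) (tl a) (((t a).2, min (v a) (M a).length) :: e a) (v a)
      (b a)) :=
    poly_sN hD htl (NPC.Poly.cons (NPC.Poly.pair t2 (NPC.Poly.min hv (NPC.Poly.length hM))) he)
      hv hb
  unfold rstep
  exact NPC.Poly.ite (e1 0) (F c0) (NPC.Poly.ite (e1 1) (F c1) (NPC.Poly.ite (e1 2) (F c2)
    (NPC.Poly.ite (e1 3) (NPC.Poly.ite cE (NPC.Poly.ite cK g3 (F (NPC.Poly.const _)))
      (F (NPC.Poly.const _)))
    (NPC.Poly.ite c67 (NPC.Poly.ite c6b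
      (NPC.Poly.ite l1 (poly_sN hD htl he vM hb) (F (NPC.Poly.const _)))
      (NPC.Poly.ite l2 (poly_sN hD htl he vM' hb) (F (NPC.Poly.const _))))
    (NPC.Poly.ite (e1 8) g8 (F (NPC.Poly.const _)))))))

theorem poly_first {tl : α → List Tok} {M : α → List Bool} (htl : Poly tl) (hM : Poly M) :
    Poly (fun a => first (tl a) (M a)) := by
  have h1 : Poly (fun a => unbits (Dat × List (ℕ × ℕ) × ℕ) (unpair (M a)).1) :=
    poly_unbits.comp (NPC.Poly.fst (poly_unpair.comp hM))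
  have d1 : Poly (fun p : α × (Dat × List (ℕ × ℕ) × ℕ) => p.2.1.1) :=
    NPC.Poly.fst (NPC.Poly.fst (NPC.Poly.snd NPC.Poly.id))
  have d2 : Poly (fun p : α × (Dat × List (ℕ × ℕ) × ℕ) => p.2.2.2) :=
    NPC.Poly.snd (NPC.Poly.snd (NPC.Poly.snd NPC.Poly.id))
  have h2 : Poly (fun p : α × (Dat × List (ℕ × ℕ) × ℕ) =>
      (if p.2.2.2 < p.2.1.1 ∧ p.2.1.1 ≤ (M p.1).length then
        sN p.2.1 (tl p.1) p.2.2.1 p.2.2.2 true else sL : Sta)) := by
    have c : Poly (fun p : α × (Dat × List (ℕ × ℕ) × ℕ) =>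
        decide (p.2.2.2 < p.2.1.1 ∧ p.2.1.1 ≤ (M p.1).length)) :=
      NPC.Poly.decide_and (NPC.Poly.decide_lt d2 d1)
        (NPC.Poly.decide_le d1 (NPC.Poly.length (hM.comp (NPC.Poly.fst NPC.Poly.id))))
    exact NPC.Poly.ite c (poly_sN (NPC.Poly.fst (NPC.Poly.snd NPC.Poly.id))
      (htl.comp (NPC.Poly.fst NPC.Poly.id)) (NPC.Poly.fst (NPC.Poly.snd (NPC.Poly.snd
        NPC.Poly.id))) d2 (NPC.Poly.const _)) (NPC.Poly.const _)
  refine (NPC.Poly.optCases (g := fun _ => sL) (h := fun a d =>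
    if d.2.2 < d.1.1 ∧ d.1.1 ≤ (M a).length then sN d.1 (tl a) d.2.1 d.2.2 true else sL)
    h1 (NPC.Poly.const _) h2).congr fun a => ?_
  unfold first
  generalize unbits (Dat × List (ℕ × ℕ) × ℕ) (unpair (M a)).1 = o
  cases o <;> rfl

theorem poly_gstep (hE : NPC.Poly (fun p : ℕ × List Bool => E p.1 p.2)) (hK : NPC.Poly K)
    (hA : NPC.Poly (fun p : List Tok × ℕ => argAt p.1 p.2))
    {s : α → Sta} {M M' : α → List Bool} (hs : Poly s) (hM : Poly M) (hM' : Poly M') :
    Poly (fun a => gstep E K argAt (s a) (M a) (M' a)) := by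
  have c1 : Poly (fun a => decide ((s a).1.1.isSome = true)) := by
    refine NPC.Poly.decide_bool ?_
    refine (NPC.Poly.optCases (o := fun a => (s a).1.1) (g := fun _ => false)
      (h := fun _ _ => true) (NPC.Poly.fst (NPC.Poly.fst hs)) (NPC.Poly.const _)
      (NPC.Poly.const _)).congr fun a => ?_
    cases (s a).1.1 <;> rfl
  have c2 : Poly (fun a => decide ((s a).1.2 = false)) :=
    NPC.Poly.decide_eq (NPC.Poly.snd (NPC.Poly.fst hs)) (NPC.Poly.const _)
  have hD : Poly (fun a => (s a).2.1) := NPC.Poly.fst (NPC.Poly.snd hs)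
  have hw : Poly (fun a => (s a).2.2.1) := NPC.Poly.fst (NPC.Poly.snd (NPC.Poly.snd hs))
  have he : Poly (fun a => (s a).2.2.2.1) :=
    NPC.Poly.fst (NPC.Poly.snd (NPC.Poly.snd (NPC.Poly.snd hs)))
  have hv : Poly (fun a => (s a).2.2.2.2.1) :=
    NPC.Poly.fst (NPC.Poly.snd (NPC.Poly.snd (NPC.Poly.snd (NPC.Poly.snd hs))))
  have hb : Poly (fun a => (s a).2.2.2.2.2) :=
    NPC.Poly.snd (NPC.Poly.snd (NPC.Poly.snd (NPC.Poly.snd (NPC.Poly.snd hs))))
  have p1 : Poly (fun p : α × Tok × List Tok => p.1) := NPC.Poly.fst NPC.Poly.id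
  have h3 : Poly (fun p : α × Tok × List Tok => rstep E K argAt (s p.1).2.1 p.2.1 p.2.2
      (s p.1).2.2.2.1 (s p.1).2.2.2.2.1 (s p.1).2.2.2.2.2 (M p.1) (M' p.1)) :=
    poly_rstep hE hK hA (hD.comp p1) (NPC.Poly.fst (NPC.Poly.snd NPC.Poly.id))
      (NPC.Poly.snd (NPC.Poly.snd NPC.Poly.id)) (he.comp p1) (hv.comp p1) (hb.comp p1)
      (hM.comp p1) (hM'.comp p1)
  have h4 := NPC.Poly.listCases (l := fun a => (s a).2.2.1) (g := fun _ => sL)
    (h := fun a t tl => rstep E K argAt (s a).2.1 t tl (s a).2.2.2.1 (s a).2.2.2.2.1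
      (s a).2.2.2.2.2 (M a) (M' a)) hw (NPC.Poly.const _) h3
  refine (NPC.Poly.ite c1 hs (NPC.Poly.ite c2 (poly_first hw hM) h4)).congr fun a => ?_
  unfold gstep
  cases (s a).2.2.1 <;> rfl

end

/-- PART D. -/
theorem partD : PartD := by
  intro E K argAt wf hE hK hA hwf
  refine ⟨?_, ?_, ?_⟩
  · exact poly_gstep hE hK hA (NPC.Poly.fst (NPC.Poly.snd NPC.Poly.id))
      (NPC.Poly.fst (NPC.Poly.snd (NPC.Poly.snd NPC.Poly.id)))
      (NPC.Poly.snd (NPC.Poly.snd (NPC.Poly.snd NPC.Poly.id)))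
  · unfold gout
    exact NPC.Poly.decide_eq (NPC.Poly.fst (NPC.Poly.fst NPC.Poly.id)) (NPC.Poly.const _)
  · have h1 : Poly (fun x : List Bool => unbits (List Tok) x) := poly_unbits.comp NPC.Poly.id
    have h2 : Poly (fun p : List Bool × List Tok => (if wf p.2 = true then
        ((none, false), (0, [], []), p.2, [], 0, false) else sL : Sta)) := by
      refine NPC.Poly.ite (NPC.Poly.decide_bool (hwf.comp (NPC.Poly.snd NPC.Poly.id))) ?_
        (NPC.Poly.const _)
      exact NPC.Poly.pair (NPC.Poly.const _) (NPC.Poly.pair (NPC.Poly.const _)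
        (NPC.Poly.pair (NPC.Poly.snd NPC.Poly.id) (NPC.Poly.const _)))
    refine (NPC.Poly.optCases (g := fun _ => sL) (h := fun _ w => if wf w = true then
      ((none, false), (0, [], []), w, [], 0, false) else sL) h1 (NPC.Poly.const _) h2).congr
        fun x => ?_
    unfold gini
    generalize unbits (List Tok) x = o
    cases o <;> rfl

end Pool.Agent.H87F.HYD
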