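import Mathlib
import Pool.Agent.Helper17.NG.FStm

set_option autoImplicit false

namespace Pool.Agent.H87F.NoriFermat1

open Polynomial TensorProduct

noncomputable section

/-- The presentation of a polynomial ring in one variable without relations. -/
def polyPres (R : Type) [CommRing R] :
    Algebra.SubmersivePresentation R (MvPolynomial PUnit.{1} R) PUnit.{1} Empty where
  toGenerators := Algebra.Generators.mvPolynomial R PUnit
  relation := Empty.elim
  span_range_relation_eq_ker := by
    rw [Set.range_eq_empty, Ideal.span_empty]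
    symm
    rw [eq_bot_iff]
    intro x hx
    rw [Algebra.Generators.ker_eq_ker_aeval_val, RingHom.mem_ker] at hx
    simpa using hx
  map := Empty.elim
  map_inj := fun x => x.elim
  jacobian_isUnit := by
    classical
    rw [Algebra.PreSubmersivePresentation.jacobian_eq_jacobiMatrix_det, Matrix.det_isEmpty]
    simp

theorem smooth_poly (R : Type) [CommRing R] :
    Algebra.IsStandardSmoothOfRelativeDimension 1 R R[X] := by
  have : Algebra.IsStandardSmoothOfRelativeDimension 1 R (MvPolynomial PUnit.{1} R) :=
    (polyPres R).isStandardSmoothOfRelativeDimension (by simp [Algebra.Presentation.dimension])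
  exact Algebra.IsStandardSmoothOfRelativeDimension.of_algEquiv 1
    (MvPolynomial.uniqueAlgEquiv R PUnit)

variable (κ : Type) [Field κ] (n : ℕ)

/-- the polynomial `y^n + x^n + 1` -/
abbrev F : (κ[X])[X] := X ^ n + C (X ^ n + 1)

theorem monic_F (hn : n ≠ 0) : (F κ n).Monic :=
  monic_X_pow_add_C _ hn

theorem derivative_F : derivative (F κ n) = C (C (n : κ)) * X ^ (n - 1) := by
  unfold F
  rw [derivative_add, derivative_C, add_zero, derivative_X_pow]
  simp

/-- the standard etale pair -/
def pair (h : (n : κ) ≠ 0) : StandardEtalePair κ[X] where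
  f := F κ n
  monic_f := monic_F κ n (by rintro rfl; simp at h)
  g := X
  cond := by
    refine ⟨C (C (n : κ)⁻¹), 0, n - 1, ?_⟩
    rw [derivative_F, mul_zero, add_zero, mul_right_comm, ← C_mul, ← C_mul, mul_inv_cancel₀ h]
    simp

theorem away_root (h : (n : κ) ≠ 0) :
    ((algebraMap (Helper17.NG.FC κ n) (Localization.Away (AdjoinRoot.root (F κ n)))).comp
      (algebraMap κ (Helper17.NG.FC κ n))).IsStandardSmoothOfRelativeDimension 1 := by
  have h0 : Algebra.Etale κ[X] (Localization.Away (AdjoinRoot.mk (pair κ n h).f (pair κ n h).g)) :=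
    Algebra.Etale.of_equiv (pair κ n h).equivAwayAdjoinRoot
  rw [Algebra.Etale.iff_isStandardSmoothOfRelativeDimension_zero] at h0
  have h1 : Algebra.IsStandardSmoothOfRelativeDimension 0 κ[X]
    (Localization.Away (AdjoinRoot.root (F κ n))) := h0
  have h2 := smooth_poly κ
  have h3 : Algebra.IsStandardSmoothOfRelativeDimension (0 + 1) κ
      (Localization.Away (AdjoinRoot.root (F κ n))) :=
    Algebra.IsStandardSmoothOfRelativeDimension.trans 1 0 κ κ[X] _
  have h4 := (RingHom.isStandardSmoothOfRelativeDimension_algebraMap 1).2 h3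
  exact h4

/-- the image of `x` -/
abbrev xx : Helper17.NG.FC κ n := AdjoinRoot.of (F κ n) X

/-- the image of `y` -/
abbrev yy : Helper17.NG.FC κ n := AdjoinRoot.root (F κ n)

theorem relation : (yy κ n) ^ n + ((xx κ n) ^ n + 1) = 0 := by
  have h := AdjoinRoot.eval₂_root (F κ n)
  simpa [F, eval₂_add, eval₂_pow] using h

theorem swap_aux : (F κ n).eval₂ (eval₂RingHom (algebraMap κ (Helper17.NG.FC κ n)) (yy κ n))
    (xx κ n) = 0 := by
  have h := relation κ n
  simp only [F, eval₂_add, eval₂_pow, eval₂_X, eval₂_C, coe_eval₂RingHom, eval₂_one]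
  linear_combination h

/-- the swap of `x` and `y` -/
def swap : Helper17.NG.FC κ n →+* Helper17.NG.FC κ n :=
  AdjoinRoot.lift (eval₂RingHom (algebraMap κ (Helper17.NG.FC κ n)) (yy κ n)) (xx κ n)
    (swap_aux κ n)

theorem swap_yy : swap κ n (yy κ n) = xx κ n := by
  simp [swap]

theorem swap_xx : swap κ n (xx κ n) = yy κ n := by
  simp [swap]

theorem swap_algebraMap (a : κ) :
    swap κ n (algebraMap κ (Helper17.NG.FC κ n) a) = algebraMap κ (Helper17.NG.FC κ n) a := by
  have h : algebraMap κ (Helper17.NG.FC κ n) a = AdjoinRoot.of (F κ n) (C a) := rfl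
  rw [h]
  simp only [swap, AdjoinRoot.lift_of]
  simp
  rfl

theorem swap_swap : (swap κ n).comp (swap κ n) = RingHom.id _ := by
  apply AdjoinRoot.ringHom_ext
  · apply Polynomial.ringHom_ext
    · intro a
      have h : AdjoinRoot.of (F κ n) (C a) = algebraMap κ (Helper17.NG.FC κ n) a := rfl
      simp only [RingHom.comp_apply, h, swap_algebraMap, RingHom.id_apply]
    · have h := swap_xx κ n
      have h' := swap_yy κ n
      simp only [RingHom.comp_apply, RingHom.id_apply]
      rw [h, h']
  · simp only [RingHom.comp_apply, RingHom.id_apply]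
    have h := swap_xx κ n
    have h' := swap_yy κ n
    rw [h', h]

/-- the swap as an automorphism -/
def swapE : Helper17.NG.FC κ n ≃+* Helper17.NG.FC κ n :=
  RingEquiv.ofRingHom (swap κ n) (swap κ n) (swap_swap κ n) (swap_swap κ n)

theorem map_powers : Submonoid.map (swapE κ n).toMonoidHom (Submonoid.powers (yy κ n)) =
    Submonoid.powers (xx κ n) := by
  rw [Submonoid.map_powers]
  congr 1
  exact swap_yy κ n

theorem away_xx (h : (n : κ) ≠ 0) :
    ((algebraMap (Helper17.NG.FC κ n) (Localization.Away (xx κ n))).comp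
      (algebraMap κ (Helper17.NG.FC κ n))).IsStandardSmoothOfRelativeDimension 1 := by
  have h1 := away_root κ n h
  let e : Localization.Away (yy κ n) ≃+* Localization.Away (xx κ n) :=
    IsLocalization.ringEquivOfRingEquiv (Localization.Away (yy κ n))
      (Localization.Away (xx κ n)) (swapE κ n) (map_powers κ n)
  have h2 := RingHom.isStandardSmoothOfRelativeDimension_respectsIso.left _ e h1
  convert h2 using 1
  ext a
  simp only [RingHom.comp_apply]
  have h3 := swap_algebraMap κ n a
  have h4 : e (algebraMap (Helper17.NG.FC κ n) (Localization.Away (yy κ n))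
      (algebraMap κ (Helper17.NG.FC κ n) a)) =
      algebraMap (Helper17.NG.FC κ n) (Localization.Away (xx κ n))
        (swapE κ n (algebraMap κ (Helper17.NG.FC κ n) a)) :=
    IsLocalization.ringEquivOfRingEquiv_eq _ _
  have h5 : swapE κ n (algebraMap κ (Helper17.NG.FC κ n) a) =
    algebraMap κ (Helper17.NG.FC κ n) a := h3
  rw [h5] at h4
  exact h4.symm

/-- Piece 1. -/
theorem smoothStm : Helper17.NG.SmoothStm := by
  intro κ _ n h
  refine ⟨{yy κ n, xx κ n}, ?_, ?_⟩
  · rw [Ideal.eq_top_iff_one, Ideal.mem_span_pair]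
    obtain ⟨m, rfl⟩ : ∃ m, n = m + 1 := by
      cases n with
      | zero => simp at h
      | succ m => exact ⟨m, rfl⟩
    refine ⟨- (yy κ (m + 1)) ^ m, - (xx κ (m + 1)) ^ m, ?_⟩
    have hr := relation κ (m + 1)
    linear_combination -hr
  · intro t ht
    rcases ht with rfl | ht
    · exact away_root κ n h
    · rw [Set.mem_singleton_iff] at ht
      subst ht
      exact away_xx κ n h

end

end Pool.Agent.H87F.NoriFermat1
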