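import Pool.Agent.H87F.Frob
import Pool.Agent.Y748.UF.Val

/-! # The power map `x ↦ x ^ |V|` for a finite subgroup `V` -/

set_option autoImplicit false

namespace Pool.Agent.H87F

open Function
open Pool.Agent.Y924.UF
open WithZero LaurentSeries

variable {p : ℕ} [Fact p.Prime]

theorem alg_mul (d : ZMod p) (x : LaurentSeries (ZMod p)) :
    algebraMap (ZMod p) (LaurentSeries (ZMod p)) d * x = d • x := by
  rw [← HahnSeries.C_mul_eq_smul]
  congr 1
  exact RingHom.congr_fun (Subsingleton.elim (algebraMap (ZMod p) (LaurentSeries (ZMod p)))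
    (HahnSeries.C : ZMod p →+* HahnSeries ℤ (ZMod p))) d

theorem tt_ne : tt p ≠ 0 := HahnSeries.single_ne_zero one_ne_zero

theorem v_tt_lt : (Valued.v (tt p) : (WithZero (Multiplicative ℤ))) < 1 := by
  have h1 : ¬ Dv (tt p) (1 : LaurentSeries (ZMod p)) := by
    rintro ⟨z, hz, h⟩
    have h2 := (Pool.Agent.Y748.UF.mem_iff z).1 hz (-1) (by norm_num)
    have h3 : (tt p * z).coeff 0 = z.coeff (-1) := by
      have := Pool.Agent.Y15.UF.coeff_tt z 0
      simpa [tt] using this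
    rw [h, h2] at h3
    simp at h3
  rw [dv_iff, not_le, map_one] at h1
  exact h1

theorem dv_refl (x : LaurentSeries (ZMod p)) : Dv x x := (dv_iff _ _).2 le_rfl

theorem dv_trans {x y z : LaurentSeries (ZMod p)} (h : Dv x y) (h' : Dv y z) : Dv x z := by
  rw [dv_iff] at *
  exact h'.trans h

theorem dv_total (x y : LaurentSeries (ZMod p)) : Dv x y ∨ Dv y x := by
  rw [dv_iff, dv_iff]
  exact le_total _ _

theorem avoid (B : Finset (LaurentSeries (ZMod p))) :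
    ∃ c0 : LaurentSeries (ZMod p), c0 ≠ 0 ∧ ∀ c, c ≠ 0 → Dv c0 c → c ∉ B := by
  classical
  obtain ⟨c0, h0, h⟩ := exists_small (B.image fun b => b⁻¹) (tt_ne (p := p))
  refine ⟨c0, h0, fun c hc hcc hcB => ?_⟩
  have h1 := h _ (Finset.mem_image_of_mem _ hcB)
  rw [dv_iff] at h1 hcc
  have hv : (Valued.v c : (WithZero (Multiplicative ℤ))) ≠ 0 := (Valuation.ne_zero_iff _).2 hc
  rw [map_mul, map_inv₀] at h1
  have h2 : (1 : (WithZero (Multiplicative ℤ))) ≤ Valued.v c0 * (Valued.v c)⁻¹ := by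
    rw [← div_eq_mul_inv, one_le_div₀ (zero_lt_iff.2 hv)]
    exact hcc
  exact absurd (h2.trans h1) (not_le.2 v_tt_lt)

theorem prod_one_add (s : Finset (LaurentSeries (ZMod p)))
    (f : LaurentSeries (ZMod p) → LaurentSeries (ZMod p)) {δ : LaurentSeries (ZMod p)}
    (hδ : (Valued.v δ : (WithZero (Multiplicative ℤ))) ≤ 1) (hf : ∀ a ∈ s, Dv δ (f a)) :
    ∃ w, Dv δ w ∧ ∏ a ∈ s, (1 + f a) = 1 + w := by
  classical
  induction s using Finset.induction with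
  | empty => exact ⟨0, by rw [dv_iff, map_zero]; exact zero_le, by simp⟩
  | insert a s ha ih =>
    obtain ⟨w, hw, h⟩ := ih fun b hb => hf b (Finset.mem_insert_of_mem hb)
    refine ⟨f a + w + f a * w, ?_, by rw [Finset.prod_insert ha, h]; ring⟩
    have h1 := hf a (Finset.mem_insert_self a s)
    rw [dv_iff] at *
    refine (Valuation.map_add _ _ _).trans (max_le ((Valuation.map_add _ _ _).trans
      (max_le h1 hw)) ?_)
    rw [map_mul]
    exact (mul_le_mul' h1 (hw.trans hδ)).trans_eq (mul_one _)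

theorem prod_near (V : Finset (LaurentSeries (ZMod p))) {x δ : LaurentSeries (ZMod p)}
    (hx : x ≠ 0) (hδ0 : δ ≠ 0) (hδ : (Valued.v δ : (WithZero (Multiplicative ℤ))) ≤ 1) :
    ∃ c0 : LaurentSeries (ZMod p), c0 ≠ 0 ∧ ∀ c, Dv c0 c →
      ∃ w, Dv δ w ∧ ∏ a ∈ V, (x - c * a) = x ^ V.card * (1 + w) := by
  classical
  obtain ⟨c0, h0, h⟩ := exists_small (V.image fun a => a / x) hδ0
  refine ⟨c0, h0, fun c hc => ?_⟩
  obtain ⟨w, hw, h1⟩ := prod_one_add V (fun a => -(c * (a / x))) hδ (by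
    intro a ha
    have h2 := h _ (Finset.mem_image_of_mem _ ha)
    rw [dv_iff] at *
    rw [Valuation.map_neg]
    rw [map_mul] at h2 ⊢
    exact (mul_le_mul' hc le_rfl).trans h2)
  refine ⟨w, hw, ?_⟩
  rw [← h1, ← Finset.prod_const, ← Finset.prod_mul_distrib]
  refine Finset.prod_congr rfl fun a _ => ?_
  field_simp
  ring

theorem v_one_add {w : LaurentSeries (ZMod p)} (h : (Valued.v w : (WithZero (Multiplicative ℤ))) < 1) :
    (Valued.v (1 + w) : (WithZero (Multiplicative ℤ))) = 1 := Valuation.map_one_add_of_lt _ h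

theorem key (V : Finset (LaurentSeries (ZMod p))) (h0 : (0 : LaurentSeries (ZMod p)) ∈ V)
    (hs : ∀ a ∈ V, ∀ b ∈ V, a - b ∈ V) {x δ : LaurentSeries (ZMod p)}
    (hx : x ≠ 0) (hδ0 : δ ≠ 0) (hδ : (Valued.v δ : (WithZero (Multiplicative ℤ))) < 1) :
    ∃ c0 : LaurentSeries (ZMod p), c0 ≠ 0 ∧ ∀ c, c ≠ 0 → Dv c0 c →
      ∃ E1 E2 w, E1 ≠ 0 ∧ E2 ≠ 0 ∧ (∀ e, IsE (V : Set (LaurentSeries (ZMod p))) c 1 e ↔ e = E1) ∧
        (∀ e, IsE (V : Set (LaurentSeries (ZMod p))) c x e ↔ e = E2) ∧ Dv δ w ∧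
        E1 = x ^ V.card * (1 + w) * E2 := by
  classical
  obtain ⟨B1, hB1⟩ := bad_set (k := ZMod p) V (one_ne_zero (α := LaurentSeries (ZMod p)))
  obtain ⟨B2, hB2⟩ := bad_set (k := ZMod p) V hx
  obtain ⟨c1, hc1, hav⟩ := avoid (B1 ∪ B2)
  obtain ⟨c2, hc2, hn1⟩ := prod_near V (one_ne_zero (α := LaurentSeries (ZMod p))) hδ0 hδ.le
  obtain ⟨c3, hc3, hn2⟩ := prod_near V hx hδ0 hδ.le
  obtain ⟨c0, hc0, hd1, hd2, hd3⟩ : ∃ c0 : LaurentSeries (ZMod p), c0 ≠ 0 ∧ Dv c1 c0 ∧ Dv c2 c0 ∧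
      Dv c3 c0 := by
    rcases dv_total c1 c2 with h12 | h12
    · rcases dv_total c2 c3 with h23 | h23
      · exact ⟨c3, hc3, dv_trans h12 h23, h23, dv_refl _⟩
      · exact ⟨c2, hc2, h12, dv_refl _, h23⟩
    · rcases dv_total c1 c3 with h13 | h13
      · exact ⟨c3, hc3, h13, dv_trans h12 h13, dv_refl _⟩
      · exact ⟨c1, hc1, dv_refl _, h12, h13⟩
  refine ⟨c0, hc0, fun c hc hcc => ?_⟩
  have hcB := hav c hc (dv_trans hd1 hcc)
  rw [Finset.mem_union, not_or] at hcB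
  obtain ⟨hne1, hi1⟩ := hB1 c hc hcB.1
  obtain ⟨hne2, hi2⟩ := hB2 c hc hcB.2
  obtain ⟨κ, hκ, hsum⟩ := sum_inv_mul V h0 hs hc
  obtain ⟨w1, hw1, hp1⟩ := hn1 c (dv_trans hd2 hcc)
  obtain ⟨w2, hw2, hp2⟩ := hn2 c (dv_trans hd3 hcc)
  rw [dv_iff] at hw1 hw2
  have hv1 := v_one_add (lt_of_le_of_lt hw1 hδ)
  have hv2 := v_one_add (lt_of_le_of_lt hw2 hδ)
  have hu1 : 1 + w1 ≠ 0 := by
    intro h
    rw [h, map_zero] at hv1
    exact zero_ne_one hv1
  have hu2 : 1 + w2 ≠ 0 := by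
    intro h
    rw [h, map_zero] at hv2
    exact zero_ne_one hv2
  have hs1 := hsum 1 hne1
  have hs2 := hsum x hne2
  rw [hp1, one_pow, one_mul] at hs1
  rw [hp2] at hs2
  have hxq : x ^ V.card ≠ 0 := pow_ne_zero _ hx
  refine ⟨κ / (1 + w1), κ / (x ^ V.card * (1 + w2)), (w2 - w1) / (1 + w1), div_ne_zero hκ hu1,
    div_ne_zero hκ (mul_ne_zero hxq hu2), ?_, ?_, ?_, ?_⟩
  · intro e
    rw [← hs1]
    refine isE_iff V c 1 e fun d hd => ?_
    have := hi1 d hd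
    simpa only [alg_mul] using this
  · intro e
    rw [← hs2]
    refine isE_iff V c x e fun d hd => ?_
    have := hi2 d hd
    simpa only [alg_mul] using this
  · rw [dv_iff, map_div₀, hv1, div_one]
    exact (Valuation.map_sub _ _ _).trans (max_le hw2 hw1)
  · field_simp
    ring

/-- `y` is the limit of `E_c(1) / E_c(x)` for `c → 0`, `E_c(x) = ∑ 1 / (x - c a)` -/
def Pw (V : Set (LaurentSeries (ZMod p))) (x y : LaurentSeries (ZMod p)) : Prop :=
  ∀ ε : LaurentSeries (ZMod p), ε ≠ 0 → ∃ c0 : LaurentSeries (ZMod p), c0 ≠ 0 ∧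
    ∀ c, c ≠ 0 → Dv c0 c → ∀ e1 e2, IsE V c 1 e1 → IsE V c x e2 → Dv (ε * e1) (e1 - y * e2)

theorem exists_lt_one (a : LaurentSeries (ZMod p)) (ha : a ≠ 0) :
    ∃ δ : LaurentSeries (ZMod p), δ ≠ 0 ∧ (Valued.v δ : (WithZero (Multiplicative ℤ))) < 1 ∧ Dv a δ := by
  rcases dv_total a (tt p) with h | h
  · exact ⟨tt p, tt_ne, v_tt_lt, h⟩
  · refine ⟨a, ha, ?_, dv_refl _⟩
    rw [dv_iff] at h
    exact lt_of_le_of_lt h v_tt_lt

theorem pw_iff (V : Finset (LaurentSeries (ZMod p))) (h0 : (0 : LaurentSeries (ZMod p)) ∈ V)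
    (hs : ∀ a ∈ V, ∀ b ∈ V, a - b ∈ V) {x : LaurentSeries (ZMod p)} (hx : x ≠ 0)
    (y : LaurentSeries (ZMod p)) :
    Pw (V : Set (LaurentSeries (ZMod p))) x y ↔ y = x ^ V.card := by
  have hxq : x ^ V.card ≠ 0 := pow_ne_zero _ hx
  constructor
  · intro h
    by_contra hne
    have hd : y - x ^ V.card ≠ 0 := sub_ne_zero.2 hne
    set d := y - x ^ V.card with hdd
    obtain ⟨c1, hc1, h1⟩ := h (tt p * d / x ^ V.card)
      (div_ne_zero (mul_ne_zero tt_ne hd) hxq)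
    obtain ⟨δ, hδ0, hδ1, hδ2⟩ := exists_lt_one (tt p * d / x ^ V.card)
      (div_ne_zero (mul_ne_zero tt_ne hd) hxq)
    obtain ⟨c2, hc2, h2⟩ := key V h0 hs hx hδ0 hδ1
    obtain ⟨c, hc, hcc1, hcc2⟩ : ∃ c : LaurentSeries (ZMod p), c ≠ 0 ∧ Dv c1 c ∧ Dv c2 c := by
      rcases dv_total c1 c2 with h12 | h12
      · exact ⟨c2, hc2, h12, dv_refl _⟩
      · exact ⟨c1, hc1, dv_refl _, h12⟩
    obtain ⟨E1, E2, w, hE1, hE2, hi1, hi2, hw, hE⟩ := h2 c hc hcc2
    have h3 := h1 c hc hcc1 E1 E2 ((hi1 _).2 rfl) ((hi2 _).2 rfl)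
    have hw' := dv_trans hδ2 hw
    rw [dv_iff] at h3 hw' hw
    have hvw := v_one_add (lt_of_le_of_lt hw hδ1)
    have hvE2 : (Valued.v E2 : (WithZero (Multiplicative ℤ))) ≠ 0 := (Valuation.ne_zero_iff _).2 hE2
    have hvq : (Valued.v (x ^ V.card) : (WithZero (Multiplicative ℤ))) ≠ 0 := (Valuation.ne_zero_iff _).2 hxq
    have hvd : (Valued.v d : (WithZero (Multiplicative ℤ))) ≠ 0 := (Valuation.ne_zero_iff _).2 hd
    have e1 : E1 - y * E2 = (x ^ V.card * w - d) * E2 := by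
      rw [hE, hdd]
      ring
    have e2 : tt p * d / x ^ V.card * E1 = tt p * d * (1 + w) * E2 := by
      rw [hE]
      field_simp
    rw [e1, e2, map_mul, map_mul, mul_le_mul_iff_left₀ (zero_lt_iff.2 hvE2), map_mul, hvw,
      mul_one] at h3
    have h4 : (Valued.v (x ^ V.card * w) : (WithZero (Multiplicative ℤ))) < Valued.v d := by
      have h5 : (Valued.v (x ^ V.card * w) : (WithZero (Multiplicative ℤ))) ≤ Valued.v (tt p * d) := by
        rw [map_div₀] at hw'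
        rw [map_mul, mul_comm]
        exact (le_div_iff₀ (zero_lt_iff.2 hvq)).1 hw'
      refine lt_of_le_of_lt h5 ?_
      rw [map_mul]
      calc (Valued.v (tt p) : (WithZero (Multiplicative ℤ))) * Valued.v d < 1 * Valued.v d :=
            mul_lt_mul_of_pos_right v_tt_lt (zero_lt_iff.2 hvd)
        _ = _ := one_mul _
    have h5 : (Valued.v (x ^ V.card * w - d) : (WithZero (Multiplicative ℤ))) = Valued.v d := by
      rw [Valuation.map_sub_swap]
      exact Valuation.map_sub_eq_of_lt_left _ h4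
    rw [h5, map_mul] at h3
    have h6 : (Valued.v (tt p) : (WithZero (Multiplicative ℤ))) * Valued.v d < Valued.v d := by
      calc (Valued.v (tt p) : (WithZero (Multiplicative ℤ))) * Valued.v d < 1 * Valued.v d :=
            mul_lt_mul_of_pos_right v_tt_lt (zero_lt_iff.2 hvd)
        _ = _ := one_mul _
    exact absurd h3 (not_le.2 h6)
  · rintro rfl ε hε
    obtain ⟨δ, hδ0, hδ1, hδ2⟩ := exists_lt_one ε hε
    obtain ⟨c0, hc0, h2⟩ := key V h0 hs hx hδ0 hδ1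
    refine ⟨c0, hc0, fun c hc hcc e1 e2 he1 he2 => ?_⟩
    obtain ⟨E1, E2, w, hE1, hE2, hi1, hi2, hw, hE⟩ := h2 c hc hcc
    rw [hi1] at he1
    rw [hi2] at he2
    subst he1 he2
    have hw' := dv_trans hδ2 hw
    rw [dv_iff] at hw hw' ⊢
    have hvw := v_one_add (lt_of_le_of_lt hw hδ1)
    have e1 : e1 - x ^ V.card * e2 = x ^ V.card * e2 * w := by
      rw [hE]
      ring
    rw [e1, map_mul, map_mul _ ε, hE, map_mul _ (x ^ V.card * (1 + w)), map_mul _ _ (1 + w), hvw,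
      mul_one, map_mul _ _ e2, mul_comm]
    exact mul_le_mul' hw' le_rfl

end Pool.Agent.H87F
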