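import Pool.Agent.H87F.Topo

/-! # Closed sets and projections -/

set_option autoImplicit false

namespace Pool.Agent.H87F

open Function
open Pool.Agent.Y924.EL
open Pool.Agent.Y924.UF
open WithZero LaurentSeries

/-- the assignment which gives `x_0, ..., x_(n-1)` the values `x` -/
def ext {K : Type} (n : ℕ) (x : Fin n → K) (w : ℕ → K) : ℕ → K :=
  fun i => if h : i < n then x ⟨i, h⟩ else w i

section

variable {K : Type} [Field K] {P : Set K} {Γ : Type} [Ctx K Γ]

theorem Df.allLt (n : ℕ) {X : ℕ → Γ → Prop} (h : ∀ i, i < n → Df P (X i)) :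
    Df P fun γ => ∀ i, i < n → X i γ := by
  induction n with
  | zero => exact Df.true.congr fun γ => by simp
  | succ n ih =>
    refine ((ih fun i hi => h i (by omega)).and (h n (by omega))).congr fun γ => ?_
    constructor
    · intro h1
      exact ⟨fun i hi => h1 i (by omega), h1 n (by omega)⟩
    · rintro ⟨h1, h2⟩ i hi
      by_cases hin : i = n
      · rw [hin]; exact h2
      · exact h1 i (by omega)

/-- one formula for a definable set of assignments, the first `n` variables are free and the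
others are parameters -/
theorem Df.formula {X : (ℕ → K) → Prop} (hX : Df P X) (n : ℕ) :
    ∃ φ : Fm, ∀ w : ℕ → K, ∃ u : ℕ → K, ∀ x : Fin n → K, X (ext n x w) ↔ Sat P φ (ext n x u) := by
  obtain ⟨φ, c, hφ⟩ := hX
  have hinj : Injective (fun m : ℕ => if m % 2 = 0 ∧ m / 2 < n then m / 2 else n + m) := by
    intro i j h
    simp only at h
    split_ifs at h <;> omega
  refine ⟨ren (fun m => if m % 2 = 0 ∧ m / 2 < n then m / 2 else n + m) φ, fun w =>
    ⟨fun i => mix w c (i - n), fun x => ?_⟩⟩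
  rw [hφ, Pool.Agent.Y410.UF.sat_ren P hinj]
  have e : (ext n x fun i => mix w c (i - n)) ∘
      (fun m : ℕ => if m % 2 = 0 ∧ m / 2 < n then m / 2 else n + m) =
      mix (Ctx.val (ext n x w)) c := by
    funext m
    simp only [comp_apply]
    by_cases h : m % 2 = 0 ∧ m / 2 < n
    · rw [if_pos h]
      simp only [ext, mix, h.1, h.2, if_true, dif_pos]
      show _ = ext n x w (m / 2)
      simp only [ext, h.2, dif_pos]
    · rw [if_neg h]
      have h2 : ¬ (n + m < n) := by omega
      simp only [ext, h2, dif_neg, not_false_eq_true, Nat.add_sub_cancel_left]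
      by_cases h3 : m % 2 = 0
      · have h4 : ¬ (m / 2 < n) := fun h5 => h ⟨h3, h5⟩
        simp only [mix, h3, if_true]
        show w (m / 2) = ext n x w (m / 2)
        simp only [ext, h4, dif_neg, not_false_eq_true]
      · simp only [mix, h3, if_false]
  rw [e]

/-- definable subsets of `K ^ n` -/
def Dd (P : Set K) (n : ℕ) (X : Set (Fin n → K)) : Prop :=
  Df P fun v : ℕ → K => (fun i : Fin n => v i) ∈ X

theorem Dd.formula {n : ℕ} {X : Set (Fin n → K)} (hX : Dd P n X) :
    ∃ (φ : Fm) (u : ℕ → K), ∀ x : Fin n → K, x ∈ X ↔ Sat P φ (ext n x u) := by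
  obtain ⟨φ, h⟩ := Df.formula hX n
  obtain ⟨u, hu⟩ := h 0
  refine ⟨φ, u, fun x => ?_⟩
  rw [← hu]
  have e : (fun i : Fin n => ext n x 0 i) = x := by
    funext i
    simp [ext]
  show _ ↔ (fun i : Fin n => ext n x 0 i) ∈ X
  rw [e]

theorem Dd.of_formula {n : ℕ} {X : Set (Fin n → K)} (φ : Fm) (u : ℕ → K)
    (h : ∀ x : Fin n → K, x ∈ X ↔ Sat P φ (ext n x u)) : Dd P n X := by
  have h1 := Df.sat (P := P) φ (Γ := ℕ → K) (fun i v => if i < n then v i else u i) (fun i => by
    by_cases hi : i < n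
    · simp only [hi, if_true]
      exact Ff.var i
    · simp only [hi, if_false]
      exact Ff.const _)
  refine h1.congr fun v => ?_
  rw [h]
  have e : ext n (fun i : Fin n => v i) u = fun i => if i < n then v i else u i := by
    funext i
    by_cases hi : i < n
    · simp [ext, hi]
    · simp [ext, hi]
  rw [e]

theorem Dd.compl {n : ℕ} {X : Set (Fin n → K)} (hX : Dd P n X) : Dd P n Xᶜ :=
  (Df.not hX).congr fun _ => Iff.rfl

theorem Dd.inter {n : ℕ} {X Y : Set (Fin n → K)} (hX : Dd P n X) (hY : Dd P n Y) :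
    Dd P n (X ∩ Y) := (Df.and hX hY).congr fun _ => Iff.rfl

theorem Dd.proj {n : ℕ} {X : Set (Fin (n + 1) → K)} (hX : Dd P (n + 1) X) :
    Dd P n {x | ∃ a : K, (Fin.snoc x a : Fin (n + 1) → K) ∈ X} := by
  refine Df.ex (X := fun (v : ℕ → K) a =>
    (Fin.snoc (fun i : Fin n => v i) a : Fin (n + 1) → K) ∈ X) ?_
  have h := Df.pull (Δ := (ℕ → K) × K) hX (fun q j => if j < n then q.1 j else q.2) (fun j => by
    show Ff P fun q : (ℕ → K) × K => if j < n then q.1 j else q.2
    by_cases hj : j < n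
    · simp only [hj, if_true]
      exact Ff.var (Γ := (ℕ → K) × K) (j + 1)
    · simp only [hj, if_false]
      exact Ff.var (Γ := (ℕ → K) × K) 0)
  refine h.congr fun q => ?_
  have e : (Fin.snoc (fun i : Fin n => q.1 i) q.2 : Fin (n + 1) → K) =
      fun i : Fin (n + 1) => if (i : ℕ) < n then q.1 i else q.2 := by
    funext i
    refine Fin.lastCases ?_ (fun j => ?_) i
    · simp
    · simp
  rw [e]

end

section

variable {p : ℕ} [hp : Fact p.Prime] {P : Set (LaurentSeries (ZMod p))}

/-- the closed set coded by the variables `x_n, ..., x_(3 n)` -/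
def CC (n : ℕ) (v : ℕ → (LaurentSeries (ZMod p))) : Prop := ∀ ε, ε ≠ 0 → ∃ m, isN m ∧ lam p (v (3 * n) / m) = 1 ∧
  ∀ i, i < n → ∃ b, Sq (v (n + 2 * i)) (v (n + 2 * i + 1)) m b ∧ Dv ε (v i - b)

theorem df_cc (hT : Df1 P (isT (p := p))) (n : ℕ) : Df P (CC (p := p) n) := by
  have hN := df_isN hT
  have hS := df_sq hT
  refine Df.all (X := fun (v : ℕ → (LaurentSeries (ZMod p))) ε => ε ≠ 0 → ∃ m, isN m ∧ lam p (v (3 * n) / m) = 1 ∧
    ∀ i, i < n → ∃ b, Sq (v (n + 2 * i)) (v (n + 2 * i + 1)) m b ∧ Dv ε (v i - b)) ?_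
  refine (Df.eq (by repeat' first | exact Ff.var 0 | exact Ff.var 1 | exact Ff.var 2 | exact Ff.var 3 | exact Ff.var 4 | exact Ff.var 5 | exact Ff.var 6 | exact Ff.var 7 | exact Ff.var 8 | exact Ff.var 9 | exact Ff.var 10 | exact Ff.const _ | with_reducible apply Ff.mul | with_reducible apply Ff.div | with_reducible apply Ff.sub | with_reducible apply Ff.add | with_reducible apply Ff.pow | with_reducible apply Ff.neg | with_reducible apply Ff.inv) (Ff.const 0)).not.imp ?_
  refine Df.ex (X := fun (q : (ℕ → (LaurentSeries (ZMod p))) × (LaurentSeries (ZMod p))) m => isN m ∧ lam p (q.1 (3 * n) / m) = 1 ∧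
    ∀ i, i < n → ∃ b, Sq (q.1 (n + 2 * i)) (q.1 (n + 2 * i + 1)) m b ∧ Dv q.2 (q.1 i - b)) ?_
  have hv1 : ∀ j, Ff P fun q : ((ℕ → (LaurentSeries (ZMod p))) × (LaurentSeries (ZMod p))) × (LaurentSeries (ZMod p)) => q.1.1 j := fun j => Ff.var (j + 2)
  have hv2 : ∀ j, Ff P fun q : (((ℕ → (LaurentSeries (ZMod p))) × (LaurentSeries (ZMod p))) × (LaurentSeries (ZMod p))) × (LaurentSeries (ZMod p)) => q.1.1.1 j := fun j => Ff.var (j + 3)
  refine (hN.app (by repeat' first | exact Ff.var 0 | exact Ff.var 1 | exact Ff.var 2 | exact Ff.var 3 | exact Ff.var 4 | exact Ff.var 5 | exact Ff.var 6 | exact Ff.var 7 | exact Ff.var 8 | exact Ff.var 9 | exact Ff.var 10 | exact Ff.const _ | with_reducible apply Ff.mul | with_reducible apply Ff.div | with_reducible apply Ff.sub | with_reducible apply Ff.add | with_reducible apply Ff.pow | with_reducible apply Ff.neg | with_reducible apply Ff.inv)).and ((Df.lam1 ((hv1 _).div (by repeat' first | exact Ff.var 0 | exact Ff.var 1 | exact Ff.var 2 |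 exact Ff.var 3 | exact Ff.var 4 | exact Ff.var 5 | exact Ff.var 6 | exact Ff.var 7 | exact Ff.var 8 | exact Ff.var 9 | exact Ff.var 10 | exact Ff.const _ | with_reducible apply Ff.mul | with_reducible apply Ff.div | with_reducible apply Ff.sub | with_reducible apply Ff.add | with_reducible apply Ff.pow | with_reducible apply Ff.neg | with_reducible apply Ff.inv))).and ?_)
  refine Df.allLt n fun i _ => ?_
  refine Df.ex (X := fun (q : ((ℕ → (LaurentSeries (ZMod p))) × (LaurentSeries (ZMod p))) × (LaurentSeries (ZMod p))) b =>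
    Sq (q.1.1 (n + 2 * i)) (q.1.1 (n + 2 * i + 1)) q.2 b ∧ Dv q.1.2 (q.1.1 i - b)) ?_
  exact (hS.app (hv2 _) (hv2 _) (by repeat' first | exact Ff.var 0 | exact Ff.var 1 | exact Ff.var 2 | exact Ff.var 3 | exact Ff.var 4 | exact Ff.var 5 | exact Ff.var 6 | exact Ff.var 7 | exact Ff.var 8 | exact Ff.var 9 | exact Ff.var 10 | exact Ff.const _ | with_reducible apply Ff.mul | with_reducible apply Ff.div | with_reducible apply Ff.sub | with_reducible apply Ff.add | with_reducible apply Ff.pow | with_reducible apply Ff.neg | with_reducible apply Ff.inv) (by repeat' first | exact Ff.var 0 | exact Ff.var 1 | exact Ff.var 2 | exact Ff.var 3 | exact Ff.var 4 | exact Ff.var 5 | exact Ff.var 6 | exact Ff.var 7 | exact Ff.var 8 | exact Ff.var 9 | exact Ff.var 10 | exact Ff.const _ | with_reducible apply Ff.mul | with_reducible apply Ff.div | with_reducible apply Ff.sub | with_reducible apply Ff.add | with_reducible apply Ff.pow | with_reducible apply Ff.neg | with_reducible apply Ff.inv)).and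 (Df.dv (by repeat' first | exact Ff.var 0 | exact Ff.var 1 | exact Ff.var 2 | exact Ff.var 3 | exact Ff.var 4 | exact Ff.var 5 | exact Ff.var 6 | exact Ff.var 7 | exact Ff.var 8 | exact Ff.var 9 | exact Ff.var 10 | exact Ff.const _ | with_reducible apply Ff.mul | with_reducible apply Ff.div | with_reducible apply Ff.sub | with_reducible apply Ff.add | with_reducible apply Ff.pow | with_reducible apply Ff.neg | with_reducible apply Ff.inv) ((hv2 _).sub (by repeat' first | exact Ff.var 0 | exact Ff.var 1 | exact Ff.var 2 | exact Ff.var 3 | exact Ff.var 4 | exact Ff.var 5 | exact Ff.var 6 | exact Ff.var 7 | exact Ff.var 8 | exact Ff.var 9 | exact Ff.var 10 | exact Ff.const _ | with_reducible apply Ff.mul | with_reducible apply Ff.div | with_reducible apply Ff.sub | with_reducible apply Ff.add | with_reducible apply Ff.pow | with_reducible apply Ff.neg | with_reducible apply Ff.inv)))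

theorem closed_code {n : ℕ} {X : Set (Fin n → (LaurentSeries (ZMod p)))} (hX : IsClosed X) :
    ∃ w : ℕ → (LaurentSeries (ZMod p)), ∀ x : Fin n → (LaurentSeries (ZMod p)), CC n (ext n x w) ↔ x ∈ X := by
  classical
  obtain ⟨b, A, hA, hd⟩ := dense_seq X
  choose z z' hz using fun i : Fin n => exists_sq fun k => b k i
  refine ⟨fun j => if j = 3 * n then chr ((fun k => 4 ^ k) '' A) else
    if h : (j - n) / 2 < n then
      (if (j - n) % 2 = 0 then z ⟨(j - n) / 2, h⟩ else z' ⟨(j - n) / 2, h⟩) else 0, fun x => ?_⟩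
  have hinj4 : ∀ a b : ℕ, 4 ^ a = 4 ^ b → a = b := fun a b h =>
    Nat.pow_right_injective (by norm_num) h
  obtain ⟨v, hv⟩ : ∃ v : ℕ → (LaurentSeries (ZMod p)), v = ext n x (fun j => if j = 3 * n then
    chr ((fun k => 4 ^ k) '' A) else if h : (j - n) / 2 < n then
      (if (j - n) % 2 = 0 then z ⟨(j - n) / 2, h⟩ else z' ⟨(j - n) / 2, h⟩) else 0) := ⟨_, rfl⟩
  rw [← hv]
  have h3n : 0 < n → v (3 * n) = chr ((fun k => 4 ^ k) '' A) := by
    intro hn
    rw [hv]
    have : ¬ (3 * n < n) := by omega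
    simp only [ext, this, dif_neg, not_false_eq_true, if_true]
  have hvi : ∀ i : Fin n, v i = x i := by
    intro i
    rw [hv]
    simp only [ext, i.2, dif_pos]
  have hvz : ∀ i : Fin n, v (n + 2 * (i : ℕ)) = z i := by
    intro i
    rw [hv]
    have h1 : ¬ (n + 2 * (i : ℕ) < n) := by omega
    have h2 : n + 2 * (i : ℕ) ≠ 3 * n := by have := i.2; omega
    have h3 : (n + 2 * (i : ℕ) - n) / 2 = i := by omega
    have h4 : (n + 2 * (i : ℕ) - n) % 2 = 0 := by omega
    simp only [ext, h1, dif_neg, not_false_eq_true, if_neg h2, h4, if_true]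
    rw [dif_pos (by rw [h3]; exact i.2)]
    congr 1
    exact Fin.ext h3
  have hvz' : ∀ i : Fin n, v (n + 2 * (i : ℕ) + 1) = z' i := by
    intro i
    rw [hv]
    have h1 : ¬ (n + 2 * (i : ℕ) + 1 < n) := by omega
    have h2 : n + 2 * (i : ℕ) + 1 ≠ 3 * n := by have := i.2; omega
    have h3 : (n + 2 * (i : ℕ) + 1 - n) / 2 = i := by omega
    have h4 : ¬ ((n + 2 * (i : ℕ) + 1 - n) % 2 = 0) := by omega
    simp only [ext, h1, dif_neg, not_false_eq_true, if_neg h2, h4, if_false]
    rw [dif_pos (by rw [h3]; exact i.2)]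
    congr 1
    exact Fin.ext h3
  have h0 : n = 0 → v (3 * n) = chr ((fun k => 4 ^ k) '' A) := by
    intro hn
    rw [hv]
    have : ¬ (3 * n < n) := by omega
    simp only [ext, this, dif_neg, not_false_eq_true, if_true]
  have h3n' : v (3 * n) = chr ((fun k => 4 ^ k) '' A) := by
    rcases Nat.eq_zero_or_pos n with h | h
    · exact h0 h
    · exact h3n h
  have hkey : ∀ ε : (LaurentSeries (ZMod p)), (∃ m, isN m ∧ lam p (v (3 * n) / m) = 1 ∧
      ∀ i, i < n → ∃ b, Sq (v (n + 2 * i)) (v (n + 2 * i + 1)) m b ∧ Dv ε (v i - b)) ↔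
      ∃ k ∈ A, ∀ i, Dv ε (x i - b k i) := by
    intro ε
    constructor
    · rintro ⟨m, hm, h1, h2⟩
      obtain ⟨k, rfl⟩ := (isN_iff m).1 hm
      rw [h3n', lam_chr] at h1
      obtain ⟨k', hk', hkk⟩ := h1
      have : k' = k := hinj4 _ _ hkk
      subst this
      refine ⟨k', hk', fun i => ?_⟩
      obtain ⟨c, hc, hd⟩ := h2 i i.2
      rw [hvz, hvz', hz] at hc
      rw [hvi, hc] at hd
      exact hd
    · rintro ⟨k, hk, h⟩
      refine ⟨tt p ^ 4 ^ k, (isN_iff _).2 ⟨k, rfl⟩, ?_, fun i hi => ⟨b k ⟨i, hi⟩, ?_, ?_⟩⟩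
      · rw [h3n', lam_chr]
        exact ⟨k, hk, rfl⟩
      · have e1 := hvz ⟨i, hi⟩
        have e2 := hvz' ⟨i, hi⟩
        simp only at e1 e2
        rw [e1, e2, hz]
      · have e1 := hvi ⟨i, hi⟩
        simp only at e1
        rw [e1]
        exact h _
  unfold CC
  simp only [hkey]
  constructor
  · intro h
    by_contra hx
    obtain ⟨ε, hε, h1⟩ := closed_ball hX hx
    obtain ⟨k, hk, h2⟩ := h ε hε
    refine h1 (b k) (fun i => ?_) (hA k hk)
    have h3 := h2 i
    rw [dv_iff] at h3 ⊢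
    rwa [Valuation.map_sub_swap]
  · intro hx ε hε
    obtain ⟨r, hr⟩ := exists_dv_pow ε hε
    obtain ⟨k, hk, h⟩ := hd x hx r
    exact ⟨k, hk, fun i => dv_trans hr (h i)⟩

theorem closed_dd (hT : Df1 P (isT (p := p))) {n : ℕ} {X : Set (Fin n → (LaurentSeries (ZMod p)))} (hX : IsClosed X) :
    Dd P n X := by
  obtain ⟨φ, hφ⟩ := Df.formula (df_cc (P := P) hT n) n
  obtain ⟨w, hw⟩ := closed_code hX
  obtain ⟨u, hu⟩ := hφ w
  exact Dd.of_formula φ u fun x => (hw x).symm.trans (hu x)

end

end Pool.Agent.H87F
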