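import Pool.Agent.H87F.GdD

/-! # The structure exists if the monomials are definable -/

set_option autoImplicit false

namespace Pool.Agent.H87F

open Function
open Pool.Agent.Y924.EL
open Pool.Agent.Y924.UF
open LaurentSeries

section

variable {p : ℕ} [hp : Fact p.Prime] {P : Set (LaurentSeries (ZMod p))}

theorem pow4_inj : ∀ a b : ℕ, 4 ^ a = 4 ^ b → a = b := fun _ _ h =>
  Nat.pow_right_injective (by norm_num) h

/-- the numbers -/
noncomputable def nn (p : ℕ) [Fact p.Prime] (k : ℕ) : LaurentSeries (ZMod p) := tt p ^ 4 ^ k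

theorem nn_inj : Injective (nn p) := by
  intro i j h
  exact pow4_inj _ _ (tt_inj h)

/-- a relation coded by sequences -/
def Rel3 (z : Fin 6 → LaurentSeries (ZMod p)) (x y u : LaurentSeries (ZMod p)) : Prop :=
  ∃ m, isN m ∧ Sq (z 0) (z 1) m x ∧ Sq (z 2) (z 3) m y ∧ Sq (z 4) (z 5) m u

theorem exists_rel3 (f : ℕ → ℕ → ℕ) : ∃ z : Fin 6 → LaurentSeries (ZMod p), ∀ x y u,
    Rel3 z x y u ↔ ∃ i j, x = nn p i ∧ y = nn p j ∧ u = nn p (f i j) := by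
  obtain ⟨z0, z1, h1⟩ := exists_sq (p := p) fun k => nn p k.unpair.1
  obtain ⟨z2, z3, h2⟩ := exists_sq (p := p) fun k => nn p k.unpair.2
  obtain ⟨z4, z5, h3⟩ := exists_sq (p := p) fun k => nn p (f k.unpair.1 k.unpair.2)
  refine ⟨![z0, z1, z2, z3, z4, z5], fun x y u => ?_⟩
  constructor
  · rintro ⟨m, hm, a1, a2, a3⟩
    obtain ⟨k, rfl⟩ := (isN_iff m).1 hm
    exact ⟨_, _, (h1 k x).1 a1, (h2 k y).1 a2, (h3 k u).1 a3⟩
  · rintro ⟨i, j, hx, hy, hu⟩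
    refine ⟨tt p ^ 4 ^ (Nat.pair i j), (isN_iff _).2 ⟨_, rfl⟩, (h1 _ x).2 ?_, (h2 _ y).2 ?_,
      (h3 _ u).2 ?_⟩
    · rw [hx, Nat.unpair_pair]
    · rw [hy, Nat.unpair_pair]
    · rw [hu, Nat.unpair_pair]

theorem df_rel3 (hT : Df1 P (isT (p := p))) (z : Fin 6 → LaurentSeries (ZMod p)) :
    Df P fun v : ℕ → LaurentSeries (ZMod p) => Rel3 z (v 0) (v 1) (v 2) := by
  have hN := df_isN hT
  have hS := df_sq hT
  refine Df.ex (X := fun (v : ℕ → LaurentSeries (ZMod p)) m => isN m ∧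
    Sq (z 0) (z 1) m (v 0) ∧ Sq (z 2) (z 3) m (v 1) ∧ Sq (z 4) (z 5) m (v 2)) ?_
  have hv : ∀ j, Ff P fun q : (ℕ → LaurentSeries (ZMod p)) × LaurentSeries (ZMod p) => q.1 j :=
    fun j => Ff.var (j + 1)
  have hm : Ff P fun q : (ℕ → LaurentSeries (ZMod p)) × LaurentSeries (ZMod p) => q.2 :=
    Ff.var 0
  exact (hN.app hm).and ((hS.app (Ff.const _) (Ff.const _) hm (hv 0)).and
    ((hS.app (Ff.const _) (Ff.const _) hm (hv 1)).and
      (hS.app (Ff.const _) (Ff.const _) hm (hv 2))))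

/-- the countable set coded by `x_3, x_4, x_5` -/
def Cnt (v : ℕ → LaurentSeries (ZMod p)) : Prop :=
  ∃ m, isN m ∧ lam p (v 3 / m) = 1 ∧ Sq (v 4) (v 5) m (v 0)

theorem df_cnt (hT : Df1 P (isT (p := p))) : Df P (Cnt (p := p)) := by
  have hN := df_isN hT
  have hS := df_sq hT
  refine Df.ex (X := fun (v : ℕ → LaurentSeries (ZMod p)) m => isN m ∧
    lam p (v 3 / m) = 1 ∧ Sq (v 4) (v 5) m (v 0)) ?_
  have hv : ∀ j, Ff P fun q : (ℕ → LaurentSeries (ZMod p)) × LaurentSeries (ZMod p) => q.1 j :=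
    fun j => Ff.var (j + 1)
  have hm : Ff P fun q : (ℕ → LaurentSeries (ZMod p)) × LaurentSeries (ZMod p) => q.2 :=
    Ff.var 0
  exact (hN.app hm).and ((Df.lam1 ((hv 3).div hm)).and (hS.app (hv 4) (hv 5) hm (hv 0)))

theorem exists_cnt (T : Set (LaurentSeries (ZMod p))) (hT : T.Countable) :
    ∃ w : ℕ → LaurentSeries (ZMod p), ∀ x, Cnt (asg x x x w) ↔ x ∈ T := by
  obtain ⟨b, A, hA⟩ : ∃ (b : ℕ → LaurentSeries (ZMod p)) (A : Set ℕ), T = b '' A := by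
    rcases T.eq_empty_or_nonempty with h | h
    · exact ⟨fun _ => 0, ∅, by simp [h]⟩
    · obtain ⟨b, hb⟩ := hT.exists_eq_range h
      exact ⟨b, Set.univ, by simp [hb]⟩
  obtain ⟨z, z', hz⟩ := exists_sq b
  refine ⟨fun j => if j = 3 then chr ((fun k => 4 ^ k) '' A) else if j = 4 then z else z',
    fun x => ?_⟩
  have e0 : ∀ w : ℕ → LaurentSeries (ZMod p), asg x x x w 0 = x := fun w => rfl
  have e3 : ∀ w : ℕ → LaurentSeries (ZMod p), asg x x x w 3 = w 3 := fun w => rfl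
  have e4 : ∀ w : ℕ → LaurentSeries (ZMod p), asg x x x w 4 = w 4 := fun w => rfl
  have e5 : ∀ w : ℕ → LaurentSeries (ZMod p), asg x x x w 5 = w 5 := fun w => rfl
  unfold Cnt
  rw [e0, e3, e4, e5, if_pos rfl, if_neg (by norm_num), if_pos rfl, if_neg (by norm_num),
    if_neg (by norm_num), hA]
  constructor
  · rintro ⟨m, hm, h1, h2⟩
    obtain ⟨k, rfl⟩ := (isN_iff m).1 hm
    rw [lam_chr] at h1
    obtain ⟨l, hl, hlk⟩ := h1
    have hlk' := pow4_inj _ _ hlk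
    subst hlk'
    exact ⟨l, hl, ((hz l x).1 h2).symm⟩
  · rintro ⟨k, hk, rfl⟩
    refine ⟨tt p ^ 4 ^ k, (isN_iff _).2 ⟨k, rfl⟩, ?_, (hz k _).2 rfl⟩
    rw [lam_chr]
    exact ⟨k, hk, rfl⟩

theorem exists_struct (hT : Df1 P (isT (p := p))) : ∃ φ : ℕ → Fm,
    (∃ u, Gd (SS P φ u) (SA P φ u) (SM P φ u) (SE P φ u)
      (fun w : ℕ → LaurentSeries (ZMod p) => SV P φ w)) ∧
    ∀ T : Set (LaurentSeries (ZMod p)), T.Countable → ∃ w, ∀ x, SV P φ w x ↔ x ∈ T := by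
  obtain ⟨za, hza⟩ := exists_rel3 (p := p) fun i j => i + j
  obtain ⟨zm, hzm⟩ := exists_rel3 (p := p) fun i j => i * j
  obtain ⟨X, h0, h1, h2, h3, h4, h5⟩ : ∃ X : ℕ → (ℕ → LaurentSeries (ZMod p)) → Prop,
      (X 0 = fun v => isN (v 0) ∧ v 1 = v 0 ^ 4) ∧
      (X 1 = fun v => Rel3 za (v 0) (v 1) (v 2)) ∧ (X 2 = fun v => Rel3 zm (v 0) (v 1) (v 2)) ∧
      (X 3 = fun v => lam p (v 1 / v 0) = 1) ∧ (X 4 = Cnt) ∧ ∀ i, X (i + 5) = fun _ => True :=
    ⟨fun i => match i with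
      | 0 => fun v => isN (v 0) ∧ v 1 = v 0 ^ 4
      | 1 => fun v => Rel3 za (v 0) (v 1) (v 2)
      | 2 => fun v => Rel3 zm (v 0) (v 1) (v 2)
      | 3 => fun v => lam p (v 1 / v 0) = 1
      | 4 => Cnt
      | _ + 5 => fun _ => True, rfl, rfl, rfl, rfl, rfl, fun _ => rfl⟩
  have hv : ∀ j, Ff P fun v : ℕ → LaurentSeries (ZMod p) => v j := fun j => Ff.var j
  have hX : ∀ i, Df P (X i) := by
    intro i
    match i with
    | 0 =>
      rw [h0]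
      exact ((df_isN hT).app (hv 0)).and (Df.eq (hv 1) ((hv 0).pow 4))
    | 1 => rw [h1]; exact df_rel3 hT za
    | 2 => rw [h2]; exact df_rel3 hT zm
    | 3 => rw [h3]; exact Df.lam1 ((hv 1).div (hv 0))
    | 4 => rw [h4]; exact df_cnt hT
    | i + 5 => rw [h5]; exact Df.true
  obtain ⟨φ, hφ⟩ := Df.formulas hX
  refine ⟨φ, ?_, fun T hT => ?_⟩
  · obtain ⟨u, hu⟩ := hφ 0
    refine ⟨u, Gd.of (nn p) nn_inj ?_ ?_ ?_ ?_⟩
    · intro x y
      show Sat P (φ 0) (asg x y y u) ↔ _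
      rw [← hu, h0]
      show isN x ∧ y = x ^ 4 ↔ _
      constructor
      · rintro ⟨hx, rfl⟩
        obtain ⟨k, rfl⟩ := (isN_iff x).1 hx
        refine ⟨k, rfl, ?_⟩
        rw [nn, ← pow_mul, ← pow_succ]
      · rintro ⟨k, rfl, rfl⟩
        refine ⟨(isN_iff _).2 ⟨k, rfl⟩, ?_⟩
        rw [nn, nn, ← pow_mul, ← pow_succ]
    · intro x y z
      show Sat P (φ 1) (asg x y z u) ↔ _
      rw [← hu, h1]
      exact hza x y z
    · intro x y z
      show Sat P (φ 2) (asg x y z u) ↔ _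
      rw [← hu, h2]
      exact hzm x y z
    · intro B
      refine ⟨chr ((fun k => 4 ^ k) '' B), fun k => ?_⟩
      show Sat P (φ 3) (asg _ _ _ u) ↔ _
      rw [← hu, h3]
      show lam p (chr ((fun k => 4 ^ k) '' B) / tt p ^ 4 ^ k) = 1 ↔ _
      rw [lam_chr]
      constructor
      · rintro ⟨l, hl, hlk⟩
        rwa [← pow4_inj _ _ hlk]
      · intro hk
        exact ⟨k, hk, rfl⟩
  · obtain ⟨w, hw⟩ := exists_cnt T hT
    obtain ⟨u, hu⟩ := hφ w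
    refine ⟨u, fun x => ?_⟩
    show Sat P (φ 4) (asg x x x u) ↔ _
    rw [← hu, h4]
    exact hw x

end

end Pool.Agent.H87F
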