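import Pool.Agent.H87F.Proj
import Pool.Agent.H87F.Real
import Pool.Agent.R794.FP.Code
import Pool.Agent.Y988.UF.Halt

/-! # Truth of the formulas of bounded quantifier complexity is definable if the monomials are -/

set_option autoImplicit false

namespace Pool.Agent.H87F

open Function
open Pool.Agent.Y924.EL
open Pool.Agent.Y924.UF
open LaurentSeries

/-! ### formulas -/

/-- quantifier-free formulas -/
def Qf : Fm → Prop
  | .eq _ _ => True
  | .one _ => True
  | .add _ _ _ => True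
  | .mul _ _ _ => True
  | .val _ => True
  | .neg φ => Qf φ
  | .and φ ψ => Qf φ ∧ Qf ψ
  | .ex _ _ => False

/-- a block of existential quantifiers -/
def exs (l : List ℕ) (φ : Fm) : Fm := l.foldr Fm.ex φ

/-- the formulas with `n` blocks of quantifiers -/
def Sig : ℕ → Fm → Prop
  | 0, φ => Qf φ
  | n + 1, φ => ∃ (l : List ℕ) (ψ : Fm), Sig n ψ ∧ φ = exs l (.neg ψ)

theorem sat_exs {K : Type} [Field K] (P : Set K) (φ : Fm) (l : List ℕ) : ∀ w : ℕ → K,
    (Sat P (exs l φ) w ↔ ∃ w' : ℕ → K, (∀ j, j ∉ l → w' j = w j) ∧ Sat P φ w') := by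
  induction l with
  | nil =>
    intro w
    constructor
    · intro h
      exact ⟨w, fun _ _ => rfl, h⟩
    · rintro ⟨w', h1, h2⟩
      have : w' = w := funext fun j => h1 j (by simp)
      rw [this] at h2
      exact h2
  | cons i l ih =>
    intro w
    show (∃ a, Sat P (exs l φ) (update w i a)) ↔ _
    constructor
    · rintro ⟨a, h⟩
      obtain ⟨w', h1, h2⟩ := (ih _).1 h
      refine ⟨w', fun j hj => ?_, h2⟩
      rw [List.mem_cons, not_or] at hj
      rw [h1 j hj.2, update_of_ne hj.1]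
    · rintro ⟨w', h1, h2⟩
      refine ⟨w' i, (ih _).2 ⟨w', fun j hj => ?_, h2⟩⟩
      by_cases hji : j = i
      · rw [hji, update_self]
      · rw [update_of_ne hji, h1 j (by simp [hji, hj])]

/-- the kind of a formula -/
def kind : Fm → ℕ
  | .eq _ _ => 0
  | .one _ => 1
  | .add _ _ _ => 2
  | .mul _ _ _ => 3
  | .val _ => 4
  | .neg _ => 5
  | .and _ _ => 6
  | .ex _ _ => 7

/-- the first argument -/
def ar1 : Fm → ℕ
  | .eq i _ => i
  | .one i => i
  | .add i _ _ => i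
  | .mul i _ _ => i
  | .val i => i
  | .neg φ => φ.code
  | .and φ _ => φ.code
  | .ex _ _ => 0

/-- the second argument -/
def ar2 : Fm → ℕ
  | .eq _ j => j
  | .one _ => 0
  | .add _ j _ => j
  | .mul _ j _ => j
  | .val _ => 0
  | .neg _ => 0
  | .and _ ψ => ψ.code
  | .ex _ _ => 0

/-- the third argument -/
def ar3 : Fm → ℕ
  | .eq _ _ => 0
  | .one _ => 0
  | .add _ _ k => k
  | .mul _ _ k => k
  | .val _ => 0
  | .neg _ => 0
  | .and _ _ => 0
  | .ex _ _ => 0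

/-- Tarski's conditions for the set of the codes of the true formulas -/
def TC {K : Type} [Field K] (P : Set K) (S : ℕ → Prop) (w : ℕ → K) : Prop := ∀ φ : Fm,
  (kind φ = 0 → (S φ.code ↔ w (ar1 φ) = w (ar2 φ))) ∧
  (kind φ = 1 → (S φ.code ↔ w (ar1 φ) = 1)) ∧
  (kind φ = 2 → (S φ.code ↔ w (ar1 φ) + w (ar2 φ) = w (ar3 φ))) ∧
  (kind φ = 3 → (S φ.code ↔ w (ar1 φ) * w (ar2 φ) = w (ar3 φ))) ∧
  (kind φ = 4 → (S φ.code ↔ w (ar1 φ) ∈ P)) ∧
  (kind φ = 5 → (S φ.code ↔ ¬ S (ar1 φ))) ∧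
  (kind φ = 6 → (S φ.code ↔ S (ar1 φ) ∧ S (ar2 φ)))

theorem TC.sat {K : Type} [Field K] {P : Set K} {S : ℕ → Prop} {w : ℕ → K} (h : TC P S w) :
    ∀ φ : Fm, Qf φ → (S φ.code ↔ Sat P φ w) := by
  intro φ
  induction φ with
  | eq i j => intro _; exact (h _).1 rfl
  | one i => intro _; exact (h _).2.1 rfl
  | add i j k => intro _; exact (h _).2.2.1 rfl
  | mul i j k => intro _; exact (h _).2.2.2.1 rfl
  | val i => intro _; exact (h _).2.2.2.2.1 rfl
  | neg φ ih =>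
    intro hq
    rw [(h (.neg φ)).2.2.2.2.2.1 rfl]
    exact not_congr (ih hq)
  | and φ ψ ih1 ih2 =>
    intro hq
    rw [(h (.and φ ψ)).2.2.2.2.2.2 rfl]
    exact and_congr (ih1 hq.1) (ih2 hq.2)
  | ex i φ _ => intro hq; exact hq.elim

theorem TC.true {K : Type} [Field K] (P : Set K) (w : ℕ → K) :
    TC P (fun k => ∃ φ : Fm, φ.code = k ∧ Sat P φ w) w := by
  have hc : ∀ φ : Fm, (∃ ψ : Fm, ψ.code = φ.code ∧ Sat P ψ w) ↔ Sat P φ w := by
    intro φ
    constructor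
    · rintro ⟨ψ, h1, h2⟩
      rwa [Pool.Agent.Y988.UF.t_CINJ _ _ h1] at h2
    · intro h
      exact ⟨φ, rfl, h⟩
  intro φ
  refine ⟨fun h => ?_, fun h => ?_, fun h => ?_, fun h => ?_, fun h => ?_, fun h => ?_,
    fun h => ?_⟩
  all_goals cases φ
  all_goals first | (exfalso; revert h; simp [kind]; done) | skip
  · exact hc _
  · exact hc _
  · exact hc _
  · exact hc _
  · exact hc _
  · rename_i φ
    exact (hc (.neg φ)).trans (not_congr (hc φ)).symm
  · rename_i φ ψ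
    exact (hc (.and φ ψ)).trans (and_congr (hc φ) (hc ψ)).symm

/-! ### contexts which are sequences -/

section ctx

variable {K : Type} [Field K] {P : Set K}

theorem Df.allV {X : (ℕ → K) → Prop} (h : Df P X) : Df P fun v : ℕ → K => ∀ a, X (cons a v) :=
  Df.all (X := fun (v : ℕ → K) a => X (cons a v))
    (Df.pull (Δ := (ℕ → K) × K) h (fun q => cons q.2 q.1) fun n => Ff.var n)

theorem Df.exV {X : (ℕ → K) → Prop} (h : Df P X) : Df P fun v : ℕ → K => ∃ a, X (cons a v) :=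
  Df.ex (X := fun (v : ℕ → K) a => X (cons a v))
    (Df.pull (Δ := (ℕ → K) × K) h (fun q => cons q.2 q.1) fun n => Ff.var n)

theorem Ff.v (i : ℕ) : Ff P fun v : ℕ → K => v i := Ff.var (Γ := ℕ → K) i

end ctx

section

variable {p : ℕ} [hp : Fact p.Prime] {P : Set (LaurentSeries (ZMod p))}

/-! ### relations between numbers -/

theorem df_seq (hT : Df1 P (isT (p := p))) (b : ℕ → LaurentSeries (ZMod p)) :
    Df2 P fun a c => ∃ k, a = nn p k ∧ c = b k := by
  obtain ⟨z, z', hz⟩ := exists_sq b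
  have hN := df_isN hT
  have hS := df_sq hT
  have h1 : Df P fun q : (Unit × LaurentSeries (ZMod p)) × LaurentSeries (ZMod p) =>
      isN q.1.2 ∧ Sq z z' q.1.2 q.2 :=
    (hN.app (Ff.var 1)).and (hS.app (Ff.const _) (Ff.const _) (Ff.var 1) (Ff.var 0))
  refine h1.congr fun q => ?_
  constructor
  · rintro ⟨k, h2, h3⟩
    refine ⟨(isN_iff _).2 ⟨k, h2⟩, ?_⟩
    rw [h2]
    exact (hz k _).2 h3
  · rintro ⟨h2, h3⟩
    obtain ⟨k, hk⟩ := (isN_iff _).1 h2
    refine ⟨k, hk, ?_⟩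
    rw [hk] at h3
    exact (hz k _).1 h3

theorem df_set (hT : Df1 P (isT (p := p))) (A : ℕ → Prop) :
    Df1 P fun a => ∃ k, A k ∧ a = nn p k := by
  classical
  have h := df_seq hT (fun k => if A k then 1 else 0)
  refine (h.app (Γ := Unit × LaurentSeries (ZMod p)) (Ff.var 0) (Ff.const 1)).congr fun q => ?_
  refine exists_congr fun k => ?_
  by_cases hk : A k
  · simp only [hk, true_and, if_true, and_true]
    exact Iff.rfl
  · simp [hk]

theorem exists_set (A : ℕ → Prop) : ∃ s : LaurentSeries (ZMod p),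
    ∀ k, lam p (s / nn p k) = 1 ↔ A k := by
  refine ⟨chr ((fun k => 4 ^ k) '' {k | A k}), fun k => ?_⟩
  unfold nn
  rw [lam_chr]
  constructor
  · rintro ⟨l, hl, hlk⟩
    have := pow4_inj _ _ hlk
    rw [← this]
    exact hl
  · intro h
    exact ⟨k, h, rfl⟩

theorem df_rel (hT : Df1 P (isT (p := p))) (R : ℕ → ℕ → Prop) :
    Df2 P fun a b => ∃ k l, R k l ∧ a = nn p k ∧ b = nn p l := by
  choose s hs using fun k => exists_set (p := p) (R k)
  have h := df_seq hT s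
  have hN := df_isN hT
  have h1 : Df P fun q : (Unit × LaurentSeries (ZMod p)) × LaurentSeries (ZMod p) =>
      isN q.2 ∧ ∃ c, (∃ k, q.1.2 = nn p k ∧ c = s k) ∧ lam p (c / q.2) = 1 := by
    refine (hN.app (Ff.var 0)).and ?_
    refine Df.ex (X := fun (q : (Unit × LaurentSeries (ZMod p)) × LaurentSeries (ZMod p)) c =>
      (∃ k, q.1.2 = nn p k ∧ c = s k) ∧ lam p (c / q.2) = 1) ?_
    exact (h.app (Ff.var 2) (Ff.var 0)).and (Df.lam1 ((Ff.var 0).div (Ff.var 1)))
  refine h1.congr fun q => ?_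
  constructor
  · rintro ⟨k, l, h2, h3, h4⟩
    refine ⟨(isN_iff _).2 ⟨l, h4⟩, s k, ⟨k, h3, rfl⟩, ?_⟩
    rw [h4]
    exact (hs k l).2 h2
  · rintro ⟨h2, c, ⟨k, h3, rfl⟩, h4⟩
    obtain ⟨l, hl⟩ := (isN_iff _).1 h2
    refine ⟨k, l, ?_, h3, hl⟩
    rw [hl] at h4
    exact (hs k l).1 h4

/-! ### assignments -/

/-- `z, z'` is a code of the assignment `w` -/
def Asn (z z' : LaurentSeries (ZMod p)) (w : ℕ → LaurentSeries (ZMod p)) : Prop :=
  ∀ k x, Sq z z' (nn p k) x ↔ x = w k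

theorem exists_asn (w : ℕ → LaurentSeries (ZMod p)) : ∃ z z', Asn z z' w := exists_sq w

theorem Asn.unique {z z' : LaurentSeries (ZMod p)} {w w' : ℕ → LaurentSeries (ZMod p)}
    (h : Asn z z' w) (h' : Asn z z' w') : w = w' := by
  funext k
  exact (h' k _).1 ((h k _).2 rfl)

/-- `z, z'` is a code of an assignment -/
def Good (z z' : LaurentSeries (ZMod p)) : Prop :=
  ∀ b, isN b → ∃ c, ∀ x, Sq z z' b x ↔ x = c

theorem good_iff (z z' : LaurentSeries (ZMod p)) : Good z z' ↔ ∃ w, Asn z z' w := by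
  constructor
  · intro h
    choose w hw using fun k : ℕ => h (nn p k) ((isN_iff _).2 ⟨k, rfl⟩)
    exact ⟨w, hw⟩
  · rintro ⟨w, hw⟩ b hb
    obtain ⟨k, rfl⟩ := (isN_iff _).1 hb
    exact ⟨w k, hw k⟩

theorem df_good (hT : Df1 P (isT (p := p))) (i j : ℕ) :
    Df P fun v : ℕ → LaurentSeries (ZMod p) => Good (v i) (v j) := by
  have hN := df_isN hT
  have hS := df_sq hT
  refine Df.allV (X := fun v => isN (v 0) → ∃ c, ∀ x, Sq (v (i + 1)) (v (j + 1)) (v 0) x ↔ x = c) ?_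
  refine (hN.app (Ff.v 0)).imp ?_
  refine Df.exV (X := fun v => ∀ x, Sq (v (i + 2)) (v (j + 2)) (v 1) x ↔ x = v 0) ?_
  refine Df.allV (X := fun v => Sq (v (i + 3)) (v (j + 3)) (v 2) (v 0) ↔ v 0 = v 1) ?_
  exact (hS.app (Ff.v _) (Ff.v _) (Ff.v _) (Ff.v _)).iff (Df.eq (Ff.v _) (Ff.v _))

end

end Pool.Agent.H87F
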