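import Pool.Agent.H87F.Qh

/-! # The hierarchy of quantifier complexity is strict if the monomials are definable -/

set_option autoImplicit false

namespace Pool.Agent.H87F

open Function
open Pool.Agent.Y924.EL
open Pool.Agent.Y924.UF
open LaurentSeries

section ctx

variable {K : Type} [Field K] {P : Set K}

theorem Df.re {X : (ℕ → K) → Prop} (h : Df P X) (ρ : ℕ → ℕ) :
    Df P fun v : ℕ → K => X (fun i => v (ρ i)) :=
  Df.pull (Δ := ℕ → K) h (fun v i => v (ρ i)) fun n => Ff.v (ρ n)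

end ctx

section

variable {p : ℕ} [hp : Fact p.Prime] {P : Set (LaurentSeries (ZMod p))}

theorem nn_isN (k : ℕ) : isN (nn p k) := (isN_iff _).2 ⟨k, rfl⟩

/-! ### syntax -/

/-- the codes of the formulas of a kind -/
def KD (c : ℕ) (b : LaurentSeries (ZMod p)) : Prop := ∃ φ : Fm, kind φ = c ∧ b = nn p φ.code

/-- the arguments of formulas -/
def AR (ar : Fm → ℕ) (b b' : LaurentSeries (ZMod p)) : Prop :=
  ∃ φ : Fm, b = nn p φ.code ∧ b' = nn p (ar φ)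

theorem df_kd (hT : Df1 P (isT (p := p))) (c : ℕ) : Df1 P (KD (p := p) c) := by
  refine (df_set hT (fun k => ∃ φ : Fm, kind φ = c ∧ φ.code = k)).congr fun q => ?_
  constructor
  · rintro ⟨φ, h1, h2⟩
    exact ⟨φ.code, ⟨φ, h1, rfl⟩, h2⟩
  · rintro ⟨k, ⟨φ, h1, h2⟩, h3⟩
    exact ⟨φ, h1, by rw [h2]; exact h3⟩

theorem df_ar (hT : Df1 P (isT (p := p))) (ar : Fm → ℕ) : Df2 P (AR (p := p) ar) := by
  refine (df_rel hT (fun k l => ∃ φ : Fm, φ.code = k ∧ ar φ = l)).congr fun q => ?_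
  constructor
  · rintro ⟨φ, h1, h2⟩
    exact ⟨φ.code, ar φ, ⟨φ, rfl, rfl⟩, h1, h2⟩
  · rintro ⟨k, l, ⟨φ, h1, h2⟩, h3, h4⟩
    exact ⟨φ, by rw [h1]; exact h3, by rw [h2]; exact h4⟩

variable (P) in
/-- Tarski's conditions at one formula -/
def TB (v : ℕ → LaurentSeries (ZMod p)) : Prop :=
  AR ar1 (v 6) (v 5) → AR ar2 (v 6) (v 4) → AR ar3 (v 6) (v 3) →
  Sq (v 9) (v 10) (v 5) (v 2) → Sq (v 9) (v 10) (v 4) (v 1) → Sq (v 9) (v 10) (v 3) (v 0) →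
  (KD 0 (v 6) → (lam p (v 7 / v 6) = 1 ↔ v 2 = v 1)) ∧
  (KD 1 (v 6) → (lam p (v 7 / v 6) = 1 ↔ v 2 = 1)) ∧
  (KD 2 (v 6) → (lam p (v 7 / v 6) = 1 ↔ v 2 + v 1 = v 0)) ∧
  (KD 3 (v 6) → (lam p (v 7 / v 6) = 1 ↔ v 2 * v 1 = v 0)) ∧
  (KD 4 (v 6) → (lam p (v 7 / v 6) = 1 ↔ v 2 ∈ P)) ∧
  (KD 5 (v 6) → (lam p (v 7 / v 6) = 1 ↔ ¬ lam p (v 7 / v 5) = 1)) ∧
  (KD 6 (v 6) → (lam p (v 7 / v 6) = 1 ↔ lam p (v 7 / v 5) = 1 ∧ lam p (v 7 / v 4) = 1))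

variable (P) in
/-- Tarski's conditions -/
def TCK (v : ℕ → LaurentSeries (ZMod p)) : Prop := ∀ b b1 b2 b3 x1 x2 x3,
  TB P (cons x3 (cons x2 (cons x1 (cons b3 (cons b2 (cons b1 (cons b v)))))))

theorem df_tb (hT : Df1 P (isT (p := p))) : Df P (TB P (p := p)) := by
  have hS := df_sq hT
  have hl : ∀ i j, Df P fun v : ℕ → LaurentSeries (ZMod p) => lam p (v i / v j) = 1 :=
    fun i j => Df.lam1 ((Ff.v i).div (Ff.v j))
  have hk : ∀ c, Df P fun v : ℕ → LaurentSeries (ZMod p) => KD c (v 6) :=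
    fun c => (df_kd hT c).app (Ff.v 6)
  refine ((df_ar hT ar1).app (Ff.v 6) (Ff.v 5)).imp (((df_ar hT ar2).app (Ff.v 6) (Ff.v 4)).imp
    (((df_ar hT ar3).app (Ff.v 6) (Ff.v 3)).imp ((hS.app (Ff.v 9) (Ff.v 10) (Ff.v 5) (Ff.v 2)).imp
      ((hS.app (Ff.v 9) (Ff.v 10) (Ff.v 4) (Ff.v 1)).imp
        ((hS.app (Ff.v 9) (Ff.v 10) (Ff.v 3) (Ff.v 0)).imp ?_)))))
  refine ((hk 0).imp ((hl 7 6).iff (Df.eq (Ff.v 2) (Ff.v 1)))).and
    (((hk 1).imp ((hl 7 6).iff (Df.one (Ff.v 2)))).and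
      (((hk 2).imp ((hl 7 6).iff (Df.addR (Ff.v 2) (Ff.v 1) (Ff.v 0)))).and
        (((hk 3).imp ((hl 7 6).iff (Df.mulR (Ff.v 2) (Ff.v 1) (Ff.v 0)))).and
          (((hk 4).imp ((hl 7 6).iff (Df.mem (Ff.v 2)))).and
            (((hk 5).imp ((hl 7 6).iff (hl 7 5).not)).and
              ((hk 6).imp ((hl 7 6).iff ((hl 7 5).and (hl 7 4)))))))))

theorem df_tck (hT : Df1 P (isT (p := p))) : Df P (TCK P (p := p)) :=
  Df.allV (Df.allV (Df.allV (Df.allV (Df.allV (Df.allV (Df.allV (df_tb hT)))))))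

theorem nn_code {φ ψ : Fm} (h : nn p φ.code = nn p ψ.code) : φ = ψ :=
  Pool.Agent.Y988.UF.t_CINJ _ _ (nn_inj h)

theorem tck_iff {z z' : LaurentSeries (ZMod p)} {w : ℕ → LaurentSeries (ZMod p)}
    (hw : Asn z z' w) (v : ℕ → LaurentSeries (ZMod p)) (h2 : v 2 = z) (h3 : v 3 = z') :
    TCK P v ↔ TC P (fun k => lam p (v 0 / nn p k) = 1) w := by
  subst h2 h3
  constructor
  · intro h φ
    obtain ⟨a0, a1, a2, a3, a4, a5, a6⟩ := h (nn p φ.code) (nn p (ar1 φ)) (nn p (ar2 φ))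
      (nn p (ar3 φ)) (w (ar1 φ)) (w (ar2 φ)) (w (ar3 φ)) ⟨φ, rfl, rfl⟩ ⟨φ, rfl, rfl⟩
      ⟨φ, rfl, rfl⟩ ((hw _ _).2 rfl) ((hw _ _).2 rfl) ((hw _ _).2 rfl)
    exact ⟨fun hk => a0 ⟨φ, hk, rfl⟩, fun hk => a1 ⟨φ, hk, rfl⟩, fun hk => a2 ⟨φ, hk, rfl⟩,
      fun hk => a3 ⟨φ, hk, rfl⟩, fun hk => a4 ⟨φ, hk, rfl⟩, fun hk => a5 ⟨φ, hk, rfl⟩,
      fun hk => a6 ⟨φ, hk, rfl⟩⟩
  · intro h b b1 b2 b3 x1 x2 x3
    rintro ⟨φ, hb, hb1⟩ ⟨φ', hb', hb2⟩ ⟨φ'', hb'', hb3⟩ s1 s2 s3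
    simp only [cons_zero, cons_succ] at hb hb1 hb' hb2 hb'' hb3 s1 s2 s3
    subst hb
    have e1 := nn_code hb'
    have e2 := nn_code hb''
    subst e1 e2 hb1 hb2 hb3
    have f1 := (hw _ _).1 s1
    have f2 := (hw _ _).1 s2
    have f3 := (hw _ _).1 s3
    subst f1 f2 f3
    obtain ⟨a0, a1, a2, a3, a4, a5, a6⟩ := h φ
    have key : ∀ c, KD c (nn p φ.code) → kind φ = c := by
      rintro c ⟨χ, h1, h2⟩
      rw [nn_code h2]
      exact h1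
    exact ⟨fun hk => a0 (key 0 hk), fun hk => a1 (key 1 hk), fun hk => a2 (key 2 hk),
      fun hk => a3 (key 3 hk), fun hk => a4 (key 4 hk), fun hk => a5 (key 5 hk),
      fun hk => a6 (key 6 hk)⟩

/-! ### truth -/

variable (P) in
/-- truth of the formulas with `n` blocks of quantifiers -/
def Tr (n : ℕ) (a z z' : LaurentSeries (ZMod p)) : Prop :=
  ∃ (φ : Fm) (w : ℕ → LaurentSeries (ZMod p)), Sig n φ ∧ a = nn p φ.code ∧ Asn z z' w ∧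
    Sat P φ w

theorem df_tr0 (hT : Df1 P (isT (p := p))) :
    Df P fun v : ℕ → LaurentSeries (ZMod p) => Tr P 0 (v 0) (v 1) (v 2) := by
  have h1 := ((df_set hT (fun k => ∃ φ : Fm, Qf φ ∧ φ.code = k)).app (Ff.v (P := P) 0)).and
    ((df_good hT 1 2).and (Df.exV (X := fun v => TCK P v ∧ lam p (v 0 / v 1) = 1)
      ((df_tck hT).and (Df.lam1 ((Ff.v 0).div (Ff.v 1))))))
  refine h1.congr fun v => ?_
  constructor
  · rintro ⟨φ, w, h2, h3, h4, h5⟩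
    refine ⟨⟨φ.code, ⟨φ, h2, rfl⟩, h3⟩, (good_iff _ _).2 ⟨w, h4⟩, ?_⟩
    obtain ⟨s, hs⟩ := exists_set (p := p) fun k => ∃ φ : Fm, φ.code = k ∧ Sat P φ w
    refine ⟨s, (tck_iff h4 _ rfl rfl).2 ?_, ?_⟩
    · have h6 := TC.true P w
      have e : (fun k => ∃ φ : Fm, φ.code = k ∧ Sat P φ w) =
          fun k => lam p ((cons s v) 0 / nn p k) = 1 := by
        funext k
        exact propext (hs k).symm
      rw [e] at h6
      exact h6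
    · show lam p (s / v 0) = 1
      rw [h3]
      exact (hs _).2 ⟨φ, rfl, h5⟩
  · rintro ⟨⟨k, ⟨φ, h2, rfl⟩, h3⟩, h4, s, h5, h6⟩
    obtain ⟨w, hw⟩ := (good_iff _ _).1 h4
    refine ⟨φ, w, h2, h3, hw, ?_⟩
    have h7 := (tck_iff hw _ rfl rfl).1 h5
    refine (h7.sat φ h2).1 ?_
    have h8 : lam p (s / v 0) = 1 := h6
    rw [h3] at h8
    exact h8

/-- the code of a block of quantifiers and a formula -/
def pc (l : List ℕ) (ψ : Fm) : ℕ := Nat.pair (Encodable.encode l) ψ.code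

theorem pc_inj {l l' : List ℕ} {ψ ψ' : Fm} (h : nn p (pc l ψ) = nn p (pc l' ψ')) :
    l = l' ∧ ψ = ψ' := by
  have h1 := nn_inj h
  unfold pc at h1
  rw [Nat.pair_eq_pair] at h1
  exact ⟨Encodable.encode_injective h1.1, Pool.Agent.Y988.UF.t_CINJ _ _ h1.2⟩

/-- the formula with a block of quantifiers -/
def A1 (n : ℕ) (m a : LaurentSeries (ZMod p)) : Prop :=
  ∃ (l : List ℕ) (ψ : Fm), Sig n ψ ∧ m = nn p (pc l ψ) ∧ a = nn p (exs l (.neg ψ)).code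

/-- the formula without the block -/
def A2 (m a : LaurentSeries (ZMod p)) : Prop :=
  ∃ (l : List ℕ) (ψ : Fm), m = nn p (pc l ψ) ∧ a = nn p ψ.code

/-- the variables in the block -/
def A3 (m b : LaurentSeries (ZMod p)) : Prop :=
  ∃ (l : List ℕ) (ψ : Fm) (j : ℕ), j ∈ l ∧ m = nn p (pc l ψ) ∧ b = nn p j

theorem df_a1 (hT : Df1 P (isT (p := p))) (n : ℕ) : Df2 P (A1 (p := p) n) := by
  refine (df_rel hT (fun k i => ∃ (l : List ℕ) (ψ : Fm), Sig n ψ ∧ pc l ψ = k ∧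
    (exs l (.neg ψ)).code = i)).congr fun q => ?_
  constructor
  · rintro ⟨l, ψ, h1, h2, h3⟩
    exact ⟨_, _, ⟨l, ψ, h1, rfl, rfl⟩, h2, h3⟩
  · rintro ⟨k, i, ⟨l, ψ, h1, rfl, rfl⟩, h3, h4⟩
    exact ⟨l, ψ, h1, h3, h4⟩

theorem df_a2 (hT : Df1 P (isT (p := p))) : Df2 P (A2 (p := p)) := by
  refine (df_rel hT (fun k i => ∃ (l : List ℕ) (ψ : Fm), pc l ψ = k ∧ ψ.code = i)).congr
    fun q => ?_
  constructor
  · rintro ⟨l, ψ, h2, h3⟩
    exact ⟨_, _, ⟨l, ψ, rfl, rfl⟩, h2, h3⟩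
  · rintro ⟨k, i, ⟨l, ψ, rfl, rfl⟩, h3, h4⟩
    exact ⟨l, ψ, h3, h4⟩

theorem df_a3 (hT : Df1 P (isT (p := p))) : Df2 P (A3 (p := p)) := by
  refine (df_rel hT (fun k i => ∃ (l : List ℕ) (ψ : Fm), i ∈ l ∧ pc l ψ = k)).congr
    fun q => ?_
  constructor
  · rintro ⟨l, ψ, j, h1, h2, h3⟩
    exact ⟨_, j, ⟨l, ψ, h1, rfl⟩, h2, h3⟩
  · rintro ⟨k, i, ⟨l, ψ, h1, rfl⟩, h3, h4⟩
    exact ⟨l, ψ, i, h1, h3, h4⟩

theorem df_tr (hT : Df1 P (isT (p := p))) (n : ℕ) :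
    Df P fun v : ℕ → LaurentSeries (ZMod p) => Tr P n (v 0) (v 1) (v 2) := by
  have hN := df_isN hT
  have hS := df_sq hT
  induction n with
  | zero => exact df_tr0 hT
  | succ n ih =>
    have ih' : Df P fun v : ℕ → LaurentSeries (ZMod p) => Tr P n (v 2) (v 1) (v 0) :=
      Df.re ih fun i => match i with
        | 0 => 2
        | 1 => 1
        | _ => 0
    have h1 : Df P fun v : ℕ → LaurentSeries (ZMod p) => Good (v 1) (v 2) ∧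
        ∃ m, A1 n m (v 0) ∧ ∃ a', A2 m a' ∧ ∃ y y', Good y y' ∧
          (∀ b, isN b → ¬ A3 m b → ∀ x, Sq (v 1) (v 2) b x → Sq y y' b x) ∧
          ¬ Tr P n a' y y' := by
      refine (df_good hT 1 2).and ?_
      refine Df.exV (X := fun v => A1 n (v 0) (v 1) ∧ ∃ a', A2 (v 0) a' ∧ ∃ y y', Good y y' ∧
          (∀ b, isN b → ¬ A3 (v 0) b → ∀ x, Sq (v 2) (v 3) b x → Sq y y' b x) ∧
          ¬ Tr P n a' y y') ?_
      refine ((df_a1 hT n).app (Ff.v 0) (Ff.v 1)).and ?_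
      refine Df.exV (X := fun v => A2 (v 1) (v 0) ∧ ∃ y y', Good y y' ∧
          (∀ b, isN b → ¬ A3 (v 1) b → ∀ x, Sq (v 3) (v 4) b x → Sq y y' b x) ∧
          ¬ Tr P n (v 0) y y') ?_
      refine ((df_a2 hT).app (Ff.v 1) (Ff.v 0)).and ?_
      refine Df.exV (X := fun v => ∃ y', Good (v 0) y' ∧
          (∀ b, isN b → ¬ A3 (v 2) b → ∀ x, Sq (v 4) (v 5) b x → Sq (v 0) y' b x) ∧
          ¬ Tr P n (v 1) (v 0) y') ?_
      refine Df.exV (X := fun v => Good (v 1) (v 0) ∧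
          (∀ b, isN b → ¬ A3 (v 3) b → ∀ x, Sq (v 5) (v 6) b x → Sq (v 1) (v 0) b x) ∧
          ¬ Tr P n (v 2) (v 1) (v 0)) ?_
      refine (df_good hT 1 0).and (Df.and ?_ ih'.not)
      refine Df.allV (X := fun v => isN (v 0) → ¬ A3 (v 4) (v 0) →
        ∀ x, Sq (v 6) (v 7) (v 0) x → Sq (v 2) (v 1) (v 0) x) ?_
      refine (hN.app (Ff.v 0)).imp (((df_a3 hT).app (Ff.v 4) (Ff.v 0)).not.imp ?_)
      refine Df.allV (X := fun v => Sq (v 7) (v 8) (v 1) (v 0) → Sq (v 3) (v 2) (v 1) (v 0)) ?_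
      exact (hS.app (Ff.v 7) (Ff.v 8) (Ff.v 1) (Ff.v 0)).imp
        (hS.app (Ff.v 3) (Ff.v 2) (Ff.v 1) (Ff.v 0))
    refine h1.congr fun v => ?_
    constructor
    · rintro ⟨φ, w, ⟨l, ψ, h2, rfl⟩, h3, h4, h5⟩
      refine ⟨(good_iff _ _).2 ⟨w, h4⟩, nn p (pc l ψ), ⟨l, ψ, h2, rfl, h3⟩, nn p ψ.code,
        ⟨l, ψ, rfl, rfl⟩, ?_⟩
      obtain ⟨w', h6, h7⟩ := (sat_exs P _ l w).1 h5
      obtain ⟨y, y', hy⟩ := exists_asn w'
      refine ⟨y, y', (good_iff _ _).2 ⟨w', hy⟩, fun b hb hb3 x hx => ?_, ?_⟩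
      · obtain ⟨j, rfl⟩ := (isN_iff _).1 hb
        have hj : j ∉ l := fun hj => hb3 ⟨l, ψ, j, hj, rfl, rfl⟩
        have hx' := (h4 j x).1 hx
        refine (hy j x).2 ?_
        rw [hx', h6 j hj]
      · rintro ⟨φ', w'', -, g1, g2, g3⟩
        have e1 := nn_code g1
        subst e1
        have e2 := g2.unique hy
        subst e2
        exact h7 g3
    · rintro ⟨h2, m, ⟨l, ψ, h3, rfl, h4⟩, a', ⟨l', ψ', h5, rfl⟩, y, y', h6, h7, h8⟩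
      obtain ⟨e1, e2⟩ := pc_inj h5
      subst e1 e2
      obtain ⟨w, hw⟩ := (good_iff _ _).1 h2
      obtain ⟨w', hw'⟩ := (good_iff _ _).1 h6
      refine ⟨_, w, ⟨l, ψ, h3, rfl⟩, h4, hw, (sat_exs P _ l w).2 ⟨w', fun j hj => ?_, ?_⟩⟩
      · have g1 : ¬ A3 (nn p (pc l ψ)) (nn p j) := by
          rintro ⟨l', ψ', j', g2, g3, g4⟩
          obtain ⟨e1, -⟩ := pc_inj g3
          subst e1
          have e2 := nn_inj g4
          subst e2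
          exact hj g2
        have g2 := h7 (nn p j) (nn_isN j) g1 (w j) ((hw _ _).2 rfl)
        exact ((hw' _ _).1 g2).symm
      · intro g1
        exact h8 ⟨ψ, w', h3, rfl, hw', g1⟩

/-! ### the diagonal -/

variable (P) in
/-- the universal set -/
def UU (n : ℕ) (c : LaurentSeries (ZMod p)) : Prop := ∃ z z' a y y',
  c = (z ^ p + HahnSeries.single (1 : ℤ) (1 : ZMod p) * z' ^ p) ^ p +
    HahnSeries.single (1 : ℤ) (1 : ZMod p) * a ^ p ∧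
  (∀ b, isN b → b ≠ nn p 0 → ∀ x, Sq z z' b x → Sq y y' b x) ∧ Sq y y' (nn p 0) c ∧
  Tr P n a y y'

theorem df_uu (hT : Df1 P (isT (p := p))) (n : ℕ) :
    Df P fun v : ℕ → LaurentSeries (ZMod p) => UU P n (v 0) := by
  have hN := df_isN hT
  have hS := df_sq hT
  have ih' : Df P fun v : ℕ → LaurentSeries (ZMod p) => Tr P n (v 2) (v 1) (v 0) :=
    Df.re (df_tr hT n) fun i => match i with
      | 0 => 2
      | 1 => 1
      | _ => 0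
  refine Df.exV (X := fun v => ∃ z' a y y',
    v 1 = (v 0 ^ p + HahnSeries.single (1 : ℤ) (1 : ZMod p) * z' ^ p) ^ p +
      HahnSeries.single (1 : ℤ) (1 : ZMod p) * a ^ p ∧
    (∀ b, isN b → b ≠ nn p 0 → ∀ x, Sq (v 0) z' b x → Sq y y' b x) ∧
    Sq y y' (nn p 0) (v 1) ∧ Tr P n a y y') ?_
  refine Df.exV (X := fun v => ∃ a y y',
    v 2 = (v 1 ^ p + HahnSeries.single (1 : ℤ) (1 : ZMod p) * v 0 ^ p) ^ p +
      HahnSeries.single (1 : ℤ) (1 : ZMod p) * a ^ p ∧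
    (∀ b, isN b → b ≠ nn p 0 → ∀ x, Sq (v 1) (v 0) b x → Sq y y' b x) ∧
    Sq y y' (nn p 0) (v 2) ∧ Tr P n a y y') ?_
  refine Df.exV (X := fun v => ∃ y y',
    v 3 = (v 2 ^ p + HahnSeries.single (1 : ℤ) (1 : ZMod p) * v 1 ^ p) ^ p +
      HahnSeries.single (1 : ℤ) (1 : ZMod p) * v 0 ^ p ∧
    (∀ b, isN b → b ≠ nn p 0 → ∀ x, Sq (v 2) (v 1) b x → Sq y y' b x) ∧
    Sq y y' (nn p 0) (v 3) ∧ Tr P n (v 0) y y') ?_
  refine Df.exV (X := fun v => ∃ y',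
    v 4 = (v 3 ^ p + HahnSeries.single (1 : ℤ) (1 : ZMod p) * v 2 ^ p) ^ p +
      HahnSeries.single (1 : ℤ) (1 : ZMod p) * v 1 ^ p ∧
    (∀ b, isN b → b ≠ nn p 0 → ∀ x, Sq (v 3) (v 2) b x → Sq (v 0) y' b x) ∧
    Sq (v 0) y' (nn p 0) (v 4) ∧ Tr P n (v 1) (v 0) y') ?_
  refine Df.exV (X := fun v =>
    v 5 = (v 4 ^ p + HahnSeries.single (1 : ℤ) (1 : ZMod p) * v 3 ^ p) ^ p +
      HahnSeries.single (1 : ℤ) (1 : ZMod p) * v 2 ^ p ∧
    (∀ b, isN b → b ≠ nn p 0 → ∀ x, Sq (v 4) (v 3) b x → Sq (v 1) (v 0) b x) ∧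
    Sq (v 1) (v 0) (nn p 0) (v 5) ∧ Tr P n (v 2) (v 1) (v 0)) ?_
  refine (Df.eq (Ff.v 5) (((((Ff.v 4).pow p).add ((Ff.const _).mul ((Ff.v 3).pow p))).pow p).add
    ((Ff.const _).mul ((Ff.v 2).pow p)))).and (Df.and ?_
      ((hS.app (Ff.v 1) (Ff.v 0) (Ff.const _) (Ff.v 5)).and ih'))
  refine Df.allV (X := fun v => isN (v 0) → v 0 ≠ nn p 0 →
    ∀ x, Sq (v 5) (v 4) (v 0) x → Sq (v 2) (v 1) (v 0) x) ?_
  refine (hN.app (Ff.v 0)).imp ((Df.eq (Ff.v 0) (Ff.const _)).not.imp ?_)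
  refine Df.allV (X := fun v => Sq (v 6) (v 5) (v 1) (v 0) → Sq (v 3) (v 2) (v 1) (v 0)) ?_
  exact (hS.app (Ff.v 6) (Ff.v 5) (Ff.v 1) (Ff.v 0)).imp
    (hS.app (Ff.v 3) (Ff.v 2) (Ff.v 1) (Ff.v 0))

theorem uu_diag (n : ℕ) (φ : Fm) (hφ : Sig n φ) (v : ℕ → LaurentSeries (ZMod p)) :
    ¬ ∀ x, ¬ UU P n x ↔ Sat P φ (update v 0 x) := by
  intro h
  obtain ⟨z, z', hz⟩ := exists_asn v
  obtain ⟨c, hc⟩ : ∃ c, c = (z ^ p + HahnSeries.single (1 : ℤ) (1 : ZMod p) * z' ^ p) ^ p +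
    HahnSeries.single (1 : ℤ) (1 : ZMod p) * (nn p φ.code) ^ p := ⟨_, rfl⟩
  have hU : UU P n c ↔ Sat P φ (update v 0 c) := by
    constructor
    · rintro ⟨z1, z1', a, y, y', h1, h2, h3, ψ, w, -, h5, h6, h7⟩
      rw [hc] at h1
      obtain ⟨e1, e2⟩ := Pool.Agent.R794.FP.JJ_inj _ _ _ _ h1
      obtain ⟨e3, e4⟩ := Pool.Agent.R794.FP.JJ_inj _ _ _ _ e1
      subst e3 e4
      rw [← e2] at h5
      have e5 := nn_code h5
      subst e5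
      have e6 : w = update v 0 c := by
        funext j
        by_cases hj : j = 0
        · subst hj
          rw [update_self]
          exact ((h6 _ _).1 h3).symm
        · rw [update_of_ne hj]
          exact ((h6 _ _).1 (h2 (nn p j) (nn_isN j) (fun e => hj (nn_inj e)) (v j)
            ((hz _ _).2 rfl))).symm
      rw [← e6]
      exact h7
    · intro h1
      obtain ⟨y, y', hy⟩ := exists_asn (update v 0 c)
      refine ⟨z, z', nn p φ.code, y, y', hc, fun b hb hb0 x hx => ?_, (hy _ _).2 ?_,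
        φ, update v 0 c, hφ, rfl, hy, h1⟩
      · obtain ⟨j, rfl⟩ := (isN_iff _).1 hb
        have hj : j ≠ 0 := by
          rintro rfl
          exact hb0 rfl
        refine (hy j x).2 ?_
        rw [update_of_ne hj]
        exact (hz j x).1 hx
      · rw [update_self]
  have h1 := h c
  rw [← hU] at h1
  exact (not_iff_self h1)

theorem hierarchy (hT : Df1 P (isT (p := p))) (n : ℕ) :
    ∃ (φ : Fm) (v : ℕ → LaurentSeries (ZMod p)), ∀ (ψ : Fm) (w : ℕ → LaurentSeries (ZMod p)),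
      Sig n ψ → {x | Sat P ψ (update w 0 x)} ≠ {x | Sat P φ (update v 0 x)} := by
  obtain ⟨φ, h1⟩ := Df.formula (df_uu hT n).not 1
  obtain ⟨u, hu⟩ := h1 0
  refine ⟨φ, u, fun ψ w hψ h => uu_diag (P := P) n ψ hψ w fun x => ?_⟩
  have h2 := hu (fun _ => x)
  have e : ∀ u : ℕ → LaurentSeries (ZMod p), ext 1 (fun _ : Fin 1 => x) u = update u 0 x := by
    intro u
    funext i
    by_cases hi : i = 0
    · subst hi; simp [ext]
    · have : ¬ (i < 1) := by omega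
      rw [update_of_ne hi]
      simp [ext, this]
  rw [e, e, update_self] at h2
  rw [h2]
  exact (Set.ext_iff.1 h x).symm

end

end Pool.Agent.H87F
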