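import Pool.Agent.H87F.Tr
import Pool.Agent.H87F.Code

/-! # Full second-order arithmetic in the field if the monomials are definable -/

set_option autoImplicit false

namespace Pool.Agent.H87F

open Function
open Pool.Agent.Y924.EL
open Pool.Agent.Y924.UF
open LaurentSeries

section

variable {K : Type} [Field K] {P : Set K} {Γ : Type} [Ctx K Γ]

/-- common parameters for a sequence of definable relations -/
theorem Df.common {X : ℕ → Γ → Prop} (h : ∀ i, Df P (X i)) :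
    ∃ (φ : ℕ → Fm) (c : ℕ → K), ∀ i γ, X i γ ↔ Sat P (φ i) (mix (Ctx.val γ) c) := by
  choose φ c hφ using h
  have h1 : ∀ i, Injective (fun n : ℕ => if n % 2 = 0 then n else 2 * Nat.pair i (n / 2) + 1) := by
    intro i a b hab
    simp only at hab
    split_ifs at hab with ha hb hb
    · exact hab
    · omega
    · omega
    · have h2 : Nat.pair i (a / 2) = Nat.pair i (b / 2) := by omega
      rw [Nat.pair_eq_pair] at h2
      omega
  refine ⟨fun i => ren (fun n => if n % 2 = 0 then n else 2 * Nat.pair i (n / 2) + 1) (φ i),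
    fun m => c m.unpair.1 m.unpair.2, fun i γ => ?_⟩
  rw [hφ, Pool.Agent.Y410.UF.sat_ren P (h1 i)]
  have e : mix (Ctx.val γ) (fun m => c m.unpair.1 m.unpair.2) ∘
      (fun n : ℕ => if n % 2 = 0 then n else 2 * Nat.pair i (n / 2) + 1) =
      mix (Ctx.val γ) (c i) := by
    funext n
    simp only [comp_apply]
    by_cases hn : n % 2 = 0
    · simp only [hn, if_true, mix]
    · simp only [hn, if_false]
      rw [mix_odd]
      simp only [Nat.unpair_pair, mix, hn, if_false]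
  rw [e]

/-- formulas for a sequence of definable sets of assignments, with the arguments `x_0, x_1, x_2`,
the other variables are parameters -/
theorem Df.formulas {X : ℕ → (ℕ → K) → Prop} (hX : ∀ i, Df P (X i)) :
    ∃ φ : ℕ → Fm, ∀ w : ℕ → K, ∃ u : ℕ → K, ∀ i x y z,
      X i (asg x y z w) ↔ Sat P (φ i) (asg x y z u) := by
  obtain ⟨φ, c, hφ⟩ := Df.common hX
  have hinj : Injective (fun m : ℕ => if m % 2 = 0 ∧ m / 2 < 3 then m / 2 else 3 + m) := by
    intro i j h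
    simp only at h
    split_ifs at h <;> omega
  refine ⟨fun i => ren (fun m => if m % 2 = 0 ∧ m / 2 < 3 then m / 2 else 3 + m) (φ i), fun w =>
    ⟨fun i => mix w c (i - 3), fun i x y z => ?_⟩⟩
  rw [hφ, Pool.Agent.Y410.UF.sat_ren P hinj]
  have e : (asg x y z fun i => mix w c (i - 3)) ∘
      (fun m : ℕ => if m % 2 = 0 ∧ m / 2 < 3 then m / 2 else 3 + m) =
      mix (Ctx.val (asg x y z w)) c := by
    funext m
    simp only [comp_apply]
    by_cases h : m % 2 = 0 ∧ m / 2 < 3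
    · rw [if_pos h]
      simp only [mix, h.1, if_true]
      show asg x y z _ (m / 2) = asg x y z w (m / 2)
      obtain h0 | h0 | h0 : m / 2 = 0 ∨ m / 2 = 1 ∨ m / 2 = 2 := by omega
      all_goals rw [h0]; rfl
    · rw [if_neg h]
      have h2 : ∀ v : ℕ → K, asg x y z v (3 + m) = v (3 + m) := by
        intro v
        simp only [asg]
        rw [if_neg (by omega), if_neg (by omega), if_neg (by omega)]
      rw [h2, Nat.add_sub_cancel_left]
      by_cases h3 : m % 2 = 0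
      · simp only [mix, h3, if_true]
        show w (m / 2) = asg x y z w (m / 2)
        simp only [asg]
        rw [if_neg (by omega), if_neg (by omega), if_neg (by omega)]
      · simp only [mix, h3, if_false]
  rw [e]

/-- the relations which `φ` defines are definable without parameters -/
theorem D0.rel (φ : Fm) (a b c : ℕ) (g : ℕ → ℕ) (f1 f2 f3 : Γ → K) (v : Γ → ℕ → K)
    (h1 : ∀ γ, f1 γ = Ctx.val γ a) (h2 : ∀ γ, f2 γ = Ctx.val γ b) (h3 : ∀ γ, f3 γ = Ctx.val γ c)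
    (h4 : ∀ γ i, v γ i = Ctx.val γ (g i)) :
    D0 P fun γ : Γ => Sat P φ (asg (f1 γ) (f2 γ) (f3 γ) (v γ)) := by
  refine (D0.sat φ (Γ := Γ) fun i => if i = 0 then a else if i = 1 then b else
    if i = 2 then c else g i).congr fun γ => ?_
  have e : asg (f1 γ) (f2 γ) (f3 γ) (v γ) = fun i => (Ctx.val γ (if i = 0 then a else
      if i = 1 then b else if i = 2 then c else g i) : K) := by
    funext i
    by_cases i0 : i = 0
    · subst i0; simp [asg, h1]
    · by_cases i1 : i = 1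
      · subst i1; simp [asg, h2]
      · by_cases i2 : i = 2
        · subst i2; simp [asg, h3]
        · simp [asg, i0, i1, i2, h4]
  rw [e]

/-- the structure with the parameters `v` -/
def SS (P : Set K) (φ : ℕ → Fm) (v : ℕ → K) (x y : K) : Prop := Sat P (φ 0) (asg x y y v)
def SA (P : Set K) (φ : ℕ → Fm) (v : ℕ → K) (x y z : K) : Prop := Sat P (φ 1) (asg x y z v)
def SM (P : Set K) (φ : ℕ → Fm) (v : ℕ → K) (x y z : K) : Prop := Sat P (φ 2) (asg x y z v)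
def SE (P : Set K) (φ : ℕ → Fm) (v : ℕ → K) (x s : K) : Prop := Sat P (φ 3) (asg x s s v)
def SV (P : Set K) (φ : ℕ → Fm) (v : ℕ → K) (x : K) : Prop := Sat P (φ 4) (asg x x x v)

variable (φ : ℕ → Fm)

theorem D0.ss {a b : ℕ} {g : ℕ → ℕ} {f1 f2 : Γ → K} {v : Γ → ℕ → K}
    (h1 : ∀ γ, f1 γ = Ctx.val γ a) (h2 : ∀ γ, f2 γ = Ctx.val γ b)
    (h4 : ∀ γ i, v γ i = Ctx.val γ (g i)) : D0 P fun γ : Γ => SS P φ (v γ) (f1 γ) (f2 γ) :=
  D0.rel (φ 0) a b b g f1 f2 f2 v h1 h2 h2 h4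

theorem D0.sa {a b c : ℕ} {g : ℕ → ℕ} {f1 f2 f3 : Γ → K} {v : Γ → ℕ → K}
    (h1 : ∀ γ, f1 γ = Ctx.val γ a) (h2 : ∀ γ, f2 γ = Ctx.val γ b) (h3 : ∀ γ, f3 γ = Ctx.val γ c)
    (h4 : ∀ γ i, v γ i = Ctx.val γ (g i)) :
    D0 P fun γ : Γ => SA P φ (v γ) (f1 γ) (f2 γ) (f3 γ) :=
  D0.rel (φ 1) a b c g f1 f2 f3 v h1 h2 h3 h4

theorem D0.sm {a b c : ℕ} {g : ℕ → ℕ} {f1 f2 f3 : Γ → K} {v : Γ → ℕ → K}
    (h1 : ∀ γ, f1 γ = Ctx.val γ a) (h2 : ∀ γ, f2 γ = Ctx.val γ b) (h3 : ∀ γ, f3 γ = Ctx.val γ c)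
    (h4 : ∀ γ i, v γ i = Ctx.val γ (g i)) :
    D0 P fun γ : Γ => SM P φ (v γ) (f1 γ) (f2 γ) (f3 γ) :=
  D0.rel (φ 2) a b c g f1 f2 f3 v h1 h2 h3 h4

theorem D0.se {a b : ℕ} {g : ℕ → ℕ} {f1 f2 : Γ → K} {v : Γ → ℕ → K}
    (h1 : ∀ γ, f1 γ = Ctx.val γ a) (h2 : ∀ γ, f2 γ = Ctx.val γ b)
    (h4 : ∀ γ i, v γ i = Ctx.val γ (g i)) : D0 P fun γ : Γ => SE P φ (v γ) (f1 γ) (f2 γ) :=
  D0.rel (φ 3) a b b g f1 f2 f2 v h1 h2 h2 h4

theorem D0.sv {a : ℕ} {g : ℕ → ℕ} {f1 : Γ → K} {v : Γ → ℕ → K}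
    (h1 : ∀ γ, f1 γ = Ctx.val γ a)
    (h4 : ∀ γ i, v γ i = Ctx.val γ (g i)) : D0 P fun γ : Γ => SV P φ (v γ) (f1 γ) :=
  D0.rel (φ 4) a a a g f1 f1 f1 v h1 h1 h1 h4

end

end Pool.Agent.H87F
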