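import Pool.Agent.H87F.Zero
import Pool.Agent.H87F.Mono

/-! # Terms, the residue and the valuation ring without parameters except `t` -/

set_option autoImplicit false

namespace Pool.Agent.H87F

open Function
open Pool.Agent.Y924.EL
open Pool.Agent.Y924.UF

section

variable {K : Type} [Field K] (P : Set K) {Γ : Type} [Ctx K Γ]

/-- function definable without parameters -/
def F0 (f : Γ → K) : Prop := D0 P (fun q : Γ × K => f q.1 = q.2)

variable {P}

theorem F0.var (n : ℕ) : F0 P fun γ : Γ => (Ctx.val γ n : K) :=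
  D0.veq (Γ := Γ × K) (n + 1) 0

theorem D0.wk {X : Γ → Prop} (hX : D0 P X) : D0 P fun q : Γ × K => X q.1 := by
  obtain ⟨φ, hφ⟩ := hX
  refine (D0.sat (P := P) φ (Γ := Γ × K) (fun i => i + 1)).congr fun q => ?_
  exact hφ q.1

theorem F0.wk {f : Γ → K} (hf : F0 P f) : F0 P fun q : Γ × K => f q.1 := by
  obtain ⟨φ, hφ⟩ := hf
  refine (D0.sat (P := P) φ (Γ := (Γ × K) × K) (fun i => if i = 0 then 0 else i + 1)).congr
    fun r => ?_
  have h2 := hφ (r.1.1, r.2)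
  simp only at h2
  beta_reduce
  rw [h2]
  have e : (Ctx.val (r.1.1, r.2) : ℕ → K) =
      fun i => (Ctx.val r (if i = 0 then 0 else i + 1) : K) := by
    funext i
    cases i with
    | zero => rfl
    | succ i =>
      rw [if_neg (by omega)]
      rfl
  rw [e]

theorem D0.comp {X : Γ → K → Prop} (hX : D0 P fun q : Γ × K => X q.1 q.2) {f : Γ → K}
    (hf : F0 P f) : D0 P fun γ => X γ (f γ) :=
  (D0.ex (X := fun γ a => f γ = a ∧ X γ a) (D0.and hf hX)).congr fun γ => by simp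

theorem D0.eq {f g : Γ → K} (hf : F0 P f) (hg : F0 P g) : D0 P fun γ => f γ = g γ :=
  D0.comp (X := fun γ a => f γ = a) hf hg

theorem F0.one : F0 P fun _ : Γ => (1 : K) :=
  D0.congr (Y := fun q : Γ × K => 1 = q.2) (X := fun q : Γ × K => (Ctx.val q 0 : K) = 1)
    ⟨.one 0, fun _ => Iff.rfl⟩ fun q => eq_comm

theorem D0.addR {f g h : Γ → K} (hf : F0 P f) (hg : F0 P g) (hh : F0 P h) :
    D0 P fun γ => f γ + g γ = h γ := by
  refine D0.comp (X := fun γ a => f γ + g γ = a) ?_ hh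
  refine D0.comp (X := fun (q : Γ × K) b => f q.1 + b = q.2) ?_ hg.wk
  refine D0.comp (X := fun (q : (Γ × K) × K) c => c + q.2 = q.1.2) ?_ hf.wk.wk
  exact ⟨.add 0 1 2, fun _ => Iff.rfl⟩

theorem D0.mulR {f g h : Γ → K} (hf : F0 P f) (hg : F0 P g) (hh : F0 P h) :
    D0 P fun γ => f γ * g γ = h γ := by
  refine D0.comp (X := fun γ a => f γ * g γ = a) ?_ hh
  refine D0.comp (X := fun (q : Γ × K) b => f q.1 * b = q.2) ?_ hg.wk
  refine D0.comp (X := fun (q : (Γ × K) × K) c => c * q.2 = q.1.2) ?_ hf.wk.wk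
  exact ⟨.mul 0 1 2, fun _ => Iff.rfl⟩

theorem F0.add {f g : Γ → K} (hf : F0 P f) (hg : F0 P g) : F0 P fun γ => f γ + g γ :=
  D0.addR hf.wk hg.wk (F0.var (Γ := Γ × K) 0)

theorem F0.mul {f g : Γ → K} (hf : F0 P f) (hg : F0 P g) : F0 P fun γ => f γ * g γ :=
  D0.mulR hf.wk hg.wk (F0.var (Γ := Γ × K) 0)

theorem F0.zero : F0 P fun _ : Γ => (0 : K) :=
  D0.congr (Y := fun q : Γ × K => 0 = q.2) (X := fun q : Γ × K => q.2 + q.2 = q.2)
    (D0.addR (F0.var (Γ := Γ × K) 0) (F0.var (Γ := Γ × K) 0) (F0.var (Γ := Γ × K) 0))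
    fun q => by rw [add_eq_left, eq_comm]

theorem F0.sub {f g : Γ → K} (hf : F0 P f) (hg : F0 P g) : F0 P fun γ => f γ - g γ :=
  (D0.addR (F0.var (Γ := Γ × K) 0) hg.wk hf.wk).congr fun q => by
    constructor
    · intro h
      show q.2 + g q.1 = f q.1
      rw [← h]
      ring
    · intro h
      have h' : q.2 + g q.1 = f q.1 := h
      show f q.1 - g q.1 = q.2
      rw [← h']
      ring

theorem F0.pow {f : Γ → K} (hf : F0 P f) (n : ℕ) : F0 P fun γ => f γ ^ n := by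
  induction n with
  | zero => exact (F0.one).congr fun q => by simp
  | succ n ih => exact (ih.mul hf).congr fun q => by simp [pow_succ]

theorem D0.exK (p k : ℕ) : ∀ {Γ : Type} [Ctx K Γ] {f g : Γ → K}, F0 P f → F0 P g →
    D0 P fun γ => Ex (g γ) p k (f γ) := by
  induction k with
  | zero =>
    intro Γ _ f g hf _
    exact (D0.eq hf F0.zero).congr fun γ => Iff.rfl
  | succ k ih =>
    intro Γ _ f g hf hg
    show D0 P fun γ => ∃ w y', Ex (g γ) p k y' ∧ w ^ p + g γ * y' = f γ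
    refine D0.ex (X := fun γ w => ∃ y', Ex (g γ) p k y' ∧ w ^ p + g γ * y' = f γ) ?_
    refine D0.ex (X := fun (q : Γ × K) y' => Ex (g q.1) p k y' ∧ q.2 ^ p + g q.1 * y' = f q.1) ?_
    exact (ih (F0.var (Γ := (Γ × K) × K) 0) hg.wk.wk).and
      (D0.eq (((F0.var (Γ := (Γ × K) × K) 1).pow p).add
        (hg.wk.wk.mul (F0.var (Γ := (Γ × K) × K) 0))) hf.wk.wk)

/-- the residue is `0`, for `z` and the uniformizer `τ` -/
theorem D0.hh (p : ℕ) {f g : Γ → K} (hf : F0 P f) (hg : F0 P g) :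
    D0 P fun γ => HH (g γ) p (f γ) := by
  show D0 P fun γ => ∃ w y', Ex (g γ) p (p - 1) y' ∧ w ^ p + g γ * y' = f γ + w
  refine D0.ex (X := fun γ w => ∃ y', Ex (g γ) p (p - 1) y' ∧ w ^ p + g γ * y' = f γ + w) ?_
  refine D0.ex (X := fun (q : Γ × K) y' =>
    Ex (g q.1) p (p - 1) y' ∧ q.2 ^ p + g q.1 * y' = f q.1 + q.2) ?_
  exact (D0.exK p (p - 1) (F0.var (Γ := (Γ × K) × K) 0) hg.wk.wk).and
    (D0.eq (((F0.var (Γ := (Γ × K) × K) 1).pow p).add
      (hg.wk.wk.mul (F0.var (Γ := (Γ × K) × K) 0)))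
      (hf.wk.wk.add (F0.var (Γ := (Γ × K) × K) 1)))

/-- the valuation ring -/
theorem D0.ot (m : ℕ) {f g : Γ → K} (hf : F0 P f) (hg : F0 P g) :
    D0 P fun γ => OT m (g γ) (f γ) := by
  show D0 P fun γ => ∃ y, y ^ m = 1 + g γ * f γ ^ m
  refine D0.ex (X := fun γ y => y ^ m = 1 + g γ * f γ ^ m) ?_
  exact D0.eq ((F0.var (Γ := Γ × K) 0).pow m) (F0.one.add (hg.wk.mul (hf.wk.pow m)))

/-- the digit of `s` at `y` is `0` -/
def L0 (p : ℕ) (τ s y : K) : Prop := ∃ z, z * y = s ∧ HH τ p z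
/-- the digit of `s` at `y` is `1` -/
def L1 (p : ℕ) (τ s y : K) : Prop := ∃ z, (z + 1) * y = s ∧ HH τ p z

theorem D0.l0 (p : ℕ) {f g h : Γ → K} (hf : F0 P f) (hg : F0 P g) (hh : F0 P h) :
    D0 P fun γ => L0 p (f γ) (g γ) (h γ) := by
  refine D0.ex (X := fun γ z => z * h γ = g γ ∧ HH (f γ) p z) ?_
  exact (D0.mulR (F0.var (Γ := Γ × K) 0) hh.wk hg.wk).and
    (D0.hh p (F0.var (Γ := Γ × K) 0) hf.wk)

theorem D0.l1 (p : ℕ) {f g h : Γ → K} (hf : F0 P f) (hg : F0 P g) (hh : F0 P h) :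
    D0 P fun γ => L1 p (f γ) (g γ) (h γ) := by
  refine D0.ex (X := fun γ z => (z + 1) * h γ = g γ ∧ HH (f γ) p z) ?_
  exact (D0.mulR ((F0.var (Γ := Γ × K) 0).add F0.one) hh.wk hg.wk).and
    (D0.hh p (F0.var (Γ := Γ × K) 0) hf.wk)

end

end Pool.Agent.H87F
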