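import Pool.Agent.H87F.Real
import Pool.Agent.H87F.Term0

/-! # Series definable from `t` -/

set_option autoImplicit false

namespace Pool.Agent.H87F

open Function
open Pool.Agent.Y924.EL
open Pool.Agent.Y924.UF (sat_agree lam tt OO HH OT ren Below exR)
open LaurentSeries

section

variable {p : ℕ} [hp : Fact p.Prime] {P : Set (LaurentSeries (ZMod p))}

theorem exists_rel3' (ν : ℕ → LaurentSeries (ZMod p)) (f : ℕ → ℕ → ℕ) :
    ∃ z : Fin 6 → LaurentSeries (ZMod p), ∀ x y u,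
    Rel3 z x y u ↔ ∃ i j, x = ν i ∧ y = ν j ∧ u = ν (f i j) := by
  obtain ⟨z0, z1, h1⟩ := exists_sq (p := p) fun k => ν k.unpair.1
  obtain ⟨z2, z3, h2⟩ := exists_sq (p := p) fun k => ν k.unpair.2
  obtain ⟨z4, z5, h3⟩ := exists_sq (p := p) fun k => ν (f k.unpair.1 k.unpair.2)
  refine ⟨![z0, z1, z2, z3, z4, z5], fun x y u => ?_⟩
  constructor
  · rintro ⟨m, hm, a1, a2, a3⟩
    obtain ⟨k, rfl⟩ := (isN_iff m).1 hm
    exact ⟨_, _, (h1 k x).1 a1, (h2 k y).1 a2, (h3 k u).1 a3⟩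
  · rintro ⟨i, j, hx, hy, hu⟩
    refine ⟨tt p ^ 4 ^ (Nat.pair i j), (isN_iff _).2 ⟨_, rfl⟩, (h1 _ x).2 ?_, (h2 _ y).2 ?_,
      (h3 _ u).2 ?_⟩
    · rw [hx, Nat.unpair_pair]
    · rw [hy, Nat.unpair_pair]
    · rw [hu, Nat.unpair_pair]

/-- the structure with the numbers `τ ^ k` -/
def Gt (P : Set (LaurentSeries (ZMod p))) (φ : ℕ → Fm) (τ : LaurentSeries (ZMod p))
    (v : ℕ → LaurentSeries (ZMod p)) : Prop :=
  Gd (SS P φ v) (SA P φ v) (SM P φ v) (SE P φ v)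
    (fun w : ℕ → LaurentSeries (ZMod p) => SV P φ w) ∧
  (∀ x y, SS P φ v x y → y = τ * x) ∧ (∃ y, SS P φ v 1 y) ∧ ∀ x, ¬ SS P φ v x 1

theorem exists_struct' (hT : Df1 P (isT (p := p))) : ∃ φ : ℕ → Fm,
    (∃ u, Gt P φ (tt p) u) ∧
    ∀ T : Set (LaurentSeries (ZMod p)), T.Countable → ∃ w, ∀ x, SV P φ w x ↔ x ∈ T := by
  obtain ⟨za, hza⟩ := exists_rel3' (p := p) (fun k => tt p ^ k) fun i j => i + j
  obtain ⟨zm, hzm⟩ := exists_rel3' (p := p) (fun k => tt p ^ k) fun i j => i * j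
  obtain ⟨X, h0, h1, h2, h3, h4, h5⟩ : ∃ X : ℕ → (ℕ → LaurentSeries (ZMod p)) → Prop,
      (X 0 = fun v => isT (v 0) ∧ v 1 = tt p * v 0) ∧
      (X 1 = fun v => Rel3 za (v 0) (v 1) (v 2)) ∧ (X 2 = fun v => Rel3 zm (v 0) (v 1) (v 2)) ∧
      (X 3 = fun v => lam p (v 1 / v 0) = 1) ∧ (X 4 = Cnt) ∧ ∀ i, X (i + 5) = fun _ => True :=
    ⟨fun i => match i with
      | 0 => fun v => isT (v 0) ∧ v 1 = tt p * v 0
      | 1 => fun v => Rel3 za (v 0) (v 1) (v 2)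
      | 2 => fun v => Rel3 zm (v 0) (v 1) (v 2)
      | 3 => fun v => lam p (v 1 / v 0) = 1
      | 4 => Cnt
      | _ + 5 => fun _ => True, rfl, rfl, rfl, rfl, rfl, fun _ => rfl⟩
  have hv : ∀ j, Ff P fun v : ℕ → LaurentSeries (ZMod p) => v j := fun j => Ff.var j
  have hX : ∀ i, Df P (X i) := by
    intro i
    match i with
    | 0 =>
      rw [h0]
      exact (Df1.app hT (hv 0)).and (Df.eq (hv 1) ((Ff.const _).mul (hv 0)))
    | 1 => rw [h1]; exact df_rel3 hT za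
    | 2 => rw [h2]; exact df_rel3 hT zm
    | 3 => rw [h3]; exact Df.lam1 ((hv 1).div (hv 0))
    | 4 => rw [h4]; exact df_cnt hT
    | i + 5 => rw [h5]; exact Df.true
  obtain ⟨φ, hφ⟩ := Df.formulas hX
  refine ⟨φ, ?_, fun T hT => ?_⟩
  · obtain ⟨u, hu⟩ := hφ 0
    have hS : ∀ x y, SS P φ u x y ↔ ∃ k, x = tt p ^ k ∧ y = tt p ^ (k + 1) := by
      intro x y
      show Sat P (φ 0) (asg x y y u) ↔ _
      rw [← hu, h0]
      show isT x ∧ y = tt p * x ↔ _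
      constructor
      · rintro ⟨⟨k, rfl⟩, rfl⟩
        exact ⟨k, rfl, by rw [pow_succ, mul_comm]⟩
      · rintro ⟨k, rfl, rfl⟩
        exact ⟨⟨k, rfl⟩, by rw [pow_succ, mul_comm]⟩
    refine ⟨u, Gd.of (fun k => tt p ^ k) (fun i j h => tt_inj h) hS ?_ ?_ ?_, ?_, ?_, ?_⟩
    · intro x y z
      show Sat P (φ 1) (asg x y z u) ↔ _
      rw [← hu, h1]
      exact hza x y z
    · intro x y z
      show Sat P (φ 2) (asg x y z u) ↔ _
      rw [← hu, h2]
      exact hzm x y z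
    · intro B
      refine ⟨chr B, fun k => ?_⟩
      show Sat P (φ 3) (asg _ _ _ u) ↔ _
      rw [← hu, h3]
      show lam p (chr B / tt p ^ k) = 1 ↔ _
      rw [lam_chr]
    · intro x y hxy
      obtain ⟨k, rfl, rfl⟩ := (hS x y).1 hxy
      rw [pow_succ, mul_comm]
    · exact ⟨tt p ^ 1, (hS _ _).2 ⟨0, by simp, rfl⟩⟩
    · intro x hx
      obtain ⟨k, -, h⟩ := (hS _ _).1 hx
      have h' : tt p ^ 0 = tt p ^ (k + 1) := by rw [pow_zero, h]
      have := tt_inj h'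
      omega
  · obtain ⟨w, hw⟩ := exists_cnt T hT
    obtain ⟨u, hu⟩ := hφ w
    refine ⟨u, fun x => ?_⟩
    show Sat P (φ 4) (asg x x x u) ↔ _
    rw [← hu, h4]
    exact hw x

/-- the numbers of a structure with the numbers `τ ^ k` -/
theorem Gt.std {φ : ℕ → Fm} {u : ℕ → LaurentSeries (ZMod p)} (h : Gt P φ (tt p) u)
    (hV : ∀ T : Set (LaurentSeries (ZMod p)), T.Countable → ∃ w, ∀ x, SV P φ w x ↔ x ∈ T) :
    Std (SS P φ u) (SA P φ u) (SM P φ u) (SE P φ u) (fun k => tt p ^ k) := by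
  obtain ⟨h1, h2, h3, h4⟩ := h
  obtain ⟨ν, hν⟩ := h1.std hV
  have e : ν = fun k => tt p ^ k := by
    funext k
    induction k with
    | zero =>
      obtain ⟨k, hk⟩ := (hν.dom 1).1 h3
      cases k with
      | zero => rw [← hk, pow_zero]
      | succ k =>
        refine absurd ?_ (h4 (ν k))
        rw [hk]
        exact (hν.suc k _).2 rfl
    | succ k ih =>
      rw [h2 _ _ ((hν.suc k _).2 rfl), ih, pow_succ, mul_comm]
  rwa [e] at hν

/-- the set `A` is analytical: definable in second-order arithmetic -/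
def Anl (A : Set ℕ) : Prop := ∃ α : Fm2, ∀ (x : ℕ → ℕ) (X : ℕ → Set ℕ), Sat2 α x X ↔ x 0 ∈ A

theorem l0_iff (s : LaurentSeries (ZMod p)) (k : ℕ) : L0 p (tt p) s (tt p ^ k) ↔
    s.coeff k = 0 := by
  have hne : tt p ^ k ≠ 0 := pow_ne_zero _ tt_ne
  constructor
  · rintro ⟨z, hz, h⟩
    have h1 := (Pool.Agent.Y15.UF.t_RES p z).1 h
    have h2 : z = s / tt p ^ k := by rw [eq_div_iff hne, hz]
    rw [← lam_div, ← h2]
    exact h1
  · intro h
    refine ⟨s / tt p ^ k, div_mul_cancel₀ _ hne, (Pool.Agent.Y15.UF.t_RES p _).2 ?_⟩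
    rw [← lam_div] at h
    exact h

theorem l1_iff (s : LaurentSeries (ZMod p)) (k : ℕ) : L1 p (tt p) s (tt p ^ k) ↔
    s.coeff k = 1 := by
  have hne : tt p ^ k ≠ 0 := pow_ne_zero _ tt_ne
  constructor
  · rintro ⟨z, hz, h⟩
    have h1 : lam p z = 0 := (Pool.Agent.Y15.UF.t_RES p z).1 h
    have h2 : z = s / tt p ^ k - 1 := by rw [eq_sub_iff_add_eq, eq_div_iff hne, hz]
    rw [h2, map_sub, lam_one, sub_eq_zero, lam_div] at h1
    exact h1
  · intro h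
    refine ⟨s / tt p ^ k - 1, ?_, (Pool.Agent.Y15.UF.t_RES p _).2 ?_⟩
    · rw [sub_add_cancel, div_mul_cancel₀ _ hne]
    · show lam p (s / tt p ^ k - 1) = 0
      rw [map_sub, lam_one, sub_eq_zero, lam_div]
      exact h

/-- `s` is the characteristic series of `A`, in terms of the structure `u` -/
def Chs (P : Set (LaurentSeries (ZMod p))) (φ : ℕ → Fm) (β : Fm) (M : ℕ)
    (s τ : LaurentSeries (ZMod p)) (u : ℕ → LaurentSeries (ZMod p)) : Prop :=
  Gt P φ τ u ∧ OT (p + 1) τ s ∧ ∀ y, (∃ y', SS P φ u y y') →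
    ((L1 p τ s y ↔ Sat P β (fun i => if i < M then u i else y)) ∧
      ¬ (¬ L0 p τ s y ∧ ¬ L1 p τ s y))

theorem d0_gt (φ : ℕ → Fm) : D0 P fun q : (ℕ → LaurentSeries (ZMod p)) ×
    (ℕ → LaurentSeries (ZMod p)) => Gt P φ (q.1 1) q.2 := by
  refine D0.and ?_ (D0.and ?_ (D0.and ?_ ?_))
  · obtain ⟨G, hG⟩ := D0.gd (P := P) φ
    refine (D0.sat (P := P) G (Γ := (ℕ → LaurentSeries (ZMod p)) ×
      (ℕ → LaurentSeries (ZMod p))) (fun i => 2 * i + 1)).congr fun q => ?_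
    have e : (fun i => (Ctx.val q (2 * i + 1) : LaurentSeries (ZMod p))) = q.2 := by
      funext i
      exact mix_odd _ _ i
    rw [e]
    exact hG q.2
  · refine D0.all (X := fun (q : (ℕ → LaurentSeries (ZMod p)) × (ℕ → LaurentSeries (ZMod p))) x =>
      ∀ y, SS P φ q.2 x y → y = q.1 1 * x) ?_
    refine D0.all (X := fun (q : ((ℕ → LaurentSeries (ZMod p)) ×
      (ℕ → LaurentSeries (ZMod p))) × LaurentSeries (ZMod p)) y =>
      SS P φ q.1.2 q.2 y → y = q.1.1 1 * q.2) ?_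
    refine D0.imp ?_ ?_
    · exact D0.ss φ (a := 1) (b := 0) (g := fun i => 2 * i + 1 + 2) (fun _ => rfl)
        (fun _ => rfl) (fun q i => (mix_odd (Ctx.val (K := LaurentSeries (ZMod p)) q.1.1.1)
          q.1.1.2 i).symm)
    · refine D0.eq (F0.var (Γ := (((ℕ → LaurentSeries (ZMod p)) × (ℕ → LaurentSeries (ZMod p))) ×
        LaurentSeries (ZMod p)) × LaurentSeries (ZMod p)) 0) (F0.mul ?_ ?_)
      · exact (F0.var (P := P) (Γ := (((ℕ → LaurentSeries (ZMod p)) ×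
          (ℕ → LaurentSeries (ZMod p))) × LaurentSeries (ZMod p)) × LaurentSeries (ZMod p))
          (2 * 1 + 2))
      · exact F0.var (Γ := (((ℕ → LaurentSeries (ZMod p)) ×
          (ℕ → LaurentSeries (ZMod p))) × LaurentSeries (ZMod p)) × LaurentSeries (ZMod p)) 1
  · refine D0.ex (X := fun (q : (ℕ → LaurentSeries (ZMod p)) × (ℕ → LaurentSeries (ZMod p))) y =>
      SS P φ q.2 1 y) ?_
    refine D0.comp (X := fun (q : ((ℕ → LaurentSeries (ZMod p)) ×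
      (ℕ → LaurentSeries (ZMod p))) × LaurentSeries (ZMod p)) o => SS P φ q.1.2 o q.2) ?_
      F0.one
    exact D0.ss φ (a := 0) (b := 1) (g := fun i => 2 * i + 1 + 2) (fun _ => rfl)
        (fun _ => rfl) (fun q i => (mix_odd (Ctx.val (K := LaurentSeries (ZMod p)) q.1.1.1)
          q.1.1.2 i).symm)
  · refine D0.all (X := fun (q : (ℕ → LaurentSeries (ZMod p)) × (ℕ → LaurentSeries (ZMod p))) x =>
      ¬ SS P φ q.2 x 1) ?_
    refine D0.comp (X := fun (q : ((ℕ → LaurentSeries (ZMod p)) ×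
      (ℕ → LaurentSeries (ZMod p))) × LaurentSeries (ZMod p)) o => ¬ SS P φ q.1.2 q.2 o) ?_
      F0.one
    exact (D0.ss φ (a := 1) (b := 0) (g := fun i => 2 * i + 1 + 2) (fun _ => rfl)
        (fun _ => rfl) (fun q i => (mix_odd (Ctx.val (K := LaurentSeries (ZMod p)) q.1.1.1)
          q.1.1.2 i).symm)).not

end

end Pool.Agent.H87F
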