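import Pool.Agent.H87F.Code

/-! # Closed sets in `K ^ n` -/

set_option autoImplicit false

namespace Pool.Agent.H87F

open Function
open Pool.Agent.Y924.EL
open Pool.Agent.Y924.UF
open WithZero LaurentSeries
open scoped Topology

variable {p : ℕ} [hp : Fact p.Prime]

theorem nhds_ball {s : Set (LaurentSeries (ZMod p))} {x : (LaurentSeries (ZMod p))} (hs : s ∈ 𝓝 x) :
    ∃ ε : (LaurentSeries (ZMod p)), ε ≠ 0 ∧ ∀ y, Dv ε (y - x) → y ∈ s := by
  rw [Valued.mem_nhds] at hs
  obtain ⟨γ, hγ⟩ := hs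
  obtain ⟨r, u, hr, hu, h⟩ := Valuation.exists_div_eq_of_unit (v := (Valued.v : Valuation (LaurentSeries (ZMod p)) (WithZero (Multiplicative ℤ)))) γ
  have hr0 : r ≠ 0 := (Valuation.ne_zero_iff _).1 hr.ne'
  have hu0 : u ≠ 0 := (Valuation.ne_zero_iff _).1 hu.ne'
  refine ⟨tt p * r / u, div_ne_zero (mul_ne_zero tt_ne hr0) hu0, fun y hy => hγ ?_⟩
  show Valued.v.restrict (y - x) < γ.1
  rw [← h, ← map_div₀, Valuation.restrict_lt_iff]
  rw [dv_iff] at hy
  refine lt_of_le_of_lt hy ?_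
  rw [map_div₀, map_div₀, map_mul]
  refine (div_lt_div_iff_of_pos_right hu).2 ?_
  calc (Valued.v (tt p) : (WithZero (Multiplicative ℤ))) * Valued.v r < 1 * Valued.v r :=
        mul_lt_mul_of_pos_right v_tt_lt hr
    _ = _ := one_mul _

/-- balls are open -/
theorem ball_open (ε x : (LaurentSeries (ZMod p))) (hε : ε ≠ 0) : IsOpen {y : (LaurentSeries (ZMod p)) | Dv ε (y - x)} := by
  rw [isOpen_iff_mem_nhds]
  intro y hy
  rw [Valued.mem_nhds]
  have h0 : (Valued.v.restrict ε) ≠ 0 := by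
    rw [Ne, Valuation.restrict_eq_zero_iff]
    exact (Valuation.ne_zero_iff _).2 hε
  refine ⟨Units.mk0 _ h0, fun z hz => ?_⟩
  have hz' : Valued.v.restrict (z - y) < Valued.v.restrict ε := hz
  rw [Valuation.restrict_lt_iff] at hz'
  show Dv ε (z - x)
  rw [Set.mem_ofPred_eq, dv_iff] at hy
  rw [dv_iff]
  have e : z - x = (z - y) + (y - x) := by ring
  rw [e]
  exact (Valuation.map_add _ _ _).trans (max_le hz'.le hy)

theorem closed_ball {n : ℕ} {X : Set (Fin n → (LaurentSeries (ZMod p)))} (hX : IsClosed X) {x : Fin n → (LaurentSeries (ZMod p))}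
    (hx : x ∉ X) : ∃ ε : (LaurentSeries (ZMod p)), ε ≠ 0 ∧ ∀ y : Fin n → (LaurentSeries (ZMod p)), (∀ i, Dv ε (y i - x i)) → y ∉ X := by
  have h1 := (isOpen_pi_iff'.1 hX.isOpen_compl) x hx
  obtain ⟨u, hu, hsub⟩ := h1
  choose ε hε0 hε using fun i => nhds_ball ((hu i).1.mem_nhds (hu i).2)
  -- a common element of small value
  have h3 : ∀ s : Finset (Fin n), ∃ δ : (LaurentSeries (ZMod p)), δ ≠ 0 ∧ ∀ i ∈ s, Dv (ε i) δ := by
    intro s
    classical
    induction s using Finset.induction with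
    | empty => exact ⟨1, one_ne_zero, fun i hi => absurd hi (Finset.notMem_empty _)⟩
    | insert i s _ ih =>
      obtain ⟨δ, hδ, h⟩ := ih
      rcases dv_total (ε i) δ with h4 | h4
      · refine ⟨δ, hδ, fun j hj => ?_⟩
        rcases Finset.mem_insert.1 hj with rfl | hj
        · exact h4
        · exact h j hj
      · refine ⟨ε i, hε0 i, fun j hj => ?_⟩
        rcases Finset.mem_insert.1 hj with rfl | hj
        · exact dv_refl _
        · exact dv_trans (h j hj) h4
  obtain ⟨δ, hδ, h⟩ := h3 Finset.univ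
  refine ⟨δ, hδ, fun y hy => hsub ?_⟩
  intro i _
  exact hε i _ (dv_trans (h i (Finset.mem_univ _)) (hy i))

/-- the series with finite support -/
noncomputable def fs (f : ℤ →₀ ZMod p) : (LaurentSeries (ZMod p)) := HahnSeries.ofFinsupp f

theorem exists_approx (x : (LaurentSeries (ZMod p))) (r : ℕ) : ∃ f : ℤ →₀ ZMod p, Dv (tt p ^ r) (x - fs f) := by
  obtain ⟨N, hN⟩ := Pool.Agent.N606.FP.exists_low x
  classical
  obtain ⟨f, hf⟩ : ∃ f : ℤ →₀ ZMod p, ∀ k, f k = if k < (r : ℤ) then x.coeff k else 0 := by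
    refine ⟨Finsupp.onFinset (Finset.Ico N r) (fun k => if k < (r : ℤ) then x.coeff k else 0) ?_,
      fun k => rfl⟩
    intro k hk
    rw [Finset.mem_Ico]
    by_contra h
    apply hk
    split_ifs with h1
    · refine hN k ?_
      omega
    · rfl
  refine ⟨f, ?_⟩
  rw [tt_pow, Dv]
  obtain ⟨z, hz, h2⟩ := (Pool.Agent.Y697.UF.ball_single (p := p) (r : ℤ) (fs f) x).2 (by
    intro k hk
    unfold fs
    rw [HahnSeries.coeff_ofFinsupp, hf, if_pos hk])
  refine ⟨z, hz, ?_⟩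
  rw [eq_sub_iff_add_eq]
  exact h2

/-- a closed set has a dense sequence -/
theorem dense_seq {n : ℕ} (X : Set (Fin n → (LaurentSeries (ZMod p)))) : ∃ (b : ℕ → Fin n → (LaurentSeries (ZMod p))) (A : Set ℕ),
    (∀ k ∈ A, b k ∈ X) ∧ ∀ x ∈ X, ∀ r : ℕ, ∃ k ∈ A, ∀ i, Dv (tt p ^ r) (x i - b k i) := by
  classical
  obtain ⟨e, he⟩ := exists_surjective_nat ((Fin n → (ℤ →₀ ZMod p)) × ℕ)
  let good : (Fin n → (ℤ →₀ ZMod p)) × ℕ → Prop := fun q =>
    ∃ x ∈ X, ∀ i, Dv (tt p ^ q.2) (x i - fs (q.1 i))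
  refine ⟨fun k => if h : good (e k) then h.choose else 0, {k | good (e k)}, fun k hk => ?_,
    fun x hx r => ?_⟩
  · have hk' : good (e k) := hk
    simp only [dif_pos hk']
    exact hk'.choose_spec.1
  · choose f hf using fun i => exists_approx (x i) r
    obtain ⟨k, hk⟩ := he (f, r)
    have hg : good (e k) := by
      rw [hk]
      exact ⟨x, hx, hf⟩
    refine ⟨k, hg, fun i => ?_⟩
    simp only [dif_pos hg]
    have h1 := hg.choose_spec.2 i
    have h2 := hf i
    generalize hg.choose = y at h1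
    rw [hk] at h1
    rw [dv_iff] at h1 h2 ⊢
    have e1 : x i - y i = (x i - fs (f i)) - (y i - fs (f i)) := by ring
    rw [e1]
    exact (Valuation.map_sub _ _ _).trans (max_le h2 h1)

theorem exists_dv_pow (ε : (LaurentSeries (ZMod p))) (hε : ε ≠ 0) : ∃ r : ℕ, Dv ε (tt p ^ r) := by
  refine ⟨ε.order.toNat, ?_⟩
  have h1 := (Pool.Agent.Y606.UF.mul_OO (p := p) hε (tt p ^ ε.order.toNat)).2 ?_
  · exact h1
  · intro n hn
    rw [tt_pow]
    unfold Mo
    refine HahnSeries.coeff_single_of_ne ?_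
    have := Int.self_le_toNat ε.order
    omega

end Pool.Agent.H87F
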