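import Pool.Agent.H87F.Zero
import Pool.Agent.H87F.Gd
import Pool.Agent.H87F.Fm2
import Pool.Agent.Y900.UF.Rec
import Pool.Agent.Y286.UF.TFV

/-! # The translation of second-order arithmetic -/

set_option autoImplicit false

namespace Pool.Agent.H87F

open Function
open Pool.Agent.Y924.EL
open Pool.Agent.Y924.UF

/-- values for the first three variables -/
def asg {K : Type} (x y z : K) (v : ℕ → K) : ℕ → K :=
  fun i => if i = 0 then x else if i = 1 then y else if i = 2 then z else v i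

/-- `θ` for the variables `x_a, x_b, x_c` (`a, b, c ≥ 3`) -/
def plug (θ : Fm) (a b c : ℕ) : Fm :=
  .ex 0 (.ex 1 (.ex 2 (.and (.eq 0 a) (.and (.eq 1 b) (.and (.eq 2 c) θ)))))

theorem sat_plug {K : Type} [Field K] (P : Set K) (θ : Fm) {a b c : ℕ} (ha : 3 ≤ a) (hb : 3 ≤ b)
    (hc : 3 ≤ c) (v : ℕ → K) : Sat P (plug θ a b c) v ↔ Sat P θ (asg (v a) (v b) (v c) v) := by
  have e : ∀ x y z : K, update (update (update v 0 x) 1 y) 2 z = asg x y z v := by
    intro x y z
    funext i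
    by_cases h2 : i = 2
    · subst h2; simp [asg]
    · rw [update_of_ne h2]
      by_cases h1 : i = 1
      · subst h1; simp [asg]
      · rw [update_of_ne h1]
        by_cases h0 : i = 0
        · subst h0; simp [asg]
        · rw [update_of_ne h0]
          simp [asg, h0, h1, h2]
  have hv : ∀ x y z : K, ∀ d, 3 ≤ d → asg x y z v d = v d := by
    intro x y z d hd
    simp only [asg]
    rw [if_neg (by omega), if_neg (by omega), if_neg (by omega)]
  simp only [plug, Sat, e, hv _ _ _ _ ha, hv _ _ _ _ hb, hv _ _ _ _ hc]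
  simp only [asg, if_true, one_ne_zero, if_false, OfNat.ofNat_ne_zero, OfNat.ofNat_ne_one]
  constructor
  · rintro ⟨x, y, z, rfl, rfl, rfl, h⟩
    exact h
  · intro h
    exact ⟨_, _, _, rfl, rfl, rfl, h⟩

/-- the translation -/
def tr2 (θ : ℕ → Fm) (M : ℕ) : Fm2 → Fm
  | .eq i j => .eq (M + 2 * i) (M + 2 * j)
  | .one i => plug (θ 0) (M + 2 * i) (M + 2 * i) (M + 2 * i)
  | .add i j k => plug (θ 1) (M + 2 * i) (M + 2 * j) (M + 2 * k)
  | .mul i j k => plug (θ 2) (M + 2 * i) (M + 2 * j) (M + 2 * k)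
  | .mem i j => plug (θ 3) (M + 2 * i) (M + (2 * j + 1)) (M + (2 * j + 1))
  | .neg φ => .neg (tr2 θ M φ)
  | .and φ ψ => .and (tr2 θ M φ) (tr2 θ M ψ)
  | .exN i φ => .ex (M + 2 * i) (.and (plug (θ 4) (M + 2 * i) (M + 2 * i) (M + 2 * i)) (tr2 θ M φ))
  | .exS i φ => .ex (M + (2 * i + 1)) (tr2 θ M φ)

theorem sat_tr2 {K : Type} [Field K] (P : Set K) (θ : ℕ → Fm) (M : ℕ) (hM : 3 ≤ M)
    (v0 : ℕ → K) (R : ℕ → K → K → K → Prop)
    (hR : ∀ i, i < 5 → ∀ x y z (v : ℕ → K), (∀ j, 3 ≤ j → j < M → v j = v0 j) →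
      (Sat P (θ i) (asg x y z v) ↔ R i x y z))
    (ν : ℕ → K) (hν : Injective ν) (h0 : ∀ k, R 0 (ν k) (ν k) (ν k) ↔ k = 1)
    (h1 : ∀ i j u, R 1 (ν i) (ν j) u ↔ u = ν (i + j))
    (h2 : ∀ i j u, R 2 (ν i) (ν j) u ↔ u = ν (i * j))
    (h3 : ∀ B : Set ℕ, ∃ s, ∀ k, R 3 (ν k) s s ↔ k ∈ B)
    (h4 : ∀ x, R 4 x x x ↔ ∃ k, x = ν k) :
    ∀ (ψ : Fm2) (v : ℕ → K) (x : ℕ → ℕ) (X : ℕ → Set ℕ), (∀ i, i < M → v i = v0 i) →
      (∀ i, i ∈ ψ.fvN → v (M + 2 * i) = ν (x i)) →
      (∀ j, j ∈ ψ.fvS → ∀ k, R 3 (ν k) (v (M + (2 * j + 1))) (v (M + (2 * j + 1))) ↔ k ∈ X j) →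
      (Sat P (tr2 θ M ψ) v ↔ Sat2 ψ x X) := by
  intro ψ
  induction ψ with
  | eq i j =>
    intro v x X hv hx _
    simp only [tr2, Sat, Sat2]
    rw [hx i (by simp [Fm2.fvN]), hx j (by simp [Fm2.fvN])]
    exact hν.eq_iff
  | one i =>
    intro v x X hv hx _
    simp only [tr2, Sat2]
    rw [sat_plug P _ (by omega) (by omega) (by omega), hR _ (by norm_num) _ _ _ _ fun j _ hj => hv j hj,
      hx i (by simp [Fm2.fvN])]
    exact h0 _
  | add i j k =>
    intro v x X hv hx _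
    simp only [tr2, Sat2]
    rw [sat_plug P _ (by omega) (by omega) (by omega), hR _ (by norm_num) _ _ _ _ fun j _ hj => hv j hj,
      hx i (by simp [Fm2.fvN]), hx j (by simp [Fm2.fvN]), hx k (by simp [Fm2.fvN]), h1,
      hν.eq_iff, eq_comm]
  | mul i j k =>
    intro v x X hv hx _
    simp only [tr2, Sat2]
    rw [sat_plug P _ (by omega) (by omega) (by omega), hR _ (by norm_num) _ _ _ _ fun j _ hj => hv j hj,
      hx i (by simp [Fm2.fvN]), hx j (by simp [Fm2.fvN]), hx k (by simp [Fm2.fvN]), h2,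
      hν.eq_iff, eq_comm]
  | mem i j =>
    intro v x X hv hx hX
    simp only [tr2, Sat2]
    rw [sat_plug P _ (by omega) (by omega) (by omega), hR _ (by norm_num) _ _ _ _ fun j _ hj => hv j hj,
      hx i (by simp [Fm2.fvN])]
    exact hX j (by simp [Fm2.fvS]) _
  | neg φ ih =>
    intro v x X hv hx hX
    exact not_congr (ih v x X hv hx hX)
  | and φ ψ ih1 ih2 =>
    intro v x X hv hx hX
    exact and_congr
      (ih1 v x X hv (fun i hi => hx i (by simp only [Fm2.fvN, Finset.mem_union]; exact Or.inl hi))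
        (fun i hi => hX i (by simp only [Fm2.fvS, Finset.mem_union]; exact Or.inl hi)))
      (ih2 v x X hv (fun i hi => hx i (by simp only [Fm2.fvN, Finset.mem_union]; exact Or.inr hi))
        (fun i hi => hX i (by simp only [Fm2.fvS, Finset.mem_union]; exact Or.inr hi)))
  | exN i φ ih =>
    intro v x X hv hx hX
    simp only [tr2, Sat2]
    show (∃ a, Sat P (plug (θ 4) _ _ _) (update v (M + 2 * i) a) ∧
      Sat P (tr2 θ M φ) (update v (M + 2 * i) a)) ↔ _
    have hv' : ∀ a, ∀ j, j < M → update v (M + 2 * i) a j = v0 j := by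
      intro a j hj
      rw [update_of_ne (by omega)]
      exact hv j hj
    have key : ∀ k, Sat P (tr2 θ M φ) (update v (M + 2 * i) (ν k)) ↔
        Sat2 φ (update x i k) X := by
      intro k
      refine ih _ _ _ (hv' _) (fun j hj => ?_) (fun j hj l => ?_)
      · by_cases h : j = i
        · subst h; simp
        · rw [update_of_ne (by omega), update_of_ne h]
          exact hx j (by simp only [Fm2.fvN, Finset.mem_erase]; exact ⟨h, hj⟩)
      · rw [update_of_ne (by omega)]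
        exact hX j hj l
    constructor
    · rintro ⟨a, ha, hs⟩
      rw [sat_plug P _ (by omega) (by omega) (by omega), hR _ (by norm_num) _ _ _ _ fun j _ hj => hv' a j hj,
        update_self, h4] at ha
      obtain ⟨k, rfl⟩ := ha
      exact ⟨k, (key k).1 hs⟩
    · rintro ⟨k, hk⟩
      refine ⟨ν k, ?_, (key k).2 hk⟩
      rw [sat_plug P _ (by omega) (by omega) (by omega), hR _ (by norm_num) _ _ _ _ fun j _ hj => hv' _ j hj,
        update_self, h4]
      exact ⟨k, rfl⟩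
  | exS i φ ih =>
    intro v x X hv hx hX
    simp only [tr2, Sat2]
    show (∃ a, Sat P (tr2 θ M φ) (update v (M + (2 * i + 1)) a)) ↔ _
    have hv' : ∀ a, ∀ j, j < M → update v (M + (2 * i + 1)) a j = v0 j := by
      intro a j hj
      rw [update_of_ne (by omega)]
      exact hv j hj
    have key : ∀ (a : K) (A : Set ℕ), (∀ k, R 3 (ν k) a a ↔ k ∈ A) →
        (Sat P (tr2 θ M φ) (update v (M + (2 * i + 1)) a) ↔ Sat2 φ x (update X i A)) := by
      intro a A hA
      refine ih _ _ _ (hv' _) (fun j hj => ?_) (fun j hj l => ?_)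
      · rw [update_of_ne (by omega)]
        exact hx j hj
      · by_cases h : j = i
        · subst h
          simp only [update_self]
          exact hA l
        · rw [update_of_ne (by omega), update_of_ne h]
          exact hX j (by simp only [Fm2.fvS, Finset.mem_erase]; exact ⟨h, hj⟩) l
    constructor
    · rintro ⟨a, hs⟩
      exact ⟨{k | R 3 (ν k) a a}, (key a _ fun k => Iff.rfl).1 hs⟩
    · rintro ⟨A, hA⟩
      obtain ⟨s, hs⟩ := h3 A
      exact ⟨s, (key s A hs).2 hA⟩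

/-! ### codes -/

/-- the code of `plug` -/
def plugc (e a b c : ℕ) : ℕ :=
  Nat.pair 7 (Nat.pair 0 (Nat.pair 7 (Nat.pair 1 (Nat.pair 7 (Nat.pair 2 (Nat.pair 6 (Nat.pair
    (Nat.pair 0 (Nat.pair 0 a)) (Nat.pair 6 (Nat.pair (Nat.pair 0 (Nat.pair 1 b)) (Nat.pair 6
      (Nat.pair (Nat.pair 0 (Nat.pair 2 c)) e)))))))))))

theorem code_plug (θ : Fm) (a b c : ℕ) : (plug θ a b c).code = plugc θ.code a b c := rfl

theorem prim_pair {f g : ℕ → ℕ} (hf : Primrec f) (hg : Primrec g) :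
    Primrec fun m => Nat.pair (f m) (g m) := Primrec₂.natPair.comp hf hg

theorem prim_plugc (e : ℕ) {a b c : ℕ → ℕ} (ha : Primrec a) (hb : Primrec b) (hc : Primrec c) :
    Primrec fun m => plugc e (a m) (b m) (c m) := by
  unfold plugc
  have h : ∀ k : ℕ, Primrec fun _ : ℕ => k := fun k => Primrec.const k
  exact prim_pair (h 7) (prim_pair (h 0) (prim_pair (h 7) (prim_pair (h 1) (prim_pair (h 7)
    (prim_pair (h 2) (prim_pair (h 6) (prim_pair (prim_pair (h 0) (prim_pair (h 0) ha))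
      (prim_pair (h 6) (prim_pair (prim_pair (h 0) (prim_pair (h 1) hb)) (prim_pair (h 6)
        (prim_pair (prim_pair (h 0) (prim_pair (h 2) hc)) (h e))))))))))))

theorem prim_aff (M : ℕ) {f : ℕ → ℕ} (hf : Primrec f) : Primrec fun m => M + 2 * f m :=
  Primrec.nat_add.comp (Primrec.const M) (Primrec.nat_mul.comp (Primrec.const 2) hf)

theorem prim_aff1 (M : ℕ) {f : ℕ → ℕ} (hf : Primrec f) : Primrec fun m => M + (2 * f m + 1) :=
  Primrec.nat_add.comp (Primrec.const M)
    (Primrec.nat_add.comp (Primrec.nat_mul.comp (Primrec.const 2) hf) (Primrec.const 1))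

theorem tr2_code (θ : ℕ → Fm) (M : ℕ) : ∃ F : ℕ → ℕ, Primrec F ∧
    ∀ ψ : Fm2, F ψ.code = (tr2 θ M ψ).code := by
  have hl : Primrec fun m : ℕ => m.unpair.1 := Primrec.fst.comp Primrec.unpair
  have hr : Primrec fun m : ℕ => m.unpair.2 := Primrec.snd.comp Primrec.unpair
  have hrl : Primrec fun m : ℕ => m.unpair.2.unpair.1 := hl.comp hr
  have hrr : Primrec fun m : ℕ => m.unpair.2.unpair.2 := hr.comp hr
  have hid : Primrec fun m : ℕ => m := Primrec.id
  have h0 : Primrec fun m : ℕ => Nat.pair 0 (Nat.pair (M + 2 * m.unpair.1) (M + 2 * m.unpair.2)) :=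
    prim_pair (Primrec.const 0) (prim_pair (prim_aff M hl) (prim_aff M hr))
  have h1 : Primrec fun m : ℕ => plugc (θ 0).code (M + 2 * m) (M + 2 * m) (M + 2 * m) :=
    prim_plugc _ (prim_aff M hid) (prim_aff M hid) (prim_aff M hid)
  have h2 : Primrec fun m : ℕ => plugc (θ 1).code (M + 2 * m.unpair.1)
      (M + 2 * m.unpair.2.unpair.1) (M + 2 * m.unpair.2.unpair.2) :=
    prim_plugc _ (prim_aff M hl) (prim_aff M hrl) (prim_aff M hrr)
  have h3 : Primrec fun m : ℕ => plugc (θ 2).code (M + 2 * m.unpair.1)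
      (M + 2 * m.unpair.2.unpair.1) (M + 2 * m.unpair.2.unpair.2) :=
    prim_plugc _ (prim_aff M hl) (prim_aff M hrl) (prim_aff M hrr)
  have h4 : Primrec fun m : ℕ => plugc (θ 3).code (M + 2 * m.unpair.1)
      (M + (2 * m.unpair.2 + 1)) (M + (2 * m.unpair.2 + 1)) :=
    prim_plugc _ (prim_aff M hl) (prim_aff1 M hr) (prim_aff1 M hr)
  have hl' : Primrec fun m : ℕ => M + m.unpair.1 := Primrec.nat_add.comp (Primrec.const M) hl
  have h7 : Primrec fun m : ℕ => if m.unpair.1 % 2 = 0 then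
      Nat.pair 7 (Nat.pair (M + m.unpair.1) (Nat.pair 6 (Nat.pair
        (plugc (θ 4).code (M + m.unpair.1) (M + m.unpair.1) (M + m.unpair.1)) m.unpair.2)))
      else Nat.pair 7 (Nat.pair (M + m.unpair.1) m.unpair.2) := by
    refine Primrec.ite ?_ ?_ ?_
    · exact Primrec.eq.comp (Primrec.nat_mod.comp hl (Primrec.const 2)) (Primrec.const 0)
    · exact prim_pair (Primrec.const 7) (prim_pair hl' (prim_pair (Primrec.const 6)
        (prim_pair (prim_plugc _ hl' hl' hl') hr)))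
    · exact prim_pair (Primrec.const 7) (prim_pair hl' hr)
  obtain ⟨F, hF, e0, e1, e2, e3, e4, e5, e6, e7⟩ :=
    Pool.Agent.Y900.UF.t_REC _ _ _ _ _ _ h0 h1 h2 h3 h4 h7
  refine ⟨F, hF, fun ψ => ?_⟩
  induction ψ with
  | eq i j =>
    show F (Nat.pair 0 (Nat.pair i j)) = _
    rw [e0]
    simp only [Nat.unpair_pair]
    rfl
  | one i =>
    show F (Nat.pair 1 i) = _
    rw [e1]
    rfl
  | add i j k =>
    show F (Nat.pair 2 (Nat.pair i (Nat.pair j k))) = _
    rw [e2]
    simp only [Nat.unpair_pair]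
    rfl
  | mul i j k =>
    show F (Nat.pair 3 (Nat.pair i (Nat.pair j k))) = _
    rw [e3]
    simp only [Nat.unpair_pair]
    rfl
  | mem i j =>
    show F (Nat.pair 4 (Nat.pair i j)) = _
    rw [e4]
    simp only [Nat.unpair_pair]
    rfl
  | neg φ ih =>
    show F (Nat.pair 5 φ.code) = _
    rw [e5, ih]
    rfl
  | and φ ψ ih1 ih2 =>
    show F (Nat.pair 6 (Nat.pair φ.code ψ.code)) = _
    rw [e6, ih1, ih2]
    rfl
  | exN i φ ih =>
    show F (Nat.pair 7 (Nat.pair (2 * i) φ.code)) = _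
    rw [e7, ih]
    simp only [Nat.unpair_pair]
    rw [if_pos (by omega)]
    rfl
  | exS i φ ih =>
    show F (Nat.pair 7 (Nat.pair (2 * i + 1) φ.code)) = _
    rw [e7, ih]
    simp only [Nat.unpair_pair]
    rw [if_neg (by omega)]
    rfl

/-! ### free variables -/

theorem fv_below {V : ℕ} : ∀ {φ : Fm}, Below V φ → ∀ i ∈ φ.fv, i < V := by
  intro φ
  induction φ with
  | eq i j => intro h k hk; simp only [Fm.fv, Finset.mem_insert, Finset.mem_singleton] at hk
              rcases hk with rfl | rfl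
              · exact h.1
              · exact h.2
  | one i => intro h k hk; simp only [Fm.fv, Finset.mem_singleton] at hk; rw [hk]; exact h
  | add i j k =>
    intro h l hl
    simp only [Fm.fv, Finset.mem_insert, Finset.mem_singleton] at hl
    rcases hl with rfl | rfl | rfl
    · exact h.1
    · exact h.2.1
    · exact h.2.2
  | mul i j k =>
    intro h l hl
    simp only [Fm.fv, Finset.mem_insert, Finset.mem_singleton] at hl
    rcases hl with rfl | rfl | rfl
    · exact h.1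
    · exact h.2.1
    · exact h.2.2
  | val i => intro h k hk; simp only [Fm.fv, Finset.mem_singleton] at hk; rw [hk]; exact h
  | neg φ ih => intro h; exact ih h
  | and φ ψ ih1 ih2 =>
    intro h k hk
    simp only [Fm.fv, Finset.mem_union] at hk
    rcases hk with hk | hk
    · exact ih1 h.1 k hk
    · exact ih2 h.2 k hk
  | ex i φ ih =>
    intro h k hk
    simp only [Fm.fv, Finset.mem_erase] at hk
    exact ih h.2 k hk.2

theorem fv_plug {θ : Fm} {a b c V : ℕ} (hθ : Below V θ) {i : ℕ} (hi : i ∈ (plug θ a b c).fv) :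
    i < V ∨ i = a ∨ i = b ∨ i = c := by
  simp only [plug, Fm.fv, Finset.mem_erase, Finset.mem_union, Finset.mem_insert,
    Finset.mem_singleton] at hi
  rcases hi with ⟨h0, h1, h2, ((h3 | h3) | (h3 | h3) | (h3 | h3) | h3)⟩
  · exact absurd h3 h0
  · exact Or.inr (Or.inl h3)
  · exact absurd h3 h1
  · exact Or.inr (Or.inr (Or.inl h3))
  · exact absurd h3 h2
  · exact Or.inr (Or.inr (Or.inr h3))
  · exact Or.inl (fv_below hθ i h3)

theorem fv_tr2 {θ : ℕ → Fm} {M : ℕ} (hθ : ∀ i, i < 5 → Below M (θ i)) : ∀ (ψ : Fm2) (i : ℕ),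
    i ∈ (tr2 θ M ψ).fv → i < M ∨ (∃ j ∈ ψ.fvN, i = M + 2 * j) ∨
      ∃ j ∈ ψ.fvS, i = M + (2 * j + 1) := by
  intro ψ
  induction ψ with
  | eq i j =>
    intro l hl
    simp only [tr2, Fm.fv, Finset.mem_insert, Finset.mem_singleton] at hl
    rcases hl with rfl | rfl
    · exact Or.inr (Or.inl ⟨i, by simp [Fm2.fvN], rfl⟩)
    · exact Or.inr (Or.inl ⟨j, by simp [Fm2.fvN], rfl⟩)
  | one i =>
    intro l hl
    rcases fv_plug (hθ 0 (by norm_num)) hl with h | h | h | h
    · exact Or.inl h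
    all_goals exact Or.inr (Or.inl ⟨i, by simp [Fm2.fvN], h⟩)
  | add i j k =>
    intro l hl
    rcases fv_plug (hθ 1 (by norm_num)) hl with h | h | h | h
    · exact Or.inl h
    · exact Or.inr (Or.inl ⟨i, by simp [Fm2.fvN], h⟩)
    · exact Or.inr (Or.inl ⟨j, by simp [Fm2.fvN], h⟩)
    · exact Or.inr (Or.inl ⟨k, by simp [Fm2.fvN], h⟩)
  | mul i j k =>
    intro l hl
    rcases fv_plug (hθ 2 (by norm_num)) hl with h | h | h | h
    · exact Or.inl h
    · exact Or.inr (Or.inl ⟨i, by simp [Fm2.fvN], h⟩)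
    · exact Or.inr (Or.inl ⟨j, by simp [Fm2.fvN], h⟩)
    · exact Or.inr (Or.inl ⟨k, by simp [Fm2.fvN], h⟩)
  | mem i j =>
    intro l hl
    rcases fv_plug (hθ 3 (by norm_num)) hl with h | h | h | h
    · exact Or.inl h
    · exact Or.inr (Or.inl ⟨i, by simp [Fm2.fvN], h⟩)
    · exact Or.inr (Or.inr ⟨j, by simp [Fm2.fvS], h⟩)
    · exact Or.inr (Or.inr ⟨j, by simp [Fm2.fvS], h⟩)
  | neg φ ih => exact ih
  | and φ ψ ih1 ih2 =>
    intro l hl
    simp only [tr2, Fm.fv, Finset.mem_union] at hl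
    simp only [Fm2.fvN, Fm2.fvS, Finset.mem_union]
    rcases hl with hl | hl
    · rcases ih1 l hl with h | ⟨j, h1, h2⟩ | ⟨j, h1, h2⟩
      · exact Or.inl h
      · exact Or.inr (Or.inl ⟨j, Or.inl h1, h2⟩)
      · exact Or.inr (Or.inr ⟨j, Or.inl h1, h2⟩)
    · rcases ih2 l hl with h | ⟨j, h1, h2⟩ | ⟨j, h1, h2⟩
      · exact Or.inl h
      · exact Or.inr (Or.inl ⟨j, Or.inr h1, h2⟩)
      · exact Or.inr (Or.inr ⟨j, Or.inr h1, h2⟩)
  | exN i φ ih =>
    intro l hl
    simp only [tr2, Fm.fv, Finset.mem_erase, Finset.mem_union] at hl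
    simp only [Fm2.fvN, Fm2.fvS, Finset.mem_erase]
    obtain ⟨hl1, hl | hl⟩ := hl
    · rcases fv_plug (hθ 4 (by norm_num)) hl with h | h | h | h
      · exact Or.inl h
      all_goals exact absurd h hl1
    · rcases ih l hl with h | ⟨j, h1, h2⟩ | ⟨j, h1, h2⟩
      · exact Or.inl h
      · refine Or.inr (Or.inl ⟨j, ⟨?_, h1⟩, h2⟩)
        rintro rfl
        exact hl1 h2
      · exact Or.inr (Or.inr ⟨j, h1, h2⟩)
  | exS i φ ih =>
    intro l hl
    simp only [tr2, Fm.fv, Finset.mem_erase] at hl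
    simp only [Fm2.fvN, Fm2.fvS, Finset.mem_erase]
    obtain ⟨hl1, hl⟩ := hl
    rcases ih l hl with h | ⟨j, h1, h2⟩ | ⟨j, h1, h2⟩
    · exact Or.inl h
    · exact Or.inr (Or.inl ⟨j, h1, h2⟩)
    · refine Or.inr (Or.inr ⟨j, ⟨?_, h1⟩, h2⟩)
      rintro rfl
      exact hl1 h2

end Pool.Agent.H87F
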