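import Pool.Agent.H87F.DefT

/-! # Without uniform finiteness the set of the monomials is definable -/

set_option autoImplicit false

namespace Pool.Agent.H87F

open Function
open Pool.Agent.Y924.EL
open Pool.Agent.Y924.UF
open LaurentSeries

variable {p : ℕ} [hp : Fact p.Prime]

/-- the functional `x ↦ λ (z x ^ p)` -/
noncomputable def frl (z : (LaurentSeries (ZMod p))) : (LaurentSeries (ZMod p)) →ₗ[ZMod p] ZMod p :=
  AddMonoidHom.toZModLinearMap p ((lam p).comp ((AddMonoidHom.mulLeft z).comp
    ((frobenius (LaurentSeries (ZMod p)) p : (LaurentSeries (ZMod p)) →+* (LaurentSeries (ZMod p))) : (LaurentSeries (ZMod p)) →+ (LaurentSeries (ZMod p)))))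

theorem frl_apply (z x : (LaurentSeries (ZMod p))) : frl z x = lam p (z * x ^ p) := rfl

theorem exists_c0 (z : (LaurentSeries (ZMod p))) : ∃ b : (LaurentSeries (ZMod p)), ∀ x, lam p (z * x ^ p) = lam p (b * x) := by
  obtain ⟨N, hN⟩ := Pool.Agent.N606.FP.exists_low z
  obtain ⟨b, hb⟩ := Pool.Agent.N606.FP.repr_one (|N| + 1) (frl z) (by
    intro x hx
    rw [frl_apply]
    show (z * x ^ p).coeff 0 = 0
    refine Pool.Agent.N606.FP.coeff_mul_zero (N + 1) z (x ^ p)
      (fun k hk => hN k (by omega)) fun k hk => ?_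
    rw [Pool.Agent.Y15.UF.coeff_pow]
    split_ifs with h
    · refine hx _ ?_
      obtain ⟨m, rfl⟩ := h
      have hp0 : (p : ℤ) ≠ 0 := by exact_mod_cast hp.out.ne_zero
      have hp1 : (1 : ℤ) ≤ p := by exact_mod_cast hp.out.one_le
      rw [Int.mul_ediv_cancel_left _ hp0]
      have h1 := neg_abs_le N
      have h2 := abs_nonneg N
      by_contra h3
      have h4 : |N| + 1 ≤ m := not_lt.1 h3
      nlinarith
    · rfl)
  refine ⟨b, fun x => ?_⟩
  rw [← frl_apply, hb, mul_comm b x]
  rfl

/-- the `p`-th root of the component of `z` in the `p`-th powers -/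
noncomputable def c0p (z : (LaurentSeries (ZMod p))) : (LaurentSeries (ZMod p)) := (exists_c0 z).choose

theorem c0p_spec (z x : (LaurentSeries (ZMod p))) : lam p (z * x ^ p) = lam p (c0p z * x) := (exists_c0 z).choose_spec x

theorem c0p_eq {z b : (LaurentSeries (ZMod p))} (h : ∀ x, lam p (z * x ^ p) = lam p (b * x)) : c0p z = b := by
  refine eq_of_lam fun s => ?_
  rw [mul_comm s, mul_comm s, ← c0p_spec, h]

theorem lam_p1 (w : (LaurentSeries (ZMod p))) : lam p (tt p * w ^ p) = 0 := by
  have h := lam_term (p := p) 1 1 0 (by rw [pow_one]; exact hp.out.one_lt)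
    (by rw [pow_one]; exact hp.out.pos) w
  rw [if_neg one_ne_zero, pow_one, pow_one, pow_zero, div_one] at h
  exact h

theorem lam_p2 (w : (LaurentSeries (ZMod p))) : lam p (w ^ p / tt p) = 0 := by
  have h := lam_term (p := p) 1 0 1 (by rw [pow_one]; exact hp.out.pos)
    (by rw [pow_one]; exact hp.out.one_lt) w
  rw [if_neg zero_ne_one, pow_one, pow_one, pow_zero, one_div] at h
  rw [div_eq_mul_inv, mul_comm]
  exact h

theorem lam_p3 (w : (LaurentSeries (ZMod p))) : lam p (w ^ p) = lam p w := by
  have h := lam_term (p := p) 1 0 0 (by rw [pow_one]; exact hp.out.pos)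
    (by rw [pow_one]; exact hp.out.pos) w
  rw [if_pos rfl, pow_one, pow_zero, div_one, one_mul] at h
  exact h

theorem c0p_code (y z : (LaurentSeries (ZMod p))) : c0p (y ^ p + tt p * z ^ p) = y := by
  refine c0p_eq fun x => ?_
  have e : (y ^ p + tt p * z ^ p) * x ^ p = (y * x) ^ p + tt p * (z * x) ^ p := by
    rw [mul_pow, mul_pow]
    ring
  rw [e, map_add, lam_p1, add_zero, lam_p3]

theorem c0p_code' (y z : (LaurentSeries (ZMod p))) : c0p ((y ^ p + tt p * z ^ p) / tt p) = z := by
  refine c0p_eq fun x => ?_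
  have e : (y ^ p + tt p * z ^ p) / tt p * x ^ p = (y * x) ^ p / tt p + (z * x) ^ p := by
    have := tt_ne (p := p)
    rw [mul_pow, mul_pow]
    field_simp
  rw [e, map_add, lam_p2, zero_add, lam_p3]

/-- the components of a code -/
noncomputable def dec (z : (LaurentSeries (ZMod p))) (n : ℕ) : (LaurentSeries (ZMod p)) := c0p ((fun w => c0p (w / tt p))^[n] z)

theorem dec_surj (n : ℕ) : ∀ y : ℕ → (LaurentSeries (ZMod p)), ∃ z : (LaurentSeries (ZMod p)), ∀ i < n, dec z i = y i := by
  induction n with
  | zero => exact fun y => ⟨0, fun i hi => absurd hi (Nat.not_lt_zero i)⟩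
  | succ n ih =>
    intro y
    obtain ⟨z, hz⟩ := ih fun i => y (i + 1)
    refine ⟨y 0 ^ p + tt p * z ^ p, fun i hi => ?_⟩
    cases i with
    | zero => exact c0p_code _ _
    | succ i =>
      have h := hz i (by omega)
      rw [← h]
      unfold dec
      rw [iterate_succ_apply, c0p_code']

variable {P : Set (LaurentSeries (ZMod p))} {Γ : Type} [Ctx (LaurentSeries (ZMod p)) Γ]

theorem Ff.c0p {f : Γ → LaurentSeries (ZMod p)} (hf : Ff P f) : Ff P fun γ => c0p (f γ) := by
  have h : Df P fun q : Γ × (LaurentSeries (ZMod p)) => ∀ x, lam p (f q.1 * x ^ p - q.2 * x) = 0 := by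
    refine Df.all (X := fun (q : Γ × (LaurentSeries (ZMod p))) x => lam p (f q.1 * x ^ p - q.2 * x) = 0) ?_
    exact Df.lam0 ((hf.wk.wk.mul (by repeat' first | exact Ff.var 0 | exact Ff.var 1 | exact Ff.var 2 | exact Ff.var 3 | exact Ff.var 4 | exact Ff.var 5 | exact Ff.var 6 | exact Ff.var 7 | exact Ff.var 8 | exact Ff.var 9 | exact Ff.var 10 | exact Ff.const _ | with_reducible apply Ff.mul | with_reducible apply Ff.div | with_reducible apply Ff.sub | with_reducible apply Ff.add | with_reducible apply Ff.pow | with_reducible apply Ff.neg | with_reducible apply Ff.inv)).sub (by repeat' first | exact Ff.var 0 | exact Ff.var 1 | exact Ff.var 2 | exact Ff.var 3 | exact Ff.var 4 | exact Ff.var 5 | exact Ff.var 6 | exact Ff.var 7 | exact Ff.var 8 | exact Ff.var 9 | exact Ff.var 10 | exact Ff.const _ | with_reducible apply Ff.mul | with_reducible apply Ff.div | with_reducible apply Ff.sub | with_reducible apply Ff.add | with_reducible apply Ff.pow | with_reducible apply Ff.neg | with_reducible apply Ff.inv))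
  refine h.congr fun q => ?_
  constructor
  · intro h1 x
    rw [map_sub, ← h1, c0p_spec, sub_self]
  · intro h1
    refine c0p_eq fun x => ?_
    have := h1 x
    rwa [map_sub, sub_eq_zero] at this

theorem Ff.dec {f : Γ → LaurentSeries (ZMod p)} (hf : Ff P f) (n : ℕ) :
    Ff P fun γ => dec (f γ) n := by
  have h : ∀ n, Ff P fun γ => (fun w : (LaurentSeries (ZMod p)) => H87F.c0p (w / tt p))^[n] (f γ) := by
    intro n
    induction n with
    | zero => exact hf
    | succ n ih =>
      have h1 : Ff P fun γ => H87F.c0p ((fun w : (LaurentSeries (ZMod p)) => H87F.c0p (w / tt p))^[n] (f γ) / tt p) :=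
        Ff.c0p (ih.div (Ff.const _))
      refine h1.congr fun q => ?_
      beta_reduce
      rw [iterate_succ_apply']
  exact Ff.c0p (h n)

/-- the monomials are definable -/
theorem wild_T (φ : Fm)
    (hφ : ∀ N : ℕ, ∃ v : ℕ → (LaurentSeries (ZMod p)), {x | Sat P φ (update v 0 x)}.Finite ∧
      N < {x | Sat P φ (update v 0 x)}.ncard) :
    Df1 P fun y => ∃ k : ℕ, y = tt p ^ k := by
  obtain ⟨S, hSd⟩ : ∃ S : Fam p, S = fun z => {x | Sat P φ (update (H87F.dec z) 0 x)} := ⟨_, rfl⟩
  have hS : Df2 P fun z x => x ∈ S z := by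
    have h := Df.sat (P := P) φ (Γ := (Unit × (LaurentSeries (ZMod p))) × (LaurentSeries (ZMod p)))
      (fun i q => if i = 0 then q.2 else H87F.dec q.1.2 i) (fun i => by
        by_cases hi : i = 0
        · simp only [hi, if_true]
          exact Ff.var 0
        · simp only [hi, if_false]
          exact Ff.dec (Ff.var 1) i)
    refine h.congr fun q => ?_
    rw [hSd]
    show Sat P φ _ ↔ _
    have e : update (H87F.dec q.1.2) 0 q.2 = fun i => if i = 0 then q.2 else H87F.dec q.1.2 i := by
      funext i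
      by_cases hi : i = 0
      · subst hi; simp
      · simp [hi]
    rw [e]
  have hunb : ∀ N : ℕ, ∃ z, (S z).Finite ∧ N < (S z).ncard := by
    intro N
    obtain ⟨v, hv, hN⟩ := hφ N
    obtain ⟨V, hV⟩ := below_all φ
    obtain ⟨z, hz⟩ := dec_surj V v
    have e : S z = {x | Sat P φ (update v 0 x)} := by
      rw [hSd]
      ext x
      refine sat_agree P φ hV _ _ fun i hi => ?_
      by_cases hi0 : i = 0
      · subst hi0; simp
      · rw [update_of_ne hi0, update_of_ne hi0, hz i hi]
    exact ⟨z, by rw [e]; exact hv, by rw [e]; exact hN⟩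
  refine (df_tt hS).congr fun q => ?_
  exact (tt_iff hunb _).symm

end Pool.Agent.H87F
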