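import Pool.Agent.H87F.Calc
import Pool.Agent.Y151.UF.Exr

/-! # Definability without parameters -/

set_option autoImplicit false

namespace Pool.Agent.H87F

open Function
open Pool.Agent.Y924.EL
open Pool.Agent.Y924.UF

/-- one more assignment -/
instance ctxTwo (K Γ : Type) [Ctx K Γ] : Ctx K (Γ × (ℕ → K)) := ⟨fun q => mix (Ctx.val q.1) q.2⟩

section

variable {K : Type} [Field K] (P : Set K) {Γ : Type} [Ctx K Γ]

/-- definable without parameters -/
def D0 (X : Γ → Prop) : Prop := ∃ φ : Fm, ∀ γ, X γ ↔ Sat P φ (Ctx.val γ)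

variable {P}

theorem D0.congr {X Y : Γ → Prop} (hX : D0 P X) (h : ∀ γ, Y γ ↔ X γ) : D0 P Y := by
  obtain ⟨φ, hφ⟩ := hX
  exact ⟨φ, fun γ => (h γ).trans (hφ γ)⟩

theorem D0.not {X : Γ → Prop} (hX : D0 P X) : D0 P fun γ => ¬ X γ := by
  obtain ⟨φ, hφ⟩ := hX
  exact ⟨.neg φ, fun γ => not_congr (hφ γ)⟩

theorem D0.and {X Y : Γ → Prop} (hX : D0 P X) (hY : D0 P Y) : D0 P fun γ => X γ ∧ Y γ := by
  obtain ⟨φ, hφ⟩ := hX
  obtain ⟨ψ, hψ⟩ := hY
  exact ⟨.and φ ψ, fun γ => and_congr (hφ γ) (hψ γ)⟩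

theorem D0.imp {X Y : Γ → Prop} (hX : D0 P X) (hY : D0 P Y) : D0 P fun γ => X γ → Y γ :=
  ((hX.and hY.not).not).congr fun γ => by tauto

theorem D0.iff {X Y : Γ → Prop} (hX : D0 P X) (hY : D0 P Y) : D0 P fun γ => (X γ ↔ Y γ) :=
  ((hX.imp hY).and (hY.imp hX)).congr fun γ => by tauto

theorem D0.ex {X : Γ → K → Prop} (hX : D0 P fun q : Γ × K => X q.1 q.2) :
    D0 P fun γ => ∃ a, X γ a := by
  obtain ⟨φ, hφ⟩ := hX
  obtain ⟨V, hV⟩ := below_all φ
  obtain ⟨σ, hσ⟩ : ∃ σ : ℕ → ℕ, σ = fun m => if m = 0 then V else if m ≤ V then m - 1 else m :=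
    ⟨_, rfl⟩
  have h1 : Injective σ := by
    intro i j h
    rw [hσ] at h
    simp only at h
    split_ifs at h <;> omega
  refine ⟨.ex V (ren σ φ), fun γ => ?_⟩
  show _ ↔ ∃ a, Sat P (ren σ φ) (update (Ctx.val γ) V a)
  refine exists_congr fun a => ?_
  have h2 := hφ (γ, a)
  simp only at h2
  rw [h2, Pool.Agent.Y410.UF.sat_ren P h1]
  refine sat_agree P φ hV _ _ fun i hi => ?_
  rw [hσ]
  simp only [comp_apply]
  by_cases h4 : i = 0
  · subst h4
    rw [if_pos rfl, update_self]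
    rfl
  · rw [if_neg h4, if_pos (by omega), update_of_ne (by omega)]
    obtain ⟨m, rfl⟩ : ∃ m, i = m + 1 := ⟨i - 1, by omega⟩
    rw [Nat.add_sub_cancel]
    rfl

theorem D0.all {X : Γ → K → Prop} (hX : D0 P fun q : Γ × K => X q.1 q.2) :
    D0 P fun γ => ∀ a, X γ a :=
  (D0.ex (X := fun γ a => ¬ X γ a) hX.not).not.congr fun γ => by push Not; exact Iff.rfl

theorem D0.veq (i j : ℕ) : D0 P fun γ : Γ => (Ctx.val γ i : K) = Ctx.val γ j :=
  ⟨.eq i j, fun γ => Iff.rfl⟩

/-- substitution of variables in a formula -/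
theorem D0.sat (φ : Fm) : ∀ {Γ : Type} [Ctx K Γ] (s : ℕ → ℕ),
    D0 P fun γ : Γ => Sat P φ (fun i => (Ctx.val γ (s i) : K)) := by
  induction φ with
  | eq i j => intro Γ _ s; exact ⟨.eq (s i) (s j), fun γ => Iff.rfl⟩
  | one i => intro Γ _ s; exact ⟨.one (s i), fun γ => Iff.rfl⟩
  | add i j k => intro Γ _ s; exact ⟨.add (s i) (s j) (s k), fun γ => Iff.rfl⟩
  | mul i j k => intro Γ _ s; exact ⟨.mul (s i) (s j) (s k), fun γ => Iff.rfl⟩
  | val i => intro Γ _ s; exact ⟨.val (s i), fun γ => Iff.rfl⟩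
  | neg φ ih => intro Γ _ s; exact (ih s).not
  | and φ ψ ih1 ih2 => intro Γ _ s; exact (ih1 s).and (ih2 s)
  | ex i φ ih =>
    intro Γ _ s
    refine D0.ex (X := fun (γ : Γ) (a : K) =>
      Sat P φ (update (fun i => (Ctx.val γ (s i) : K)) i a)) ?_
    refine (ih (Γ := Γ × K) (fun j => if j = i then 0 else s j + 1)).congr fun q => ?_
    have e : (update (fun i => (Ctx.val q.1 (s i) : K)) i q.2) =
        fun j => (Ctx.val q (if j = i then 0 else s j + 1) : K) := by
      funext j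
      by_cases hj : j = i
      · subst hj
        simp only [update_self, if_true]
        rfl
      · rw [update_of_ne hj, if_neg hj]
        rfl
    rw [e]

/-- quantification over assignments -/
theorem D0.exw {X : Γ → (ℕ → K) → Prop}
    (hX : D0 P fun q : Γ × (ℕ → K) => X q.1 q.2) :
    D0 P fun γ : Γ => ∃ w, X γ w := by
  obtain ⟨φ, hφ⟩ := hX
  obtain ⟨V, hV⟩ := below_all φ
  obtain ⟨σ, hσ⟩ : ∃ σ : ℕ → ℕ, σ = fun n => if n < 2 * V then
    (if n % 2 = 0 then n / 2 else V + n / 2) else n := ⟨_, rfl⟩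
  have h1 : Injective σ := by
    intro i j h
    rw [hσ] at h
    simp only at h
    split_ifs at h <;> omega
  refine ⟨exR V V (ren σ φ), fun γ => ?_⟩
  rw [Pool.Agent.Y151.UF.t_EXR K P V V (ren σ φ) (Ctx.val γ)]
  constructor
  · rintro ⟨w, hw⟩
    refine ⟨fun j => if j < V then Ctx.val γ j else if j < 2 * V then w (j - V) else Ctx.val γ j,
      ?_, ?_⟩
    · intro j hj
      beta_reduce
      by_cases h2 : j < V
      · rw [if_pos h2]
      · rw [if_neg h2, if_neg (by omega)]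
    · rw [Pool.Agent.Y410.UF.sat_ren P h1]
      have h3 := (hφ (γ, w)).1 hw
      refine (sat_agree P φ hV _ _ fun i hi => ?_).1 h3
      show mix (Ctx.val γ) w i = _
      rw [hσ]
      simp only [comp_apply, if_pos (show i < 2 * V by omega)]
      by_cases hp : i % 2 = 0
      · simp only [mix, hp, if_true, if_pos (show i / 2 < V by omega)]
      · have h4 : ¬ (V + i / 2 < V) := by omega
        simp only [mix, hp, if_false, if_neg h4, if_pos (show V + i / 2 < 2 * V by omega),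
          Nat.add_sub_cancel_left]
  · rintro ⟨u, hu, hs⟩
    rw [Pool.Agent.Y410.UF.sat_ren P h1] at hs
    refine ⟨fun j => u (V + j), (hφ (γ, fun j => u (V + j))).2 ?_⟩
    refine (sat_agree P φ hV _ _ fun i hi => ?_).1 hs
    show _ = mix (Ctx.val γ) (fun j => u (V + j)) i
    rw [hσ]
    simp only [comp_apply, if_pos (show i < 2 * V by omega)]
    by_cases hp : i % 2 = 0
    · simp only [mix, hp, if_true]
      rw [hu (i / 2) (Or.inl (by omega))]
    · simp only [mix, hp, if_false]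

theorem D0.allw {X : Γ → (ℕ → K) → Prop}
    (hX : D0 P fun q : Γ × (ℕ → K) => X q.1 q.2) :
    D0 P fun γ : Γ => ∀ w, X γ w :=
  (D0.exw (X := fun v w => ¬ X v w) hX.not).not.congr fun γ => by push Not; exact Iff.rfl

end

end Pool.Agent.H87F
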